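import Pool.Agent.Lib.MP_de4dbb_al.Elem

/-! Invariants of a stage and their first consequences. -/

namespace Pool.Agent.Lib.OCn

variable {G X : Type} [Group G] [MulAction G X]

/-- All invariants of a stage except acylindricity. -/
structure Pre (S : GSp G X) (δ M n N : ℕ) : Prop where
  ne : Nonempty X
  hyp : S.Hyp δ
  lf : ∀ x, {y | S.d x y ≤ 1}.Finite
  stab : ∀ x : X, {g : G | g • x = x}.Finite
  inj : ∀ g : G, ¬ IsOfFinOrder g → 1 ≤ (M : ℝ) * S.tau g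
  fix : ∀ H : Subgroup G, (H : Set G).Finite → ∃ x : X, ∀ h ∈ H, h • x = x
  alg : Alg G n N
  even : 2 ∣ N
  npos : 0 < N

/-- A set contained in an elementary subgroup. -/
def Elem (U : Set G) : Prop :=
  (∃ H : Subgroup G, (H : Set G).Finite ∧ U ⊆ H) ∨ ∃ g : G, ¬ IsOfFinOrder g ∧ U ⊆ Ec g

theorem Elem.mono {U V : Set G} (h : Elem V) (hUV : U ⊆ V) : Elem U := by
  rcases h with ⟨H, h1, h2⟩ | ⟨g, h1, h2⟩
  · exact Or.inl ⟨H, h1, hUV.trans h2⟩
  · exact Or.inr ⟨g, h1, hUV.trans h2⟩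

/-- Elements moving two points by at most `D`. -/
def GSp.U (S : GSp G X) (D : ℕ) (x y : X) : Set G := {g | S.d x (g • x) ≤ D ∧ S.d y (g • y) ≤ D}

/-- Acylindricity. -/
def GSp.Acyl (S : GSp G X) (D A : ℕ) : Prop := ∀ x y, A ≤ S.d x y → Elem (S.U D x y)

namespace Pre

variable {S : GSp G X} {δ M n N : ℕ} (hP : Pre S δ M n N)
include hP

theorem tau_pos {g : G} (hg : ¬ IsOfFinOrder g) : 0 < S.tau g := by
  have h1 := hP.inj g hg
  rcases (S.tau_nonneg g).lt_or_eq with h | h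
  · exact h
  · rw [← h] at h1; linarith

theorem proper (x : X) (D : ℕ) : {g : G | S.d x (g • x) ≤ D}.Finite := S.proper hP.lf hP.stab x D

theorem cover {g : G} (hg : ¬ IsOfFinOrder g) :
    ∃ T : Set G, T.Finite ∧ ∀ h ∈ Ec g, ∃ j : ℤ, (g ^ j)⁻¹ * h ∈ T := by
  have := hP.ne
  obtain ⟨p, hp⟩ := S.exists_axis hP.hyp g (hP.tau_pos hg)
  obtain ⟨T, hT⟩ := exists_nat_ge (S.tau g)
  refine ⟨_, hP.proper p (T + 3 * (69 * δ + 30) + 3 * δ), ?_⟩
  rintro h ⟨m, hm, H⟩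
  have hp' : ∀ j : ℕ, (S.d p (g ^ j • p) : ℝ) ≤ j * S.tau g + (69 * δ + 30 : ℕ) := by
    intro j; push_cast; exact hp j
  obtain ⟨j, hj⟩ := S.close hP.hyp g (hP.tau_pos hg) p (h • p) (69 * δ + 30) T hT hp' m hm
    (fun i => by
      have H2 := pm_inv (pm_pow H i)
      rw [← pow_mul, inv_inv] at H2
      have e : S.d (h • p) (g ^ (m * i) • h • p) = S.d p ((h⁻¹ * g ^ (m * i) * h) • p) := by
        rw [mul_smul, mul_smul, S.iso_inv']
      rw [e]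
      rcases H2 with H2 | H2 <;> rw [H2]
      · exact hp' _
      · rw [S.disp_inv]; exact hp' _)
  refine ⟨j, ?_⟩
  simp only [Set.mem_ofPred_eq]
  rwa [mul_smul, S.iso_inv', S.d_comm]

theorem lox {g : G} (hg : ¬ IsOfFinOrder g) : Nonempty (Lox (Ec g)) := by
  obtain ⟨T, h1, h2⟩ := hP.cover hg
  exact exists_lox_of_index g hg T h1 h2

theorem mem_Ec_of_zpow {g h : G} (hg : ¬ IsOfFinOrder g) {a b : ℤ} (ha : a ≠ 0)
    (H : h * g ^ a * h⁻¹ = g ^ b) : h ∈ Ec g := by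
  have := hP.ne
  have h1 := S.tau_conj (g ^ a) h
  rw [H, S.tau_zpow, S.tau_zpow] at h1
  have h2 := mul_right_cancel₀ (hP.tau_pos hg).ne' h1
  have h3 : |b| = |a| := by exact_mod_cast h2
  rw [← Ec_zpow g ha]
  refine ⟨1, one_pos, ?_⟩
  simp only [pow_one]
  rcases abs_eq_abs.1 h3 with h4 | h4
  · left; rw [H, h4]
  · right; rw [H, h4, zpow_neg]

theorem common_pow {g y : G} (hg : ¬ IsOfFinOrder g) (hy : ¬ IsOfFinOrder y) (h : y ∈ Ec g) :
    ∃ a b : ℤ, a ≠ 0 ∧ b ≠ 0 ∧ y ^ a = g ^ b := by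
  obtain ⟨L⟩ := hP.lox hg
  have hs := L.sep hP.alg
  have key : ∀ e ∈ Ec g, ¬ IsOfFinOrder e → e ∈ L.P ∧ (L.ψ e).a ≠ 0 := by
    intro e he hf
    rw [L.fin_iff he, not_or] at hf
    have h1 : (L.ψ e).s = false := by simpa using hf.2
    exact ⟨⟨he, h1⟩, fun h0 => hf.1 (by ext <;> simp [h0, h1])⟩
  obtain ⟨a1, a2⟩ := key y h hy
  obtain ⟨b1, b2⟩ := key g (self_mem_Ec g) hg
  have hN : (N : ℤ) ≠ 0 := by have := hP.npos; omega
  refine ⟨N * (L.ψ g).a, N * (L.ψ y).a, mul_ne_zero hN b2, mul_ne_zero hN a2, ?_⟩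
  rw [zpow_mul, zpow_mul, zpow_natCast, zpow_natCast, hs.pow_rot hP.even a1, hs.pow_rot hP.even b1,
    ← zpow_mul, ← zpow_mul, mul_comm]

theorem Ec_eq {g y : G} (hg : ¬ IsOfFinOrder g) (hy : ¬ IsOfFinOrder y) (h : y ∈ Ec g) :
    Ec y = Ec g := by
  obtain ⟨a, b, ha, hb, H⟩ := hP.common_pow hg hy h
  rw [← Ec_zpow y ha, H, Ec_zpow g hb]

theorem mem_Ec_of_conj {g h y : G} (hg : ¬ IsOfFinOrder g) (h1 : y ∈ Ec g) (hy : ¬ IsOfFinOrder y)
    (h2 : h * y * h⁻¹ ∈ Ec g) : h ∈ Ec g := by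
  rw [← hP.Ec_eq hg hy h1] at h2 ⊢
  obtain ⟨a, b, ha, hb, H⟩ := hP.common_pow hy (fun hf => hy (finOrder_conj.1 hf)) h2
  rw [conj_zpow] at H
  exact hP.mem_Ec_of_zpow hy ha H

theorem law_of_Ec {y g : G} (hy : ¬ IsOfFinOrder y) {c : ℕ → G} (hc : Chain6 g c)
    (h : ∀ j, j ≤ 6 → c j ∈ Ec y) : Law c := by
  obtain ⟨L⟩ := hP.lox hy
  exact (L.sep hP.alg).chain hP.alg (fun _ _ h1 h2 h3 => hP.mem_Ec_of_conj hy h1 h2 h3) hc h

theorem chainE {g u : G} (hg : ¬ IsOfFinOrder g) {U : Set G} (hU : Elem U)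
    (h : ∀ j : ℕ, j ≤ 6 → g ^ j * u * (g ^ j)⁻¹ ∈ U) : u ∈ Ec g := by
  have hc : Chain6 g (fun j => g ^ j * u * (g ^ j)⁻¹) := fun j _ => by group
  have hl : Law (fun j => g ^ j * u * (g ^ j)⁻¹) := by
    rcases hU with ⟨H, h1, h2⟩ | ⟨y, h1, h2⟩
    · exact hP.alg.sa g _ H hc h1 fun j hj => h2 (h j hj)
    · exact hP.law_of_Ec h1 hc fun j hj => h2 (h j hj)
  have hl2 : g ^ 4 * u * (g ^ 4)⁻¹ = (g ^ 2 * u * (g ^ 2)⁻¹) * u⁻¹ * (g ^ 2 * u * (g ^ 2)⁻¹) := by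
    simp only [Law] at hl
    calc _ = g⁻¹ * (g ^ 5 * u * (g ^ 5)⁻¹) * g := by group
      _ = _ := by rw [hl]; group
  set a := u⁻¹ * (g ^ 2 * u * (g ^ 2)⁻¹) with ha
  have h1 : g ^ 2 * a * (g ^ 2)⁻¹ = a := by
    calc _ = (g ^ 2 * u * (g ^ 2)⁻¹)⁻¹ * (g ^ 4 * u * (g ^ 4)⁻¹) := by rw [ha]; group
      _ = a := by rw [hl2, ha]; group
  have h2 : ∀ k : ℕ, (g ^ 2) ^ k * u * ((g ^ 2) ^ k)⁻¹ = u * a ^ k := by
    intro k
    induction k with
    | zero => simp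
    | succ k ih =>
      calc _ = g ^ 2 * ((g ^ 2) ^ k * u * ((g ^ 2) ^ k)⁻¹) * (g ^ 2)⁻¹ := by group
        _ = (g ^ 2 * u * (g ^ 2)⁻¹) * (g ^ 2 * a * (g ^ 2)⁻¹) ^ k := by rw [ih, conj_pow]; group
        _ = u * a ^ (k + 1) := by rw [h1, pow_succ' a k, ← mul_assoc]; congr 1; rw [ha]; group
  by_cases hf : IsOfFinOrder a
  · obtain ⟨m, hm, h3⟩ := isOfFinOrder_iff_pow_eq_one.1 hf
    have h4 := h2 m
    rw [h3, mul_one, ← pow_mul] at h4
    refine ⟨2 * m, by omega, Or.inl ?_⟩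
    calc _ = (g ^ (2 * m) * u * (g ^ (2 * m))⁻¹) * g ^ (2 * m) * u⁻¹ := by rw [h4]
      _ = _ := by group
  · rcases hU with ⟨H, h3, h4⟩ | ⟨y, h3, h4⟩
    · exact absurd (finOrder_of_mem h3 (H.mul_mem (H.inv_mem (by simpa using h4 (h 0 (by omega))))
        (h4 (h 2 (by omega))))) hf
    · have hu : u ∈ Ec y := by simpa using h4 (h 0 (by omega))
      have hay : a ∈ Ec y := (Ec y).mul_mem ((Ec y).inv_mem hu) (h4 (h 2 (by omega)))
      have hg2 : g ^ 2 ∈ Ec a := ⟨1, one_pos, Or.inl (by simpa using h1)⟩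
      rw [← Ec_pow g (show 0 < 2 by omega),
        hP.Ec_eq hf (fun h5 => hg (h5.of_pow (by omega))) hg2, hP.Ec_eq h3 hf hay]
      exact hu

theorem mem_Ec_of_comm {g h : G} (hg : ¬ IsOfFinOrder g) {U : Set G} (hU : Elem U)
    (H : ∀ j : ℕ, j ≤ 6 → g ^ j * (g⁻¹ * h * g * h⁻¹) * (g ^ j)⁻¹ ∈ U) : h ∈ Ec g := by
  have h1 := hP.chainE hg hU H
  refine hP.mem_Ec_of_conj hg (self_mem_Ec g) hg ?_
  have := (Ec g).mul_mem (self_mem_Ec g) h1
  rwa [show g * (g⁻¹ * h * g * h⁻¹) = h * g * h⁻¹ by group] at this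

end Pre

/-- Approximate shift along a geodesic. -/
def GSp.Sh (S : GSp G X) (γ : ℤ → X) (D δ : ℤ) (a : ℤ) (e : ℕ) (g : G) (σ : ℤ) : Prop :=
  -a ≤ σ ∧ σ ≤ a ∧ ∀ t : ℤ, a + δ < t → t + a + δ < D → S.d (g • γ t) (γ (t + σ)) ≤ e

namespace GSp.Sh

variable {S : GSp G X} {γ : ℤ → X} {D δ a a' : ℤ} {e e' : ℕ} {g h : G} {σ σ' : ℤ}

theorem mul (h1 : S.Sh γ D δ a e g σ) (h2 : S.Sh γ D δ a' e' h σ') :
    S.Sh γ D δ (a + a') (e + e') (g * h) (σ + σ') := by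
  obtain ⟨a1, a2, a3⟩ := h1
  obtain ⟨b1, b2, b3⟩ := h2
  refine ⟨by omega, by omega, fun t h1 h2 => ?_⟩
  have c1 := b3 t (by omega) (by omega)
  have c2 := a3 (t + σ') (by omega) (by omega)
  have c3 := S.d_tri (g • h • γ t) (g • γ (t + σ')) (γ (t + σ' + σ))
  rw [S.iso] at c3
  rw [mul_smul, show t + (σ + σ') = t + σ' + σ by ring]
  omega

theorem inv (h1 : S.Sh γ D δ a e g σ) : S.Sh γ D δ (2 * a) e g⁻¹ (-σ) := by
  obtain ⟨a1, a2, a3⟩ := h1
  refine ⟨by omega, by omega, fun t h1 h2 => ?_⟩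
  have c1 := a3 (t + -σ) (by omega) (by omega)
  rw [show t + -σ + σ = t by ring] at c1
  rwa [S.iso_inv, S.d_comm]

theorem mono (h1 : S.Sh γ D δ a e g σ) (ha : a ≤ a') (he : e ≤ e') : S.Sh γ D δ a' e' g σ := by
  obtain ⟨a1, a2, a3⟩ := h1
  exact ⟨by omega, by omega, fun t h1 h2 => (a3 t (by omega) (by omega)).trans he⟩

theorem pow (h1 : S.Sh γ D δ a e g σ) (k : ℕ) : S.Sh γ D δ (k * a) (k * e) (g ^ k) (k * σ) := by
  induction k with
  | zero => exact ⟨by simp, by simp, fun t _ _ => by simp [S.d_self]⟩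
  | succ k ih =>
    have := ih.mul h1
    rw [pow_succ]; push_cast
    rwa [add_mul, add_mul, add_mul, one_mul, one_mul, one_mul]

end GSp.Sh

theorem GSp.shift (S : GSp G X) {δ : ℕ} (hδ : S.Hyp δ) (x y : X) (γ : ℤ → X) (h0 : γ 0 = x)
    (hD : γ (S.d x y) = y)
    (hγ : ∀ i j : ℤ, 0 ≤ i → i ≤ j → j ≤ S.d x y → (S.d (γ i) (γ j) : ℤ) = j - i)
    {d : ℕ} {g : G} (hg : g ∈ S.U d x y) :
    S.Sh γ (S.d x y) δ d (4 * δ) g (S.d x y - S.d (g • x) y) := by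
  obtain ⟨g1, g2⟩ := hg
  have t1 := S.d_tri x (g • x) y
  have t2 := S.d_tri (g • x) x y
  have := S.d_comm x (g • x)
  refine ⟨by omega, by omega, fun t h1 h2 => ?_⟩
  have a1 := hγ 0 t le_rfl (by omega) (by omega)
  have a2 := hγ t _ (by omega) (by omega) le_rfl
  have a3 := hγ 0 (t + (S.d x y - S.d (g • x) y)) le_rfl (by omega) (by omega)
  have a4 := hγ (t + (S.d x y - S.d (g • x) y)) _ (by omega) (by omega) le_rfl
  rw [h0] at a1 a3
  rw [hD] at a2 a4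
  generalize γ (t + (S.d x y - S.d (g • x) y)) = m at a3 a4 ⊢
  have b1 := S.iso g x (γ t)
  have b2 := S.iso g (γ t) y
  have b3 := S.iso g x y
  generalize g • γ t = q at b1 b2 ⊢
  have c1 := hδ q (g • x) y (g • y)
  have c2 := hδ q (g • x) x y
  have c3 := hδ y q x m
  have := S.d_tri q y (g • y)
  have := S.d_tri q x (g • x)
  have := S.d_tri (g • x) q y
  have := S.d_comm q (g • x)
  have := S.d_comm q x
  have := S.d_comm q y
  have := S.d_comm m y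
  have := S.d_comm x y
  omega

theorem GeoMet.exists_zpath (M : GeoMet X) (x y : X) : ∃ γ : ℤ → X, γ 0 = x ∧ γ (M.d x y) = y ∧
    ∀ i j : ℤ, 0 ≤ i → i ≤ j → j ≤ M.d x y → (M.d (γ i) (γ j) : ℤ) = j - i := by
  obtain ⟨γ, h0, hn, hγ⟩ := M.exists_path _ x y rfl
  refine ⟨fun i => γ i.toNat, by simpa using h0, by simpa using hn, fun i j h1 h2 h3 => ?_⟩
  rw [hγ _ _ (by omega) (by omega)]; omega

/-- Acylindricity for large displacements from acylindricity for small ones. -/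
theorem Pre.overlap {S : GSp G X} {δ M n N : ℕ} (hP : Pre S δ M n N) {ε : ℕ} (hε : S.Hyp ε)
    {A : ℕ} (hA : S.Acyl (64 * ε) A) (d : ℕ) : S.Acyl d (A + 48 * d + 2 * ε + 2) := by
  intro x y hxy
  obtain ⟨γ, h0, hD, hγ⟩ := S.exists_zpath x y
  have hsh := fun g hg => S.shift hε x y γ h0 hD hγ (d := d) (g := g) hg
  have hE := hA (γ (24 * d + ε + 1)) (γ (S.d x y - (24 * d + ε + 1))) (by
    have := hγ (24 * d + ε + 1) (S.d x y - (24 * d + ε + 1)) (by omega) (by omega) (by omega)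
    omega)
  by_cases hex : ∃ g ∈ S.U d x y, ¬ IsOfFinOrder g
  · obtain ⟨g, hg, hgf⟩ := hex
    refine Or.inr ⟨g, hgf, fun h hh => hP.mem_Ec_of_comm hgf hE fun j hj => ?_⟩
    have s1 := hsh g hg
    have s2 := hsh h hh
    have s3 := (((s1.pow j).mul (((s1.inv.mul s2).mul s1).mul s2.inv)).mul (s1.pow j).inv).mono
      (a' := 24 * d) (e' := 64 * ε) (by
        have : (j : ℤ) * d ≤ 6 * d := by
          apply mul_le_mul_of_nonneg_right <;> omega
        omega) (by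
        have : j * (4 * ε) ≤ 6 * (4 * ε) := Nat.mul_le_mul_right _ hj
        omega)
    obtain ⟨-, -, s4⟩ := s3
    have e0 : ∀ a b c t : ℤ, t + (c + (-a + b + a + -b) + -c) = t := by intros; ring
    constructor
    · have := s4 (24 * d + ε + 1) (by omega) (by omega)
      rwa [e0, S.d_comm] at this
    · have := s4 (S.d x y - (24 * d + ε + 1)) (by omega) (by omega)
      rwa [e0, S.d_comm] at this
  · push Not at hex
    refine hE.mono fun g hg => ?_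
    have s1 := hsh g hg
    generalize (S.d x y - S.d (g • x) y : ℤ) = σ at s1
    have s2 := s1.pow 2
    have key : ∀ t : ℤ, 24 * d + ε < t → t + 24 * d + ε < S.d x y → S.d (γ t) (g • γ t) ≤ 64 * ε := by
      intro t h1 h2
      obtain ⟨a1, a2, a3⟩ := s1
      have b1 := a3 t (by omega) (by omega)
      have b2 := s2.2.2 t (by push_cast; omega) (by push_cast; omega)
      have := hP.ne
      have l2 := S.disp_two hε g (γ t)
      rw [S.tau_finite g (hex g hg), add_zero] at l2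
      have l3 : S.d (γ t) (g ^ 2 • γ t) ≤ S.d (γ t) (g • γ t) + ε := by exact_mod_cast l2
      push_cast at b2
      have t1 := S.d_tri (γ t) (γ (t + σ)) (g • γ t)
      have t2 := S.d_tri (γ t) (g ^ 2 • γ t) (γ (t + 2 * σ))
      have := S.d_comm (γ (t + σ)) (g • γ t)
      rcases le_total 0 σ with hs | hs
      · have c1 := hγ t (t + σ) (by omega) (by omega) (by omega)
        have c2 := hγ t (t + 2 * σ) (by omega) (by omega) (by omega)
        omega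
      · have c1 := hγ (t + σ) t (by omega) (by omega) (by omega)
        have c2 := hγ (t + 2 * σ) t (by omega) (by omega) (by omega)
        have := S.d_comm (γ (t + σ)) (γ t)
        have := S.d_comm (γ (t + 2 * σ)) (γ t)
        omega
    exact ⟨key _ (by omega) (by omega), key _ (by omega) (by omega)⟩

end Pool.Agent.Lib.OCn
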