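import Pool.Agent.Lib.MP_de4dbb_al.Fold
import Pool.Agent.Lib.MP_de4dbb_al.Pre

/-! Elements moving two distant points a little: lift them or find an apex they shift. -/

namespace Pool.Agent.Lib.OCn

variable {G Z : Type} [Group G] [MulAction G Z]

namespace Quo

variable {R : Rot G Z} {Q Y : Type} [Group Q] [MulAction Q Y] (q : Quo R Q Y)

/-- An apex with a big angle in the middle of a geodesic. -/
def Big (D : ℕ) (x y w : Y) (a e : ℕ) : Prop :=
  q.Ap w ∧ 170 * R.θ < q.ang w x y + a ∧ 17 * D < q.sp.d x w + e ∧ 17 * D < q.sp.d y w + e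

/-- Exact shift of big apices. -/
def ShA (D : ℕ) (x y : Y) (g : Q) (α ε : ℕ) (σ : ℤ) : Prop :=
  ∀ w a e, q.Big D x y w a e → a + α ≤ 160 * R.θ → e + ε ≤ 16 * D →
    q.Big D x y (g • w) (a + α) (e + ε) ∧ (q.sp.d x (g • w) : ℤ) = q.sp.d x w + σ

variable {q}

theorem ShA.mul {D : ℕ} {x y : Y} {g h : Q} {α ε α' ε' : ℕ} {σ σ' : ℤ} (h1 : q.ShA D x y g α ε σ)
    (h2 : q.ShA D x y h α' ε' σ') : q.ShA D x y (g * h) (α + α') (ε + ε') (σ + σ') := by
  intro w a e hw ha he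
  obtain ⟨b1, b2⟩ := h2 w a e hw (by omega) (by omega)
  obtain ⟨b3, b4⟩ := h1 _ _ _ b1 (by omega) (by omega)
  rw [mul_smul, show a + (α + α') = a + α' + α by omega, show e + (ε + ε') = e + ε' + ε by omega]
  exact ⟨b3, by omega⟩

theorem ShA.pow {D : ℕ} {x y : Y} {g : Q} {α ε : ℕ} {σ : ℤ} (h1 : q.ShA D x y g α ε σ) (k : ℕ) :
    q.ShA D x y (g ^ k) (k * α) (k * ε) (k * σ) := by
  induction k with
  | zero => intro w a e hw _ _; simpa using hw
  | succ k ih =>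
    have := ih.mul h1
    rw [pow_succ]; push_cast
    rwa [add_mul, add_mul, add_mul, one_mul, one_mul, one_mul]

theorem shA_of_mem {D : ℕ} {x y : Y} {g : Q} (hg : g ∈ q.sp.U D x y) :
    q.ShA D x y g (10 * R.θ) D (q.sp.d x y - q.sp.d (g • x) y) := by
  rintro w a e ⟨h1, h2, h3, h4⟩ ha he
  obtain ⟨g1, g2⟩ := hg
  have hw := q.Ap_smul g h1
  have e1 := q.sp.iso g x w
  have e2 := q.sp.iso g y w
  have e3 := q.ang_smul g w x y
  have c1 := q.sp.d_comm x (g • x)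
  have c2 := q.sp.d_comm y (g • y)
  have c3 := q.sp.d_comm y (g • w)
  have t1 := q.sp.d_tri (g • x) x (g • w)
  have t2 := q.sp.d_tri (g • y) y (g • w)
  have n1 : x ≠ g • w := fun h => by rw [← h] at e1; omega
  have n2 : y ≠ g • w := fun h => by rw [← h] at e2; omega
  have n3 : g • x ≠ g • w := fun h => by rw [h, q.sp.d_self] at e1; omega
  have n4 : g • y ≠ g • w := fun h => by rw [h, q.sp.d_self] at e2; omega
  have a1 := q.ang_le hw n3 n1 (by omega)
  have a2 := q.ang_le hw n4 n2 (by omega)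
  have a3 := q.ang_tri hw n3 n2 n4
  have a4 := q.ang_tri hw n3 n1 n2
  have := q.ang_comm (g • w) y (g • y)
  have b1 := q.bgi hw n3 n2 (by omega)
  have b2 := q.bgi hw n1 n2 (by omega)
  exact ⟨⟨hw, by omega, by omega, by omega⟩, by omega⟩

theorem mem_U_inv {D : ℕ} {x y : Y} {g : Q} (hg : g ∈ q.sp.U D x y) : g⁻¹ ∈ q.sp.U D x y :=
  ⟨by rw [q.sp.disp_inv]; exact hg.1, by rw [q.sp.disp_inv]; exact hg.2⟩

theorem Big.eq {D : ℕ} {x y w w' : Y} {a e : ℕ} (h : q.Big D x y w 0 0) (h' : q.Big D x y w' a e)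
    (ha : a ≤ 160 * R.θ) (he : e ≤ 16 * D) (hp : q.sp.d x w' = q.sp.d x w) : w' = w := by
  obtain ⟨a1, a2, a3, a4⟩ := h
  obtain ⟨b1, b2, b3, b4⟩ := h'
  refine (q.line a1 b1 (a := x) (b := y) ?_ ?_ ?_ ?_ (by omega) (by omega) hp.symm).symm
  · rintro rfl; rw [q.sp.d_self] at a3; omega
  · rintro rfl; rw [q.sp.d_self] at a4; omega
  · rintro rfl; rw [q.sp.d_self] at b3; omega
  · rintro rfl; rw [q.sp.d_self] at b4; omega

theorem grow {w : Y} {g : Q} (hw : q.Ap w) (hne : g • w ≠ w)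
    (h : 6 * R.θ < q.ang w (g⁻¹ • w) (g • w)) (i : ℕ) : i ≤ q.sp.d w (g ^ i • w) := by
  have hd := q.sp.d_pos hne.symm
  have hap : ∀ i : ℕ, q.Ap (g ^ i • w) := fun i => q.Ap_smul _ hw
  have e1 : ∀ i : ℕ, q.sp.d (g ^ i • w) (g ^ (i + 1) • w) = q.sp.d w (g • w) := by
    intro i; rw [q.sp.d_pow_add, pow_one]
  have n1 : ∀ i : ℕ, g ^ i • w ≠ g ^ (i + 1) • w := by
    intro i h; have := e1 i; rw [h, q.sp.d_self] at this; omega
  have e2 : ∀ i : ℕ, 6 * R.θ < q.ang (g ^ (i + 1) • w) (g ^ i • w) (g ^ (i + 1 + 1) • w) := by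
    intro i
    rw [← q.ang_smul (g ^ (i + 1)), ← mul_smul, ← mul_smul, ← pow_succ, pow_succ g i,
      mul_inv_cancel_right] at h
    rwa [pow_succ g i]
  have key : ∀ i : ℕ, i ≤ q.sp.d w (g ^ i • w) ∧
      q.sp.d w (g ^ i • w) + q.sp.d w (g • w) = q.sp.d w (g ^ (i + 1) • w) := by
    intro i
    induction i with
    | zero => simp [q.sp.d_self]
    | succ i ih =>
      obtain ⟨i1, i2⟩ := ih
      refine ⟨by omega, ?_⟩
      have n2 : w ≠ g ^ (i + 1) • w := by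
        intro h; rw [← h, q.sp.d_self] at i2; omega
      have a1 := q.ang_le (hap (i + 1)) n2 (n1 i) (by omega)
      have a2 := q.ang_tri (hap (i + 1)) (n1 i) n2 (n1 (i + 1)).symm
      have a3 := e2 i
      have := q.ang_comm (g ^ (i + 1) • w) w (g ^ i • w)
      have b := q.bgi (hap (i + 1)) n2 (n1 (i + 1)).symm (by omega)
      rw [e1] at b; exact b
  exact (key i).1

variable (q)

theorem dich (D A : ℕ) (hA : 2 * (35 * D + 4) < A) (x y : Y) (hxy : 34 * D + 4 + A ≤ q.sp.d x y) :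
    (∃ a b : Z, ¬ R.Ap a ∧ ¬ R.Ap b ∧ A ≤ R.d a b ∧ ∀ g ∈ q.sp.U D x y, ∃ g', q.π g' = g ∧
      (∀ u, R.Ap u → R.ang u a (g' • a) ≤ 378 * R.θ) ∧
      R.Φ a (g' • a) ≤ (35 * D + 4) * (380 * R.θ) ∧ R.Φ b (g' • b) ≤ (35 * D + 4) * (380 * R.θ)) ∨
    ∃ w, q.Ap w ∧ (∀ g ∈ q.sp.U D x y, g • w = w ∨ ∀ i : ℕ, i ≤ q.sp.d w (g ^ i • w)) ∧
      ∀ g ∈ q.sp.U D x y, ∀ h ∈ q.sp.U D x y, ∀ j : ℕ, j ≤ 6 →
        (g ^ j * (g⁻¹ * h * g * h⁻¹) * (g ^ j)⁻¹) • w = w := by
  have hθ := R.θ_pos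
  by_cases hex : ∃ w, q.Big D x y w 0 0
  · obtain ⟨w, hw⟩ := hex
    have hD : ∀ g ∈ q.sp.U D x y, (q.sp.d x y - q.sp.d (g⁻¹ • x) y : ℤ) =
        -(q.sp.d x y - q.sp.d (g • x) y) := by
      intro g hg
      by_cases h0 : D = 0
      · have h1 := hg.1
        rw [h0, Nat.le_zero] at h1
        have h2 := q.sp.eq_of _ _ h1
        have h3 : g⁻¹ • x = x := by rw [inv_smul_eq_iff]; exact h2
        rw [h3, ← h2]; simp
      have := ((shA_of_mem (mem_U_inv hg)).mul (shA_of_mem hg) w 0 0 hw (by omega) (by omega)).2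
      rw [inv_mul_cancel, one_smul] at this
      omega
    refine Or.inr ⟨w, hw.1, fun g hg => ?_, fun g hg h hh j hj => ?_⟩
    · obtain ⟨a1, a2⟩ := shA_of_mem hg w 0 0 hw (by omega) (by omega)
      obtain ⟨b1, b2⟩ := shA_of_mem (mem_U_inv hg) w 0 0 hw (by omega) (by omega)
      rw [hD g hg] at b2
      by_cases hs : q.sp.d x (g • w) = q.sp.d x w
      · exact Or.inl (hw.eq a1 (by omega) (by omega) hs)
      have n1 : g • w ≠ w := fun h => hs (by rw [h])
      have n2 : g⁻¹ • w ≠ w := fun h => n1 (by rw [inv_smul_eq_iff] at h; exact h.symm)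
      refine Or.inr (grow hw.1 n1 ?_)
      have nn : ∀ v a e, q.Big D x y v a e → a ≤ 10 * R.θ → e ≤ D →
          x ≠ v ∧ y ≠ v ∧ q.sp.d x v + q.sp.d v y = q.sp.d x y := by
        rintro v a e ⟨c1, c2, c3, c4⟩ ha he
        have m1 : x ≠ v := by rintro rfl; rw [q.sp.d_self] at c3; omega
        have m2 : y ≠ v := by rintro rfl; rw [q.sp.d_self] at c4; omega
        exact ⟨m1, m2, q.bgi c1 m1 m2 (by omega)⟩
      obtain ⟨m1, m2, m3⟩ := nn _ _ _ hw (by omega) (by omega)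
      obtain ⟨-, -, m4⟩ := nn _ _ _ a1 (by omega) (by omega)
      obtain ⟨-, -, m5⟩ := nn _ _ _ b1 (by omega) (by omega)
      have h2 := hw.2.1
      rcases lt_or_gt_of_ne hs with hlt | hlt
      · have := q.ang_le hw.1 m1 n1 (by omega)
        have := q.ang_le hw.1 n2 m2 (by omega)
        have := q.ang_tri hw.1 m1 n1 m2
        have := q.ang_tri hw.1 n1 n2 m2
        have := q.ang_comm w (g • w) (g⁻¹ • w)
        omega
      · have := q.ang_le hw.1 m1 n2 (by omega)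
        have := q.ang_le hw.1 n1 m2 (by omega)
        have := q.ang_tri hw.1 m1 n2 m2
        have := q.ang_tri hw.1 n2 n1 m2
        omega
    · have s1 := shA_of_mem hg
      have s2 := shA_of_mem hh
      have s3 := shA_of_mem (mem_U_inv hg)
      have s4 := shA_of_mem (mem_U_inv hh)
      rw [hD g hg] at s3; rw [hD h hh] at s4
      have j1 : j * (10 * R.θ) ≤ 6 * (10 * R.θ) := Nat.mul_le_mul_right _ hj
      have j2 : j * D ≤ 6 * D := Nat.mul_le_mul_right _ hj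
      obtain ⟨a1, a2⟩ := (((s1.pow j).mul (((s3.mul s2).mul s1).mul s4)).mul (s3.pow j)) w 0 0 hw
        (by omega) (by omega)
      rw [inv_pow] at a1 a2
      refine hw.eq a1 (by omega) (by omega) ?_
      have : ∀ a b c : ℤ, c * a + (-a + b + a + -b) + c * -a = 0 := by intros; ring
      rw [this] at a2; omega
  left
  have hno : ∀ w, q.Ap w → 17 * D < q.sp.d x w → 17 * D < q.sp.d y w → q.ang w x y ≤ 170 * R.θ := by
    intro w h1 h2 h3
    by_contra h4
    exact hex ⟨w, h1, by omega, by omega, by omega⟩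
  obtain ⟨γ, h0, hn, hγ⟩ := q.sp.exists_path _ x y rfl
  have hpt : ∀ t, t + 1 ≤ q.sp.d x y → ∃ s, t ≤ s ∧ s ≤ t + 1 ∧ ¬ q.Ap (γ s) := by
    intro t ht
    by_cases h1 : q.Ap (γ t)
    · exact ⟨t + 1, by omega, le_rfl, fun h2 => q.ap_ap h1 h2 (by rw [hγ _ _ (by omega) ht]; omega)⟩
    · exact ⟨t, le_rfl, by omega, h1⟩
  obtain ⟨s, s1, s2, ha⟩ := hpt (17 * D + 1) (by omega)
  obtain ⟨t, t1, t2, hb⟩ := hpt (q.sp.d x y - (17 * D + 2)) (by omega)
  have e1 := hγ 0 s (by omega) (by omega)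
  have e2 := hγ s t (by omega) (by omega)
  have e3 := hγ t _ (by omega) le_rfl
  rw [h0] at e1; rw [hn] at e3
  obtain ⟨a, ea⟩ := q.p_surj (γ s)
  rw [← ea] at ha e1 e2
  generalize γ t = b' at hb e2 e3
  have ang_ab : ∀ w, q.Ap w → q.ang w (q.p a) b' ≤ 180 * R.θ := by
    intro w hw
    by_contra hbig
    have n1 := q.ne_of_pt ha hw
    have n2 := q.ne_of_pt hb hw
    have b1 := q.bgi hw n1 n2 (by omega)
    have := q.sp.d_pos n1
    have := q.sp.d_pos n2.symm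
    have := q.sp.d_tri x w y
    have := q.sp.d_tri x (q.p a) w
    have := q.sp.d_tri w b' y
    have := q.sp.d_comm w y
    have n3 : x ≠ w := by rintro rfl; have := q.sp.d_self x; omega
    have n4 : y ≠ w := by rintro rfl; have := q.sp.d_self y; omega
    have := hno w hw (by omega) (by omega)
    have := q.sp.d_comm w (q.p a)
    have := q.sp.d_comm w b'
    have := q.sp.d_comm y b'
    have := q.ang_le hw n3 n1 (by omega)
    have := q.ang_le hw n4 n2 (by omega)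
    have := q.ang_tri hw n1 n3 n2
    have := q.ang_tri hw n3 n4 n2
    have := q.ang_comm w x (q.p a)
    omega
  obtain ⟨b, rfl, b1, b2⟩ := q.tight a b' _ fun u hu _ _ => ang_ab u hu
  have ha' : ¬ R.Ap a := fun h => ha (q.Ap_p.2 h)
  have hb' : ¬ R.Ap b := fun h => hb (q.Ap_p.2 h)
  refine ⟨a, b, ha', hb', by omega, fun g hg => ?_⟩
  have d1 := q.sp.disp_move g x (q.p a)
  have d2 := q.sp.disp_move g y (q.p b)
  have g1 := hg.1
  have g2 := hg.2
  have := q.sp.d_comm y (q.p b)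
  have angs : ∀ w, q.Ap w → q.ang w (q.p a) (g • q.p a) ≤ 369 * R.θ ∧
      q.ang w (q.p b) (g • q.p b) ≤ 369 * R.θ := by
    intro w hw
    have n1 := q.ne_of_pt ha hw
    have n2 := q.ne_of_pt hb hw
    have n3 := q.ne_of_pt (q.pt_smul g ha) hw
    have n4 := q.ne_of_pt (q.pt_smul g hb) hw
    have a1 := ang_ab w hw
    have a2 := ang_ab _ (q.Ap_smul g⁻¹ hw)
    rw [q.ang_inv] at a2
    have := q.sp.d_tri (q.p a) w (q.p b)
    have := q.sp.d_comm w (q.p b)
    have := q.ang_comm w (q.p a) (q.p b)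
    have := q.ang_comm w (g • q.p a) (g • q.p b)
    by_cases hc : q.sp.d (q.p a) (g • q.p a) < q.sp.d (q.p a) w + q.sp.d w (g • q.p a)
    · have := q.ang_le hw n1 n3 hc
      have := q.ang_tri hw n2 n1 n4
      have := q.ang_tri hw n1 n3 n4
      omega
    · have := q.ang_le hw n2 n4 (by omega)
      have := q.ang_tri hw n1 n2 n3
      have := q.ang_tri hw n2 n4 n3
      omega
  obtain ⟨a', ea', c1, c2⟩ := q.tight a (g • q.p a) _ fun u hu _ _ => (angs u hu).1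
  obtain ⟨b', eb', c3, c4⟩ := q.tight b (g • q.p b) _ fun u hu _ _ => (angs u hu).2
  obtain ⟨g', rfl, rfl⟩ := q.exists_lift g ea'.symm
  have pa := R.pt_smul g' ha'
  have pb := R.pt_smul g' hb'
  rw [q.p_smul] at eb'
  obtain ⟨k, hk, rfl⟩ := (q.p_eq _ _).1 eb'.symm
  have pb' := R.pt_smul k pb
  have hkb : k • g' • b = g' • b := by
    by_contra hne
    obtain ⟨u, hu, n1, n2, h1⟩ := R.green hk hne
    have m1 := R.ne_of_pt ha' hu
    have m2 := R.ne_of_pt hb' hu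
    have m3 := R.ne_of_pt pa hu
    have := c2 u hu m1 m3
    have := c4 u hu m2 n2
    have := b2 u hu m1 m2
    have h2 := b2 _ (R.Ap_smul g'⁻¹ u hu) (R.ne_of_pt ha' (R.Ap_smul _ _ hu))
      (R.ne_of_pt hb' (R.Ap_smul _ _ hu))
    rw [R.ang_inv] at h2
    have := R.ang_tri u _ _ _ hu n1 m3 n2
    have := R.ang_tri u _ _ _ hu m3 m1 n2
    have := R.ang_tri u _ _ _ hu m1 m2 n2
    have := R.ang_comm u (g' • b) (g' • a)
    have := R.ang_comm u (g' • a) a
    omega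
  rw [hkb] at c3 c4
  have k1 : ∀ u, R.Ap u → R.ang u a (g' • a) ≤ 378 * R.θ := fun u hu => by
    have := c2 u hu (R.ne_of_pt ha' hu) (R.ne_of_pt pa hu); omega
  have k2 : ∀ u, R.Ap u → R.ang u b (g' • b) ≤ 378 * R.θ := fun u hu => by
    have := c4 u hu (R.ne_of_pt hb' hu) (R.ne_of_pt pb hu); omega
  refine ⟨g', rfl, k1, ?_, ?_⟩
  · exact (R.Φ_le_of_ang ha' pa _ k1).trans (Nat.mul_le_mul (by omega) (by omega))
  · exact (R.Φ_le_of_ang hb' pb _ k2).trans (Nat.mul_le_mul (by omega) (by omega))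

end Quo

end Pool.Agent.Lib.OCn
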