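import Pool.Agent.Lib.MP_de4dbb_al.Cone
import Pool.Agent.Lib.MP_de4dbb_al.Dich

/-! The family of axes of short loxodromic elements. -/

namespace Pool.Agent.Lib.OCn

variable {G X : Type} [Group G] [MulAction G X]

/-- All invariants of a stage. -/
structure Lev (S : GSp G X) (n N : ℕ) : Prop where
  pre : Pre S 200 2000000000000000000000000000 n N
  acyl : S.Acyl 6000000 200000000000000
  pow : ∃ k, N = 2 ^ k
  big : 100000000000000000000000000000000000000000000000 ≤ N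

/-- Maximal elementary subgroups of short loxodromic elements. -/
def Apx (S : GSp G X) : Type := {E : Subgroup G // ∃ g, ¬ IsOfFinOrder g ∧ S.tau g ≤ 1 ∧ E = Ec g}

/-- Conjugate of a subgroup. -/
def cj (g : G) (E : Subgroup G) : Subgroup G := E.comap (MulAut.conj g⁻¹).toMonoidHom

theorem mem_cj {g e : G} {E : Subgroup G} : e ∈ cj g E ↔ g⁻¹ * e * g ∈ E := by
  simp [cj]

theorem GSp.tau_conj_le' (S : GSp G X) (g h : G) (H : S.tau g ≤ 1) : S.tau (h * g * h⁻¹) ≤ 1 := by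
  rcases isEmpty_or_nonempty X with hX | hX
  · simp [GSp.tau]
  · rwa [S.tau_conj]

instance (S : GSp G X) : MulAction G (Apx S) where
  smul g v := ⟨cj g v.1, by
    obtain ⟨h, h1, h2, h3⟩ := v.2
    refine ⟨g * h * g⁻¹, fun hf => h1 (finOrder_conj.1 hf), S.tau_conj_le' h g h2, ?_⟩
    ext e; rw [mem_cj, mem_Ec_conj, h3]⟩
  one_smul v := Subtype.ext (by ext e; show e ∈ cj 1 v.1 ↔ _; simp [mem_cj])
  mul_smul a b v := Subtype.ext (by
    ext e; show e ∈ cj (a * b) v.1 ↔ e ∈ cj a (cj b v.1); simp [mem_cj, mul_assoc])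

theorem Apx.mem_smul {S : GSp G X} {g e : G} {v : Apx S} : e ∈ (g • v).1 ↔ g⁻¹ * e * g ∈ v.1 := mem_cj

/-- The axis of an elementary subgroup. -/
def Apx.Y {S : GSp G X} (v : Apx S) : Set X :=
  {p | ∀ e ∈ v.1, (∃ g ∈ v.1, ¬ IsOfFinOrder g ∧ e * g = g * e) →
    (S.d p (e • p) : ℝ) ≤ S.tau e + 120000}

/-- The rotation group. -/
def Apx.K {S : GSp G X} (N : ℕ) (v : Apx S) : Subgroup G :=
  Subgroup.closure {k | ∃ e ∈ v.1, k = e ^ N}

theorem Apx.K_conj {S : GSp G X} (N : ℕ) (g : G) (v : Apx S) (k : G) (hk : k ∈ v.K N) :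
    g * k * g⁻¹ ∈ (g • v).K N := by
  induction hk using Subgroup.closure_induction with
  | mem k hk =>
    obtain ⟨e, he, rfl⟩ := hk
    exact Subgroup.subset_closure ⟨g * e * g⁻¹, Apx.mem_smul.2 (by simpa [mul_assoc] using he),
      conj_pow.symm⟩
  | one => simp
  | mul a b _ _ ha hb =>
    have := Subgroup.mul_mem _ ha hb
    rwa [show g * a * g⁻¹ * (g * b * g⁻¹) = g * (a * b) * g⁻¹ by group] at this
  | inv a _ ha =>
    have := Subgroup.inv_mem _ ha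
    rwa [show (g * a * g⁻¹)⁻¹ = g * a⁻¹ * g⁻¹ by group] at this

theorem Apx.K_le {S : GSp G X} (N : ℕ) (v : Apx S) : v.K N ≤ v.1 := by
  rw [Apx.K, Subgroup.closure_le]
  rintro _ ⟨e, he, rfl⟩
  exact v.1.pow_mem he N

namespace Lev

variable {S : GSp G X} {n N : ℕ} (hL : Lev S n N)
include hL

theorem lox (v : Apx S) : Nonempty (Lox v.1) := by
  obtain ⟨g, h1, -, h3⟩ := v.2
  rw [h3]; exact hL.pre.lox h1

theorem Ec_x {v : Apx S} (L : Lox v.1) : Ec L.x = v.1 := by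
  obtain ⟨g, h1, -, h3⟩ := v.2
  have : L.x ∈ Ec g := h3.le L.x_mem
  exact (hL.pre.Ec_eq h1 L.x_not_fin this).trans h3.symm

theorem smul_eq_iff {v : Apx S} {g : G} : g • v = v ↔ g ∈ v.1 := by
  constructor
  · intro h
    obtain ⟨y, h1, -, h3⟩ := v.2
    have h4 : g * y * g⁻¹ ∈ (g • v).1 := Apx.mem_smul.2 (by
      rw [h3]; simpa [mul_assoc] using self_mem_Ec y)
    rw [h, h3] at h4
    rw [h3]; exact hL.pre.mem_Ec_of_conj h1 (self_mem_Ec y) h1 h4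
  · intro h
    apply Subtype.ext; ext e
    rw [Apx.mem_smul]
    constructor
    · intro h1
      simpa [mul_assoc] using v.1.mul_mem (v.1.mul_mem h h1) (v.1.inv_mem h)
    · intro h1
      exact v.1.mul_mem (v.1.mul_mem (v.1.inv_mem h) h1) h

theorem tau_rot {E : Subgroup G} (L : Lox E) {e : G} (he : e ∈ L.P) :
    S.tau e = |((L.ψ e).a : ℝ)| * S.tau L.x := by
  have := hL.pre.ne
  have h1 := (L.sep hL.pre.alg).pow_rot hL.pre.even he
  have h2 := congrArg S.tau h1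
  rw [S.tau_pow, S.tau_zpow, S.tau_pow] at h2
  have h3 : (0 : ℝ) < N := by exact_mod_cast hL.pre.npos
  apply mul_left_cancel₀ h3.ne'
  rw [h2]; ring

theorem tau_x {v : Apx S} (L : Lox v.1) : S.tau L.x ≤ 1 := by
  obtain ⟨g, h1, h2, h3⟩ := v.2
  have hg : g ∈ v.1 := h3 ▸ self_mem_Ec g
  have h4 := h1
  rw [L.fin_iff hg, not_or] at h4
  have h5 : (L.ψ g).s = false := by simpa using h4.2
  have h6 : (L.ψ g).a ≠ 0 := fun h0 => h4.1 (by ext <;> simp [h0, h5])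
  rw [hL.tau_rot L ⟨hg, h5⟩] at h2
  have h7 : (1 : ℝ) ≤ |((L.ψ g).a : ℝ)| := by
    have := Int.one_le_abs h6
    exact_mod_cast this
  have := S.tau_nonneg L.x
  nlinarith

theorem K_eq {v : Apx S} (L : Lox v.1) : v.K N = Subgroup.zpowers (L.x ^ N) := by
  apply le_antisymm
  · rw [Apx.K, Subgroup.closure_le]
    rintro _ ⟨e, he, rfl⟩
    exact (L.sep hL.pre.alg).pow_mem hL.pre.even he
  · rw [Subgroup.zpowers_le]
    exact Subgroup.subset_closure ⟨_, L.x_mem, rfl⟩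

theorem mem_K {v : Apx S} (L : Lox v.1) {k : G} : k ∈ v.K N ↔ ∃ j : ℤ, k = L.x ^ (N * j) := by
  rw [hL.K_eq L, Subgroup.mem_zpowers_iff]
  simp only [zpow_mul, zpow_natCast, eq_comm]

theorem mem_Y {v : Apx S} (L : Lox v.1) {p : X} :
    p ∈ v.Y ↔ ∀ e ∈ L.P, (S.d p (e • p) : ℝ) ≤ S.tau e + 120000 := by
  constructor
  · intro h e he
    refine h e he.1 ⟨L.x ^ N, v.1.pow_mem L.x_mem N,
      fun hf => L.x_not_fin (hf.of_pow hL.pre.npos.ne'), ?_⟩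
    have hx := v.1.pow_mem L.x_mem N
    refine (L.sep hL.pre.alg).eq_of (v.1.mul_mem he.1 hx) (v.1.mul_mem hx he.1) ?_ fun φ hφ => ?_
    · rw [L.mul _ he.1 _ hx, L.mul _ hx _ he.1, L.ψ_pow]; ext <;> simp [he.2, add_comm]
    · rw [hφ _ he.1 _ hx, hφ _ hx _ he.1, hφ.pow L.x_mem, Dih.pow_N hL.pre.even]; simp
  · rintro h e he ⟨g, hg, h1, h2⟩
    refine h e ⟨he, ?_⟩
    rw [L.fin_iff hg, not_or] at h1
    have h5 : (L.ψ g).s = false := by simpa using h1.2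
    have h6 : (L.ψ g).a ≠ 0 := fun h0 => h1.1 (by ext <;> simp [h0, h5])
    have h3 := congrArg (fun e => (L.ψ e).a) h2
    simp only [L.mul _ he _ hg, L.mul _ hg _ he, Dih.mul_a, h5] at h3
    rcases hs : (L.ψ e).s
    · rfl
    · simp [hs] at h3; omega

theorem Y_ax {v : Apx S} (L : Lox v.1) {p : X} (hp : p ∈ v.Y) (j : ℕ) :
    (S.d p (L.x ^ j • p) : ℝ) ≤ j * S.tau L.x + (120000 : ℕ) := by
  have := hL.pre.ne
  have := (hL.mem_Y L).1 hp _ (by simpa using L.x_P j)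
  rw [S.tau_pow] at this; push_cast; exact this

theorem Y_F {v : Apx S} (L : Lox v.1) {p : X} (hp : p ∈ v.Y) {f : G} (hf : f ∈ L.F) :
    S.d p (f • p) ≤ 120000 := by
  have := hL.pre.ne
  have := (hL.mem_Y L).1 hp _ (L.F_le_P hf)
  rw [S.tau_finite f (finOrder_of_mem L.F_fin hf), zero_add] at this
  exact_mod_cast this

theorem Y_x {v : Apx S} (L : Lox v.1) {p : X} (hp : p ∈ v.Y) : S.d p (L.x • p) ≤ 120001 := by
  have h1 := hL.Y_ax L hp 1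
  have h2 := hL.tau_x L
  have : (S.d p (L.x • p) : ℝ) ≤ 120001 := by simp at h1; linarith
  exact_mod_cast this

theorem Y_ne (v : Apx S) : v.Y.Nonempty := by
  have := hL.pre.ne
  obtain ⟨L⟩ := hL.lox v
  have hx := hL.pre.tau_pos L.x_not_fin
  obtain ⟨p, hp⟩ := S.exists_axis hL.pre.hyp L.x hx
  have hp' : ∀ j : ℕ, (S.d p (L.x ^ j • p) : ℝ) ≤ j * S.tau L.x + (13830 : ℕ) := by
    intro j; have := hp j; push_cast at this ⊢; linarith
  have hz := S.axis_zpow L.x p _ hp'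
  have hF : ∀ f ∈ L.F, (S.d p (f • p) : ℝ) ≤ 100000 := by
    intro f hf
    obtain ⟨m, hm, h⟩ := exists_pow_commute L.F_fin (g := L.x) (fun t ht => L.F_conj L.x_mem ht) hf
    obtain ⟨j, hj⟩ := S.close hL.pre.hyp L.x hx p (f • p) 13830 1 (by simpa using hL.tau_x L) hp' m hm
      (fun i => by
        have h1 : L.x ^ (m * i) * f = f * L.x ^ (m * i) := by
          rw [pow_mul]; exact ((Commute.pow_left (mul_inv_eq_iff_eq_mul.1 h) i)).eq
        rw [← mul_smul, h1, mul_smul, S.iso]; exact hp' _)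
    have h1 : (L.x ^ j)⁻¹ * f ∈ L.P := L.P.mul_mem (L.P.inv_mem (L.x_P j)) (L.F_le_P hf)
    have h2 := S.tau_le_one ((L.x ^ j)⁻¹ * f) p
    rw [hL.tau_rot L h1, L.mul _ (v.1.inv_mem (L.x_P j).1) _ hf.1, L.mul.inv (L.x_P j).1, L.ψ_zpow,
      hf.2, mul_smul, S.iso_inv', S.d_comm] at h2
    simp at h2
    have h3 := hz j
    have h4 := S.d_tri p (L.x ^ j • p) (f • p)
    rw [S.d_comm (L.x ^ j • p)] at h4
    have h4' : (S.d p (f • p) : ℝ) ≤ S.d p (L.x ^ j • p) + S.d (f • p) (L.x ^ j • p) := by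
      exact_mod_cast h4
    have h5 : (S.d (f • p) (L.x ^ j • p) : ℝ) ≤ 42091 := by exact_mod_cast hj
    push_cast at h3
    linarith
  refine ⟨p, (hL.mem_Y L).2 fun e he => ?_⟩
  have h1 := S.disp_mul (L.x ^ (L.ψ e).a) ((L.x ^ (L.ψ e).a)⁻¹ * e) p
  rw [mul_inv_cancel_left] at h1
  have h1' : (S.d p (e • p) : ℝ) ≤ S.d p (L.x ^ (L.ψ e).a • p) +
      S.d p (((L.x ^ (L.ψ e).a)⁻¹ * e) • p) := by exact_mod_cast h1
  have h2 := hF _ (L.decomp he)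
  have h3 := hz (L.ψ e).a
  rw [hL.tau_rot L he]
  push_cast at h3
  linarith

theorem Y_smul (g : G) (v : Apx S) (y : X) (hy : y ∈ v.Y) : g • y ∈ (g • v).Y := by
  have := hL.pre.ne
  rintro e he ⟨h, hh, h1, h2⟩
  have := hy _ (Apx.mem_smul.1 he) ⟨_, Apx.mem_smul.1 hh, fun hf => h1 (by
    have := (finOrder_conj (g := g)).2 hf
    simpa [mul_assoc] using this), by
      calc _ = g⁻¹ * (e * h) * g := by group
        _ = _ := by rw [h2]; group⟩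
  have h3 := S.tau_conj e g⁻¹
  rw [inv_inv] at h3
  rwa [h3, mul_smul, mul_smul, S.iso_inv'] at this

theorem Y_E {v : Apx S} {e : G} (he : e ∈ v.1) {y : X} (hy : y ∈ v.Y) : e • y ∈ v.Y := by
  have := hL.Y_smul e v y hy
  rwa [hL.smul_eq_iff.2 he] at this

theorem Y_close {v : Apx S} (L : Lox v.1) {p q : X} (hp : p ∈ v.Y) (hq : q ∈ v.Y) :
    ∃ j : ℤ, S.d q (L.x ^ j • p) ≤ 360601 :=
  S.close hL.pre.hyp L.x (hL.pre.tau_pos L.x_not_fin) p q 120000 1 (by simpa using hL.tau_x L)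
    (hL.Y_ax L hp) 1 one_pos (fun i => by simpa using hL.Y_ax L hq i)

theorem Y_qc (v : Apx S) (p q m : X) (hp : p ∈ v.Y) (hq : q ∈ v.Y)
    (h : S.d p m + S.d m q = S.d p q) : ∃ y ∈ v.Y, S.d m y ≤ 850000 := by
  obtain ⟨L⟩ := hL.lox v
  obtain ⟨j, hj⟩ := hL.Y_close L hp hq
  have t1 := S.d_tri m q (L.x ^ j • p)
  have t2 := S.d_tri p (L.x ^ j • p) q
  have c := S.d_comm q (L.x ^ j • p)
  obtain ⟨k, rfl | rfl⟩ := j.eq_nat_or_neg
  · rw [zpow_natCast] at t1 t2 c hj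
    obtain ⟨i, hi⟩ := S.near_orbit hL.pre.hyp L.x p m 120000 721202 1 (by simpa using hL.tau_x L)
      (hL.Y_ax L hp) k (by omega) (by omega)
    exact ⟨_, hL.Y_E (v.1.pow_mem L.x_mem i) hp, by omega⟩
  · rw [zpow_neg, zpow_natCast, ← inv_pow] at t1 t2 c hj
    obtain ⟨i, hi⟩ := S.near_orbit hL.pre.hyp L.x⁻¹ p m 120000 721202 1
      (by rw [S.tau_inv]; simpa using hL.tau_x L)
      (fun j => by rw [inv_pow, S.disp_inv, S.tau_inv]; exact hL.Y_ax L hp j) k (by omega) (by omega)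
    exact ⟨_, hL.Y_E (v.1.pow_mem (v.1.inv_mem L.x_mem) i) hp, by omega⟩

theorem Y_ovl (v w : Apx S) (hvw : v ≠ w) (p : X) (hp : p ∈ v.Y) (q : X) (hq : q ∈ v.Y) (p' : X)
    (hp' : p' ∈ w.Y) (q' : X) (hq' : q' ∈ w.Y) (h1 : S.d p p' ≤ 3 * 850000 + 4 * 200 + 1)
    (h2 : S.d q q' ≤ 3 * 850000 + 4 * 200 + 1) : S.d p q ≤ 200000000000000 := by
  by_contra hbig
  obtain ⟨L⟩ := hL.lox v
  obtain ⟨L'⟩ := hL.lox w
  have a1 := hL.Y_x L hp
  have a2 := hL.Y_x L hq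
  have a3 := hL.Y_x L' hp'
  have a4 := hL.Y_x L' hq'
  have a5 := S.disp_move L'.x p' p
  have a6 := S.disp_move L'.x q' q
  have := S.d_comm p p'
  have := S.d_comm q q'
  have m1 : L.x ∈ S.U 6000000 p q := ⟨by omega, by omega⟩
  have m2 : L'.x ∈ S.U 6000000 p q := ⟨by omega, by omega⟩
  rcases hL.acyl p q (by omega) with ⟨H, h3, h4⟩ | ⟨g, h3, h4⟩
  · exact L.x_not_fin (finOrder_of_mem h3 (h4 m1))
  · apply hvw; apply Subtype.ext
    rw [← hL.Ec_x L, ← hL.Ec_x L', hL.pre.Ec_eq h3 L.x_not_fin (h4 m1),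
      hL.pre.Ec_eq h3 L'.x_not_fin (h4 m2)]

theorem abs_le {E : Subgroup G} (L : Lox E) {e : G} (he : e ∈ L.P) (y : X) :
    |(L.ψ e).a| ≤ 2000000000000000000000000000 * S.d y (e • y) := by
  have h1 := S.tau_le_one e y
  rw [hL.tau_rot L he] at h1
  have h2 := hL.pre.inj _ L.x_not_fin
  have h3 : (0 : ℝ) ≤ |((L.ψ e).a : ℝ)| := abs_nonneg _
  have : |((L.ψ e).a : ℝ)| ≤ 2000000000000000000000000000 * S.d y (e • y) := by
    push_cast at h2; nlinarith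
  exact_mod_cast this

theorem spin (v : Apx S) (k : G) (hk : k ∈ v.K N) (h1 : k ≠ 1) (y : X) :
    100000 * 300000000000000 ≤ S.d y (k • y) := by
  obtain ⟨L⟩ := hL.lox v
  obtain ⟨j, rfl⟩ := (hL.mem_K L).1 hk
  have h2 := hL.abs_le L (L.x_P (N * j)) y
  rw [L.ψ_zpow, abs_mul] at h2
  have h3 : j ≠ 0 := by rintro rfl; simp at h1
  have h4 := Int.one_le_abs h3
  have h5 := hL.big
  have h6 : (N : ℤ) ≤ |(N : ℤ)| * |j| := by
    rw [Nat.abs_cast]; nlinarith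
  omega

/-- The cone-off of a stage. -/
noncomputable def cone : Cone S (Apx S) where
  δ := 200
  α := 850000
  Δ := 200000000000000
  r := 300000000000000
  Y := Apx.Y
  ne := hL.Y_ne
  Y_smul := hL.Y_smul
  hyp := hL.pre.hyp
  qc := hL.Y_qc
  ovl := hL.Y_ovl
  big := by norm_num

/-- The rotation system of a stage. -/
noncomputable def rot : Rot G (X ⊕ Apx S) :=
  hL.cone.rot (Apx.K N) (fun v _ hk => hL.smul_eq_iff.2 (v.K_le N hk)) (Apx.K_conj N)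
    (fun v k hk h1 y _ => hL.spin v k hk h1 y)

theorem cone_r : hL.cone.r = 300000000000000 := rfl

theorem rot_θ : hL.rot.θ = 15000000000000000 := by
  have : hL.rot.θ = 50 * hL.cone.r := rfl
  rw [this, hL.cone_r]

theorem fix_iff {v : Apx S} {g : G} : g • (Sum.inr v : X ⊕ Apx S) = .inr v ↔ g ∈ v.1 := by
  rw [← hL.smul_eq_iff]
  exact Sum.inr_injective.eq_iff

theorem ang_ge {v : Apx S} {z : X ⊕ Apx S} (hz : z ≠ .inr v) {e : G} (he : e ∈ v.1) :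
    ∃ a ∈ v.Y, S.d a (e • a) ≤ hL.rot.ang (.inr v) z (e • z) ∧
      hL.rot.ang (.inr v) z (e • z) ≤ S.d a (e • a) + 600000000000000 := by
  obtain ⟨a, ha⟩ := hL.cone.Pr_ne v z
  have h2 := hL.cone.Pr_smul e ha
  rw [hL.smul_eq_iff.2 he] at h2
  have h3 := Rot.smul_ne (hL.fix_iff.2 he) hz
  obtain ⟨s, hs, h4⟩ := id ha
  have h5 : hL.rot.ang (.inr v) z (e • z) ≤ _ := hL.cone.ang_le hz h3 ha h2
  rw [hL.cone_r] at h5
  exact ⟨a, h4.1, hL.cone.le_ang hz h3 ha h2, by omega⟩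

theorem ang_F {v : Apx S} (L : Lox v.1) {z : X ⊕ Apx S} (hz : z ≠ .inr v) {f : G} (hf : f ∈ L.F) :
    hL.rot.ang (.inr v) z (f • z) ≤ hL.rot.θ := by
  obtain ⟨a, ha, -, h⟩ := hL.ang_ge hz hf.1
  have := hL.Y_F L ha hf
  rw [hL.rot_θ]; omega

theorem half {v : Apx S} (L : Lox v.1) : ∃ ζ ∈ v.1, (L.ψ ζ).s = false ∧ 2 * (L.ψ ζ).a = N ∧
    ∀ e ∈ v.1, e * ζ * e⁻¹ * ζ⁻¹ ∈ v.K N := by
  obtain ⟨k, hk⟩ := hL.pow
  have hk3 : 3 ≤ k := by
    by_contra h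
    have := hL.big
    have : 2 ^ k ≤ 2 ^ 3 := Nat.pow_le_pow_right (by omega) (by omega)
    omega
  obtain ⟨s, hs, h1, h2, -, -, h3, -⟩ := (L.sep hL.pre.alg).sel [] (by simp) (2 ^ (k - 3)) (by
    rw [hk, ← pow_add]; congr 1; simp; omega)
  refine ⟨s * s, v.1.mul_mem hs hs, ?_, ?_, fun e he => ?_⟩
  · rw [L.mul _ hs _ hs]; simp
  · rw [L.mul _ hs _ hs]; simp [h1]; omega
  · rw [hL.K_eq L]; exact h3 e he

theorem ea (v : Apx S) (T : Subgroup G) (hT : (T : Set G).Finite) (hle : T ≤ v.1) (z : X ⊕ Apx S)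
    (hz : z ≠ .inr v)
    (h : ∀ t ∈ T, ∃ ρ ∈ v.K N, hL.rot.ang (.inr v) z (ρ • t • z) ≤ 4 * hL.rot.θ) :
    ∃ c ∈ v.1, (∀ e ∈ v.1, e * c * e⁻¹ * c⁻¹ ∈ v.K N) ∧
      ∀ t ∈ T, hL.rot.ang (.inr v) (c • z) (t • c • z) ≤ 6 * hL.rot.θ := by
  obtain ⟨L⟩ := hL.lox v
  obtain ⟨u, hu, -, hA⟩ := L.le_A hT hle
  by_cases hr : ∃ t ∈ T, (L.ψ t).s = true
  swap
  · refine ⟨1, v.1.one_mem, by simp, fun t ht => ?_⟩
    have : t ∈ L.F := by
      rcases (L.fin_iff (hle ht)).1 (finOrder_of_mem hT ht) with h1 | h1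
      · exact ⟨hle ht, h1⟩
      · exact absurd ⟨t, ht, h1⟩ hr
    have := hL.ang_F L hz this
    simp only [one_smul]; omega
  obtain ⟨t0, ht0, hs0⟩ := hr
  obtain ⟨ρ, hρ, h1⟩ := h t0 ht0
  obtain ⟨j, rfl⟩ := (hL.mem_K L).1 hρ
  obtain ⟨ζ, hζ, z1, z2, z3⟩ := hL.half L
  have hc := v.1.zpow_mem hζ (-j)
  have ψc : L.ψ (ζ ^ (-j)) = ⟨false, -j * (L.ψ ζ).a⟩ := by
    rw [L.mul.zpow hζ, Dih.zpow_rot _ z1]; simp
  refine ⟨ζ ^ (-j), hc, fun e he => ?_, fun t ht => ?_⟩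
  · have hn : ∀ e ∈ v.1, ∀ k ∈ v.K N, e * k * e⁻¹ ∈ v.K N := fun e he k hk => by
      have := Apx.K_conj N e v k hk
      rwa [hL.smul_eq_iff.2 he] at this
    generalize -j = i
    induction i using Int.induction_on with
    | zero => simp
    | succ i ih =>
      have := (v.K N).mul_mem ih (hn _ (v.1.zpow_mem hζ i) _ (z3 e he))
      rwa [show e * ζ ^ (i : ℤ) * e⁻¹ * (ζ ^ (i : ℤ))⁻¹ * (ζ ^ (i : ℤ) * (e * ζ * e⁻¹ * ζ⁻¹) * (ζ ^ (i : ℤ))⁻¹)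
        = e * ζ ^ ((i : ℤ) + 1) * e⁻¹ * (ζ ^ ((i : ℤ) + 1))⁻¹ by group] at this
    | pred i ih =>
      have := (v.K N).mul_mem ih (hn _ (v.1.zpow_mem hζ (-i - 1)) _ ((v.K N).inv_mem (z3 e he)))
      rwa [show e * ζ ^ (-(i : ℤ)) * e⁻¹ * (ζ ^ (-(i : ℤ)))⁻¹ *
        (ζ ^ (-(i : ℤ) - 1) * (e * ζ * e⁻¹ * ζ⁻¹)⁻¹ * (ζ ^ (-(i : ℤ) - 1))⁻¹)
        = e * ζ ^ (-(i : ℤ) - 1) * e⁻¹ * (ζ ^ (-(i : ℤ) - 1))⁻¹ by group] at this
  generalize ζ ^ (-j) = c at hc ψc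
  have fc := hL.fix_iff.2 hc
  have n1 := Rot.smul_ne fc hz
  have hap : hL.rot.Ap (.inr v) := trivial
  have key : hL.rot.ang (.inr v) (c • z) (t0 • c • z) ≤ 5 * hL.rot.θ := by
    have hx := (L.x_P (N * j)).1
    have e1 := v.1.mul_mem (v.1.mul_mem (v.1.inv_mem hc) (hle ht0)) hc
    have e2 := v.1.mul_mem hx (hle ht0)
    have hf := L.eq_F (v.1.inv_mem e1) (v.1.inv_mem e2) (by
      rw [L.mul.inv e1, L.mul.inv e2, L.mul _ hx _ (hle ht0), L.ψ_zpow,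
        L.mul _ (v.1.mul_mem (v.1.inv_mem hc) (hle ht0)) _ hc, L.mul _ (v.1.inv_mem hc) _ (hle ht0),
        L.mul.inv hc, ψc]
      congr 1
      ext
      · simp
      · simp [hs0]; rw [← z2]; ring)
    rw [inv_inv] at hf
    have n2 := Rot.smul_ne (hL.fix_iff.2 e2) hz
    have h2 := hL.ang_F L n2 hf
    rw [← mul_smul, inv_mul_cancel_right] at h2
    have n3 := Rot.smul_ne (hL.fix_iff.2 e1) hz
    have h3 := hL.rot.ang_tri _ _ _ _ hap hz n2 n3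
    rw [← mul_smul] at h1
    have h4 := hL.rot.ang_rot fc z ((c⁻¹ * t0 * c) • z)
    simp only [mul_smul, smul_inv_smul] at h1 h2 h3 h4
    omega
  rcases (hA ht).2 with h2 | h2
  · have := hL.ang_F L n1 ⟨hle ht, h2⟩
    omega
  · have h3 : L.ψ t0 = u := by
      rcases (hA ht0).2 with h3 | h3
      · rw [h3] at hs0; simp at hs0
      · exact h3
    have hf := L.eq_F (v.1.inv_mem (hle ht)) (v.1.inv_mem (hle ht0)) (by
      rw [L.mul.inv (hle ht), L.mul.inv (hle ht0), h2, h3])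
    rw [inv_inv] at hf
    have n2 := Rot.smul_ne (hL.fix_iff.2 (hle ht0)) n1
    have h4 := hL.ang_F L n2 hf
    rw [← mul_smul (t * t0⁻¹), inv_mul_cancel_right] at h4
    have := hL.rot.ang_tri _ _ _ _ hap n1 n2 (Rot.smul_ne (hL.fix_iff.2 (hle ht)) n1)
    omega

omit hL in
theorem exists_half {k : ℕ} {j : ℤ} (h : ¬ (2 : ℤ) ^ k ∣ j) :
    ∃ c : ℕ, ∃ i : ℤ, 2 * (c * j) = 2 ^ k * (2 * i + 1) := by
  induction k generalizing j with
  | zero => simp at h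
  | succ k ih =>
    rcases Int.even_or_odd' j with ⟨i, rfl | rfl⟩
    · obtain ⟨c, i', e⟩ := ih (j := i) (fun h1 => h (by rw [pow_succ']; exact mul_dvd_mul_left 2 h1))
      exact ⟨c, i', by rw [pow_succ']; linear_combination 2 * e⟩
    · exact ⟨2 ^ k, i, by push_cast; ring⟩

theorem eb (v : Apx S) (z : X ⊕ Apx S) (hz : z ≠ .inr v) (H : Subgroup G) (hle : H ≤ v.1)
    (h : ∀ e ∈ H, ∃ ρ ∈ v.K N, hL.rot.ang (.inr v) z (ρ • e • z) ≤ 4 * hL.rot.θ) :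
    ∃ A : Subgroup G, (A : Set G).Finite ∧ A ≤ v.1 ∧ ∀ e ∈ H, ∃ ρ ∈ v.K N, ρ * e ∈ A := by
  obtain ⟨L⟩ := hL.lox v
  have key : ∀ e ∈ H, (L.ψ e).s = false → (N : ℤ) ∣ (L.ψ e).a := by
    intro e he hs
    by_contra hnd
    obtain ⟨k, hk⟩ := hL.pow
    obtain ⟨c, i, e1⟩ := exists_half (k := k) (j := (L.ψ e).a) (by rwa [hk] at hnd)
    obtain ⟨ρ, hρ, h1⟩ := h _ (H.pow_mem he c)
    obtain ⟨j, rfl⟩ := (hL.mem_K L).1 hρ
    have hP := L.P.mul_mem (L.x_P (N * j)) (L.P.pow_mem ⟨hle he, hs⟩ c)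
    obtain ⟨a, -, h2, -⟩ := hL.ang_ge hz hP.1
    have h3 := hL.abs_le L hP a
    rw [L.mul _ (L.x_P _).1 _ (v.1.pow_mem (hle he) c), L.ψ_zpow, L.mul.pow (hle he),
      Dih.pow_rot _ hs] at h3
    rw [← mul_smul, hL.rot_θ] at h1
    simp only [Dih.mul_a, Bool.false_eq_true, if_false, nsmul_eq_mul] at h3
    have h4 : 2 * ((N : ℤ) * j + c * (L.ψ e).a) = N * (2 * (i + j) + 1) := by
      rw [hk]; push_cast; linear_combination e1
    have h5 : (N : ℤ) ≤ 2 * |(N : ℤ) * j + c * (L.ψ e).a| := by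
      have h6 : 1 ≤ |2 * (i + j) + 1| := Int.one_le_abs (by omega)
      have h7 := congrArg abs h4
      rw [abs_mul, abs_mul, Nat.abs_cast] at h7
      have : |(2 : ℤ)| = 2 := rfl
      rw [this] at h7
      nlinarith
    have := hL.big
    omega
  have rot : ∀ e ∈ v.1, ∀ e0 ∈ v.1, (L.ψ (e * e0⁻¹)).s = false → (N : ℤ) ∣ (L.ψ (e * e0⁻¹)).a →
      ∃ ρ ∈ v.K N, L.ψ (ρ * e) = L.ψ e0 := by
    rintro e he e0 he0 h1 ⟨j, hj⟩
    refine ⟨L.x ^ (N * -j), (hL.mem_K L).2 ⟨_, rfl⟩, ?_⟩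
    have h2 := v.1.mul_mem he (v.1.inv_mem he0)
    rw [show L.x ^ ((N : ℤ) * -j) * e = L.x ^ ((N : ℤ) * -j) * (e * e0⁻¹) * e0 by group,
      L.mul _ (v.1.mul_mem (L.x_P _).1 h2) _ he0, L.mul _ (L.x_P _).1 _ h2, L.ψ_zpow]
    have : (⟨false, N * -j⟩ : Dih ℤ) * L.ψ (e * e0⁻¹) = 1 := by ext <;> simp [h1, hj]
    rw [this, one_mul]
  have rot1 : ∀ e ∈ H, (L.ψ e).s = false → ∃ ρ ∈ v.K N, L.ψ (ρ * e) = 1 := by
    intro e he hs
    have := rot e (hle he) 1 v.1.one_mem (by simpa using hs) (by simpa using key e he hs)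
    rwa [L.mul.one] at this
  by_cases hr : ∃ e0 ∈ H, (L.ψ e0).s = true
  · obtain ⟨e0, he0, hs0⟩ := hr
    refine ⟨L.A _ (Dih.sq_refl _ hs0), L.A_fin _ _, fun _ h => h.1, fun e he => ?_⟩
    rcases hs : (L.ψ e).s
    · obtain ⟨ρ, hρ, h1⟩ := rot1 e he hs
      exact ⟨ρ, hρ, v.1.mul_mem (v.K_le N hρ) (hle he), Or.inl h1⟩
    · have h2 : (L.ψ (e * e0⁻¹)).s = false := by
        rw [L.mul _ (hle he) _ (v.1.inv_mem (hle he0)), L.mul.inv (hle he0)]; simp [hs, hs0]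
      obtain ⟨ρ, hρ, h1⟩ := rot e (hle he) e0 (hle he0) h2
        (key _ (H.mul_mem he (H.inv_mem he0)) h2)
      exact ⟨ρ, hρ, v.1.mul_mem (v.K_le N hρ) (hle he), Or.inr h1⟩
  · refine ⟨L.F, L.F_fin, L.F_le, fun e he => ?_⟩
    obtain ⟨ρ, hρ, h1⟩ := rot1 e he (by
      rcases hs : (L.ψ e).s
      · rfl
      · exact absurd ⟨e, he, hs⟩ hr)
    exact ⟨ρ, hρ, v.1.mul_mem (v.K_le N hρ) (hle he), h1⟩

theorem Y_cocompact (v : Apx S) {p : X} (hp : p ∈ v.Y) {y : X} (hy : y ∈ v.Y) :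
    ∃ ρ ∈ v.K N, S.d p (ρ • y) ≤ N * 120001 + 360601 := by
  obtain ⟨L⟩ := hL.lox v
  obtain ⟨j, hj⟩ := hL.Y_close L hp hy
  have hN : (0 : ℤ) < N := by exact_mod_cast hL.pre.npos
  refine ⟨L.x ^ (N * -(j / N)), (hL.mem_K L).2 ⟨_, rfl⟩, ?_⟩
  rw [← S.iso (L.x ^ ((N : ℤ) * -(j / N))), ← mul_smul, ← zpow_add] at hj
  have e : (N : ℤ) * -(j / N) + j = ((j % N).toNat : ℤ) := by
    have := Int.mul_ediv_add_emod j N
    rw [Int.toNat_of_nonneg (Int.emod_nonneg _ hN.ne')]; linarith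
  rw [e, zpow_natCast] at hj
  have h1 := S.disp_pow L.x p (j % N).toNat
  have h2 : (j % N).toNat * S.d p (L.x • p) ≤ N * 120001 := by
    apply Nat.mul_le_mul _ (hL.Y_x L hp)
    have := Int.emod_lt_of_pos j hN
    omega
  have := S.d_tri p (L.x ^ (j % N).toNat • p) (L.x ^ ((N : ℤ) * -(j / N)) • y)
  have := S.d_comm (L.x ^ (j % N).toNat • p) (L.x ^ ((N : ℤ) * -(j / N)) • y)
  omega

theorem ext : hL.rot.Ext where
  ea u hu T hT h1 z hz h2 := by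
    obtain ⟨v, rfl⟩ := Cone.ap_eq hu
    obtain ⟨c, c1, c2, c3⟩ := hL.ea v T hT (fun t ht => hL.fix_iff.1 (h1 t ht)) z hz h2
    exact ⟨c, hL.fix_iff.2 c1, fun e he => c2 e (hL.fix_iff.1 he), c3⟩
  eb u hu z hz H h1 h2 := by
    obtain ⟨v, rfl⟩ := Cone.ap_eq hu
    obtain ⟨A, a1, a2, a3⟩ := hL.eb v z hz H (fun t ht => hL.fix_iff.1 (h1 t ht)) h2
    exact ⟨A, a1, fun a ha => hL.fix_iff.2 (a2 ha), a3⟩
  lf1 a ha := by
    obtain ⟨x, rfl⟩ := Cone.pt_eq ha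
    have h1 := (S.ball_finite hL.pre.lf x 300000000000000).image (Sum.inl : X → X ⊕ Apx S)
    have h2 : {v : Apx S | x ∈ v.Y}.Finite := by
      refine Set.Finite.of_finite_image (f := Subtype.val)
        (((hL.pre.proper x 120001).image Ec).subset ?_) Subtype.val_injective.injOn
      rintro _ ⟨v, hv, rfl⟩
      obtain ⟨L⟩ := hL.lox v
      exact ⟨L.x, hL.Y_x L hv, hL.Ec_x L⟩
    refine (h1.union (h2.image Sum.inr)).subset fun z hz => ?_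
    have := hL.cone.d_le_one.1 hz
    rcases z with y | v
    · exact Or.inl ⟨y, this, rfl⟩
    · exact Or.inr ⟨v, this, rfl⟩
  lf2 u hu := by
    obtain ⟨v, rfl⟩ := Cone.ap_eq hu
    obtain ⟨p, hp⟩ := hL.Y_ne v
    refine ⟨_, ((S.ball_finite hL.pre.lf p (N * 120001 + 360601)).image Sum.inl).insert (.inr v),
      fun z hz => ?_⟩
    have := hL.cone.d_le_one.1 hz
    rcases z with y | w
    · obtain ⟨ρ, hρ, h⟩ := hL.Y_cocompact v hp this
      exact ⟨ρ, hρ, Or.inr ⟨_, h, rfl⟩⟩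
    · have e : v = w := this
      exact ⟨1, Subgroup.one_mem _, Or.inl (by simp [e])⟩
  lf3 a ha := by
    obtain ⟨x, rfl⟩ := Cone.pt_eq ha
    exact (hL.pre.stab x).subset fun g hg => Sum.inl_injective hg
  lf4 u hu := by
    obtain ⟨v, rfl⟩ := Cone.ap_eq hu
    obtain ⟨p, hp⟩ := hL.Y_ne v
    refine ⟨_, hL.pre.proper p (N * 120001 + 360601), fun e he => ?_⟩
    obtain ⟨ρ, hρ, h⟩ := hL.Y_cocompact v hp (hL.Y_E (hL.fix_iff.1 he) hp)
    exact ⟨ρ, hρ, by rwa [← mul_smul] at h⟩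
  fix H hH := by
    obtain ⟨x, hx⟩ := hL.pre.fix H hH
    exact ⟨.inl x, fun h => h, fun h hh => congrArg Sum.inl (hx h hh)⟩

end Lev

end Pool.Agent.Lib.OCn
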