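import Pool.Agent.Lib.MP_de4dbb_al.Geo

/-! Axes of isometries of hyperbolic spaces. -/

namespace Pool.Agent.Lib.OCn

namespace GSp

variable {G X : Type} [Group G] [MulAction G X] (S : GSp G X) {δ : ℕ}

theorem d_pow_add (h : G) (p : X) (i j : ℕ) :
    S.d (h ^ i • p) (h ^ (i + j) • p) = S.d p (h ^ j • p) := by
  rw [pow_add, mul_smul, S.iso]

theorem d_zpow (h : G) (p : X) (i j : ℤ) :
    S.d (h ^ i • p) (h ^ j • p) = S.d p (h ^ (j - i) • p) := by
  rw [← S.iso (h ^ i) p, ← mul_smul, ← zpow_add, add_sub_cancel]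

theorem chain_pow (hδ : S.Hyp δ) (h : G) (p : X) (a : ℕ)
    (h1 : 2 * S.d p (h • p) ≤ S.d p (h ^ 2 • p) + a) (h2 : a + δ < S.d p (h • p)) (i : ℕ) :
    S.d p (h ^ i • p) + S.d p (h • p) ≤ S.d p (h ^ (i + 1) • p) + (a + δ) := by
  have := S.toGeoMet.chain hδ (fun i => h ^ i • p) a (fun i => by
    simp only [S.d_pow_add, show i + 2 = (i + 1) + 1 from rfl, pow_one]
    rw [show i + 1 + 1 = i + 2 from rfl, S.d_pow_add]; omega)
    (fun i => by simp only [S.d_pow_add, pow_one]; exact h2) i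
  simpa only [pow_zero, one_smul, S.d_pow_add, pow_one] using this

theorem disp_two (hδ : S.Hyp δ) (h : G) (p : X) :
    (S.d p (h ^ 2 • p) : ℝ) ≤ S.d p (h • p) + S.tau h + δ := by
  have h0 := S.disp_pow h p 2
  obtain ⟨a, ha⟩ : ∃ a, 2 * S.d p (h • p) = S.d p (h ^ 2 • p) + a := ⟨_, (Nat.add_sub_cancel' h0).symm⟩
  have ha' : 2 * (S.d p (h • p) : ℝ) = S.d p (h ^ 2 • p) + a := by exact_mod_cast ha
  have ht := S.tau_nonneg h
  by_cases h2 : a + δ < S.d p (h • p)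
  · have hc := S.chain_pow hδ h p a ha.le h2
    have key : ∀ i : ℕ, ((S.d p (h • p) : ℝ) - a - δ) * i ≤ S.d p (h ^ i • p) := by
      intro i
      induction i with
      | zero => simp
      | succ i ih =>
        have : (S.d p (h ^ i • p) : ℝ) + S.d p (h • p) ≤ S.d p (h ^ (i + 1) • p) + (a + δ) := by
          exact_mod_cast hc i
        push_cast; linarith
    have := S.le_tau h p ((S.d p (h • p) : ℝ) - a - δ) 0 fun n => ⟨n, le_rfl, by simpa using key n⟩
    linarith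
  · have : (S.d p (h • p) : ℝ) ≤ a + δ := by exact_mod_cast not_lt.1 h2
    linarith

theorem exists_common [Nonempty X] (hδ : S.Hyp δ) (g : G) (m : ℕ) :
    ∃ p : X, ∀ j, j ≤ m → (S.d p (g ^ j • p) : ℝ) ≤ m * S.tau g + (9 * δ + 4) := by
  classical
  have hex : ∃ n, ∃ p : X, ∀ j, j ≤ m → S.d p (g ^ j • p) ≤ n := by
    obtain ⟨p⟩ := ‹Nonempty X›
    refine ⟨m * S.d p (g • p), p, fun j hj => (S.disp_pow g p j).trans ?_⟩
    exact Nat.mul_le_mul_right _ hj
  obtain ⟨p, hp⟩ := Nat.find_spec hex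
  set D := Nat.find hex with hD
  have ht := S.tau_nonneg g
  by_cases hbig : (D : ℝ) ≤ m * S.tau g + (9 * δ + 4)
  · refine ⟨p, fun j hj => le_trans ?_ hbig⟩
    exact_mod_cast hp j hj
  exfalso
  push Not at hbig
  have hmt : (0 : ℝ) ≤ m * S.tau g := by positivity
  have hD1 : 9 * δ + 4 < D := by
    have : ((9 * δ + 4 : ℕ) : ℝ) < D := by push_cast; linarith
    exact_mod_cast this
  have hmin : ∀ y : X, ∃ j, j ≤ m ∧ D ≤ S.d y (g ^ j • y) := by
    intro y
    have := Nat.find_min hex (show D - 1 < D by omega)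
    push Not at this
    obtain ⟨j, hj, h2⟩ := this y
    exact ⟨j, hj, by omega⟩
  obtain ⟨j0, hj0, hj0D⟩ := hmin p
  have hj0' := hp j0 hj0
  obtain ⟨y, hy1, hy2⟩ := S.geo p (g ^ j0 • p) (2 * δ + 1) (by omega)
  obtain ⟨j, hj, hjD⟩ := hmin y
  have hDj := hp j hj
  by_cases hc : (2 * (2 * δ + 1) + j * S.tau g + δ : ℝ) ≤ S.d p (g ^ j • p)
  · have l2 := S.disp_two hδ (g ^ j) p
    rw [S.tau_pow] at l2
    have hjt : (0 : ℝ) ≤ j * S.tau g := by positivity
    have e1 : S.d p ((g ^ j) ^ 2 • p) + 2 * (2 * δ + 1) ≤ 2 * S.d p (g ^ j • p) := by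
      have : (S.d p ((g ^ j) ^ 2 • p) : ℝ) + 2 * (2 * δ + 1) ≤ 2 * S.d p (g ^ j • p) := by linarith
      exact_mod_cast this
    have e2 : 2 * (2 * δ + 1) ≤ S.d p (g ^ j • p) := by
      have hδ0 : (0 : ℝ) ≤ δ := by positivity
      have : (2 * (2 * δ + 1) : ℝ) ≤ S.d p (g ^ j • p) := by linarith
      exact_mod_cast this
    have e3 : S.d (g ^ j0 • p) (g ^ j • p) ≤ D := by
      rcases le_total j0 j with h | h
      · obtain ⟨k, rfl⟩ := Nat.exists_eq_add_of_le h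
        rw [S.d_pow_add]; exact hp k (by omega)
      · obtain ⟨k, rfl⟩ := Nat.exists_eq_add_of_le h
        rw [S.d_comm, S.d_pow_add]; exact hp k (by omega)
    set h := g ^ j
    have e4 : S.d (h • p) (h⁻¹ • p) = S.d p (h ^ 2 • p) := by
      rw [S.iso_inv', S.d_comm, ← mul_smul, sq]
    have e5 := S.disp_inv h p
    have e6 : S.d y (h⁻¹ • p) = S.d p (h • y) := by rw [S.iso_inv', S.d_comm]
    have e7 := S.iso h p y
    have b1 := hδ p y (g ^ j0 • p) (h • p)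
    have b2 := hδ p y (h • p) (h⁻¹ • p)
    have b3 := hδ p y (h • p) (h • y)
    have b4 := S.d_tri p (h • y) (h • p)
    have := S.d_comm (h • p) (h • y)
    omega
  · push Not at hc
    have e1 := S.disp_move (g ^ j) p y
    have hjm : (j : ℝ) * S.tau g ≤ m * S.tau g := by
      apply mul_le_mul_of_nonneg_right _ ht; exact_mod_cast hj
    have : (S.d p (g ^ j • p) : ℝ) + 2 * (2 * δ + 1) < D := by linarith
    have : S.d p (g ^ j • p) + 2 * (2 * δ + 1) < D := by exact_mod_cast this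
    omega

theorem axis_step (hδ : S.Hyp δ) (h : G) (p : X) (a : ℕ)
    (h1 : 2 * S.d p (h • p) ≤ S.d p (h ^ 2 • p) + a) (h2 : a + 2 * δ < S.d p (h • p)) (k : ℕ) :
    (S.d p (h ^ k • p) : ℝ) ≤ k * S.tau h + (a + 2 * δ) := by
  have two : ∀ k, 2 * S.d p (h ^ k • p) ≤ S.d p (h ^ (2 * k) • p) + (a + 2 * δ) := by
    intro k
    rcases k with _ | k
    · simp [S.d_self]
    have c1 := S.chain_pow hδ h p a h1 (by omega) (k + 1)
    have c2 := S.chain_pow hδ h p a h1 (by omega) k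
    have b := hδ (h ^ (k + 1) • p) p (h ^ (2 * (k + 1)) • p) (h ^ (k + 1 + 1) • p)
    have e1 : S.d (h ^ (k + 1) • p) (h ^ (2 * (k + 1)) • p) = S.d p (h ^ (k + 1) • p) := by
      rw [show 2 * (k + 1) = (k + 1) + (k + 1) by ring, S.d_pow_add]
    have e2 : S.d (h ^ (k + 1) • p) (h ^ (k + 1 + 1) • p) = S.d p (h • p) := by
      rw [S.d_pow_add, pow_one]
    have e3 : S.d (h ^ (2 * (k + 1)) • p) (h ^ (k + 1 + 1) • p) = S.d p (h ^ k • p) := by
      rw [S.d_comm, show 2 * (k + 1) = (k + 1 + 1) + k by ring, S.d_pow_add]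
    have := S.d_comm (h ^ (k + 1) • p) p
    omega
  have dbl : ∀ s : ℕ, 2 ^ s * ((S.d p (h ^ k • p) : ℝ) - (a + 2 * δ)) + (a + 2 * δ) ≤
      S.d p ((h ^ k) ^ (2 ^ s) • p) := by
    intro s
    induction s with
    | zero => simp
    | succ s ih =>
      have := two (k * 2 ^ s)
      rw [show 2 * (k * 2 ^ s) = k * 2 ^ (s + 1) by ring, pow_mul, pow_mul] at this
      have : 2 * (S.d p ((h ^ k) ^ 2 ^ s • p) : ℝ) ≤
          S.d p ((h ^ k) ^ 2 ^ (s + 1) • p) + (a + 2 * δ) := by exact_mod_cast this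
      rw [pow_succ (2 : ℝ) s]
      linarith
  have : Nonempty X := ⟨p⟩
  have := S.le_tau (h ^ k) p ((S.d p (h ^ k • p) : ℝ) - (a + 2 * δ)) 0 fun n =>
    ⟨2 ^ n, Nat.lt_two_pow_self.le, by
      have := dbl n
      have : (0 : ℝ) ≤ a + 2 * δ := by positivity
      push_cast; linarith⟩
  rw [S.tau_pow] at this
  linarith

/-- The axis lemma. -/
theorem exists_axis [Nonempty X] (hδ : S.Hyp δ) (g : G) (hg : 0 < S.tau g) :
    ∃ p : X, ∀ j : ℕ, (S.d p (g ^ j • p) : ℝ) ≤ j * S.tau g + (69 * δ + 30) := by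
  classical
  have hex : ∃ m : ℕ, (20 * δ + 9 : ℝ) ≤ m * S.tau g := by
    obtain ⟨m, hm⟩ := exists_nat_ge ((20 * δ + 9 : ℝ) / S.tau g)
    exact ⟨m, by rwa [div_le_iff₀ hg] at hm⟩
  have hm := Nat.find_spec hex
  set m := Nat.find hex with hmdef
  have hδ0 : (0 : ℝ) ≤ δ := by positivity
  have hm0 : m ≠ 0 := by
    intro h; rw [h] at hm; simp at hm; linarith
  have hm1 : ((m - 1 : ℕ) : ℝ) * S.tau g < 20 * δ + 9 :=
    not_le.1 (Nat.find_min hex (show m - 1 < m by omega))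
  obtain ⟨p, hp⟩ := S.exists_common hδ g m
  refine ⟨p, fun j => ?_⟩
  have l1 := S.tau_le g p m
  have l2 := S.tau_le (g ^ m) p 2
  rw [S.tau_pow] at l2
  have l3 := hp m le_rfl
  have h1 : 2 * S.d p (g ^ m • p) ≤ S.d p ((g ^ m) ^ 2 • p) + (18 * δ + 8) := by
    have : 2 * (S.d p (g ^ m • p) : ℝ) ≤ S.d p ((g ^ m) ^ 2 • p) + (18 * δ + 8) := by
      push_cast at l2; linarith
    exact_mod_cast this
  have h2 : (18 * δ + 8) + 2 * δ < S.d p (g ^ m • p) := by
    have : (18 * δ + 8 : ℝ) + 2 * δ < S.d p (g ^ m • p) := by linarith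
    exact_mod_cast this
  have h3 := S.axis_step hδ (g ^ m) p _ h1 h2 (j / m)
  rw [S.tau_pow] at h3
  have hj : j = m * (j / m) + j % m := (Nat.div_add_mod j m).symm
  have h4 := S.disp_mul ((g ^ m) ^ (j / m)) (g ^ (j % m)) p
  rw [← pow_mul, ← pow_add, ← hj, pow_mul] at h4
  have h4' : (S.d p (g ^ j • p) : ℝ) ≤ S.d p ((g ^ m) ^ (j / m) • p) + S.d p (g ^ (j % m) • p) := by
    exact_mod_cast h4
  have h5 : ((j / m : ℕ) : ℝ) * (m * S.tau g) ≤ j * S.tau g := by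
    rw [← mul_assoc]
    apply mul_le_mul_of_nonneg_right _ hg.le
    exact_mod_cast Nat.div_mul_le_self j m
  have h6 : (S.d p (g ^ (j % m) • p) : ℝ) ≤ 49 * δ + 22 := by
    by_cases hm2 : m = 1
    · rw [hm2, Nat.mod_one, pow_zero, one_smul, S.d_self]; push_cast; positivity
    · have h7 := hp (j % m) (Nat.mod_lt _ (by omega)).le
      have h8 : (m : ℝ) = (m - 1 : ℕ) + 1 := by
        rw [Nat.cast_sub (by omega)]; simp
      have h9 : (1 : ℝ) ≤ (m - 1 : ℕ) := by exact_mod_cast (show 1 ≤ m - 1 by omega)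
      have : S.tau g ≤ (m - 1 : ℕ) * S.tau g := by nlinarith
      rw [h8] at h7
      linarith
  push_cast at h3
  linarith

theorem axis_zpow (g : G) (p : X) (C : ℝ)
    (hp : ∀ j : ℕ, (S.d p (g ^ j • p) : ℝ) ≤ j * S.tau g + C) (j : ℤ) :
    (S.d p (g ^ j • p) : ℝ) ≤ |(j : ℝ)| * S.tau g + C := by
  obtain ⟨k, rfl | rfl⟩ := j.eq_nat_or_neg
  · rw [zpow_natCast]; simpa using hp k
  · rw [zpow_neg, S.disp_inv, zpow_natCast]; simpa using hp k

theorem tau_le_zpow (g : G) (p : X) (j : ℤ) : |(j : ℝ)| * S.tau g ≤ S.d p (g ^ j • p) := by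
  have : Nonempty X := ⟨p⟩
  rw [← S.tau_zpow]; exact S.tau_le_one _ _

/-- A point almost between two points of an axial orbit is near the orbit. -/
theorem near_orbit (hδ : S.Hyp δ) (g : G) (p q : X) (C κ T : ℕ) (hT : S.tau g ≤ T)
    (hp : ∀ j : ℕ, (S.d p (g ^ j • p) : ℝ) ≤ j * S.tau g + C) (n : ℕ) (hκ : 2 * C ≤ κ)
    (hq : S.d p q + S.d q (g ^ n • p) ≤ S.d p (g ^ n • p) + κ) :
    ∃ j : ℕ, S.d q (g ^ j • p) ≤ T + C + κ + δ := by
  classical
  by_cases hfar : S.d p (g ^ n • p) ≤ S.d p q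
  · exact ⟨n, by omega⟩
  have hex : ∃ j, S.d p q < S.d p (g ^ j • p) := ⟨n, by omega⟩
  have hj := Nat.find_spec hex
  have hjn : Nat.find hex ≤ n := Nat.find_min' hex (by omega)
  set j := Nat.find hex
  have hj0 : j ≠ 0 := by
    intro h; rw [h, pow_zero, one_smul, S.d_self] at hj; omega
  have hj1 := Nat.find_min hex (show j - 1 < j by omega)
  refine ⟨j, ?_⟩
  have e1 : S.d p (g ^ j • p) ≤ S.d p (g ^ (j - 1) • p) + S.d p (g • p) := by
    have := S.disp_mul (g ^ (j - 1)) g p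
    rwa [← pow_succ, show j - 1 + 1 = j by omega] at this
  have e2 : S.d p (g • p) ≤ T + C := by
    have := hp 1
    have : (S.d p (g • p) : ℝ) ≤ T + C := by simp at this; linarith
    exact_mod_cast this
  have e3 : S.d p (g ^ j • p) + S.d (g ^ j • p) (g ^ n • p) ≤ S.d p (g ^ n • p) + 2 * C := by
    obtain ⟨k, hk⟩ := Nat.exists_eq_add_of_le hjn
    rw [hk, S.d_pow_add]
    have a1 := hp j
    have a2 := hp k
    have a3 := S.tau_le g p (j + k)
    have : (S.d p (g ^ j • p) : ℝ) + S.d p (g ^ k • p) ≤ S.d p (g ^ (j + k) • p) + 2 * C := by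
      push_cast at a3; linarith
    exact_mod_cast this
  have := S.toGeoMet.thin hδ p (g ^ n • p) q (g ^ j • p) κ (T + C) hq (by omega) (by omega) (by omega)
  omega

/-- Two axial points are close up to translation. -/
theorem close (hδ : S.Hyp δ) (g : G) (hg : 0 < S.tau g) (p q : X) (C T : ℕ) (hT : S.tau g ≤ T)
    (hp : ∀ j : ℕ, (S.d p (g ^ j • p) : ℝ) ≤ j * S.tau g + C) (m : ℕ) (hm : 0 < m)
    (hq : ∀ i : ℕ, (S.d q (g ^ (m * i) • q) : ℝ) ≤ (m * i : ℕ) * S.tau g + C) :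
    ∃ j : ℤ, S.d q (g ^ j • p) ≤ T + 3 * C + 3 * δ := by
  obtain ⟨i, hi⟩ := exists_nat_gt ((S.d p q + C + δ : ℝ) / S.tau g)
  rw [div_lt_iff₀ hg] at hi
  set n := m * i with hn
  have hin : (i : ℝ) * S.tau g ≤ n * S.tau g := by
    apply mul_le_mul_of_nonneg_right _ hg.le
    exact_mod_cast Nat.le_mul_of_pos_left i hm
  have a1 := S.tau_le g q n
  have a2 : (S.d q (g ^ n • q) : ℝ) ≤ n * S.tau g + C := hq i
  have a3 := S.tau_le g q (n + n)
  have b1 : S.d p q + C + δ < S.d q (g ^ n • q) := by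
    have : (S.d p q + C + δ : ℝ) < S.d q (g ^ n • q) := by linarith
    exact_mod_cast this
  have b2 : 2 * S.d q (g ^ n • q) ≤ S.d q (g ^ (n + n) • q) + 2 * C := by
    have : 2 * (S.d q (g ^ n • q) : ℝ) ≤ S.d q (g ^ (n + n) • q) + 2 * C := by
      push_cast at a3; linarith
    exact_mod_cast this
  have c1 := hδ (g ^ n • q) q p (g ^ (n + n) • q)
  have c2 := hδ (g ^ n • q) p (g ^ (n + n) • p) (g ^ (n + n) • q)
  have e1 := S.d_pow_add g q n n
  have e2 := S.iso (g ^ (n + n)) p q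
  have t1 := S.d_tri (g ^ n • q) p q
  have t2 := S.d_tri (g ^ n • q) (g ^ (n + n) • p) (g ^ (n + n) • q)
  have := S.d_comm (g ^ n • q) q
  have := S.d_comm (g ^ n • q) p
  have := S.d_comm p q
  obtain ⟨j, hj⟩ := S.near_orbit hδ g p (g ^ n • q) C (2 * C + 2 * δ) T hT hp (n + n) (by omega)
    (by omega)
  refine ⟨(j : ℤ) - n, ?_⟩
  rw [← S.iso (g ^ n), ← mul_smul, ← zpow_natCast g n, ← zpow_add, add_sub_cancel, zpow_natCast,
    zpow_natCast]
  omega

end GSp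

end Pool.Agent.Lib.OCn
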