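import Pool.Agent.Lib.MP_de4dbb_al.Tree

/-! The Bass-Serre tree of a free product of finite cyclic groups. -/

namespace Pool.Agent.Lib.OCn

open Monoid Monoid.CoprodI Classical

section

variable {ι : Type} {M : ι → Type} [∀ i, Group (M i)]

/-- The reduced word of the inverse. -/
noncomputable def wd (g : CoprodI M) : Word M := g⁻¹ • Word.empty

theorem wd_mul (g h : CoprodI M) : wd (g * h) = h⁻¹ • wd g := by
  rw [wd, wd, mul_inv_rev, mul_smul]

theorem wd_inj {g h : CoprodI M} (e : wd g = wd h) : g = h :=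
  inv_injective (Word.equiv.injective e)

/-- The shortest element of a coset. -/
noncomputable def low (i : ι) (g : CoprodI M) : CoprodI M := g * of (Word.equivPair i (wd g)).head

theorem wd_low (i : ι) (g : CoprodI M) : wd (low i g) = (Word.equivPair i (wd g)).tail := by
  rw [low, wd_mul, Word.equivPair_tail_eq_inv_smul]

theorem low_mul (i : ι) (g : CoprodI M) (m : M i) : low i (g * of m) = low i g := by
  apply wd_inj
  rw [wd_low, wd_low, wd_mul, ← map_inv, Word.equivPair_smul_same]

theorem low_eq {i : ι} {g : CoprodI M} (h : (wd g).fstIdx ≠ some i) : low i g = g := by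
  rw [low, Word.equivPair_eq_of_fstIdx_ne h]; simp

theorem len_low {i : ι} {g : CoprodI M} (h : (wd g).fstIdx = some i) :
    (wd g).toList.length = (wd (low i g)).toList.length + 1 := by
  rw [wd_low]
  generalize wd g = w at h
  have h1 := (Word.equivPair i).symm_apply_apply w
  generalize Word.equivPair i w = p at h1
  subst h1
  rw [Word.equivPair_symm, Word.rcons] at h ⊢
  split_ifs at h ⊢ with h2
  · exact absurd h p.fstIdx_ne
  · simp

/-- Vertices of the tree. -/
abbrev BS (M : ι → Type) [∀ i, Group (M i)] : Type :=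
  CoprodI M ⊕ (Σ i, CoprodI M ⧸ (of (M := M) (i := i)).range)

theorem low_out (i : ι) (g : CoprodI M) :
    low i (QuotientGroup.mk g : CoprodI M ⧸ (of (M := M) (i := i)).range).out = low i g := by
  obtain ⟨⟨_, m, rfl⟩, h⟩ := QuotientGroup.mk_out_eq_mul (of (M := M) (i := i)).range g
  rw [h, low_mul]

theorem mk_low (i : ι) (g : CoprodI M) :
    (QuotientGroup.mk (low i g) : CoprodI M ⧸ (of (M := M) (i := i)).range) = QuotientGroup.mk g :=
  QuotientGroup.mk_mul_of_mem g ⟨_, rfl⟩

/-- The rooted tree structure. -/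
noncomputable def bs (M : ι → Type) [∀ i, Group (M i)] : PT (BS M) where
  par
    | .inl g => match (wd g).fstIdx with
      | none => .inl g
      | some i => .inr ⟨i, QuotientGroup.mk g⟩
    | .inr ⟨i, c⟩ => .inl (low i c.out)
  h
    | .inl g => 2 * (wd g).toList.length
    | .inr ⟨i, c⟩ => 2 * (wd (low i c.out)).toList.length + 1
  o := .inl 1
  h_zero := by
    rintro (g | ⟨i, c⟩) h
    · congr 1
      apply wd_inj
      ext1
      simp only at h
      rw [List.length_eq_zero_iff.1 (by omega : (wd g).toList.length = 0)]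
      simp [wd]
    · simp at h
  h_par := by
    rintro (g | ⟨i, c⟩) k h
    · simp only at h ⊢
      rcases hf : (wd g).fstIdx with _ | i
      · have : (wd g).toList = [] := by simpa [Word.fstIdx] using hf
        rw [this] at h; simp at h
      · simp only [low_out]
        have := len_low hf
        omega
    · simp only at h ⊢
      omega

theorem bs_adj (g : CoprodI M) (i : ι) :
    (bs M).met.d (.inl g) (.inr ⟨i, QuotientGroup.mk g⟩) = 1 := by
  by_cases h : (wd g).fstIdx = some i
  · have h1 : (bs M).par (.inl g) = .inr ⟨i, QuotientGroup.mk g⟩ := by simp only [bs, h]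
    rw [← h1]
    exact (bs M).d_par (k := 2 * (wd (low i g)).toList.length + 1) (by
      show 2 * _ = _
      rw [len_low h]; ring)
  · have h1 : (bs M).par (.inr ⟨i, QuotientGroup.mk g⟩) = .inl g := by
      simp only [bs, low_out, low_eq h]
    rw [← h1, GeoMet.d_comm]
    exact (bs M).d_par rfl

theorem bs_one {x y : BS M} (h : (bs M).met.d x y = 1) : ∃ g i,
    (x = .inl g ∧ y = .inr ⟨i, QuotientGroup.mk g⟩) ∨ (y = .inl g ∧ x = .inr ⟨i, QuotientGroup.mk g⟩) := by
  have key : ∀ x y : BS M, (bs M).h x = (bs M).h y + 1 → (bs M).par x = y → ∃ g i,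
      (x = .inl g ∧ y = .inr ⟨i, QuotientGroup.mk g⟩) ∨
      (y = .inl g ∧ x = .inr ⟨i, QuotientGroup.mk g⟩) := by
    rintro (g | ⟨i, c⟩) y h1 h2
    · rcases hf : (wd g).fstIdx with _ | i
      · simp only [bs, hf] at h2
        rw [h2] at h1; omega
      · simp only [bs, hf] at h2
        exact ⟨g, i, Or.inl ⟨rfl, h2.symm⟩⟩
    · exact ⟨low i c.out, i, Or.inr ⟨h2.symm, by rw [mk_low, QuotientGroup.out_eq']⟩⟩
  rcases (bs M).d_one h with h | h
  · exact key x y h.1 h.2
  · obtain ⟨g, i, h⟩ := key y x h.1 h.2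
    exact ⟨g, i, h.symm⟩

/-- The action on the tree. -/
noncomputable def bsp (M : ι → Type) [∀ i, Group (M i)] : GSp (CoprodI M) (BS M) where
  toGeoMet := (bs M).met
  iso := by
    have key : ∀ (g : CoprodI M) x y, (bs M).met.d (g • x) (g • y) ≤ (bs M).met.d x y := by
      intro g
      refine (bs M).met.lip _ fun x y h => ?_
      obtain ⟨t, i, ⟨rfl, rfl⟩ | ⟨rfl, rfl⟩⟩ := bs_one h
      · exact (bs_adj (g * t) i).le
      · rw [GeoMet.d_comm]; exact (bs_adj (g * t) i).le
    intro g x y
    refine le_antisymm (key g x y) ?_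
    simpa using key g⁻¹ (g • x) (g • y)

theorem bs_tree [Finite ι] {n : ℕ} (hn : 1 ≤ n) (c : ∀ i, M i) (h1 : ∀ i, IsOfFinOrder (c i))
    (h2 : ∀ i, orderOf (c i) ≤ n) (h3 : ∀ i (m : M i), m ∈ Subgroup.zpowers (c i)) :
    TreeAct (bsp M) n where
  ne := ⟨.inl 1⟩
  hyp := (bs M).hyp
  lf x := by
    have h4 : {y | (bs M).met.d x y = 1}.Finite := by
      rcases x with g | ⟨i, q⟩
      · refine (Set.finite_range fun i => (Sum.inr ⟨i, QuotientGroup.mk g⟩ : BS M)).subset
          fun y hy => ?_
        obtain ⟨t, i, ⟨h, rfl⟩ | ⟨rfl, h⟩⟩ := bs_one hy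
        · exact ⟨i, by rw [Sum.inl_injective h]⟩
        · simp at h
      · refine ((finite_zpowers.2 (h1 i)).image
          fun m => (Sum.inl (q.out * of m) : BS M)).subset fun y hy => ?_
        obtain ⟨t, j, ⟨h, rfl⟩ | ⟨rfl, h⟩⟩ := bs_one hy
        · simp at h
        · obtain ⟨rfl, h⟩ := Sigma.mk.inj (Sum.inr_injective h)
          obtain rfl := eq_of_heq h
          obtain ⟨⟨_, m, rfl⟩, h⟩ := QuotientGroup.mk_out_eq_mul (of (M := M) (i := i)).range t
          exact ⟨m⁻¹, h3 _ _, by simp [h]⟩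
    refine (h4.insert x).subset fun y hy => ?_
    rcases Nat.le_one_iff_eq_zero_or_eq_one.1 hy with h | h
    · exact Or.inl ((bsp M).eq_of _ _ h).symm
    · exact Or.inr h
  par g x := by
    have := (bs M).d_eq x (g • x)
    show 2 ∣ (bs M).met.d _ _
    rcases x with t | ⟨i, q⟩
    · have h4 : (bs M).h (.inl t) = 2 * _ := rfl
      have h5 : (bs M).h (g • .inl t) = 2 * _ := rfl
      omega
    · have h4 : (bs M).h (.inr ⟨i, q⟩) = 2 * _ + 1 := rfl
      have h5 : (bs M).h (g • .inr ⟨i, q⟩) = 2 * _ + 1 := rfl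
      omega
  cyc := by
    rintro (t | ⟨i, q⟩)
    · refine ⟨1, IsOfFinOrder.one, by simpa using hn, fun g hg => ?_⟩
      have : g * t = t := Sum.inl_injective hg
      simpa using this
    · obtain ⟨t, rfl⟩ := QuotientGroup.mk_surjective q
      refine ⟨t * of (c i) * t⁻¹, finOrder_conj.2 (of.isOfFinOrder (h1 i)), ?_, fun g hg => ?_⟩
      · rw [← MulAut.conj_apply, MulEquiv.orderOf_eq, orderOf_injective _ (of_injective i)]
        exact h2 i
      · have h4 : (QuotientGroup.mk (g * t) : CoprodI M ⧸ (of (M := M) (i := i)).range) =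
            QuotientGroup.mk t := eq_of_heq (Sigma.mk.inj (Sum.inr_injective hg)).2
        obtain ⟨m, hm⟩ := QuotientGroup.eq.1 h4.symm
        obtain ⟨j, rfl⟩ := h3 i m
        refine ⟨j, ?_⟩
        simp only [conj_zpow]
        rw [← map_zpow, hm]; group
  edge g x y h hx hy := by
    obtain ⟨t, i, ⟨rfl, rfl⟩ | ⟨rfl, rfl⟩⟩ := bs_one h
    · have : g * t = t := Sum.inl_injective hx
      simpa using this
    · have : g * t = t := Sum.inl_injective hy
      simpa using this

theorem coprodI_fg [Finite ι] [∀ i, Finite (M i)] : Group.FG (CoprodI M) := by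
  refine Group.fg_iff.2 ⟨⋃ i, Set.range (of (M := M) (i := i)), ?_,
    Set.finite_iUnion fun i => Set.finite_range _⟩
  rw [eq_top_iff]
  rintro g -
  induction g using CoprodI.induction_on with
  | one => exact Subgroup.one_mem _
  | of i m => exact Subgroup.subset_closure (Set.mem_iUnion.2 ⟨i, m, rfl⟩)
  | mul x y hx hy => exact Subgroup.mul_mem _ hx hy

end

/-- The initial stage. -/
theorem exists_base {n k : ℕ} (h1 : 1 ≤ n) (hn : n < 2 * 2 ^ k)
    (hk : 100000000000000000000000000000000000000000000000 ≤ 2 ^ k) :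
    ∃ (G X : Type) (_ : Group G) (_ : MulAction G X) (S : GSp G X), Lev S n (2 ^ k) ∧ Group.FG G ∧
      ∀ m, 1 ≤ m → m ≤ n → ∃ g : G, orderOf g = m := by
  have ho : ∀ i : Fin n, orderOf (Multiplicative.ofAdd (1 : ZMod (i + 1))) = i + 1 := fun i => by
    rw [orderOf_ofAdd_eq_addOrderOf, ZMod.addOrderOf_one]
  refine ⟨_, _, _, _, bsp fun i : Fin n => Multiplicative (ZMod (i + 1)),
    (bs_tree h1 (fun i => Multiplicative.ofAdd 1) (fun i => isOfFinOrder_of_finite _)
      (fun i => by rw [ho]; omega) fun i m => ?_).lev hn hk, coprodI_fg, fun m m1 m2 => ?_⟩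
  · refine ⟨(m.toAdd.val : ℤ), ?_⟩
    simp only
    rw [← ofAdd_zsmul]; simp
  · refine ⟨of (i := ⟨m - 1, by omega⟩) (Multiplicative.ofAdd 1), ?_⟩
    rw [orderOf_injective _ (of_injective _), ho]
    simp only; omega

end Pool.Agent.Lib.OCn
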