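import Pool.Agent.Lib.MP_de4dbb_al.Rot

/-! Coning off a family of quasi-convex sets in the Rips graph of a hyperbolic space. -/

namespace Pool.Agent.Lib.OCn

section rel

variable {Z : Type} (Adj : Z → Z → Prop)

/-- Reachability in a given number of steps. -/
def Rch : ℕ → Z → Z → Prop
  | 0, z, z' => z = z'
  | n + 1, z, z' => ∃ w, Adj z w ∧ Rch n w z'

variable {Adj}

theorem Rch.add {m n : ℕ} {a b c : Z} (h1 : Rch Adj m a b) (h2 : Rch Adj n b c) :
    Rch Adj (m + n) a c := by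
  induction m generalizing a with
  | zero => rw [Nat.zero_add]; cases h1; exact h2
  | succ m ih =>
    obtain ⟨w, h3, h4⟩ := h1
    rw [Nat.add_right_comm]
    exact ⟨w, h3, ih h4⟩

theorem Rch.one {a b : Z} (h : Adj a b) : Rch Adj 1 a b := ⟨b, h, rfl⟩

theorem Rch.symm (hs : ∀ a b, Adj a b → Adj b a) {n : ℕ} {a b : Z} (h : Rch Adj n a b) :
    Rch Adj n b a := by
  induction n generalizing a with
  | zero => exact Eq.symm h
  | succ n ih =>
    obtain ⟨w, h3, h4⟩ := h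
    exact (ih h4).add (Rch.one (hs _ _ h3))

theorem Rch.mono (hr : ∀ a, Adj a a) {m n : ℕ} {a b : Z} (h : Rch Adj m a b) (hmn : m ≤ n) :
    Rch Adj n a b := by
  induction hmn with
  | refl => exact h
  | step _ ih => exact ⟨a, hr a, ih⟩

variable (Adj)

/-- The path metric of a reflexive, symmetric, connected relation. -/
noncomputable def GeoMet.ofRel (hr : ∀ a, Adj a a) (hs : ∀ a b, Adj a b → Adj b a)
    (hc : ∀ a b, ∃ n, Rch Adj n a b) : GeoMet Z where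
  d a b := sInf {n | Rch Adj n a b}
  d_self a := Nat.le_zero.1 (Nat.sInf_le rfl)
  d_comm a b := by
    congr 1; ext n; exact ⟨fun h => Rch.symm hs h, fun h => Rch.symm hs h⟩
  d_tri a b c := Nat.sInf_le (Rch.add (Nat.sInf_mem (hc a b)) (Nat.sInf_mem (hc b c)))
  eq_of a b h := by
    have := Nat.sInf_mem (hc a b)
    change Rch Adj (sInf {n | Rch Adj n a b}) a b at this
    rw [h] at this; exact this
  step a b n h := by
    have h1 := Nat.sInf_mem (hc a b)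
    change Rch Adj (sInf {n | Rch Adj n a b}) a b at h1
    rw [h] at h1
    obtain ⟨w, h2, h3⟩ := h1
    have a1 : sInf {n | Rch Adj n a w} ≤ 1 := Nat.sInf_le (Rch.one h2)
    have a2 : sInf {n | Rch Adj n w b} ≤ n := Nat.sInf_le h3
    have a3 : sInf {n | Rch Adj n a b} ≤ sInf {n | Rch Adj n a w} + sInf {n | Rch Adj n w b} :=
      Nat.sInf_le (Rch.add (Nat.sInf_mem (hc a w)) (Nat.sInf_mem (hc w b)))
    exact ⟨w, by omega, by omega⟩

theorem GeoMet.ofRel_le (hr : ∀ a, Adj a a) (hs : ∀ a b, Adj a b → Adj b a)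
    (hc : ∀ a b, ∃ n, Rch Adj n a b) (a b : Z) (n : ℕ) :
    (GeoMet.ofRel Adj hr hs hc).d a b ≤ n ↔ Rch Adj n a b :=
  ⟨fun h => Rch.mono hr (Nat.sInf_mem (hc a b)) h, fun h => Nat.sInf_le h⟩

end rel

variable {G X V : Type} [Group G] [MulAction G X] [MulAction G V]

/-- A family of quasi-convex sets with small overlaps. -/
structure Cone (S : GSp G X) (V : Type) [MulAction G V] where
  δ : ℕ
  α : ℕ
  Δ : ℕ
  r : ℕ
  Y : V → Set X
  ne : ∀ v, (Y v).Nonempty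
  Y_smul : ∀ (g : G) v y, y ∈ Y v → g • y ∈ Y (g • v)
  hyp : S.Hyp δ
  qc : ∀ v p q m, p ∈ Y v → q ∈ Y v → S.d p m + S.d m q = S.d p q → ∃ y ∈ Y v, S.d m y ≤ α
  ovl : ∀ v w, v ≠ w → ∀ p ∈ Y v, ∀ q ∈ Y v, ∀ p' ∈ Y w, ∀ q' ∈ Y w,
    S.d p p' ≤ 3 * α + 4 * δ + 1 → S.d q q' ≤ 3 * α + 4 * δ + 1 → S.d p q ≤ Δ
  big : Δ + 4 * α + 12 * δ + 2 ≤ r

namespace Cone

variable {S : GSp G X} (C : Cone S V)

/-- The subset of the base space attached to a vertex of the cone-off. -/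
def T : X ⊕ V → Set X
  | .inl x => {x}
  | .inr v => C.Y v

/-- Adjacency in the cone-off. -/
def Adj : X ⊕ V → X ⊕ V → Prop
  | .inl x, .inl y => S.d x y ≤ C.r
  | .inl x, .inr v => x ∈ C.Y v
  | .inr v, .inl x => x ∈ C.Y v
  | .inr v, .inr w => v = w

theorem T_ne (z : X ⊕ V) : (C.T z).Nonempty := by
  rcases z with x | v
  · exact ⟨x, rfl⟩
  · exact C.ne v

theorem T_smul (g : G) {z : X ⊕ V} {s : X} (h : s ∈ C.T z) : g • s ∈ C.T (g • z) := by
  rcases z with x | v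
  · have : s = x := h
    subst this; rfl
  · exact C.Y_smul g v s h

theorem adj_refl (z : X ⊕ V) : C.Adj z z := by
  rcases z with x | v
  · show S.d x x ≤ C.r
    rw [S.d_self]; omega
  · rfl

theorem adj_symm (z z' : X ⊕ V) (h : C.Adj z z') : C.Adj z' z := by
  rcases z with x | v <;> rcases z' with y | w
  · show S.d y x ≤ C.r
    rw [S.d_comm]; exact h
  · exact h
  · exact h
  · exact Eq.symm h

theorem adj_smul (g : G) (z z' : X ⊕ V) (h : C.Adj z z') : C.Adj (g • z) (g • z') := by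
  rcases z with x | v <;> rcases z' with y | w
  · show S.d (g • x) (g • y) ≤ C.r
    rw [S.iso]; exact h
  · exact C.Y_smul g _ _ h
  · exact C.Y_smul g _ _ h
  · exact congrArg (g • ·) h

theorem adj_T {z : X ⊕ V} {s : X} (h : s ∈ C.T z) : C.Adj z (.inl s) := by
  rcases z with x | v
  · have : s = x := h
    subst this; exact C.adj_refl _
  · exact h

theorem rch_pt (j : ℕ) : ∀ x y : X, S.d x y ≤ j * C.r → Rch C.Adj j (.inl x) (.inl y) := by
  induction j with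
  | zero => intro x y h; rw [S.eq_of x y (by omega)]; rfl
  | succ j ih =>
    intro x y h
    rw [add_mul, one_mul] at h
    by_cases h1 : S.d x y ≤ C.r
    · exact Rch.mono C.adj_refl (Rch.one (show C.Adj (.inl x) (.inl y) from h1)) (by omega)
    · obtain ⟨z, h2, h3⟩ := S.geo x y C.r (by omega)
      exact ⟨.inl z, h2.le, ih z y (by omega)⟩

theorem conn (z z' : X ⊕ V) : ∃ n, Rch C.Adj n z z' := by
  obtain ⟨s, hs⟩ := C.T_ne z
  obtain ⟨s', hs'⟩ := C.T_ne z'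
  have := C.big
  exact ⟨_, ((Rch.one (C.adj_T hs)).add (C.rch_pt (S.d s s') s s'
    (Nat.le_mul_of_pos_right _ (by omega)))).add (Rch.one (C.adj_symm _ _ (C.adj_T hs')))⟩

/-- The cone-off. -/
noncomputable def sp : GSp G (X ⊕ V) where
  toGeoMet := GeoMet.ofRel C.Adj C.adj_refl C.adj_symm C.conn
  iso g a b := by
    have : ∀ (g : G) n a b, Rch C.Adj n a b → Rch C.Adj n (g • a) (g • b) := by
      intro g n
      induction n with
      | zero => intro a b h; exact congrArg (g • ·) h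
      | succ n ih => rintro a b ⟨w, h1, h2⟩; exact ⟨g • w, C.adj_smul g _ _ h1, ih _ _ h2⟩
    apply le_antisymm
    · rw [GeoMet.ofRel_le]; exact this g _ _ _ ((GeoMet.ofRel_le _ _ _ _ _ _ _).1 le_rfl)
    · rw [GeoMet.ofRel_le]
      simpa using this g⁻¹ _ _ _ ((GeoMet.ofRel_le _ C.adj_refl C.adj_symm C.conn (g • a) (g • b) _).1 le_rfl)

theorem d_le_iff (a b : X ⊕ V) (n : ℕ) : C.sp.d a b ≤ n ↔ Rch C.Adj n a b :=
  GeoMet.ofRel_le _ C.adj_refl C.adj_symm C.conn _ _ _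

theorem d_le_one {a b : X ⊕ V} : C.sp.d a b ≤ 1 ↔ C.Adj a b := by
  rw [C.d_le_iff]
  exact ⟨fun ⟨w, h1, h2⟩ => by cases h2; exact h1, Rch.one⟩

theorem d_pt (x y : X) (j : ℕ) (h : S.d x y ≤ j * C.r) : C.sp.d (.inl x) (.inl y) ≤ j :=
  (C.d_le_iff _ _ _).2 (C.rch_pt j x y h)

theorem d_T {z : X ⊕ V} {s : X} (h : s ∈ C.T z) : C.sp.d z (.inl s) ≤ 1 := C.d_le_one.2 (C.adj_T h)

/-- Nearest points. -/
def Near (v : V) (s a : X) : Prop := a ∈ C.Y v ∧ ∀ y ∈ C.Y v, S.d s a ≤ S.d s y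

theorem exists_near (v : V) (s : X) : ∃ a, C.Near v s a := by
  classical
  have hex : ∃ n, ∃ a ∈ C.Y v, S.d s a = n := by
    obtain ⟨a, ha⟩ := C.ne v
    exact ⟨_, a, ha, rfl⟩
  obtain ⟨a, ha, h⟩ := Nat.find_spec hex
  exact ⟨a, ha, fun y hy => h ▸ Nat.find_min' hex ⟨y, hy, rfl⟩⟩

variable {C}

theorem Near.smul (g : G) {v : V} {s a : X} (h : C.Near v s a) : C.Near (g • v) (g • s) (g • a) := by
  refine ⟨C.Y_smul g v a h.1, fun y hy => ?_⟩
  have := h.2 (g⁻¹ • y) (by simpa using C.Y_smul g⁻¹ _ _ hy)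
  rwa [S.iso_inv', ← S.iso g s a] at this

theorem Near.one {v : V} {s a y : X} (h : C.Near v s a) (hy : y ∈ C.Y v) :
    S.d s a + S.d a y ≤ S.d s y + (2 * C.α + 2 * C.δ + 1) := by
  have t1 := S.d_tri s a y
  have t2 := h.2 y hy
  have t3 := S.d_tri a s y
  have c1 := S.d_comm s a
  obtain ⟨m, m1, m2⟩ := S.geo a y ((S.d s a + S.d a y - S.d s y) / 2) (by omega)
  obtain ⟨y', y1, y2⟩ := C.qc v a y m h.1 hy (by omega)
  have := h.2 y' y1
  have := S.d_tri s m y'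
  have := C.hyp a s y m
  have := S.d_comm y m
  omega

theorem Near.two {v : V} {s s' a b : X} (h : C.Near v s a) (h' : C.Near v s' b)
    (hab : 2 * C.α + 3 * C.δ + 1 < S.d a b) :
    S.d s a + S.d a s' ≤ S.d s s' + (2 * C.α + 3 * C.δ + 1) ∧
    S.d s a + S.d a b + S.d b s' ≤ S.d s s' + (4 * C.α + 5 * C.δ + 2) := by
  have a1 := h.one h'.1
  have a2 := h'.one h.1
  have := C.hyp a s s' b
  have := S.d_comm s a
  have := S.d_comm s' b
  have := S.d_comm s' a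
  have := S.d_comm a b
  omega

theorem Near.lip {v : V} {s s' a b : X} (h : C.Near v s a) (h' : C.Near v s' b) :
    S.d a b ≤ S.d s s' + (4 * C.α + 5 * C.δ + 2) := by
  by_cases hab : 2 * C.α + 3 * C.δ + 1 < S.d a b
  · have := (h.two h' hab).2; omega
  · omega

variable (C)

/-- Projection of a vertex to a cone. -/
def Pr (v : V) (z : X ⊕ V) : Set X := {a | ∃ s ∈ C.T z, C.Near v s a}

theorem Pr_ne (v : V) (z : X ⊕ V) : (C.Pr v z).Nonempty := by
  obtain ⟨s, hs⟩ := C.T_ne z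
  obtain ⟨a, ha⟩ := C.exists_near v s
  exact ⟨a, s, hs, ha⟩

theorem diam {v : V} {z : X ⊕ V} (hz : z ≠ .inr v) {a b : X} (ha : a ∈ C.Pr v z) (hb : b ∈ C.Pr v z) :
    S.d a b ≤ C.r := by
  obtain ⟨s, hs, h1⟩ := ha
  obtain ⟨s', hs', h2⟩ := hb
  have hbig := C.big
  rcases z with x | w
  · have e1 : s = x := hs
    have e2 : s' = x := hs'
    have := h1.lip h2
    rw [e1, e2, S.d_self] at this; omega
  · by_cases hab : 2 * C.α + 3 * C.δ + 1 < S.d a b
    swap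
    · omega
    obtain ⟨m, m1, m2⟩ := S.near_geo C.hyp s s' a _ (h1.two h2 hab).1
    obtain ⟨m', m1', m2'⟩ := S.near_geo C.hyp s' s b _ (h2.two h1 (by rwa [S.d_comm])).1
    obtain ⟨y, y1, y2⟩ := C.qc w s s' m hs hs' m1
    obtain ⟨y', y1', y2'⟩ := C.qc w s' s m' hs' hs m1'
    have := S.d_tri a m y
    have := S.d_tri b m' y'
    have := C.ovl v w (fun h => hz (by rw [h])) a h1.1 b h2.1 y y1 y' y1' (by omega) (by omega)
    omega

/-- Angle at an apex. -/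
noncomputable def ang : X ⊕ V → X ⊕ V → X ⊕ V → ℕ
  | .inl _, _, _ => 0
  | .inr v, z, z' => sSup {n | ∃ a ∈ C.Pr v z, ∃ b ∈ C.Pr v z', n = S.d a b}

theorem ang_bdd {v : V} {z z' : X ⊕ V} (hz : z ≠ .inr v) (hz' : z' ≠ .inr v) :
    BddAbove {n | ∃ a ∈ C.Pr v z, ∃ b ∈ C.Pr v z', n = S.d a b} := by
  obtain ⟨a0, ha0⟩ := C.Pr_ne v z
  obtain ⟨b0, hb0⟩ := C.Pr_ne v z'
  refine ⟨C.r + S.d a0 b0 + C.r, ?_⟩
  rintro _ ⟨a, ha, b, hb, rfl⟩
  have := C.diam hz ha ha0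
  have := C.diam hz' hb0 hb
  have := S.d_tri a a0 b
  have := S.d_tri a0 b0 b
  omega

theorem le_ang {v : V} {z z' : X ⊕ V} (hz : z ≠ .inr v) (hz' : z' ≠ .inr v) {a b : X}
    (ha : a ∈ C.Pr v z) (hb : b ∈ C.Pr v z') : S.d a b ≤ C.ang (.inr v) z z' :=
  le_csSup (C.ang_bdd hz hz') ⟨a, ha, b, hb, rfl⟩

theorem ang_eq {v : V} {z z' : X ⊕ V} (hz : z ≠ .inr v) (hz' : z' ≠ .inr v) :
    ∃ a ∈ C.Pr v z, ∃ b ∈ C.Pr v z', C.ang (.inr v) z z' = S.d a b := by
  obtain ⟨a0, ha0⟩ := C.Pr_ne v z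
  obtain ⟨b0, hb0⟩ := C.Pr_ne v z'
  exact Nat.sSup_mem (s := {n | ∃ a ∈ C.Pr v z, ∃ b ∈ C.Pr v z', n = S.d a b})
    ⟨_, a0, ha0, b0, hb0, rfl⟩ (C.ang_bdd hz hz')

theorem ang_le {v : V} {z z' : X ⊕ V} (hz : z ≠ .inr v) (hz' : z' ≠ .inr v) {a b : X}
    (ha : a ∈ C.Pr v z) (hb : b ∈ C.Pr v z') : C.ang (.inr v) z z' ≤ S.d a b + 2 * C.r := by
  obtain ⟨a', ha', b', hb', e⟩ := C.ang_eq hz hz'
  have := C.diam hz ha' ha
  have := C.diam hz' hb hb'
  have := S.d_tri a' a b'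
  have := S.d_tri a b b'
  omega

theorem Pr_smul (g : G) {v : V} {z : X ⊕ V} {a : X} (h : a ∈ C.Pr v z) :
    g • a ∈ C.Pr (g • v) (g • z) := by
  obtain ⟨s, hs, h1⟩ := h
  exact ⟨g • s, C.T_smul g hs, h1.smul g⟩

theorem ang_comm (u a b : X ⊕ V) : C.ang u a b = C.ang u b a := by
  rcases u with x | v
  · rfl
  · show sSup _ = sSup _
    congr 1; ext n
    constructor <;> rintro ⟨a, ha, b, hb, rfl⟩ <;> exact ⟨b, hb, a, ha, S.d_comm _ _⟩

theorem ang_smul (g : G) (u a b : X ⊕ V) : C.ang (g • u) (g • a) (g • b) = C.ang u a b := by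
  rcases u with x | v
  · rfl
  · show sSup _ = sSup _
    congr 1; ext n
    constructor
    · rintro ⟨a, ha, b, hb, rfl⟩
      exact ⟨g⁻¹ • a, by simpa using C.Pr_smul g⁻¹ ha, g⁻¹ • b, by simpa using C.Pr_smul g⁻¹ hb,
        (S.iso _ _ _).symm⟩
    · rintro ⟨a, ha, b, hb, rfl⟩
      exact ⟨g • a, C.Pr_smul g ha, g • b, C.Pr_smul g hb, (S.iso _ _ _).symm⟩

theorem ang_tri {v : V} {a b c : X ⊕ V} (ha : a ≠ .inr v) (hb : b ≠ .inr v) (hc : c ≠ .inr v) :
    C.ang (.inr v) a c ≤ C.ang (.inr v) a b + C.ang (.inr v) b c := by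
  obtain ⟨x, hx, z, hz, e⟩ := C.ang_eq ha hc
  obtain ⟨y, hy⟩ := C.Pr_ne v b
  have := C.le_ang ha hb hx hy
  have := C.le_ang hb hc hy hz
  have := S.d_tri x y z
  omega

theorem ang_adj {v : V} {a b : X ⊕ V} (ha : a ≠ .inr v) (hb : b ≠ .inr v) (h : C.Adj a b) :
    C.ang (.inr v) a b ≤ 2 * C.r := by
  obtain ⟨x, hx, y, hy, e⟩ := C.ang_eq ha hb
  have hbig := C.big
  rcases a with a | a <;> rcases b with b | b
  · obtain ⟨s, hs, h1⟩ := hx
    obtain ⟨s', hs', h2⟩ := hy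
    have e1 : s = a := hs
    have e2 : s' = b := hs'
    have h3 : S.d a b ≤ C.r := h
    have := h1.lip h2
    rw [e1, e2] at this; omega
  · obtain ⟨s, hs, h1⟩ := hx
    have e1 : s = a := hs
    have := C.diam hb ⟨s, show s ∈ C.Y b from e1 ▸ h, h1⟩ hy
    omega
  · obtain ⟨s, hs, h1⟩ := hy
    have e1 : s = b := hs
    have := C.diam ha hx ⟨s, show s ∈ C.Y a from e1 ▸ h, h1⟩
    omega
  · have : a = b := h
    subst this
    have := C.diam ha hx hy
    omega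

theorem pair_T {z : X ⊕ V} {p t t' : X} {D : ℕ} (hD : ∀ s ∈ C.T z, D ≤ S.d p s) (ht : t ∈ C.T z)
    (ht' : t' ∈ C.T z) : S.d t t' + D ≤ S.d p t + S.d p t' + (C.δ + C.α) := by
  rcases z with x | v
  · have e1 : t = x := ht
    have e2 : t' = x := ht'
    have := hD t ht
    rw [e2, ← e1, S.d_self]; omega
  · have t1 := S.d_tri t p t'
    have c := S.d_comm t p
    obtain ⟨m, m1, m2⟩ := S.near_geo C.hyp t t' p (S.d t p + S.d p t' - S.d t t') (by omega)
    obtain ⟨y, y1, y2⟩ := C.qc v t t' m ht ht' m1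
    have := hD y y1
    have := S.d_tri p m y
    omega

theorem adj_pair {z z' : X ⊕ V} (h : C.Adj z z') {t' : X} (ht' : t' ∈ C.T z') :
    ∃ t ∈ C.T z, S.d t t' ≤ C.r ∨ t ∈ C.T z' := by
  rcases z with x | v <;> rcases z' with y | w
  · have e : t' = y := ht'
    exact ⟨x, rfl, Or.inl (e ▸ h)⟩
  · exact ⟨x, rfl, Or.inr h⟩
  · have e : t' = y := ht'
    exact ⟨y, h, Or.inr rfl⟩
  · have e : v = w := h
    exact ⟨t', e ▸ ht', Or.inr ht'⟩

/-- Geodesics of the cone-off pass near every point between the endpoints. -/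
theorem track (γ : ℕ → X ⊕ V) (m : ℕ) (hγ : ∀ i j, i ≤ j → j ≤ m → C.sp.d (γ i) (γ j) = j - i)
    {s s' : X} (hs : s ∈ C.T (γ 0)) (hs' : s' ∈ C.T (γ m)) (p : X) (κ : ℕ)
    (hp : S.d s p + S.d p s' ≤ S.d s s' + κ) :
    ∃ i, i ≤ m ∧ ∃ t ∈ C.T (γ i), S.d p t ≤ 4 * C.r + κ := by
  obtain ⟨σ, h0, hn, hσ⟩ := S.exists_path _ s s' rfl
  set L := S.d s s' with hL
  have hbig := C.big
  let f : ℕ → ℕ := fun k => sInf {n | ∃ i, i ≤ m ∧ ∃ t ∈ C.T (γ i), S.d (σ k) t = n}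
  have f1 : ∀ k, ∃ i, i ≤ m ∧ ∃ t ∈ C.T (γ i), S.d (σ k) t = f k := fun k =>
    Nat.sInf_mem (s := {n | ∃ i, i ≤ m ∧ ∃ t ∈ C.T (γ i), S.d (σ k) t = n}) ⟨_, 0, by omega, s, hs, rfl⟩
  have f2 : ∀ k i, i ≤ m → ∀ t ∈ C.T (γ i), f k ≤ S.d (σ k) t := fun k i hi t ht =>
    Nat.sInf_le ⟨i, hi, t, ht, rfl⟩
  obtain ⟨k0, hk0, hmax⟩ := Finset.exists_max_image (Finset.range (L + 1)) f ⟨0, by simp⟩
  simp only [Finset.mem_range] at hk0 hmax
  set D := f k0 with hD
  have hD3 : D ≤ 3 * C.r := by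
    have far := f2 k0
    rw [← hD] at far
    have bg : ∀ i k, i + k ≤ m → ∀ t ∈ C.T (γ i), ∀ t' ∈ C.T (γ (i + k)),
        S.d t t' + D ≤ S.d (σ k0) t + S.d (σ k0) t' + (C.r + C.δ + C.α) + k * C.δ := by
      intro i k
      induction k with
      | zero =>
        intro hi t ht t' ht'
        have := C.pair_T (far i hi) ht ht'
        omega
      | succ k ih =>
        intro hi t ht t' ht'
        have hadj : C.Adj (γ (i + k)) (γ (i + (k + 1))) :=
          C.d_le_one.1 (by rw [hγ _ _ (by omega) hi]; omega)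
        obtain ⟨u, hu, h1⟩ := C.adj_pair hadj ht'
        have a1 := ih (by omega) t ht u hu
        have a2 : S.d u t' + D ≤ S.d (σ k0) u + S.d (σ k0) t' + (C.r + C.δ + C.α) := by
          rcases h1 with h1 | h1
          · have := far _ (by omega) u hu
            have := far _ hi t' ht'
            omega
          · have := C.pair_T (far _ hi) h1 ht'
            omega
        have := C.hyp (σ k0) t u t'
        rw [add_mul, one_mul]
        omega
    obtain ⟨i, hi, t, ht, a1, a2⟩ : ∃ i, i ≤ m ∧ ∃ t ∈ C.T (γ i), S.d (σ (k0 - 2 * D)) t ≤ D ∧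
        S.d (σ (k0 - 2 * D)) t + 2 * D ≤ S.d (σ k0) (σ (k0 - 2 * D)) + S.d (σ k0) t := by
      by_cases h : 2 * D ≤ k0
      · obtain ⟨i, hi, t, ht, e⟩ := f1 (k0 - 2 * D)
        have := hmax (k0 - 2 * D) (by omega)
        have := far i hi t ht
        have := hσ (k0 - 2 * D) k0 (by omega) (by omega)
        have := S.d_comm (σ k0) (σ (k0 - 2 * D))
        exact ⟨i, hi, t, ht, by omega, by omega⟩
      · have := far 0 (by omega) s hs
        refine ⟨0, by omega, s, hs, ?_⟩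
        rw [show k0 - 2 * D = 0 by omega, h0, S.d_self]; omega
    obtain ⟨j, hj, t', ht', b1, b2⟩ : ∃ i, i ≤ m ∧ ∃ t ∈ C.T (γ i),
        S.d (σ (min (k0 + 2 * D) L)) t ≤ D ∧ S.d (σ (min (k0 + 2 * D) L)) t + 2 * D ≤
          S.d (σ k0) (σ (min (k0 + 2 * D) L)) + S.d (σ k0) t := by
      by_cases h : k0 + 2 * D ≤ L
      · rw [min_eq_left h]
        obtain ⟨i, hi, t, ht, e⟩ := f1 (k0 + 2 * D)
        have := hmax (k0 + 2 * D) (by omega)
        have := far i hi t ht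
        have := hσ k0 (k0 + 2 * D) (by omega) (by omega)
        exact ⟨i, hi, t, ht, by omega, by omega⟩
      · have := far m le_rfl s' hs'
        refine ⟨m, le_rfl, s', hs', ?_⟩
        rw [min_eq_right (by omega), hn, S.d_self]; omega
    have e1 := hσ (k0 - 2 * D) k0 (by omega) (by omega)
    have e2 := hσ k0 (min (k0 + 2 * D) L) (by omega) (by omega)
    have e3 := hσ (k0 - 2 * D) (min (k0 + 2 * D) L) (by omega) (by omega)
    generalize σ (k0 - 2 * D) = a at a1 a2 e1 e3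
    generalize σ (min (k0 + 2 * D) L) = b at b1 b2 e2 e3
    have c1 := S.d_comm a t
    have c2 := S.d_comm a (σ k0)
    have c3 := S.d_comm t t'
    have c4 := S.d_comm b t'
    have t1 := S.d_tri t a t'
    have t2 := S.d_tri a b t'
    have g1 : C.sp.d (.inl t) (.inl t') ≤ 6 * D / C.r + 1 := C.d_pt _ _ _ (by
      have := Nat.lt_div_mul_add (a := 6 * D) (show 0 < C.r by omega)
      rw [add_mul, one_mul]; omega)
    have g2 := C.d_T ht
    have g3 := C.d_T ht'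
    have g4 := C.sp.d_tri (γ i) (.inl t) (γ j)
    have g5 := C.sp.d_tri (.inl t) (.inl t') (γ j)
    have g6 := C.sp.d_comm (γ j) (.inl t')
    obtain ⟨k, hk1, hk2⟩ : ∃ k, k ≤ 6 * D / C.r + 3 ∧
        S.d t t' + D ≤ S.d (σ k0) t + S.d (σ k0) t' + (C.r + C.δ + C.α) + k * C.δ := by
      rcases le_total i j with h | h
      · obtain ⟨k, rfl⟩ := Nat.exists_eq_add_of_le h
        have := hγ i (i + k) h hj
        exact ⟨k, by omega, bg i k hj t ht t' ht'⟩
      · obtain ⟨k, rfl⟩ := Nat.exists_eq_add_of_le h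
        have := hγ j (j + k) h hi
        have := C.sp.d_comm (γ j) (γ (j + k))
        have := bg j k hi t' ht' t ht
        exact ⟨k, by omega, by omega⟩
    have n1 : k * C.δ ≤ (6 * D / C.r + 3) * C.δ := Nat.mul_le_mul_right _ hk1
    have n2 : 6 * D / C.r * (12 * C.δ) ≤ 6 * D / C.r * C.r := Nat.mul_le_mul_left _ (by omega)
    have n3 := Nat.div_mul_le_self (6 * D) C.r
    rw [add_mul] at n1
    rw [show 6 * D / C.r * (12 * C.δ) = 12 * (6 * D / C.r * C.δ) by ring] at n2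
    have := C.hyp (σ k0) a t b
    have := C.hyp (σ k0) t t' b
    omega
  by_cases hpL : S.d s p ≤ L
  swap
  · exact ⟨m, le_rfl, s', hs', by omega⟩
  have e1 := hσ 0 (S.d s p) (by omega) hpL
  have e2 := hσ (S.d s p) L hpL le_rfl
  rw [h0] at e1; rw [hn] at e2
  obtain ⟨i, hi, t, ht, e⟩ := f1 (S.d s p)
  have := hmax (S.d s p) (by omega)
  have := S.thin C.hyp s s' p (σ (S.d s p)) κ 0 hp (by omega) (by omega) (by omega)
  have := S.d_tri p (σ (S.d s p)) t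
  exact ⟨i, hi, t, ht, by omega⟩

theorem between (x y p : X) (hp : S.d x p + S.d p y ≤ S.d x y + C.r) :
    C.sp.d (.inl x) (.inl p) + C.sp.d (.inl p) (.inl y) ≤ C.sp.d (.inl x) (.inl y) + 12 := by
  obtain ⟨γ, h0, hn, hγ⟩ := C.sp.exists_path _ (.inl x) (.inl y) rfl
  obtain ⟨i, hi, t, ht, h⟩ := C.track γ _ hγ (s := x) (s' := y) (by rw [h0]; rfl) (by rw [hn]; rfl)
    p C.r hp
  have a1 := C.d_pt p t 5 (by omega)
  have a2 := C.d_T ht
  have a3 := hγ 0 i (by omega) hi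
  have a4 := hγ i _ hi le_rfl
  rw [h0] at a3; rw [hn] at a4
  have := C.sp.d_tri (.inl x) (γ i) (.inl p)
  have := C.sp.d_tri (γ i) (.inl t) (.inl p)
  have := C.sp.d_tri (.inl p) (γ i) (.inl y)
  have := C.sp.d_comm (.inl p) (.inl t)
  have := C.sp.d_comm (.inl p) (γ i)
  omega

theorem hyp_pt (w x y z : X) :
    C.sp.d (.inl x) (.inl z) + C.sp.d (.inl w) (.inl y) ≤
      C.sp.d (.inl x) (.inl y) + C.sp.d (.inl w) (.inl z) + 36 ∨
    C.sp.d (.inl x) (.inl z) + C.sp.d (.inl w) (.inl y) ≤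
      C.sp.d (.inl y) (.inl z) + C.sp.d (.inl w) (.inl x) + 36 := by
  have hbig := C.big
  have t1 := S.d_tri w x z
  have t2 := S.d_tri x z w
  have c1 := S.d_comm w x
  have c2 := S.d_comm w z
  have c3 := S.d_comm x z
  obtain ⟨p, p1, p2⟩ := S.geo x z ((S.d x w + S.d x z - S.d w z) / 2) (by omega)
  have c4 := S.d_comm p x
  have c5 := S.d_comm p z
  have c6 := S.d_comm p w
  have c7 := S.d_comm p y
  have h1 := C.hyp x w z p
  have h2 := C.hyp z w x p
  have b1 := C.between w x p (by omega)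
  have b2 := C.between w z p (by omega)
  have := C.sp.d_tri (.inl x) (.inl p) (.inl z)
  have := C.sp.d_tri (.inl w) (.inl p) (.inl y)
  have := C.sp.d_comm (.inl x) (.inl p)
  have := C.sp.d_comm (.inl y) (.inl p)
  rcases C.hyp p x y z with h | h
  · have b3 := C.between x y p (by omega)
    omega
  · have b3 := C.between y z p (by omega)
    omega

theorem sp_hyp : C.sp.Hyp 44 := by
  intro w x y z
  obtain ⟨w', hw⟩ := C.T_ne w
  obtain ⟨x', hx⟩ := C.T_ne x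
  obtain ⟨y', hy⟩ := C.T_ne y
  obtain ⟨z', hz⟩ := C.T_ne z
  have key : ∀ (a b : X ⊕ V) a' b', a' ∈ C.T a → b' ∈ C.T b →
      C.sp.d a b ≤ C.sp.d (.inl a') (.inl b') + 2 ∧ C.sp.d (.inl a') (.inl b') ≤ C.sp.d a b + 2 := by
    intro a b a' b' ha hb
    have := C.d_T ha
    have := C.d_T hb
    have := C.sp.d_tri a (.inl a') b
    have := C.sp.d_tri (.inl a') (.inl b') b
    have := C.sp.d_tri (.inl a') a (.inl b')
    have := C.sp.d_tri a b (.inl b')
    have := C.sp.d_comm a (.inl a')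
    have := C.sp.d_comm b (.inl b')
    omega
  have := C.hyp_pt w' x' y' z'
  have := (key _ _ _ _ hx hz).1
  have := (key _ _ _ _ hw hy).1
  have := (key _ _ _ _ hx hy).2
  have := (key _ _ _ _ hw hz).2
  have := (key _ _ _ _ hy hz).2
  have := (key _ _ _ _ hw hx).2
  omega

theorem bgi {v : V} {z z' : X ⊕ V} (hz : z ≠ .inr v) (hz' : z' ≠ .inr v)
    (h : 50 * C.r < C.ang (.inr v) z z') :
    C.sp.d z (.inr v) + C.sp.d (.inr v) z' = C.sp.d z z' := by
  obtain ⟨γ, h0, hn, hγ⟩ := C.sp.exists_path _ z z' rfl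
  have hbig := C.big
  by_cases hex : ∃ i, i ≤ C.sp.d z z' ∧ γ i = .inr v
  · obtain ⟨i, hi, e⟩ := hex
    have a3 := hγ 0 i (by omega) hi
    have a4 := hγ i _ hi le_rfl
    rw [h0, e] at a3; rw [hn, e] at a4
    omega
  exfalso
  push Not at hex
  obtain ⟨a, ⟨s, hs, ha⟩, b, ⟨s', hs', hb⟩, e⟩ := C.ang_eq hz hz'
  have c := S.d_comm a b
  have c' := S.d_comm s s'
  have c1 := S.d_comm s b
  have c2 := S.d_comm s' b
  have h1 := (ha.two hb (by omega)).1
  have h2 := (hb.two ha (by omega)).1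
  obtain ⟨i, hi, t, ht, h3⟩ := C.track γ _ hγ (h0 ▸ hs) (by rw [hn]; exact hs') a C.r (by omega)
  obtain ⟨j, hj, t', ht', h4⟩ := C.track γ _ hγ (h0 ▸ hs) (by rw [hn]; exact hs') b C.r (by omega)
  have step : ∀ i k, i + k ≤ C.sp.d z z' → C.ang (.inr v) (γ i) (γ (i + k)) ≤ (k + 1) * (2 * C.r) := by
    intro i k
    induction k with
    | zero =>
      intro hi
      have := C.ang_adj (hex i hi) (hex i hi) (C.adj_refl _)
      simpa using this
    | succ k ih =>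
      intro hi
      have a1 := ih (by omega)
      have a2 := C.ang_adj (hex (i + k) (by omega)) (hex _ hi)
        (C.d_le_one.1 (by rw [hγ _ _ (by omega) hi]; omega))
      have a3 := C.ang_tri (hex i (by omega)) (hex (i + k) (by omega)) (hex _ hi)
      rw [add_mul (k + 1), one_mul]
      omega
  have d1 := C.d_T ht
  have d2 := C.d_T ht'
  have d3 := C.d_pt a t 5 (by omega)
  have d4 := C.d_pt b t' 5 (by omega)
  have d5 : C.sp.d (.inr v) (.inl a) ≤ 1 := C.d_le_one.2 ha.1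
  have d6 : C.sp.d (.inr v) (.inl b) ≤ 1 := C.d_le_one.2 hb.1
  have d7 : C.sp.d (γ i) (γ j) ≤ 14 := by
    have := C.sp.d_tri (γ i) (.inl t) (γ j)
    have := C.sp.d_tri (.inl t) (.inl a) (γ j)
    have := C.sp.d_tri (.inl a) (.inr v) (γ j)
    have := C.sp.d_tri (.inr v) (.inl b) (γ j)
    have := C.sp.d_tri (.inl b) (.inl t') (γ j)
    have := C.sp.d_comm (.inl t) (.inl a)
    have := C.sp.d_comm (.inl a) (.inr v)
    have := C.sp.d_comm (.inl t') (γ j)
    omega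
  have d8 : C.ang (.inr v) (γ i) (γ j) ≤ 30 * C.r := by
    rcases le_total i j with hij | hij
    · obtain ⟨k, rfl⟩ := Nat.exists_eq_add_of_le hij
      have := hγ i (i + k) hij hj
      have := step i k hj
      have : (k + 1) * (2 * C.r) ≤ 15 * (2 * C.r) := Nat.mul_le_mul_right _ (by omega)
      omega
    · obtain ⟨k, rfl⟩ := Nat.exists_eq_add_of_le hij
      have := hγ j (j + k) hij hi
      have := C.sp.d_comm (γ j) (γ (j + k))
      have := step j k hi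
      have : (k + 1) * (2 * C.r) ≤ 15 * (2 * C.r) := Nat.mul_le_mul_right _ (by omega)
      rw [C.ang_comm]
      omega
  obtain ⟨a', ha'⟩ := C.exists_near v t
  obtain ⟨b', hb'⟩ := C.exists_near v t'
  have := C.le_ang (hex i hi) (hex j hj) ⟨t, ht, ha'⟩ ⟨t', ht', hb'⟩
  have := ha'.2 a ha.1
  have := hb'.2 b hb.1
  have := S.d_tri a t a'
  have := S.d_tri a a' b
  have := S.d_tri a' b' b
  have := S.d_tri b' t' b
  have := S.d_comm a t
  have := S.d_comm b t'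
  have := S.d_comm b' t'
  omega

/-- Distance in the base space between the sets attached to two vertices. -/
noncomputable def Φ (z z' : X ⊕ V) : ℕ := sInf {n | ∃ s ∈ C.T z, ∃ s' ∈ C.T z', n = S.d s s'}

theorem Φ_le {z z' : X ⊕ V} {s s' : X} (hs : s ∈ C.T z) (hs' : s' ∈ C.T z') : C.Φ z z' ≤ S.d s s' :=
  Nat.sInf_le ⟨s, hs, s', hs', rfl⟩

theorem Φ_eq (z z' : X ⊕ V) : ∃ s ∈ C.T z, ∃ s' ∈ C.T z', C.Φ z z' = S.d s s' := by
  obtain ⟨s, hs⟩ := C.T_ne z
  obtain ⟨s', hs'⟩ := C.T_ne z'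
  exact Nat.sInf_mem (s := {n | ∃ s ∈ C.T z, ∃ s' ∈ C.T z', n = S.d s s'}) ⟨_, s, hs, s', hs', rfl⟩

theorem Φ_pt (x y : X) : C.Φ (.inl x) (.inl y) = S.d x y := by
  obtain ⟨s, hs, s', hs', e⟩ := C.Φ_eq (.inl x) (.inl y)
  have e1 : s = x := hs
  have e2 : s' = y := hs'
  rw [e, e1, e2]

theorem Φ_comm (z z' : X ⊕ V) : C.Φ z z' = C.Φ z' z := by
  have : ∀ z z', C.Φ z z' ≤ C.Φ z' z := by
    intro z z'
    obtain ⟨s, hs, s', hs', e⟩ := C.Φ_eq z' z
    rw [e, S.d_comm]; exact C.Φ_le hs' hs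
  exact le_antisymm (this _ _) (this _ _)

theorem Φ_near {v : V} (z : X ⊕ V) : ∃ s ∈ C.T z, ∃ a, C.Near v s a ∧ C.Φ z (.inr v) = S.d s a := by
  obtain ⟨s, hs, y, hy, e⟩ := C.Φ_eq z (.inr v)
  obtain ⟨a, ha⟩ := C.exists_near v s
  have := ha.2 y hy
  have := C.Φ_le (z' := .inr v) hs ha.1
  exact ⟨s, hs, a, ha, by omega⟩

/-- The apices. -/
def Ap : X ⊕ V → Prop
  | .inl _ => False
  | .inr _ => True

theorem ap_eq {z : X ⊕ V} (h : Ap z) : ∃ v, z = .inr v := by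
  rcases z with x | v
  · exact h.elim
  · exact ⟨v, rfl⟩

theorem pt_eq {z : X ⊕ V} (h : ¬ Ap z) : ∃ x, z = .inl x := by
  rcases z with x | v
  · exact ⟨x, rfl⟩
  · exact absurd trivial h

/-- The rotation system of a cone-off. -/
noncomputable def rot (K : V → Subgroup G) (K_fix : ∀ v, ∀ k ∈ K v, k • v = v)
    (K_conj : ∀ (g : G) v, ∀ k ∈ K v, g * k * g⁻¹ ∈ K (g • v))
    (spin : ∀ v, ∀ k ∈ K v, k ≠ 1 → ∀ y ∈ C.Y v, 100000 * C.r ≤ S.d y (k • y)) : Rot G (X ⊕ V) where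
  toGSp := C.sp
  Ap := Ap
  Ap_smul g z h := by obtain ⟨v, rfl⟩ := ap_eq h; trivial
  ang := C.ang
  ang_comm := C.ang_comm
  ang_tri u a b c hu ha hb hc := by obtain ⟨v, rfl⟩ := ap_eq hu; exact C.ang_tri ha hb hc
  ang_smul := C.ang_smul
  θ := 50 * C.r
  θ_pos := by have := C.big; omega
  bgi u a b hu ha hb h := by obtain ⟨v, rfl⟩ := ap_eq hu; exact C.bgi ha hb h
  ap_ap u v hu hv h := by
    obtain ⟨u, rfl⟩ := ap_eq hu
    obtain ⟨v, rfl⟩ := ap_eq hv
    have : u = v := C.d_le_one.1 h.le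
    rw [this, C.sp.d_self] at h; omega
  nbr u hu := by
    obtain ⟨v, rfl⟩ := ap_eq hu
    obtain ⟨y, hy⟩ := C.ne v
    have h1 : C.sp.d (.inl y) (.inr v) ≤ 1 := C.d_le_one.2 hy
    have h2 := C.sp.d_pos (x := .inl y) (y := .inr v) (by simp)
    exact ⟨.inl y, by omega⟩
  K z := match z with
    | .inl _ => ⊥
    | .inr v => K v
  K_fix u k hk := by
    rcases u with x | v
    · rw [Subgroup.mem_bot.1 hk, one_smul]
    · exact congrArg Sum.inr (K_fix v k hk)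
  K_conj g u k hk := by
    rcases u with x | v
    · rw [Subgroup.mem_bot.1 hk]; simp
    · exact K_conj g v k hk
  spin u a k hk hu ha h1 := by
    obtain ⟨v, rfl⟩ := ap_eq hu
    obtain ⟨y, hy⟩ := C.Pr_ne v a
    have h2 := C.Pr_smul k hy
    rw [K_fix v k hk] at h2
    have h3 : k • a ≠ .inr v := Rot.smul_ne (congrArg Sum.inr (K_fix v k hk)) ha
    have := C.le_ang ha h3 hy h2
    obtain ⟨s, -, hs⟩ := hy
    have := spin v k hk h1 y hs.1
    omega
  Φ := C.Φ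
  Φ_self a := by
    obtain ⟨s, hs⟩ := C.T_ne a
    have := C.Φ_le hs hs
    rw [S.d_self] at this; omega
  Φ_comm := C.Φ_comm
  Φ_smul g a b := by
    have : ∀ (g : G) a b, C.Φ (g • a) (g • b) ≤ C.Φ a b := by
      intro g a b
      obtain ⟨s, hs, s', hs', e⟩ := C.Φ_eq a b
      rw [e, ← S.iso g]; exact C.Φ_le (C.T_smul g hs) (C.T_smul g hs')
    exact le_antisymm (this g a b) (by simpa using this g⁻¹ (g • a) (g • b))
  Φ_tri a b c hb := by
    obtain ⟨x, rfl⟩ := pt_eq hb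
    obtain ⟨s, hs, s', hs', e⟩ := C.Φ_eq a (.inl x)
    obtain ⟨t, ht, t', ht', e'⟩ := C.Φ_eq (.inl x) c
    have e1 : s' = x := hs'
    have e2 : t = x := ht
    have := C.Φ_le hs ht'
    have := S.d_tri s x t'
    rw [e1] at e; rw [e2] at e'
    omega
  Φ_zero a b ha hb h := by
    obtain ⟨x, rfl⟩ := pt_eq ha
    obtain ⟨y, rfl⟩ := pt_eq hb
    rw [C.Φ_pt] at h; rw [S.eq_of x y h]
  Φ_step a b j ha hb h := by
    obtain ⟨x, rfl⟩ := pt_eq ha
    obtain ⟨y, rfl⟩ := pt_eq hb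
    rw [C.Φ_pt] at h
    obtain ⟨c, c1, c2⟩ := S.geo x y j (by omega)
    have := C.big
    exact ⟨.inl c, fun h => h, by rw [C.Φ_pt, c1], C.d_pt c y 1 (by omega)⟩
  Φ_adj a b ha hb h := by
    obtain ⟨x, rfl⟩ := pt_eq ha
    obtain ⟨y, rfl⟩ := pt_eq hb
    have : S.d x y ≤ C.r := C.d_le_one.1 h
    rw [C.Φ_pt]; omega
  Φ_ap a u hu h := by
    obtain ⟨v, rfl⟩ := ap_eq hu
    have h1 := C.d_le_one.1 h
    rcases a with x | w
    · have := C.Φ_le (z := .inl x) (z' := .inr v) (s := x) rfl h1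
      rw [S.d_self] at this; omega
    · have e : w = v := h1
      obtain ⟨s, hs⟩ := C.ne v
      have := C.Φ_le (z := .inr w) (z' := .inr v) (s := s) (e ▸ hs) hs
      rw [S.d_self] at this; omega
  Φ_one u a b hu ha hb := by
    obtain ⟨v, rfl⟩ := ap_eq hu
    obtain ⟨s, hs, x, hx, e⟩ := C.Φ_near (v := v) a
    obtain ⟨s', hs', y, hy, e'⟩ := C.Φ_near (v := v) b
    have := C.le_ang ha hb ⟨s, hs, hx⟩ ⟨s', hs', hy⟩
    have := C.Φ_le hs hs'
    have := C.Φ_comm b (.inr v)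
    have := S.d_tri s x s'
    have := S.d_tri x y s'
    have := S.d_comm y s'
    omega
  Φ_two u a b hu ha hb h := by
    obtain ⟨v, rfl⟩ := ap_eq hu
    obtain ⟨s, hs, s', hs', e⟩ := C.Φ_eq a b
    obtain ⟨x, hx⟩ := C.exists_near v s
    obtain ⟨y, hy⟩ := C.exists_near v s'
    have := C.big
    have := C.ang_le ha hb ⟨s, hs, hx⟩ ⟨s', hs', hy⟩
    have := (hx.two hy (by omega)).2
    have := C.Φ_le (z' := .inr v) hs hx.1
    have := C.Φ_le (z := .inr v) hy.1 hs'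
    omega

end Cone

end Pool.Agent.Lib.OCn
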