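import Mathlib

/-! Generalized dihedral groups and functions multiplicative on a subgroup. -/

namespace Pool.Agent.Lib.OCn

/-- Generalized dihedral group of an abelian group. -/
@[ext] structure Dih (A : Type) where
  s : Bool
  a : A

namespace Dih

variable {A : Type} [AddCommGroup A]

instance : Mul (Dih A) := ⟨fun x y => ⟨xor x.s y.s, (if y.s then -x.a else x.a) + y.a⟩⟩
instance : One (Dih A) := ⟨⟨false, 0⟩⟩
instance : Inv (Dih A) := ⟨fun x => ⟨x.s, if x.s then x.a else -x.a⟩⟩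

@[simp] theorem mul_s (x y : Dih A) : (x * y).s = xor x.s y.s := rfl
@[simp] theorem mul_a (x y : Dih A) : (x * y).a = (if y.s then -x.a else x.a) + y.a := rfl
@[simp] theorem one_s : (1 : Dih A).s = false := rfl
@[simp] theorem one_a : (1 : Dih A).a = 0 := rfl
@[simp] theorem inv_s (x : Dih A) : (x⁻¹).s = x.s := rfl
@[simp] theorem inv_a (x : Dih A) : (x⁻¹).a = if x.s then x.a else -x.a := rfl

instance : Group (Dih A) :=
  Group.ofLeftAxioms
    (fun x y z => by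
      ext
      · simp
      · rcases hy : y.s <;> rcases hz : z.s <;> simp [hy, hz] <;> abel)
    (fun x => by ext <;> simp)
    (fun x => by
      ext
      · simp
      · rcases hx : x.s <;> simp [hx])

theorem sq_refl (x : Dih A) (h : x.s = true) : x * x = 1 := by
  ext <;> simp [h]

theorem zpow_rot (x : Dih A) (h : x.s = false) (k : ℤ) : x ^ k = ⟨false, k • x.a⟩ := by
  induction k using Int.induction_on with
  | zero => ext <;> simp
  | succ k ih => rw [zpow_add_one, ih]; ext <;> simp [h, add_smul]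
  | pred k ih => rw [zpow_sub_one, ih]; ext <;> simp [h, add_smul, sub_eq_add_neg]

theorem pow_rot (x : Dih A) (h : x.s = false) (k : ℕ) : x ^ k = ⟨false, k • x.a⟩ := by
  rw [← zpow_natCast, zpow_rot x h, natCast_zsmul]

theorem pow_even_refl (x : Dih A) (h : x.s = true) (k : ℕ) : x ^ (2 * k) = 1 := by
  rw [pow_mul, sq, sq_refl x h, one_pow]

theorem pow_N {N : ℕ} (hN : 2 ∣ N) (x : Dih (ZMod N)) : x ^ N = 1 := by
  rcases hx : x.s
  · rw [pow_rot x hx]; ext <;> simp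
  · obtain ⟨k, hk⟩ := hN
    have := pow_even_refl x hx k
    rwa [← hk] at this

theorem law (g h : Dih A) :
    g ^ 4 * h * (g ^ 4)⁻¹ = (g ^ 2 * h * (g ^ 2)⁻¹) * h⁻¹ * (g ^ 2 * h * (g ^ 2)⁻¹) := by
  have h2 : (g ^ 2).s = false := by simp [sq]
  rw [show g ^ 4 = g ^ 2 * g ^ 2 by group]
  generalize g ^ 2 = y at h2
  ext
  · simp [h2]
  · rcases hh : h.s <;> simp [h2, hh] <;> abel

/-- Reduction modulo `N`. -/
def red (N : ℕ) (x : Dih ℤ) : Dih (ZMod N) := ⟨x.s, (x.a : ZMod N)⟩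

@[simp] theorem red_s (N : ℕ) (x : Dih ℤ) : (red N x).s = x.s := rfl
@[simp] theorem red_a (N : ℕ) (x : Dih ℤ) : (red N x).a = (x.a : ZMod N) := rfl

theorem red_mul (N : ℕ) (x y : Dih ℤ) : red N (x * y) = red N x * red N y := by
  ext
  · simp
  · rcases hy : y.s <;> simp [hy]

end Dih

/-- A function that is multiplicative on a subgroup. -/
def MulOn {G P : Type} [Group G] [Group P] (E : Subgroup G) (φ : G → P) : Prop :=
  ∀ a ∈ E, ∀ b ∈ E, φ (a * b) = φ a * φ b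

namespace MulOn

variable {G P : Type} [Group G] [Group P] {E : Subgroup G} {φ : G → P}

theorem one (h : MulOn E φ) : φ 1 = 1 := by
  have := h 1 E.one_mem 1 E.one_mem
  rw [mul_one] at this
  exact (mul_eq_left.1 this.symm)

theorem inv (h : MulOn E φ) {a : G} (ha : a ∈ E) : φ a⁻¹ = (φ a)⁻¹ := by
  have := h a⁻¹ (E.inv_mem ha) a ha
  rw [inv_mul_cancel, h.one] at this
  exact eq_inv_of_mul_eq_one_left this.symm

theorem pow (h : MulOn E φ) {a : G} (ha : a ∈ E) (k : ℕ) : φ (a ^ k) = φ a ^ k := by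
  induction k with
  | zero => simpa using h.one
  | succ k ih => rw [pow_succ, h _ (E.pow_mem ha k) _ ha, ih, pow_succ]

theorem zpow (h : MulOn E φ) {a : G} (ha : a ∈ E) (k : ℤ) : φ (a ^ k) = φ a ^ k := by
  obtain ⟨k, rfl | rfl⟩ := k.eq_nat_or_neg
  · simpa using h.pow ha k
  · rw [zpow_neg, zpow_neg, zpow_natCast, zpow_natCast, h.inv (E.pow_mem ha k), h.pow ha]

theorem conj (h : MulOn E φ) {a b : G} (ha : a ∈ E) (hb : b ∈ E) :
    φ (a * b * a⁻¹) = φ a * φ b * (φ a)⁻¹ := by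
  rw [h _ (E.mul_mem ha hb) _ (E.inv_mem ha), h _ ha _ hb, h.inv ha]

theorem mono (h : MulOn E φ) {F : Subgroup G} (hF : F ≤ E) : MulOn F φ :=
  fun a ha b hb => h a (hF ha) b (hF hb)

/-- Descent of a multiplicative function to a quotient. -/
theorem descend {Q : Type} [Group Q] (h : MulOn E φ) (π : G →* Q)
    (hk : ∀ e ∈ E, π e = 1 → φ e = 1) :
    ∃ φ' : Q → P, MulOn (E.map π) φ' ∧ ∀ e ∈ E, φ' (π e) = φ e := by
  classical
  have wd : ∀ e ∈ E, ∀ e' ∈ E, π e = π e' → φ e = φ e' := by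
    intro e he e' he' hee
    have := hk (e⁻¹ * e') (E.mul_mem (E.inv_mem he) he') (by simp [hee])
    rw [h _ (E.inv_mem he) _ he', h.inv he] at this
    exact (inv_mul_eq_one.1 this)
  let φ' : Q → P := fun q => if hq : ∃ e ∈ E, π e = q then φ hq.choose else 1
  have key : ∀ e ∈ E, φ' (π e) = φ e := by
    intro e he
    have hq : ∃ e' ∈ E, π e' = π e := ⟨e, he, rfl⟩
    simp only [φ', dif_pos hq]
    exact wd _ hq.choose_spec.1 _ he hq.choose_spec.2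
  refine ⟨φ', ?_, key⟩
  rintro _ ⟨a, ha, rfl⟩ _ ⟨b, hb, rfl⟩
  rw [← map_mul, key _ (E.mul_mem ha hb), key _ ha, key _ hb, h _ ha _ hb]

end MulOn

section general

variable {G : Type} [Group G]

/-- Some power of an element normalizing a finite set containing `f` commutes with `f`. -/
theorem exists_pow_commute {F : Set G} (hF : F.Finite) {g f : G} (hg : ∀ t ∈ F, g * t * g⁻¹ ∈ F)
    (hf : f ∈ F) : ∃ m : ℕ, 0 < m ∧ g ^ m * f * (g ^ m)⁻¹ = f := by
  have hmem : ∀ i : ℕ, g ^ i * f * (g ^ i)⁻¹ ∈ F := by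
    intro i
    induction i with
    | zero => simpa using hf
    | succ i ih =>
      have := hg _ ih
      rwa [show g * (g ^ i * f * (g ^ i)⁻¹) * g⁻¹ = g ^ (i + 1) * f * (g ^ (i + 1))⁻¹ by group] at this
  obtain ⟨i, j, hij, h⟩ := hF.exists_lt_map_eq_of_forall_mem hmem
  obtain ⟨k, rfl⟩ := Nat.exists_eq_add_of_lt hij
  refine ⟨k + 1, by omega, ?_⟩
  have : g ^ i * (g ^ (k + 1) * f * (g ^ (k + 1))⁻¹) * (g ^ i)⁻¹ = g ^ i * f * (g ^ i)⁻¹ := by
    rw [h]; group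
  exact mul_left_cancel (mul_right_cancel this)

theorem finOrder_of_mem {H : Subgroup G} (hH : (H : Set G).Finite) {h : G} (hh : h ∈ H) :
    IsOfFinOrder h := by
  rw [← finite_zpowers]
  exact hH.subset (Subgroup.zpowers_le.2 hh)

theorem finOrder_conj {g h : G} : IsOfFinOrder (g * h * g⁻¹) ↔ IsOfFinOrder h := by
  have : IsConj h (g * h * g⁻¹) := isConj_iff.2 ⟨g, rfl⟩
  exact ⟨fun h1 => this.symm.isOfFinOrder h1, fun h1 => this.isOfFinOrder h1⟩

/-- A chain of six conjugation steps. -/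
def Chain6 (g : G) (c : ℕ → G) : Prop := ∀ j, j < 6 → g * c j * g⁻¹ = c (j + 1)

/-- The dihedral law on the middle of a chain. -/
def Law (c : ℕ → G) : Prop := c 5 = c 3 * (c 1)⁻¹ * c 3

theorem Chain6.law_iff {g : G} {c : ℕ → G} (h : Chain6 g c) :
    Law c ↔ g ^ 4 * c 1 * (g ^ 4)⁻¹ =
      (g ^ 2 * c 1 * (g ^ 2)⁻¹) * (c 1)⁻¹ * (g ^ 2 * c 1 * (g ^ 2)⁻¹) := by
  have h3 : c 3 = g ^ 2 * c 1 * (g ^ 2)⁻¹ := by
    rw [← h 2 (by omega), ← h 1 (by omega)]
    simp only [pow_succ, pow_zero, one_mul, mul_inv_rev, mul_assoc]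
  have h5 : c 5 = g ^ 4 * c 1 * (g ^ 4)⁻¹ := by
    rw [← h 4 (by omega), ← h 3 (by omega), h3]
    simp only [pow_succ, pow_zero, one_mul, mul_inv_rev, mul_assoc]
  unfold Law; rw [h5, h3]

/-- All elements have order a power of two. -/
def Two (F : Subgroup G) : Prop := ∀ f ∈ F, ∃ k : ℕ, f ^ 2 ^ k = 1

/-- The purely algebraic invariants of a stage of the construction. -/
structure Alg (G : Type) [Group G] (n N : ℕ) : Prop where
  sa : ∀ (g : G) (c : ℕ → G) (H : Subgroup G), Chain6 g c → (H : Set G).Finite →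
    (∀ j, j ≤ 6 → c j ∈ H) → Law c
  sc : ∀ (g : G) (c : ℕ → G) (F : Subgroup G), Chain6 g c → (F : Set G).Finite →
    (∀ j, 1 ≤ j → j ≤ 5 → c j ∈ F) → (∀ f ∈ F, c 0 * f * (c 0)⁻¹ ∈ F) →
    (∀ f ∈ F, c 6 * f * (c 6)⁻¹ ∈ F) → c 0 * c 0 ∈ F → c 6 * c 6 ∈ F → Law c
  two : ∀ g t : G, ¬ IsOfFinOrder g → IsOfFinOrder t → g * t * g⁻¹ = t → ∃ k : ℕ, t ^ 2 ^ k = 1
  sepa : ∀ (F : Subgroup G) (g : G), (F : Set G).Finite → Two F → (∀ f ∈ F, g * f * g⁻¹ ∈ F) →
    ∀ f ∈ F, f ≠ 1 → ∃ (φ : G → Dih (ZMod N)) (π : Dih (ZMod N)), MulOn F φ ∧ φ f ≠ 1 ∧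
      ∀ t ∈ F, φ (g * t * g⁻¹) = π * φ t * π⁻¹
  sepb : ∀ (F : Subgroup G) (a b : G), (F : Set G).Finite → Two F → (∀ f ∈ F, a * f * a⁻¹ ∈ F) →
    (∀ f ∈ F, b * f * b⁻¹ ∈ F) → a * a ∈ F → b * b ∈ F →
    ∀ f ∈ F, f ≠ 1 → ∃ (φ : G → Dih (ZMod N)) (α β : Dih (ZMod N)), MulOn F φ ∧ φ f ≠ 1 ∧
      (∀ t ∈ F, φ (a * t * a⁻¹) = α * φ t * α⁻¹) ∧ (∀ t ∈ F, φ (b * t * b⁻¹) = β * φ t * β⁻¹) ∧
      φ (a * a) = α * α ∧ φ (b * b) = β * β
  fin : ∀ H : Subgroup G, (H : Set G).Finite → (∀ h ∈ H, h ^ N = 1) ∨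
    ∃ c : G, IsOfFinOrder c ∧ orderOf c ≤ n ∧ H ≤ Subgroup.zpowers c

end general

end Pool.Agent.Lib.OCn
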