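import Pool.Agent.Lib.MP_de4dbb_al.Dih

/-! Finite-by-(infinite cyclic or infinite dihedral) subgroups. -/

namespace Pool.Agent.Lib.OCn

variable {G : Type} [Group G]

/-- A map to the infinite dihedral group with finite kernel containing the unit translation. -/
structure Lox (E : Subgroup G) where
  ψ : G → Dih ℤ
  mul : MulOn E ψ
  x : G
  x_mem : x ∈ E
  ψx : ψ x = ⟨false, 1⟩
  fin : {e | e ∈ E ∧ ψ e = 1}.Finite

namespace Lox

variable {E : Subgroup G} (L : Lox E)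

/-- Preimage of a subgroup of order at most two. -/
def A (u : Dih ℤ) (hu : u * u = 1) : Subgroup G where
  carrier := {e | e ∈ E ∧ (L.ψ e = 1 ∨ L.ψ e = u)}
  one_mem' := ⟨E.one_mem, Or.inl L.mul.one⟩
  mul_mem' := by
    rintro a b ⟨ha, ha'⟩ ⟨hb, hb'⟩
    refine ⟨E.mul_mem ha hb, ?_⟩
    rw [L.mul _ ha _ hb]
    rcases ha' with h | h <;> rcases hb' with h' | h' <;> simp [h, h', hu]
  inv_mem' := by
    rintro a ⟨ha, ha'⟩
    refine ⟨E.inv_mem ha, ?_⟩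
    rw [L.mul.inv ha]
    rcases ha' with h | h
    · simp [h]
    · right; rw [h]; exact inv_eq_of_mul_eq_one_right hu

theorem mem_A {u : Dih ℤ} {hu : u * u = 1} {e : G} :
    e ∈ L.A u hu ↔ e ∈ E ∧ (L.ψ e = 1 ∨ L.ψ e = u) := Iff.rfl

/-- The finite kernel. -/
def F : Subgroup G where
  carrier := {e | e ∈ E ∧ L.ψ e = 1}
  one_mem' := ⟨E.one_mem, L.mul.one⟩
  mul_mem' := by
    rintro a b ⟨ha, ha'⟩ ⟨hb, hb'⟩
    exact ⟨E.mul_mem ha hb, by rw [L.mul _ ha _ hb, ha', hb', mul_one]⟩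
  inv_mem' := by
    rintro a ⟨ha, ha'⟩
    exact ⟨E.inv_mem ha, by rw [L.mul.inv ha, ha', inv_one]⟩

theorem mem_F {e : G} : e ∈ L.F ↔ e ∈ E ∧ L.ψ e = 1 := Iff.rfl

theorem F_fin : (L.F : Set G).Finite := L.fin

theorem F_le : L.F ≤ E := fun _ h => h.1

/-- The orientation preserving part. -/
def P : Subgroup G where
  carrier := {e | e ∈ E ∧ (L.ψ e).s = false}
  one_mem' := ⟨E.one_mem, by rw [L.mul.one]; rfl⟩
  mul_mem' := by
    rintro a b ⟨ha, ha'⟩ ⟨hb, hb'⟩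
    exact ⟨E.mul_mem ha hb, by rw [L.mul _ ha _ hb]; simp [ha', hb']⟩
  inv_mem' := by
    rintro a ⟨ha, ha'⟩
    exact ⟨E.inv_mem ha, by rw [L.mul.inv ha]; simp [ha']⟩

theorem mem_P {e : G} : e ∈ L.P ↔ e ∈ E ∧ (L.ψ e).s = false := Iff.rfl

theorem A_fin (u : Dih ℤ) (hu : u * u = 1) : (L.A u hu : Set G).Finite := by
  by_cases h : ∃ e0 ∈ E, L.ψ e0 = u
  · obtain ⟨e0, he0, h0⟩ := h
    refine (L.fin.union (L.fin.image (fun f => e0 * f))).subset ?_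
    rintro e ⟨he, h1 | h1⟩
    · exact Or.inl ⟨he, h1⟩
    · refine Or.inr ⟨e0⁻¹ * e, ⟨E.mul_mem (E.inv_mem he0) he, ?_⟩, by simp⟩
      rw [L.mul _ (E.inv_mem he0) _ he, L.mul.inv he0, h0, h1, inv_mul_cancel]
  · refine L.fin.subset ?_
    rintro e ⟨he, h1 | h1⟩
    · exact ⟨he, h1⟩
    · exact absurd ⟨e, he, h1⟩ h

theorem ψ_zpow (j : ℤ) : L.ψ (L.x ^ j) = ⟨false, j⟩ := by
  rw [L.mul.zpow L.x_mem, L.ψx, Dih.zpow_rot _ rfl]; simp

theorem ψ_pow (j : ℕ) : L.ψ (L.x ^ j) = ⟨false, j⟩ := by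
  rw [← zpow_natCast, L.ψ_zpow]

theorem F_conj {e f : G} (he : e ∈ E) (hf : f ∈ L.F) : e * f * e⁻¹ ∈ L.F :=
  ⟨E.mul_mem (E.mul_mem he hf.1) (E.inv_mem he), by rw [L.mul.conj he hf.1, hf.2]; simp⟩

theorem F_conj' {e f : G} (he : e ∈ E) (hf : f ∈ L.F) : e⁻¹ * f * e ∈ L.F := by
  simpa using L.F_conj (E.inv_mem he) hf

theorem P_conj' {e f : G} (he : e ∈ E) (hf : f ∈ L.P) : e⁻¹ * f * e ∈ L.P :=
  ⟨E.mul_mem (E.mul_mem (E.inv_mem he) hf.1) he, by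
    rw [L.mul _ (E.mul_mem (E.inv_mem he) hf.1) _ he, L.mul _ (E.inv_mem he) _ hf.1, L.mul.inv he]
    simp [hf.2]⟩

theorem x_P (j : ℤ) : L.x ^ j ∈ L.P := ⟨E.zpow_mem L.x_mem j, by rw [L.ψ_zpow]⟩

theorem F_le_P : L.F ≤ L.P := fun _ h => ⟨h.1, by rw [h.2]; rfl⟩

theorem eq_F {e e' : G} (he : e ∈ E) (he' : e' ∈ E) (h : L.ψ e = L.ψ e') : e⁻¹ * e' ∈ L.F :=
  ⟨E.mul_mem (E.inv_mem he) he', by
    rw [L.mul _ (E.inv_mem he) _ he', L.mul.inv he, h, inv_mul_cancel]⟩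

theorem decomp {e : G} (he : e ∈ L.P) : (L.x ^ (L.ψ e).a)⁻¹ * e ∈ L.F :=
  L.eq_F (E.zpow_mem L.x_mem _) he.1 (by rw [L.ψ_zpow]; ext <;> simp [he.2])

theorem not_fin {e : G} (he : e ∈ L.P) (h0 : (L.ψ e).a ≠ 0) : ¬ IsOfFinOrder e := by
  intro hf
  obtain ⟨m, hm, h1⟩ := isOfFinOrder_iff_pow_eq_one.1 hf
  have := L.mul.pow he.1 m
  rw [h1, L.mul.one, Dih.pow_rot _ he.2] at this
  have := congrArg Dih.a this
  simp at this
  omega

theorem x_not_fin : ¬ IsOfFinOrder L.x :=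
  L.not_fin (by simpa using L.x_P 1) (by rw [L.ψx]; simp)

theorem sq_mem {e : G} (he : e ∈ E) (h : L.ψ e = 1 ∨ (L.ψ e).s = true) : e * e ∈ L.F :=
  ⟨E.mul_mem he he, by
    rw [L.mul _ he _ he]
    rcases h with h | h
    · simp [h]
    · exact Dih.sq_refl _ h⟩

theorem fin_iff {e : G} (he : e ∈ E) : IsOfFinOrder e ↔ L.ψ e = 1 ∨ (L.ψ e).s = true := by
  constructor
  · intro hf
    rcases hs : (L.ψ e).s
    · left
      by_contra h1
      refine L.not_fin ⟨he, hs⟩ (fun h0 => h1 ?_) hf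
      ext <;> simp [hs, h0]
    · exact Or.inr rfl
  · intro h
    have := finOrder_of_mem L.F_fin (L.sq_mem he h)
    rw [← sq] at this
    exact this.of_pow (by norm_num)

theorem le_A {T : Subgroup G} (hT : (T : Set G).Finite) (hle : T ≤ E) :
    ∃ (u : Dih ℤ) (hu : u * u = 1), (u = 1 ∨ u.s = true) ∧ T ≤ L.A u hu := by
  by_cases h : ∃ t ∈ T, (L.ψ t).s = true
  · obtain ⟨t, ht, hs⟩ := h
    refine ⟨L.ψ t, Dih.sq_refl _ hs, Or.inr hs, fun e he => ⟨hle he, ?_⟩⟩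
    rcases (L.fin_iff (hle he)).1 (finOrder_of_mem hT he) with h1 | h1
    · exact Or.inl h1
    · right
      have h2 := T.mul_mem (T.inv_mem ht) he
      have h3 : L.ψ (t⁻¹ * e) = (L.ψ t)⁻¹ * L.ψ e := by
        rw [L.mul _ (E.inv_mem (hle ht)) _ (hle he), L.mul.inv (hle ht)]
      rcases (L.fin_iff (hle h2)).1 (finOrder_of_mem hT h2) with h4 | h4
      · rw [h3] at h4; exact (inv_mul_eq_one.1 h4).symm
      · rw [h3] at h4; simp [hs, h1] at h4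
  · refine ⟨1, by simp, Or.inl rfl, fun e he => ⟨hle he, Or.inl ?_⟩⟩
    rcases (L.fin_iff (hle he)).1 (finOrder_of_mem hT he) with h1 | h1
    · exact h1
    · exact absurd ⟨e, he, h1⟩ h

theorem two_F {n N : ℕ} (hA : Alg G n N) : Two L.F := by
  intro f hf
  obtain ⟨m, hm, h⟩ := exists_pow_commute L.F_fin (g := L.x) (fun t ht => L.F_conj L.x_mem ht) hf
  refine hA.two (L.x ^ m) f (fun h1 => L.x_not_fin (h1.of_pow (by omega))) ?_ h
  exact finOrder_of_mem L.F_fin hf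

theorem ext_plus {Q : Type} [Group Q] (φ : G → Q) (π : Q) (hφ : MulOn L.F φ)
    (hπ : ∀ t ∈ L.F, φ (L.x * t * L.x⁻¹) = π * φ t * π⁻¹) :
    ∃ Φ : G → Q, MulOn L.P Φ ∧ (∀ t ∈ L.F, Φ t = φ t) ∧ Φ L.x = π := by
  have hz : ∀ j : ℤ, ∀ t ∈ L.F, φ ((L.x ^ j)⁻¹ * t * L.x ^ j) = (π ^ j)⁻¹ * φ t * π ^ j := by
    intro j
    induction j using Int.induction_on with
    | zero => simp
    | succ j ih =>
      intro t ht
      have h1 := L.F_conj' (E.zpow_mem L.x_mem (j + 1)) ht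
      have h2 := hπ _ h1
      rw [show L.x * ((L.x ^ ((j : ℤ) + 1))⁻¹ * t * L.x ^ ((j : ℤ) + 1)) * L.x⁻¹ =
        (L.x ^ (j : ℤ))⁻¹ * t * L.x ^ (j : ℤ) by group, ih t ht] at h2
      calc _ = π⁻¹ * (π * φ ((L.x ^ ((j : ℤ) + 1))⁻¹ * t * L.x ^ ((j : ℤ) + 1)) * π⁻¹) * π := by group
        _ = _ := by rw [← h2]; group
    | pred j ih =>
      intro t ht
      have h1 := L.F_conj' (E.zpow_mem L.x_mem (-j)) ht
      have h2 := hπ _ h1
      rw [ih t ht] at h2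
      rw [show (L.x ^ (-(j : ℤ) - 1))⁻¹ * t * L.x ^ (-(j : ℤ) - 1) =
        L.x * ((L.x ^ (-(j : ℤ)))⁻¹ * t * L.x ^ (-(j : ℤ))) * L.x⁻¹ by group, h2]
      group
  refine ⟨fun e => π ^ (L.ψ e).a * φ ((L.x ^ (L.ψ e).a)⁻¹ * e), ?_, ?_, ?_⟩
  · intro a ha b hb
    have h1 : (L.ψ (a * b)).a = (L.ψ a).a + (L.ψ b).a := by
      rw [L.mul _ ha.1 _ hb.1]; simp [hb.2]
    have ha' := L.decomp ha
    have hb' := L.decomp hb
    simp only [h1]
    rw [show (L.x ^ ((L.ψ a).a + (L.ψ b).a))⁻¹ * (a * b) =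
      ((L.x ^ (L.ψ b).a)⁻¹ * ((L.x ^ (L.ψ a).a)⁻¹ * a) * L.x ^ (L.ψ b).a) *
        ((L.x ^ (L.ψ b).a)⁻¹ * b) by group,
      hφ _ (L.F_conj' (E.zpow_mem L.x_mem _) ha') _ hb', hz _ _ ha']
    group
  · intro t ht
    simp [ht.2]
  · simp [L.ψx, hφ.one]

/-- The finite kernel is separated by maps of the whole group to the dihedral group. -/
def Sep (N : ℕ) : Prop := ∀ f ∈ L.F, f ≠ 1 → ∃ φ : G → Dih (ZMod N), MulOn E φ ∧ φ f ≠ 1

theorem sep {n N : ℕ} (hA : Alg G n N) : L.Sep N := by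
  intro f hf hf1
  by_cases hr : ∃ u ∈ E, (L.ψ u).s = true
  swap
  · obtain ⟨φ, π, h1, h2, h3⟩ := hA.sepa L.F L.x L.F_fin (L.two_F hA)
      (fun t ht => L.F_conj L.x_mem ht) f hf hf1
    obtain ⟨Φ, a1, a2, -⟩ := L.ext_plus φ π h1 h3
    refine ⟨Φ, a1.mono fun e he => ⟨he, ?_⟩, by rwa [a2 f hf]⟩
    rcases hs : (L.ψ e).s
    · rfl
    · exact absurd ⟨e, he, hs⟩ hr
  obtain ⟨u, hu, hus⟩ := hr
  obtain ⟨a, ha, has⟩ : ∃ a ∈ E, (L.ψ a).s = true := ⟨u, hu, hus⟩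
  have hb : a * L.x ∈ E := E.mul_mem ha L.x_mem
  have hbs : (L.ψ (a * L.x)).s = true := by rw [L.mul _ ha _ L.x_mem, L.ψx]; simp [has]
  have haa := L.sq_mem ha (Or.inr has)
  have hbb := L.sq_mem hb (Or.inr hbs)
  obtain ⟨φ, α, β, h1, h2, h3, h4, h5, h6⟩ := hA.sepb L.F a (a * L.x) L.F_fin (L.two_F hA)
    (fun t ht => L.F_conj ha ht) (fun t ht => L.F_conj hb ht) haa hbb f hf hf1
  have h3' : ∀ t ∈ L.F, φ (a⁻¹ * t * a) = α⁻¹ * φ t * α := by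
    intro t ht
    have := h3 _ (L.F_conj' ha ht)
    rw [show a * (a⁻¹ * t * a) * a⁻¹ = t by group] at this
    rw [this]; group
  obtain ⟨Φ, a1, a2, a3⟩ := L.ext_plus φ (α⁻¹ * β) h1 (fun t ht => by
    rw [show L.x * t * L.x⁻¹ = a⁻¹ * ((a * L.x) * t * (a * L.x)⁻¹) * a by group,
      h3' _ (L.F_conj hb ht), h4 _ ht]
    group)
  have hxP : L.x ∈ L.P := by simpa using L.x_P 1
  have k1 : Φ (a⁻¹ * L.x * a) = α⁻¹ * Φ L.x * α := by
    rw [show a⁻¹ * L.x * a = ((a * a)⁻¹ * ((a * L.x) * (a * L.x))) * L.x⁻¹ by group,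
      a1 _ (L.F_le_P (L.F.mul_mem (L.F.inv_mem haa) hbb)) _ (L.P.inv_mem hxP), a1.inv hxP,
      a2 _ (L.F.mul_mem (L.F.inv_mem haa) hbb), h1 _ (L.F.inv_mem haa) _ hbb, h1.inv haa, h5, h6, a3]
    group
  have k2 : ∀ e ∈ L.P, Φ (a⁻¹ * e * a) = α⁻¹ * Φ e * α := by
    intro e he
    have hd := L.decomp he
    generalize (L.ψ e).a = j at hd
    have e1 : e = L.x ^ j * ((L.x ^ j)⁻¹ * e) := by group
    generalize (L.x ^ j)⁻¹ * e = t at hd e1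
    have e2 : a⁻¹ * e * a = (a⁻¹ * L.x * a) ^ j * (a⁻¹ * t * a) := by
      have := conj_zpow (i := j) (a := a⁻¹) (b := L.x)
      rw [inv_inv] at this
      rw [this, e1]; group
    have hc := L.P_conj' ha hxP
    rw [e2, a1 _ (L.P.zpow_mem hc j) _ (L.F_le_P (L.F_conj' ha hd)), a1.zpow hc, k1,
      a2 _ (L.F_conj' ha hd), h3' _ hd, e1, a1 _ (L.x_P j) _ (L.F_le_P hd), a1.zpow hxP, a2 _ hd]
    have := conj_zpow (i := j) (a := α⁻¹) (b := Φ L.x)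
    rw [inv_inv] at this
    rw [this]; group
  have hP : ∀ e ∈ E, (L.ψ e).s = true → a⁻¹ * e ∈ L.P := by
    intro e he hs
    exact ⟨E.mul_mem (E.inv_mem ha) he, by
      rw [L.mul _ (E.inv_mem ha) _ he, L.mul.inv ha]; simp [has, hs]⟩
  refine ⟨fun e => if (L.ψ e).s then α * Φ (a⁻¹ * e) else Φ e, ?_, ?_⟩
  · intro e1 he1 e2 he2
    have hm := L.mul _ he1 _ he2
    rcases hs1 : (L.ψ e1).s <;> rcases hs2 : (L.ψ e2).s <;> simp only [hm, Dih.mul_s, hs1, hs2] <;>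
      simp
    · exact a1 _ ⟨he1, hs1⟩ _ ⟨he2, hs2⟩
    · rw [show a⁻¹ * (e1 * e2) = (a⁻¹ * e1 * a) * (a⁻¹ * e2) by group,
        a1 _ (L.P_conj' ha ⟨he1, hs1⟩) _ (hP _ he2 hs2), k2 _ ⟨he1, hs1⟩]
      group
    · rw [← mul_assoc, a1 _ (hP _ he1 hs1) _ ⟨he2, hs2⟩, mul_assoc]
    · rw [show e1 * e2 = (a * a) * ((a⁻¹ * (a⁻¹ * e1) * a) * (a⁻¹ * e2)) by group,
        a1 _ (L.F_le_P haa) _ (L.P.mul_mem (L.P_conj' ha (hP _ he1 hs1)) (hP _ he2 hs2)),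
        a1 _ (L.P_conj' ha (hP _ he1 hs1)) _ (hP _ he2 hs2), k2 _ (hP _ he1 hs1), a2 _ haa, h5]
      group
  · simp only [hf.2, Dih.one_s]
    simpa [a2 f hf] using h2

section sep

variable {L} {N : ℕ}

theorem Sep.eq_of (hs : L.Sep N) {e e' : G} (he : e ∈ E) (he' : e' ∈ E) (h1 : L.ψ e = L.ψ e')
    (h2 : ∀ φ : G → Dih (ZMod N), MulOn E φ → φ e = φ e') : e = e' := by
  by_contra hne
  obtain ⟨φ, a1, a2⟩ := hs _ (L.eq_F he he' h1) (fun h => hne (inv_mul_eq_one.1 h))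
  apply a2
  rw [a1 _ (E.inv_mem he) _ he', a1.inv he, h2 φ a1, inv_mul_cancel]

theorem Sep.mem_K (hs : L.Sep N) (hN : 2 ∣ N) {e : G} (he : e ∈ E) (j : ℤ)
    (h1 : L.ψ e = ⟨false, N * j⟩)
    (h2 : ∀ φ : G → Dih (ZMod N), MulOn E φ → φ e = 1) : e = (L.x ^ N) ^ j := by
  have hx := E.pow_mem L.x_mem N
  refine hs.eq_of he (E.zpow_mem hx j) ?_ fun φ hφ => ?_
  · rw [h1, ← zpow_natCast, ← zpow_mul, L.ψ_zpow]
  · rw [h2 φ hφ, hφ.zpow hx, hφ.pow L.x_mem, Dih.pow_N hN, one_zpow]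

theorem Sep.pow_rot (hs : L.Sep N) (hN : 2 ∣ N) {e : G} (he : e ∈ L.P) :
    e ^ N = (L.x ^ N) ^ (L.ψ e).a := by
  refine hs.mem_K hN (E.pow_mem he.1 N) _ ?_ fun φ hφ => ?_
  · rw [L.mul.pow he.1, Dih.pow_rot _ he.2]; simp
  · rw [hφ.pow he.1, Dih.pow_N hN]

theorem Sep.pow_refl (hs : L.Sep N) (hN : 2 ∣ N) {e : G} (he : e ∈ E) (h : (L.ψ e).s = true) :
    e ^ N = 1 := by
  have := hs.mem_K hN (E.pow_mem he N) 0 ?_ fun φ hφ => ?_
  · simpa using this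
  · obtain ⟨k, hk⟩ := hN
    rw [L.mul.pow he, hk, Dih.pow_even_refl _ h]; rfl
  · rw [hφ.pow he, Dih.pow_N hN]

theorem Sep.pow_mem (hs : L.Sep N) (hN : 2 ∣ N) {e : G} (he : e ∈ E) :
    e ^ N ∈ Subgroup.zpowers (L.x ^ N) := by
  rcases h : (L.ψ e).s
  · rw [hs.pow_rot hN ⟨he, h⟩]; exact Subgroup.zpow_mem_zpowers _ _
  · rw [hs.pow_refl hN he h]; exact Subgroup.one_mem _

theorem Sep.law (hs : L.Sep N) {g : G} {c : ℕ → G} (hc : Chain6 g c) (hg : g ∈ E) (h1 : c 1 ∈ E) :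
    Law c := by
  rw [hc.law_iff]
  have h2 := E.pow_mem hg 2
  have h4 := E.pow_mem hg 4
  have h3 : g ^ 2 * c 1 * (g ^ 2)⁻¹ ∈ E := E.mul_mem (E.mul_mem h2 h1) (E.inv_mem h2)
  have key : ∀ {A : Type} [AddCommGroup A] (φ : G → Dih A), MulOn E φ →
      φ (g ^ 4 * c 1 * (g ^ 4)⁻¹) =
      φ ((g ^ 2 * c 1 * (g ^ 2)⁻¹) * (c 1)⁻¹ * (g ^ 2 * c 1 * (g ^ 2)⁻¹)) := by
    intro A _ φ hφ
    rw [hφ _ (E.mul_mem h3 (E.inv_mem h1)) _ h3, hφ _ h3 _ (E.inv_mem h1), hφ.conj h4 h1,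
      hφ.conj h2 h1, hφ.inv h1, hφ.pow hg, hφ.pow hg]
    exact Dih.law _ _
  exact hs.eq_of (E.mul_mem (E.mul_mem h4 h1) (E.inv_mem h4))
    (E.mul_mem (E.mul_mem h3 (E.inv_mem h1)) h3) (key _ L.mul) fun φ hφ => key φ hφ

theorem sel_aux (l : List G) (hl : ∀ e ∈ l, e ∈ E) :
    ∃ y ∈ E, L.ψ y = ⟨false, 2 ^ (l.length + 1)⟩ ∧
      (∀ φ : G → Dih (ZMod N), MulOn E φ → ∃ t : ZMod N, φ y = ⟨false, 2 ^ (l.length + 1) * t⟩) ∧
      ∀ e ∈ l, ∀ φ : G → Dih (ZMod N), MulOn E φ → (φ e).s ≠ (L.ψ e).s → φ y = 1 := by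
  induction l with
  | nil =>
    refine ⟨L.x ^ 2, E.pow_mem L.x_mem 2, by rw [L.ψ_pow]; rfl, fun φ hφ => ?_, by simp⟩
    rw [hφ.pow L.x_mem]
    rcases h : (φ L.x).s
    · exact ⟨(φ L.x).a, by rw [Dih.pow_rot _ h]; simp⟩
    · exact ⟨0, by rw [sq, Dih.sq_refl _ h]; ext <;> simp⟩
  | cons e l ih =>
    obtain ⟨y, hy, b1, b2, b3⟩ := ih fun e' he' => hl e' (List.mem_cons_of_mem _ he')
    have he := hl e List.mem_cons_self
    rcases hes : (L.ψ e).s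
    · have hm : ∀ {A : Type} [AddCommGroup A] (φ : G → Dih A), MulOn E φ →
          φ (y * (e * y * e⁻¹)) = φ y * (φ e * φ y * (φ e)⁻¹) := by
        intro A _ φ hφ
        rw [hφ _ hy _ (E.mul_mem (E.mul_mem he hy) (E.inv_mem he)), hφ.conj he hy]
      refine ⟨y * (e * y * e⁻¹), E.mul_mem hy (E.mul_mem (E.mul_mem he hy) (E.inv_mem he)),
        ?_, fun φ hφ => ?_, fun e' he' φ hφ hne => ?_⟩
      · rw [hm _ L.mul, b1]; ext <;> simp [hes]; ring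
      · obtain ⟨t, ht⟩ := b2 φ hφ
        rw [hm _ hφ, ht]
        rcases h : (φ e).s
        · exact ⟨t, by ext <;> simp [h]; ring⟩
        · exact ⟨0, by ext <;> simp [h]⟩
      · rw [hm _ hφ]
        rcases List.mem_cons.1 he' with rfl | he'
        · obtain ⟨t, ht⟩ := b2 φ hφ
          have h : (φ e').s = true := by simpa [hes] using hne
          rw [ht]; ext <;> simp [h]
        · rw [b3 e' he' φ hφ hne]; simp
    · have hm : ∀ {A : Type} [AddCommGroup A] (φ : G → Dih A), MulOn E φ →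
          φ (y * (e * y⁻¹ * e⁻¹)) = φ y * (φ e * (φ y)⁻¹ * (φ e)⁻¹) := by
        intro A _ φ hφ
        rw [hφ _ hy _ (E.mul_mem (E.mul_mem he (E.inv_mem hy)) (E.inv_mem he)),
          hφ.conj he (E.inv_mem hy), hφ.inv hy]
      refine ⟨y * (e * y⁻¹ * e⁻¹),
        E.mul_mem hy (E.mul_mem (E.mul_mem he (E.inv_mem hy)) (E.inv_mem he)),
        ?_, fun φ hφ => ?_, fun e' he' φ hφ hne => ?_⟩
      · rw [hm _ L.mul, b1]; ext <;> simp [hes]; ring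
      · obtain ⟨t, ht⟩ := b2 φ hφ
        rw [hm _ hφ, ht]
        rcases h : (φ e).s
        · exact ⟨0, by ext <;> simp [h]⟩
        · exact ⟨t, by ext <;> simp [h]; ring⟩
      · rw [hm _ hφ]
        rcases List.mem_cons.1 he' with rfl | he'
        · obtain ⟨t, ht⟩ := b2 φ hφ
          have h : (φ e').s = false := by simpa [hes] using hne
          rw [ht]; ext <;> simp [h]
        · rw [b3 e' he' φ hφ hne]; simp

/-- The quarter turn adapted to a list of elements. -/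
theorem Sep.sel (hs : L.Sep N) (l : List G) (hl : ∀ e ∈ l, e ∈ E) (c : ℕ)
    (hN : N = 2 ^ (l.length + 3) * c) :
    ∃ s ∈ E, (L.ψ s).s = false ∧ 4 * (L.ψ s).a = N ∧
      (∀ e ∈ l, (L.ψ e).s = false → e * s * e⁻¹ = s) ∧
      (∀ e ∈ l, (L.ψ e).s = true → e * s * e⁻¹ = s⁻¹) ∧
      (∀ e ∈ E, e * (s * s) * e⁻¹ * (s * s)⁻¹ ∈ Subgroup.zpowers (L.x ^ N)) ∧
      s * s * (s * s) ∈ Subgroup.zpowers (L.x ^ N) := by
  obtain ⟨y, hy, b1, b2, b3⟩ := sel_aux (L := L) (N := N) l hl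
  have hs' := E.pow_mem hy c
  have c1 : L.ψ (y ^ c) = ⟨false, c * 2 ^ (l.length + 1)⟩ := by
    rw [L.mul.pow hy, b1, Dih.pow_rot _ rfl]; simp
  have c2 : ∀ φ : G → Dih (ZMod N), MulOn E φ →
      ∃ t : ZMod N, φ (y ^ c) = ⟨false, c * 2 ^ (l.length + 1) * t⟩ := by
    intro φ hφ
    obtain ⟨t, ht⟩ := b2 φ hφ
    exact ⟨t, by rw [hφ.pow hy, ht, Dih.pow_rot _ rfl]; simp [mul_assoc]⟩
  have c3 : ∀ e ∈ l, ∀ φ : G → Dih (ZMod N), MulOn E φ → (φ e).s ≠ (L.ψ e).s → φ (y ^ c) = 1 := by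
    intro e he φ hφ hne
    rw [hφ.pow hy, b3 e he φ hφ hne, one_pow]
  generalize y ^ c = s at hs' c1 c2 c3
  have h4 : (4 : ℤ) * (c * 2 ^ (l.length + 1)) = N := by rw [hN]; push_cast; ring
  have hN2 : 2 ∣ N := by rw [hN]; exact Dvd.dvd.mul_right (dvd_pow_self 2 (by omega)) c
  have h0 : (4 : ZMod N) * (c * 2 ^ (l.length + 1)) = 0 := by
    have := congrArg (Int.cast : ℤ → ZMod N) h4
    simpa using this
  refine ⟨s, hs', by rw [c1], by rw [c1]; exact h4, fun e he hes => ?_, fun e he hes => ?_,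
    fun e he => ?_, ?_⟩
  rotate_left 3
  · have hss := E.mul_mem hs' hs'
    rw [hs.mem_K hN2 (E.mul_mem hss hss) 1 (by
      rw [L.mul _ hss _ hss, L.mul _ hs' _ hs', c1]; ext
      · simp
      · simp; linarith) (fun φ hφ => by
      obtain ⟨t, ht⟩ := c2 φ hφ
      rw [hφ _ hss _ hss, hφ _ hs' _ hs', ht]; ext
      · simp
      · simp; linear_combination t * h0)]
    exact Subgroup.zpow_mem_zpowers _ _
  · have heE := hl e he
    refine hs.eq_of (E.mul_mem (E.mul_mem heE hs') (E.inv_mem heE)) hs' ?_ fun φ hφ => ?_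
    · rw [L.mul.conj heE hs', c1]; ext <;> simp [hes]
    · rw [hφ.conj heE hs']
      rcases h : (φ e).s
      · obtain ⟨t, ht⟩ := c2 φ hφ
        rw [ht]; ext <;> simp [h]
      · rw [c3 e he φ hφ (by simp [h, hes])]; simp
  · have heE := hl e he
    refine hs.eq_of (E.mul_mem (E.mul_mem heE hs') (E.inv_mem heE)) (E.inv_mem hs') ?_
      fun φ hφ => ?_
    · rw [L.mul.conj heE hs', L.mul.inv hs', c1]; ext <;> simp [hes]
    · rw [hφ.conj heE hs', hφ.inv hs']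
      rcases h : (φ e).s
      · rw [c3 e he φ hφ (by simp [h, hes])]; simp
      · obtain ⟨t, ht⟩ := c2 φ hφ
        rw [ht]; ext <;> simp [h]
  · have hss := E.mul_mem hs' hs'
    have hm : ∀ {A : Type} [AddCommGroup A] (φ : G → Dih A), MulOn E φ →
        φ (e * (s * s) * e⁻¹ * (s * s)⁻¹) = φ e * (φ s * φ s) * (φ e)⁻¹ * (φ s * φ s)⁻¹ := by
      intro A _ φ hφ
      rw [hφ _ (E.mul_mem (E.mul_mem he hss) (E.inv_mem he)) _ (E.inv_mem hss), hφ.conj he hss,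
        hφ.inv hss, hφ _ hs' _ hs']
    have hφ1 : ∀ φ : G → Dih (ZMod N), MulOn E φ → φ (e * (s * s) * e⁻¹ * (s * s)⁻¹) = 1 := by
      intro φ hφ
      obtain ⟨t, ht⟩ := c2 φ hφ
      rw [hm φ hφ, ht]
      rcases h : (φ e).s
      · ext <;> simp [h]
      · ext
        · simp
        · simp only [Dih.mul_a, Dih.mul_s, Dih.inv_s, Dih.inv_a, h, Dih.one_a]
          simp
          linear_combination (-t) * h0
    have hmem := E.mul_mem (E.mul_mem (E.mul_mem he hss) (E.inv_mem he)) (E.inv_mem hss)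
    rcases h : (L.ψ e).s
    · rw [hs.mem_K hN2 hmem 0 (by rw [hm _ L.mul, c1]; ext <;> simp [h]) hφ1]
      exact Subgroup.zpow_mem_zpowers _ _
    · rw [hs.mem_K hN2 hmem (-1) (by
        rw [hm _ L.mul, c1]; ext
        · simp
        · simp [h]; linarith) hφ1]
      exact Subgroup.zpow_mem_zpowers _ _

/-- The law for chains inside a loxodromic elementary subgroup. -/
theorem Sep.chain {n : ℕ} (hs : L.Sep N) (hA : Alg G n N)
    (hC : ∀ g y : G, y ∈ E → ¬ IsOfFinOrder y → g * y * g⁻¹ ∈ E → g ∈ E)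
    {g : G} {c : ℕ → G} (hc : Chain6 g c) (hE : ∀ j, j ≤ 6 → c j ∈ E) : Law c := by
  by_cases hg : g ∈ E
  · exact hs.law hc hg (hE 1 (by omega))
  have f1 : ∀ j, j ≤ 6 → L.ψ (c j) = 1 ∨ (L.ψ (c j)).s = true := by
    intro j hj
    rw [← L.fin_iff (hE j hj)]
    by_contra hf
    by_cases h6 : j < 6
    · exact hg (hC g _ (hE j hj) hf (by rw [hc j h6]; exact hE _ (by omega)))
    · have : j = 5 + 1 := by omega
      subst this
      rw [← hc 5 (by omega), finOrder_conj] at hf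
      exact hg (hC g _ (hE 5 (by omega)) hf (by rw [hc 5 (by omega)]; exact hE _ (by omega)))
  have f2 : ∀ i j, i < 6 → j < 6 → IsOfFinOrder (c i * c j) := by
    intro i j hi hj
    by_contra hf
    refine hg (hC g _ (E.mul_mem (hE i hi.le) (hE j hj.le)) hf ?_)
    rw [show g * (c i * c j) * g⁻¹ = (g * c i * g⁻¹) * (g * c j * g⁻¹) by group, hc i hi, hc j hj]
    exact E.mul_mem (hE _ (by omega)) (hE _ (by omega))
  have f3 : ∀ i j, i ≤ 6 → j ≤ 6 → IsOfFinOrder (c i * c j) → (L.ψ (c i)).s = true →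
      (L.ψ (c j)).s = true → L.ψ (c i) = L.ψ (c j) := by
    intro i j hi hj hf h1 h2
    rw [L.fin_iff (E.mul_mem (hE i hi) (hE j hj)), L.mul _ (hE i hi) _ (hE j hj)] at hf
    rcases hf with hf | hf
    · rw [eq_inv_of_mul_eq_one_left hf]
      exact inv_eq_of_mul_eq_one_right (Dih.sq_refl _ h2)
    · simp [h1, h2] at hf
  by_cases hmid : ∃ j, 1 ≤ j ∧ j ≤ 5 ∧ (L.ψ (c j)).s = true
  · obtain ⟨j, hj1, hj5, hj⟩ := hmid
    refine hA.sa g c (L.A _ (Dih.sq_refl _ hj)) hc (L.A_fin _ _) fun i hi => ⟨hE i hi, ?_⟩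
    rcases f1 i hi with h | h
    · exact Or.inl h
    · refine Or.inr (f3 i j hi (by omega) ?_ h hj)
      by_cases h6 : i < 6
      · exact f2 i j h6 (by omega)
      · obtain ⟨j', rfl⟩ : ∃ j', j = j' + 1 := ⟨j - 1, by omega⟩
        have : i = 5 + 1 := by omega
        subst this
        have := f2 5 j' (by omega) (by omega)
        rw [← finOrder_conj (g := g)] at this
        rwa [show g * (c 5 * c j') * g⁻¹ = (g * c 5 * g⁻¹) * (g * c j' * g⁻¹) by group,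
          hc 5 (by omega), hc j' (by omega)] at this
  · refine hA.sc g c L.F hc L.F_fin (fun j h1 h5 => ⟨hE j (by omega), ?_⟩)
      (fun f hf => L.F_conj (hE 0 (by omega)) hf) (fun f hf => L.F_conj (hE 6 le_rfl) hf)
      (L.sq_mem (hE 0 (by omega)) (f1 0 (by omega))) (L.sq_mem (hE 6 le_rfl) (f1 6 le_rfl))
    rcases f1 j (by omega) with h | h
    · exact h
    · exact absurd ⟨j, h1, h5, h⟩ hmid

end sep

end Lox

end Pool.Agent.Lib.OCn
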