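import Pool.Agent.Lib.MP_de4dbb_al.Axis
import Pool.Agent.Lib.MP_de4dbb_al.Lox

/-! The maximal elementary subgroup of an element of infinite order. -/

namespace Pool.Agent.Lib.OCn

variable {G : Type} [Group G]

theorem pm_pow {h c : G} (H : h * c * h⁻¹ = c ∨ h * c * h⁻¹ = c⁻¹) (k : ℕ) :
    h * c ^ k * h⁻¹ = c ^ k ∨ h * c ^ k * h⁻¹ = (c ^ k)⁻¹ := by
  rw [← conj_pow]
  rcases H with H | H <;> rw [H]
  · exact Or.inl rfl
  · exact Or.inr (inv_pow c k)

theorem pm_mul {a b c : G} (Ha : a * c * a⁻¹ = c ∨ a * c * a⁻¹ = c⁻¹)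
    (Hb : b * c * b⁻¹ = c ∨ b * c * b⁻¹ = c⁻¹) :
    a * b * c * (a * b)⁻¹ = c ∨ a * b * c * (a * b)⁻¹ = c⁻¹ := by
  rw [show a * b * c * (a * b)⁻¹ = a * (b * c * b⁻¹) * a⁻¹ by group]
  rcases Hb with Hb | Hb <;> rw [Hb]
  · exact Ha
  · rw [show a * c⁻¹ * a⁻¹ = (a * c * a⁻¹)⁻¹ by group]
    rcases Ha with Ha | Ha <;> rw [Ha] <;> simp

theorem pm_inv {a c : G} (Ha : a * c * a⁻¹ = c ∨ a * c * a⁻¹ = c⁻¹) :
    a⁻¹ * c * a⁻¹⁻¹ = c ∨ a⁻¹ * c * a⁻¹⁻¹ = c⁻¹ := by
  rcases Ha with Ha | Ha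
  · left; rw [← Ha]; nth_rewrite 2 [Ha]; group
  · right
    calc a⁻¹ * c * a⁻¹⁻¹ = a⁻¹ * (a * c * a⁻¹)⁻¹ * a := by rw [Ha]; group
      _ = c⁻¹ := by group

/-- The elements that normalize a nontrivial power of `g`. -/
def Ec (g : G) : Subgroup G where
  carrier := {h | ∃ m : ℕ, 0 < m ∧ (h * g ^ m * h⁻¹ = g ^ m ∨ h * g ^ m * h⁻¹ = (g ^ m)⁻¹)}
  one_mem' := ⟨1, one_pos, by simp⟩
  mul_mem' := by
    rintro a b ⟨m, hm, ha⟩ ⟨m', hm', hb⟩
    refine ⟨m * m', by positivity, pm_mul ?_ ?_⟩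
    · rw [pow_mul]; exact pm_pow ha m'
    · rw [mul_comm, pow_mul]; exact pm_pow hb m
  inv_mem' := by
    rintro a ⟨m, hm, ha⟩
    exact ⟨m, hm, pm_inv ha⟩

theorem mem_Ec {g h : G} : h ∈ Ec g ↔
    ∃ m : ℕ, 0 < m ∧ (h * g ^ m * h⁻¹ = g ^ m ∨ h * g ^ m * h⁻¹ = (g ^ m)⁻¹) := Iff.rfl

theorem self_mem_Ec (g : G) : g ∈ Ec g := ⟨1, one_pos, by simp⟩

theorem Ec_pow (g : G) {k : ℕ} (hk : 0 < k) : Ec (g ^ k) = Ec g := by
  ext h
  constructor
  · rintro ⟨m, hm, H⟩
    exact ⟨k * m, by positivity, by rwa [pow_mul]⟩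
  · rintro ⟨m, hm, H⟩
    refine ⟨m, hm, ?_⟩
    rw [← pow_mul, mul_comm k m, pow_mul]; exact pm_pow H k

theorem Ec_inv (g : G) : Ec g⁻¹ = Ec g := by
  have key : ∀ g : G, Ec g ≤ Ec g⁻¹ := by
    rintro g h ⟨m, hm, H⟩
    refine ⟨m, hm, ?_⟩
    rw [inv_pow, show h * (g ^ m)⁻¹ * h⁻¹ = (h * g ^ m * h⁻¹)⁻¹ by group]
    rcases H with H | H <;> rw [H] <;> simp
  exact le_antisymm (by simpa using key g⁻¹) (key g)

theorem Ec_zpow (g : G) {k : ℤ} (hk : k ≠ 0) : Ec (g ^ k) = Ec g := by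
  obtain ⟨k, rfl | rfl⟩ := k.eq_nat_or_neg
  · rw [zpow_natCast, Ec_pow g (by omega)]
  · rw [zpow_neg, Ec_inv, zpow_natCast, Ec_pow g (by omega)]

theorem mem_Ec_conj {g h e : G} : e ∈ Ec (h * g * h⁻¹) ↔ h⁻¹ * e * h ∈ Ec g := by
  simp only [mem_Ec, conj_pow]
  refine exists_congr fun m => and_congr_right fun _ => or_congr ?_ ?_
  · constructor
    · intro H
      calc _ = h⁻¹ * (e * (h * g ^ m * h⁻¹) * e⁻¹) * h := by group
        _ = _ := by rw [H]; group
    · intro H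
      calc _ = h * (h⁻¹ * e * h * g ^ m * (h⁻¹ * e * h)⁻¹) * h⁻¹ := by group
        _ = _ := by rw [H]
  · constructor
    · intro H
      calc _ = h⁻¹ * (e * (h * g ^ m * h⁻¹) * e⁻¹) * h := by group
        _ = _ := by rw [H]; group
    · intro H
      calc _ = h * (h⁻¹ * e * h * g ^ m * (h⁻¹ * e * h)⁻¹) * h⁻¹ := by group
        _ = _ := by rw [H]; group

theorem Ec_map {Q : Type} [Group Q] (π : G →* Q) {g h : G} (H : h ∈ Ec g) : π h ∈ Ec (π g) := by
  obtain ⟨m, hm, H⟩ := H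
  refine ⟨m, hm, ?_⟩
  rcases H with H | H
  · left; simpa using congrArg π H
  · right; simpa using congrArg π H

theorem exists_lox_of_index (g : G) (hg : ¬ IsOfFinOrder g) (T : Set G) (hT : T.Finite)
    (hcov : ∀ h ∈ Ec g, ∃ j : ℤ, (g ^ j)⁻¹ * h ∈ T) : Nonempty (Lox (Ec g)) := by
  classical
  obtain ⟨m, hm, hmT⟩ : ∃ m : ℕ, 0 < m ∧ ∀ t ∈ T, t ∈ Ec g →
      (t * g ^ m * t⁻¹ = g ^ m ∨ t * g ^ m * t⁻¹ = (g ^ m)⁻¹) := by
    clear hcov
    induction T, hT using Set.Finite.induction_on with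
    | empty => exact ⟨1, one_pos, by simp⟩
    | @insert t T _ _ ih =>
      obtain ⟨m, hm, ih⟩ := ih
      by_cases ht : t ∈ Ec g
      · obtain ⟨m', hm', H⟩ := ht
        refine ⟨m * m', by positivity, fun s hs hs' => ?_⟩
        rcases hs with rfl | hs
        · rw [mul_comm m m', pow_mul]; exact pm_pow H m
        · rw [pow_mul]; exact pm_pow (ih s hs hs') m'
      · refine ⟨m, hm, fun s hs hs' => ?_⟩
        rcases hs with rfl | hs
        · exact absurd hs' ht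
        · exact ih s hs hs'
  set c := g ^ m with hc
  have hcinf : ¬ IsOfFinOrder c := fun h => hg (h.of_pow (by omega))
  have hcE : c ∈ Ec g := (Ec g).pow_mem (self_mem_Ec g) m
  have hpm : ∀ h ∈ Ec g, h * c * h⁻¹ = c ∨ h * c * h⁻¹ = c⁻¹ := by
    intro h hh
    obtain ⟨j, hj⟩ := hcov h hh
    have h1 := hmT _ hj ((Ec g).mul_mem ((Ec g).inv_mem ((Ec g).zpow_mem (self_mem_Ec g) j)) hh)
    have h2 : g ^ j * c * (g ^ j)⁻¹ = c ∨ g ^ j * c * (g ^ j)⁻¹ = c⁻¹ := by
      left; rw [hc]; group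
    simpa using pm_mul h2 h1
  let P0 : Subgroup G := Ec g ⊓ Subgroup.centralizer {c}
  have memP : ∀ h, h ∈ P0 ↔ h ∈ Ec g ∧ h * c * h⁻¹ = c := by
    intro h
    simp only [P0, Subgroup.mem_inf, Subgroup.mem_centralizer_singleton_iff, mul_inv_eq_iff_eq_mul]
  have hcP : c ∈ P0 := (memP c).2 ⟨hcE, by group⟩
  have hcomm : ∀ h ∈ P0, ∀ i : ℤ, h * c ^ i * h⁻¹ = c ^ i := by
    intro h hh i
    rw [← conj_zpow, ((memP h).1 hh).2]
  let H : Subgroup P0 := (Subgroup.zpowers c).subgroupOf P0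
  have hfin : Finite (P0 ⧸ H) := by
    let T' : Set G := Set.image2 (fun (i : ℕ) t => g ^ i * t) (Set.Iio m) T
    have hT' : T'.Finite := (Set.finite_Iio m).image2 _ hT
    have : Finite {t : P0 // (t : G) ∈ T'} :=
      (hT'.preimage (f := ((↑) : P0 → G)) Subtype.val_injective.injOn).to_subtype
    refine Finite.of_surjective (fun t : {t : P0 // (t : G) ∈ T'} => (QuotientGroup.mk t.1 : P0 ⧸ H)) ?_
    intro q
    obtain ⟨h, rfl⟩ := QuotientGroup.mk_surjective q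
    obtain ⟨j, hj⟩ := hcov h ((memP h).1 h.2).1
    have hm' : (0 : ℤ) < m := by exact_mod_cast hm
    have e1 : (h : G) * (c ^ (j / m))⁻¹ = g ^ (j % m).toNat * ((g ^ j)⁻¹ * h) := by
      have e2 := hcomm h h.2 (j / m)
      have e3 : (h : G) * (c ^ (j / m))⁻¹ = (c ^ (j / m))⁻¹ * h := by
        calc _ = (h * c ^ (j / m) * (h : G)⁻¹)⁻¹ * h := by group
          _ = _ := by rw [e2]
      rw [e3, ← zpow_natCast, Int.toNat_of_nonneg (Int.emod_nonneg _ hm'.ne'), ← mul_assoc, hc,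
        ← zpow_natCast, ← zpow_mul, ← zpow_neg, ← zpow_neg, ← zpow_add]
      congr 2
      have := Int.mul_ediv_add_emod j m
      linarith
    refine ⟨⟨h * (⟨c, hcP⟩ ^ (j / m))⁻¹, ?_⟩, ?_⟩
    · refine ⟨(j % m).toNat, ?_, _, hj, ?_⟩
      · have := Int.emod_lt_of_pos j hm'
        have := Int.emod_nonneg j hm'.ne'
        simp only [Set.mem_Iio]; omega
      · simpa using e1.symm
    · simp only [QuotientGroup.eq, H, Subgroup.mem_subgroupOf]
      simp
  have hfi : H.FiniteIndex := Subgroup.finiteIndex_of_finite_quotient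
  have hinj : Function.Injective (zpowersHom G c) := by
    intro a b hab
    have := (injective_zpow_iff_not_isOfFinOrder.2 hcinf) (a₁ := a.toAdd) (a₂ := b.toAdd) hab
    exact Multiplicative.toAdd.injective this
  let ι : H →* (zpowersHom G c).range :=
    (P0.subtype.comp H.subtype).codRestrict _ (fun h => by
      obtain ⟨j, hj⟩ := Subgroup.mem_subgroupOf.1 h.2
      exact ⟨Multiplicative.ofAdd j, hj⟩)
  let ϕ : H →* Multiplicative ℤ := (MonoidHom.ofInjective hinj).symm.toMonoidHom.comp ι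
  have hϕ : ∀ h : H, c ^ (ϕ h).toAdd = (h : P0) := fun h =>
    MonoidHom.apply_ofInjective_symm hinj (ι h)
  let V := MonoidHom.transfer ϕ
  have hV : ∀ h : P0, c ^ (V h).toAdd = (h : G) ^ H.index := by
    intro h
    have key : ∀ (k : ℕ) (g₀ : P0), g₀⁻¹ * h ^ k * g₀ ∈ H → g₀⁻¹ * h ^ k * g₀ = h ^ k := by
      intro k g₀ hk
      obtain ⟨j, hj⟩ := Subgroup.mem_subgroupOf.1 hk
      have e1 := hcomm g₀ g₀.2 j
      apply Subtype.ext
      simp only at hj
      rw [← hj, ← e1, hj]; simp [mul_assoc]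
    rw [show V h = _ from MonoidHom.transfer_eq_pow ϕ h key, hϕ]; simp
  have hk0 : H.index ≠ 0 := hfi.index_ne_zero
  let lam : G → ℤ := fun h => if hh : h ∈ P0 then (V ⟨h, hh⟩).toAdd else 0
  have lam_spec : ∀ h ∈ P0, c ^ lam h = h ^ H.index := by
    intro h hh; simp only [lam, dif_pos hh]; exact hV ⟨h, hh⟩
  have lam_add : ∀ a ∈ P0, ∀ b ∈ P0, lam (a * b) = lam a + lam b := by
    intro a ha b hb
    simp only [lam, dif_pos ha, dif_pos hb, dif_pos (P0.mul_mem ha hb)]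
    rw [← toAdd_mul, ← map_mul]; rfl
  have cinj := injective_zpow_iff_not_isOfFinOrder.2 hcinf
  have lam_c : lam c = H.index := cinj (by simpa using lam_spec c hcP)
  have lam_one : lam 1 = 0 := by have := lam_add 1 P0.one_mem 1 P0.one_mem; simpa using this
  have lam_inv : ∀ a ∈ P0, lam a⁻¹ = - lam a := by
    intro a ha
    have := lam_add a ha a⁻¹ (P0.inv_mem ha)
    rw [mul_inv_cancel, lam_one] at this; linarith
  let I : AddSubgroup ℤ :=
    { carrier := {j | ∃ a ∈ P0, lam a = j}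
      zero_mem' := ⟨1, P0.one_mem, lam_one⟩
      add_mem' := by
        rintro _ _ ⟨a, ha, rfl⟩ ⟨b, hb, rfl⟩
        exact ⟨a * b, P0.mul_mem ha hb, lam_add a ha b hb⟩
      neg_mem' := by
        rintro _ ⟨a, ha, rfl⟩
        exact ⟨a⁻¹, P0.inv_mem ha, lam_inv a ha⟩ }
  obtain ⟨d, hd⟩ := Int.subgroup_cyclic I
  have hdI : d ∈ I := by rw [hd]; exact AddSubgroup.subset_closure rfl
  obtain ⟨x, hx, hxd⟩ := hdI
  have hdvd : ∀ a ∈ P0, d ∣ lam a := by
    intro a ha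
    have : lam a ∈ I := ⟨a, ha, rfl⟩
    rw [hd, AddSubgroup.mem_closure_singleton] at this
    obtain ⟨k, hk⟩ := this
    exact ⟨k, by rw [← hk]; simp [mul_comm]⟩
  have hd0 : d ≠ 0 := by
    intro h0
    have := hdvd c hcP
    rw [h0, lam_c, zero_dvd_iff] at this
    exact hk0 (by exact_mod_cast this)
  let pos : G → ℤ := fun h => lam h / d
  have pos_add : ∀ a ∈ P0, ∀ b ∈ P0, pos (a * b) = pos a + pos b := by
    intro a ha b hb
    simp only [pos]
    rw [lam_add a ha b hb, Int.add_ediv_of_dvd_left (hdvd a ha)]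
  have pos_lam : ∀ a ∈ P0, d * pos a = lam a := fun a ha => Int.mul_ediv_cancel' (hdvd a ha)
  have hfinK : {e | e ∈ P0 ∧ lam e = 0}.Finite := by
    have : Finite {e : G // e ∈ P0 ∧ lam e = 0} := by
      refine Finite.of_injective
        (fun e : {e : G // e ∈ P0 ∧ lam e = 0} => (QuotientGroup.mk ⟨e.1, e.2.1⟩ : P0 ⧸ H)) ?_
      rintro ⟨a, ha, ha0⟩ ⟨b, hb, hb0⟩ hab
      simp only [QuotientGroup.eq, H, Subgroup.mem_subgroupOf] at hab
      obtain ⟨j, hj⟩ := hab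
      simp only [Subgroup.coe_mul, Subgroup.coe_inv] at hj
      have h1 := lam_spec _ (P0.mul_mem (P0.inv_mem ha) hb)
      rw [lam_add _ (P0.inv_mem ha) _ hb, lam_inv a ha, ha0, hb0, ← hj, ← zpow_natCast,
        ← zpow_mul] at h1
      have h2 := cinj h1
      have h3 : j = 0 := by
        rcases mul_eq_zero.1 (h2.symm.trans (by simp)) with h | h
        · exact h
        · exact absurd (by exact_mod_cast h) hk0
      rw [h3, zpow_zero] at hj
      exact Subtype.ext (inv_mul_eq_one.1 hj.symm)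
    exact Set.finite_coe_iff.1 this
  have hcc : c ≠ c⁻¹ := by
    intro h
    apply hcinf
    rw [isOfFinOrder_iff_pow_eq_one]
    exact ⟨2, by norm_num, by rw [sq]; nth_rewrite 1 [h]; simp⟩
  by_cases hu : ∃ u ∈ Ec g, u ∉ P0
  swap
  · have hall : ∀ e ∈ Ec g, e ∈ P0 := by
      intro e he; by_contra h; exact hu ⟨e, he, h⟩
    refine ⟨⟨fun h => ⟨false, pos h⟩, fun a ha b hb => ?_, x, ((memP x).1 hx).1, ?_, ?_⟩⟩
    · ext <;> simp [pos_add a (hall a ha) b (hall b hb)]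
    · simp [pos, hxd, hd0]
    · refine hfinK.subset fun e he => ⟨hall e he.1, ?_⟩
      have := congrArg Dih.a he.2
      simp only [Dih.one_a] at this
      rw [← pos_lam e (hall e he.1), this, mul_zero]
  obtain ⟨u, hu, huP⟩ := hu
  have hneg : ∀ e ∈ Ec g, e ∉ P0 → e * c * e⁻¹ = c⁻¹ := by
    intro e he heP
    rcases hpm e he with h | h
    · exact absurd ((memP e).2 ⟨he, h⟩) heP
    · exact h
  have huc := hneg u hu huP
  have huc' : u⁻¹ * c * u = c⁻¹ := by
    calc u⁻¹ * c * u = u⁻¹ * (u * c * u⁻¹)⁻¹ * u := by rw [huc]; group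
      _ = c⁻¹ := by group
  have hup : ∀ e ∈ Ec g, e ∉ P0 → u⁻¹ * e ∈ P0 := by
    intro e he heP
    refine (memP _).2 ⟨(Ec g).mul_mem ((Ec g).inv_mem hu) he, ?_⟩
    calc _ = u⁻¹ * (e * c * e⁻¹) * u := by group
      _ = (u⁻¹ * c * u)⁻¹ := by rw [hneg e he heP]; group
      _ = c := by rw [huc', inv_inv]
  have hconjP : ∀ e ∈ P0, u⁻¹ * e * u ∈ P0 := by
    intro e he
    refine (memP _).2 ⟨(Ec g).mul_mem ((Ec g).mul_mem ((Ec g).inv_mem hu) ((memP e).1 he).1) hu, ?_⟩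
    calc _ = u⁻¹ * (e * (u * c * u⁻¹) * e⁻¹) * u := by group
      _ = (u⁻¹ * (e * c * e⁻¹) * u)⁻¹ := by rw [huc]; group
      _ = c := by rw [((memP e).1 he).2, huc', inv_inv]
  have lam_conj : ∀ e ∈ P0, lam (u⁻¹ * e * u) = - lam e := by
    intro e he
    apply cinj
    have h1 := lam_spec _ (hconjP e he)
    have h2 := conj_pow (i := H.index) (a := u⁻¹) (b := e)
    rw [inv_inv] at h2
    have h3 := conj_zpow (i := lam e) (a := u⁻¹) (b := c)
    rw [inv_inv] at h3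
    simp only
    rw [h1, h2, ← lam_spec e he, ← h3, huc']; simp
  have pos_conj : ∀ e ∈ P0, pos (u⁻¹ * e * u) = - pos e := by
    intro e he
    apply mul_left_cancel₀ hd0
    rw [pos_lam _ (hconjP e he), lam_conj e he, mul_neg, pos_lam e he]
  have huu : u * u ∈ P0 := by
    have := hup u⁻¹ ((Ec g).inv_mem hu) (fun h => huP (by simpa using P0.inv_mem h))
    simpa using P0.inv_mem this
  have pos_uu : pos (u * u) = 0 := by
    have := pos_conj _ huu
    rw [show u⁻¹ * (u * u) * u = u * u by group] at this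
    linarith
  refine ⟨⟨fun h => if h ∈ P0 then ⟨false, pos h⟩ else ⟨true, pos (u⁻¹ * h)⟩, fun a ha b hb => ?_, x,
    ((memP x).1 hx).1, ?_, ?_⟩⟩
  · by_cases haP : a ∈ P0 <;> by_cases hbP : b ∈ P0
    · simp only [haP, hbP, P0.mul_mem haP hbP, if_true]
      ext <;> simp [pos_add a haP b hbP]
    · have : a * b ∉ P0 := fun h => hbP (by simpa using P0.mul_mem (P0.inv_mem haP) h)
      simp only [haP, hbP, this, if_true, if_false]
      ext
      · simp
      · rw [show u⁻¹ * (a * b) = (u⁻¹ * a * u) * (u⁻¹ * b) by group,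
          pos_add _ (hconjP a haP) _ (hup b hb hbP), pos_conj a haP]
        simp
    · have : a * b ∉ P0 := fun h => haP (by simpa using P0.mul_mem h (P0.inv_mem hbP))
      simp only [haP, hbP, this, if_true, if_false]
      ext
      · simp
      · rw [← mul_assoc, pos_add _ (hup a ha haP) _ hbP]
        simp
    · have e1 : a * b = (u * u) * ((u⁻¹ * (u⁻¹ * a) * u) * (u⁻¹ * b)) := by group
      have e2 := P0.mul_mem (hconjP _ (hup a ha haP)) (hup b hb hbP)
      have : a * b ∈ P0 := by rw [e1]; exact P0.mul_mem huu e2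
      simp only [haP, hbP, this, if_true, if_false]
      ext
      · simp
      · rw [e1, pos_add _ huu _ e2, pos_add _ (hconjP _ (hup a ha haP)) _ (hup b hb hbP),
          pos_conj _ (hup a ha haP), pos_uu]
        simp
  · simp [hx, pos, hxd, hd0]
  · refine hfinK.subset fun e he => ?_
    have h2 := he.2
    by_cases heP : e ∈ P0
    · simp only [heP, if_true] at h2
      have := congrArg Dih.a h2
      simp only [Dih.one_a] at this
      exact ⟨heP, by rw [← pos_lam e heP, this, mul_zero]⟩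
    · simp only [heP, if_false] at h2
      have := congrArg Dih.s h2
      simp at this

end Pool.Agent.Lib.OCn
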