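import Pool.Agent.Lib.MP_de4dbb_al.Quo

/-! Finite subgroups of the quotient, folding and lifting of conjugations. -/

namespace Pool.Agent.Lib.OCn

variable {G Z : Type} [Group G] [MulAction G Z]

/-- Additional properties of a rotation system. -/
structure Rot.Ext (R : Rot G Z) : Prop where
  ea : ∀ u, R.Ap u → ∀ T : Subgroup G, (T : Set G).Finite → (∀ t ∈ T, t • u = u) → ∀ z, z ≠ u →
    (∀ t ∈ T, ∃ ρ ∈ R.K u, R.ang u z (ρ • t • z) ≤ 4 * R.θ) →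
    ∃ c : G, c • u = u ∧ (∀ e : G, e • u = u → e * c * e⁻¹ * c⁻¹ ∈ R.K u) ∧
      ∀ t ∈ T, R.ang u (c • z) (t • c • z) ≤ 6 * R.θ
  eb : ∀ u, R.Ap u → ∀ z, z ≠ u → ∀ H : Subgroup G, (∀ e ∈ H, e • u = u) →
    (∀ e ∈ H, ∃ ρ ∈ R.K u, R.ang u z (ρ • e • z) ≤ 4 * R.θ) →
    ∃ A : Subgroup G, (A : Set G).Finite ∧ (∀ a ∈ A, a • u = u) ∧ ∀ e ∈ H, ∃ ρ ∈ R.K u, ρ * e ∈ A
  lf1 : ∀ a, ¬ R.Ap a → {z | R.d a z ≤ 1}.Finite
  lf2 : ∀ u, R.Ap u → ∃ S : Set Z, S.Finite ∧ ∀ z, R.d u z ≤ 1 → ∃ ρ ∈ R.K u, ρ • z ∈ S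
  lf3 : ∀ a, ¬ R.Ap a → {g : G | g • a = a}.Finite
  lf4 : ∀ u, R.Ap u → ∃ S : Set G, S.Finite ∧ ∀ e : G, e • u = u → ∃ ρ ∈ R.K u, ρ * e ∈ S
  fix : ∀ H : Subgroup G, (H : Set G).Finite → ∃ a, ¬ R.Ap a ∧ ∀ h ∈ H, h • a = a

namespace Quo

variable {R : Rot G Z} {Q Y : Type} [Group Q] [MulAction Q Y] (q : Quo R Q Y) (hX : R.Ext)
include hX

theorem inj_fin {H : Subgroup G} (hH : (H : Set G).Finite) {g g' : G} (hg : g ∈ H) (hg' : g' ∈ H)
    (h : q.π g = q.π g') : g = g' := by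
  obtain ⟨a, ha, hf⟩ := hX.fix H hH
  exact q.inj_stab ha h (hf g hg) (hf g' hg')

include q in
theorem nonempty : Nonempty Y := by
  obtain ⟨a, -, -⟩ := hX.fix ⊥ (by simp)
  exact ⟨q.p a⟩

theorem lf (a : Y) : {b | q.sp.d a b ≤ 1}.Finite := by
  obtain ⟨z, rfl⟩ := q.p_surj a
  by_cases hz : R.Ap z
  · obtain ⟨S, hS, h⟩ := hX.lf2 z hz
    refine (hS.image q.p).subset fun b hb => ?_
    obtain ⟨z', rfl, h1⟩ := q.d_lift z b
    obtain ⟨ρ, hρ, h2⟩ := h z' (h1 ▸ hb)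
    exact ⟨_, h2, q.p_K (R.K_le hz hρ) z'⟩
  · refine ((hX.lf1 z hz).image q.p).subset fun b hb => ?_
    obtain ⟨z', rfl, h1⟩ := q.d_lift z b
    exact ⟨z', show R.d z z' ≤ 1 from h1 ▸ hb, rfl⟩

include q in
theorem stab (a : Y) : {g : Q | g • a = a}.Finite := by
  obtain ⟨z, rfl⟩ := q.p_surj a
  by_cases hz : R.Ap z
  · obtain ⟨S, hS, h⟩ := hX.lf4 z hz
    refine (hS.image q.π).subset fun g hg => ?_
    obtain ⟨e, rfl, h1⟩ := q.exists_lift g hg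
    obtain ⟨ρ, hρ, h2⟩ := h e h1
    exact ⟨_, h2, by simp [q.π_rot hz hρ]⟩
  · refine ((hX.lf3 z hz).image q.π).subset fun g hg => ?_
    obtain ⟨e, rfl, h1⟩ := q.exists_lift g hg
    exact ⟨e, h1, rfl⟩

/-- A finite subgroup of the quotient lifts or fixes an apex. -/
theorem lift_or_apex (H : Subgroup Q) (hH : (H : Set Q).Finite) :
    (∃ A : Subgroup G, (A : Set G).Finite ∧ H ≤ A.map q.π) ∨
      ∃ v, R.Ap v ∧ ∀ h ∈ H, h • q.p v = q.p v := by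
  classical
  have hθ := R.θ_pos
  obtain ⟨y0⟩ := q.nonempty hX
  have hex : ∃ n, ∃ y, ∀ h ∈ H, q.sp.d y (h • y0) ≤ n := by
    obtain ⟨n, hn⟩ := (hH.image fun h => q.sp.d y0 (h • y0)).bddAbove
    exact ⟨n, y0, fun h hh => hn ⟨h, hh, rfl⟩⟩
  set r := Nat.find hex with hr
  let C : Set Y := {y | ∀ h ∈ H, q.sp.d y (h • y0) ≤ r}
  obtain ⟨c, hc⟩ : ∃ c, c ∈ C := Nat.find_spec hex
  have hinv : ∀ g ∈ H, ∀ y ∈ C, g • y ∈ C := by
    intro g hg y hy h hh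
    rw [← q.sp.iso_inv', ← mul_smul]; exact hy _ (H.mul_mem (H.inv_mem hg) hh)
  have hang : ∀ w, q.Ap w → ∀ a ∈ C, ∀ b ∈ C, a ≠ w → b ≠ w → q.ang w a b ≤ 6 * R.θ := by
    intro w hw a ha b hb n1 n2
    by_contra hbig
    have key : ∀ h ∈ H, q.sp.d w (h • y0) < r := by
      intro h hh
      have a1 := ha h hh
      have a2 := hb h hh
      have a3 := q.sp.d_pos n1
      have a4 := q.sp.d_pos n2
      by_cases ho : h • y0 = w
      · rw [ho] at a1 ⊢; rw [q.sp.d_self]; omega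
      have := q.ang_tri hw n1 ho n2
      by_cases h1 : R.θ < q.ang w a (h • y0)
      · have := q.bgi hw n1 ho h1; omega
      · have := q.ang_comm w b (h • y0)
        have := q.bgi hw n2 ho (by omega); omega
    have h0 := key 1 H.one_mem
    exact Nat.find_min hex (show r - 1 < r by omega) ⟨w, fun h hh => by have := key h hh; omega⟩
  by_cases hfix : q.Ap c ∧ ∀ h ∈ H, h • c = c
  · obtain ⟨⟨v, hv, rfl⟩, h2⟩ := hfix
    exact Or.inr ⟨v, hv, h2⟩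
  left
  obtain ⟨x, hx, hxa⟩ : ∃ x, ¬ q.Ap x ∧ ∀ w, q.Ap w → ∀ h ∈ H, q.ang w x (h • x) ≤ 16 * R.θ := by
    by_cases hca : q.Ap c
    swap
    · refine ⟨c, hca, fun w hw h hh => ?_⟩
      have := hang w hw c hc _ (hinv h hh c hc) (q.ne_of_pt hca hw) (q.ne_of_pt (q.pt_smul h hca) hw)
      omega
    obtain ⟨h0, hh0, hne⟩ : ∃ h ∈ H, h • c ≠ c := by
      by_contra h; push Not at h; exact hfix ⟨hca, h⟩
    have hd := q.sp.d_pos hne.symm
    obtain ⟨x, x1, x2⟩ := q.sp.geo c (h0 • c) 1 hd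
    have hx : ¬ q.Ap x := fun h => q.ap_ap hca h x1
    have near : ∀ w, q.Ap w → ∃ c' ∈ C, c' ≠ w ∧ q.ang w x c' ≤ R.θ := by
      intro w hw
      have n := q.ne_of_pt hx hw
      have := q.sp.d_comm c x
      by_cases h1 : c = w
      · subst h1
        exact ⟨h0 • c, hinv _ hh0 c hc, hne, q.ang_le hw n hne (by omega)⟩
      · have := q.sp.d_pos n
        have := q.sp.d_pos (Ne.symm h1)
        exact ⟨c, hc, h1, q.ang_le hw n h1 (by omega)⟩
    refine ⟨x, hx, fun w hw h hh => ?_⟩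
    obtain ⟨c1, a1, a2, a3⟩ := near w hw
    obtain ⟨c2, b1, b2, b3⟩ := near (h⁻¹ • w) (q.Ap_smul _ hw)
    rw [q.ang_inv] at b3
    have b4 : h • c2 ≠ w := fun e => b2 (by rw [← e, inv_smul_smul])
    have n1 := q.ne_of_pt hx hw
    have n2 := q.ne_of_pt (q.pt_smul h hx) hw
    have := hang w hw c1 a1 _ (hinv h hh c2 b1) a2 b4
    have := q.ang_tri hw n1 a2 n2
    have := q.ang_tri hw a2 b4 n2
    have := q.ang_comm w (h • c2) (h • x)
    omega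
  obtain ⟨a, rfl⟩ := q.p_surj x
  have ha : ¬ R.Ap a := fun h => hx (q.Ap_p.2 h)
  have lift : ∀ h ∈ H, ∃ g, q.π g = h ∧ ∀ u, R.Ap u → R.ang u a (g • a) ≤ 25 * R.θ := by
    intro h hh
    obtain ⟨z', e1, -, e3⟩ := q.tight a (h • q.p a) (16 * R.θ) fun u hu _ _ => hxa u hu h hh
    obtain ⟨g, rfl, rfl⟩ := q.exists_lift h e1.symm
    refine ⟨g, rfl, fun u hu => ?_⟩
    have := e3 u hu (R.ne_of_pt ha hu) (R.ne_of_pt (R.pt_smul g ha) hu)
    omega
  let A : Subgroup G :=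
    { carrier := {g | q.π g ∈ H ∧ ∀ u, R.Ap u → R.ang u a (g • a) ≤ 25 * R.θ}
      one_mem' := ⟨by simp, fun u hu => by
        have := R.ang_self hu (R.ne_of_pt ha hu); rw [one_smul]; omega⟩
      mul_mem' := by
        rintro g g' ⟨h1, h2⟩ ⟨h3, h4⟩
        have h5 : q.π (g * g') ∈ H := by rw [map_mul]; exact H.mul_mem h1 h3
        obtain ⟨g3, e, h6⟩ := lift _ h5
        rw [← q.lift_eq ha e h6 (t' := 50 * R.θ) (fun u hu => ?_) (by omega)]
        · exact ⟨e ▸ h5, h6⟩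
        · have := h2 u hu
          have h7 := h4 _ (R.Ap_smul g⁻¹ u hu)
          rw [R.ang_inv] at h7
          have := R.ang_tri u a (g • a) (g • g' • a) hu (R.ne_of_pt ha hu)
            (R.ne_of_pt (R.pt_smul _ ha) hu) (R.ne_of_pt (R.pt_smul _ (R.pt_smul _ ha)) hu)
          rw [mul_smul]; omega
      inv_mem' := by
        rintro g ⟨h1, h2⟩
        refine ⟨by rw [map_inv]; exact H.inv_mem h1, fun u hu => ?_⟩
        rw [← R.ang_smul g, smul_inv_smul, R.ang_comm]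
        exact h2 _ (R.Ap_smul g u hu) }
  refine ⟨A, ?_, fun h hh => ?_⟩
  · refine Set.Finite.of_finite_image (f := q.π) (hH.subset ?_) ?_
    · rintro _ ⟨g, hg, rfl⟩; exact hg.1
    · intro g hg g' hg' e
      exact q.lift_eq ha e hg.2 hg'.2 (by omega)
  · obtain ⟨g, rfl, h2⟩ := lift h hh
    exact ⟨g, ⟨hh, h2⟩, rfl⟩

/-- Elements fixing an apex and another vertex lift to a finite subgroup. -/
theorem stab_two {v : Z} (hv : R.Ap v) {b : Y} (hb : b ≠ q.p v) :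
    ∃ A : Subgroup G, (A : Set G).Finite ∧ (∀ a ∈ A, a • v = v) ∧
      ∀ h : Q, h • q.p v = q.p v → h • b = b → h ∈ A.map q.π := by
  obtain ⟨z, rfl, hz⟩ := q.d_lift v b
  rw [R.d_comm, q.sp.d_comm] at hz
  let H : Subgroup G := MulAction.stabilizer G v ⊓ (MulAction.stabilizer Q (q.p z)).comap q.π
  obtain ⟨A, a1, a2, a3⟩ := hX.eb v hv z (q.ne_of_p hb) H (fun e he => he.1) (fun e he => by
    have h1 : e • v = v := he.1
    have h2 : q.π e • q.p z = q.p z := he.2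
    rw [q.p_smul] at h2
    exact q.coarse hv h2.symm hb hz (by rw [R.d_comm, R.d_rot h1, R.d_comm, hz]))
  refine ⟨A, a1, a2, fun h h1 h2 => ?_⟩
  obtain ⟨e, rfl, he⟩ := q.exists_lift h h1
  obtain ⟨ρ, hρ, h3⟩ := a3 e ⟨he, h2⟩
  exact ⟨_, h3, by simp [q.π_rot hv hρ]⟩

/-- The folding lemma. -/
theorem fold (T : Subgroup G) (hT : (T : Set G).Finite) (n : ℕ) : ∀ (z : Z) (b : Y),
    q.sp.d (q.p z) b ≤ n → (∀ t ∈ T, t • z = z) → (∀ t ∈ T, q.π t • b = b) →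
    ∃ (c : Q) (z' : Z), (∀ t ∈ T, c * q.π t = q.π t * c) ∧ (∀ t ∈ T, t • z' = z') ∧
      q.p z' = c • b ∧ (c = 1 ∨ ∃ v, q.Ap v ∧ ∀ t ∈ T, q.π t • v = v) := by
  have hθ := R.θ_pos
  induction n using Nat.strong_induction_on with
  | _ n ih =>
  intro z b hn hz hb
  by_cases hbz : b = q.p z
  · exact ⟨1, z, by simp, hz, by simp [hbz], Or.inl rfl⟩
  have hz' : ∀ t ∈ T, q.π t • q.p z = q.p z := fun t ht => by rw [q.p_smul, hz t ht]
  by_cases hbig : ∃ u, q.Ap u ∧ q.p z ≠ u ∧ b ≠ u ∧ 6 * R.θ < q.ang u (q.p z) b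
  · obtain ⟨u, hu, n1, n2, h1⟩ := hbig
    have hfu : ∀ t ∈ T, q.π t • u = u := by
      intro t ht
      have e1 : q.ang (q.π t • u) (q.p z) b = q.ang u (q.p z) b := by
        rw [← q.ang_smul (q.π t) u, hz' t ht, hb t ht]
      have e2 : q.sp.d (q.p z) (q.π t • u) = q.sp.d (q.p z) u := by
        rw [← q.sp.iso (q.π t) _ u, hz' t ht]
      refine (q.line hu (q.Ap_smul _ hu) n1 n2 (fun h => n1 ?_) (fun h => n2 ?_) h1 (by omega)
        e2.symm).symm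
      · rw [← hz' t ht] at h; exact smul_left_cancel _ h
      · rw [← hb t ht] at h; exact smul_left_cancel _ h
    have b1 := q.bgi hu n1 n2 (by omega)
    have b2 := q.sp.d_pos n1
    have b3 := q.sp.d_pos n2.symm
    obtain ⟨c1, z1, a1, a2, a3, -⟩ := ih (n - 1) (by omega) z u (by omega) hz hfu
    obtain ⟨c2, z2, a4, a5, a6, -⟩ := ih (n - 1) (by omega) z1 (c1 • b)
      (by rw [a3, q.sp.iso]; omega) a2 (fun t ht => by rw [← mul_smul, ← a1 t ht, mul_smul, hb t ht])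
    refine ⟨c2 * c1, z2, fun t ht => ?_, a5, by rw [a6, mul_smul], Or.inr ⟨u, hu, hfu⟩⟩
    rw [mul_assoc, a1 t ht, ← mul_assoc, a4 t ht, mul_assoc]
  push Not at hbig
  obtain ⟨y, rfl, y1, y2⟩ := q.tight z b (6 * R.θ) hbig
  have hyz : y ≠ z := q.ne_of_p hbz
  have fin : ∀ c : G, c • z = z → (∀ t ∈ T, q.π c * q.π t = q.π t * q.π c) →
      (R.Ap z → ∀ t ∈ T, R.ang z (c • y) (t • c • y) ≤ 6 * R.θ) → ∀ t ∈ T, t • c • y = c • y := by
    intro c hc hcomm hang t ht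
    by_contra hne
    obtain ⟨k, hk, e⟩ := (q.p_eq (c • y) (t • c • y)).1 (by
      rw [← q.p_smul t, ← q.p_smul c, ← mul_smul, ← hcomm t ht, mul_smul, hb t ht])
    obtain ⟨u, hu, n1, n2, h1⟩ := R.green hk (e ▸ hne)
    rw [← e] at n2 h1
    by_cases huz : z = u
    · subst huz; have := hang hu t ht; omega
    have key : ∀ g : G, g • z = z → g • y ≠ u → R.ang u z (g • y) ≤ 15 * R.θ := by
      intro g hg hgy
      have := y2 (g⁻¹ • u) (R.Ap_smul _ _ hu) (fun h => huz (by rw [← hg, h, smul_inv_smul]))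
        (fun h => hgy (by rw [h, smul_inv_smul]))
      rw [R.ang_inv, hg] at this; omega
    have k1 := key c hc n1
    have k2 := key (t * c) (by rw [mul_smul, hc, hz t ht]) (by rwa [mul_smul])
    rw [mul_smul] at k2
    have := R.ang_tri u _ z _ hu n1 huz n2
    have := R.ang_comm u z (c • y)
    omega
  by_cases hap : R.Ap z
  · obtain ⟨c, c1, c2, c3⟩ := hX.ea z hap T hT hz y hyz (fun t ht => by
      have h2 := hb t ht
      rw [q.p_smul] at h2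
      rw [R.d_comm, q.sp.d_comm] at y1
      exact q.coarse hap h2.symm hbz y1 (by rw [R.d_comm, R.d_rot (hz t ht), R.d_comm, y1]))
    have hcomm : ∀ t ∈ T, q.π c * q.π t = q.π t * q.π c := by
      intro t ht
      have := q.π_rot hap (c2 t (hz t ht))
      simp only [map_mul, map_inv] at this
      rw [mul_inv_eq_one, mul_inv_eq_iff_eq_mul] at this
      exact this.symm
    exact ⟨q.π c, c • y, hcomm, fin c c1 hcomm fun _ => c3, (q.p_smul _ _).symm,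
      Or.inr ⟨q.p z, q.Ap_p.2 hap, hz'⟩⟩
  · refine ⟨1, y, by simp, ?_, by simp, Or.inl rfl⟩
    simpa using fin 1 (by simp) (by simp) (fun h => absurd h hap)

/-- Lifting of conjugations between finite subgroups. -/
theorem conj_lift (A B : Subgroup G) (hA : (A : Set G).Finite) (hB : (B : Set G).Finite) (g : Q) :
    ∃ g' : G, (∀ t ∈ A, ∀ t' ∈ B, q.π t' = g * q.π t * g⁻¹ → g' * t * g'⁻¹ = t') ∧
      (q.π g' = g ∨ ∃ v, q.Ap v ∧ ∀ t ∈ A, (∃ t' ∈ B, q.π t' = g * q.π t * g⁻¹) → q.π t • v = v) := by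
  let T : Subgroup G := A ⊓ ((B.map q.π).comap ((MulAut.conj g).toMonoidHom.comp q.π))
  have memT : ∀ t, t ∈ T ↔ t ∈ A ∧ ∃ t' ∈ B, q.π t' = g * q.π t * g⁻¹ := fun t => Iff.rfl
  have hT : (T : Set G).Finite := hA.subset fun t ht => ht.1
  obtain ⟨a, -, ha⟩ := hX.fix T hT
  obtain ⟨b, hb, hb'⟩ := hX.fix B hB
  obtain ⟨c, z', c1, c2, c3, c4⟩ := q.fold hX T hT _ a (g⁻¹ • q.p b) le_rfl ha (fun t ht => by
    obtain ⟨-, t', ht', e⟩ := (memT t).1 ht
    have : q.π t * g⁻¹ = g⁻¹ * q.π t' := by rw [e]; group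
    rw [← mul_smul, this, mul_smul, q.p_smul, hb' t' ht'])
  obtain ⟨g', e1, e2⟩ := q.exists_lift (g * c⁻¹) (z := z') (z' := b) (by rw [c3, mul_smul]; simp)
  refine ⟨g', fun t ht t' ht' e => ?_, ?_⟩
  · have htT : t ∈ T := (memT t).2 ⟨ht, t', ht', e⟩
    refine q.inj_stab hb ?_ ?_ (hb' t' ht')
    · simp only [map_mul, map_inv, e1, e]
      calc _ = g * (c⁻¹ * (q.π t * c)) * g⁻¹ := by group
        _ = _ := by rw [← c1 t htT]; group
    · rw [← e2, mul_smul, mul_smul, inv_smul_smul, c2 t htT]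
  · rcases c4 with c4 | ⟨v, hv, c4⟩
    · left; rw [e1, c4]; simp
    · exact Or.inr ⟨v, hv, fun t ht h => c4 t ((memT t).2 ⟨ht, h⟩)⟩

end Quo

end Pool.Agent.Lib.OCn
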