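import Mathlib

/-! Integer valued geodesic metric spaces, four point hyperbolicity, isometric actions. -/

namespace Pool.Agent.Lib.OCn

/-- A geodesic integer valued metric (the path metric of a connected graph). -/
structure GeoMet (X : Type) where
  d : X → X → ℕ
  d_self : ∀ x, d x x = 0
  d_comm : ∀ x y, d x y = d y x
  d_tri : ∀ x y z, d x z ≤ d x y + d y z
  eq_of : ∀ x y, d x y = 0 → x = y
  step : ∀ x y n, d x y = n + 1 → ∃ z, d x z = 1 ∧ d z y = n

namespace GeoMet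

variable {X : Type} (M : GeoMet X)

/-- Four point condition. -/
def Hyp (δ : ℕ) : Prop :=
  ∀ w x y z, M.d x z + M.d w y ≤ M.d x y + M.d w z + δ ∨ M.d x z + M.d w y ≤ M.d y z + M.d w x + δ

theorem Hyp.mono {M : GeoMet X} {δ δ' : ℕ} (h : M.Hyp δ) (hle : δ ≤ δ') : M.Hyp δ' := by
  intro w x y z
  have := h w x y z
  omega

theorem d_pos {x y : X} (h : x ≠ y) : 0 < M.d x y :=
  Nat.pos_of_ne_zero fun h0 => h (M.eq_of x y h0)

theorem exists_path (n : ℕ) : ∀ x y : X, M.d x y = n →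
    ∃ γ : ℕ → X, γ 0 = x ∧ γ n = y ∧ ∀ i j, i ≤ j → j ≤ n → M.d (γ i) (γ j) = j - i := by
  induction n with
  | zero =>
    intro x y h
    refine ⟨fun _ => x, rfl, M.eq_of x y h, ?_⟩
    intro i j _ _
    simp only [M.d_self]; omega
  | succ n ih =>
    intro x y h
    obtain ⟨z, hz1, hz2⟩ := M.step x y n h
    obtain ⟨γ, h0, hn, hγ⟩ := ih z y hz2
    refine ⟨fun i => if i = 0 then x else γ (i - 1), by simp, by simp [hn], ?_⟩
    intro i j hij hj
    by_cases hj0 : j = 0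
    · have : i = 0 := by omega
      subst this; subst hj0; simp [M.d_self]
    by_cases hi0 : i = 0
    · subst hi0
      simp only [hj0, if_true, if_false]
      have h1 := hγ 0 (j - 1) (by omega) (by omega)
      have h2 := hγ (j - 1) n (by omega) (by omega)
      rw [h0] at h1; rw [hn] at h2
      have h3 := M.d_tri x z (γ (j - 1))
      have h4 := M.d_tri x (γ (j - 1)) y
      omega
    · simp only [hj0, hi0, if_false]
      rw [hγ (i - 1) (j - 1) (by omega) (by omega)]; omega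

theorem geo (x y : X) (k : ℕ) (hk : k ≤ M.d x y) : ∃ z, M.d x z = k ∧ k + M.d z y = M.d x y := by
  obtain ⟨γ, h0, hn, hγ⟩ := M.exists_path _ x y rfl
  refine ⟨γ k, ?_, ?_⟩
  · have := hγ 0 k (by omega) hk
    rw [h0] at this; omega
  · have := hγ k _ hk le_rfl
    rw [hn] at this; omega

/-- Two points almost between `a` and `b`. -/
theorem thin {δ : ℕ} (hδ : M.Hyp δ) (a b p q : X) (κ s : ℕ)
    (hp : M.d a p + M.d p b ≤ M.d a b + κ) (hq : M.d a q + M.d q b ≤ M.d a b + κ)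
    (h1 : M.d a p ≤ M.d a q + s) (h2 : M.d a q ≤ M.d a p + s) : M.d p q ≤ s + κ + δ := by
  have := hδ a p b q
  have := M.d_comm b q
  omega

/-- A point almost between is near a point of a geodesic. -/
theorem near_geo {δ : ℕ} (hδ : M.Hyp δ) (a b p : X) (κ : ℕ)
    (hp : M.d a p + M.d p b ≤ M.d a b + κ) :
    ∃ m, M.d a m + M.d m b = M.d a b ∧ M.d p m ≤ κ + δ := by
  by_cases h : M.d a p ≤ M.d a b
  · obtain ⟨m, hm1, hm2⟩ := M.geo a b _ h
    refine ⟨m, by omega, ?_⟩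
    have := M.thin hδ a b p m κ 0 hp (by omega) (by omega) (by omega)
    omega
  · refine ⟨b, by rw [M.d_self]; omega, by omega⟩

/-- One sided chain lemma. -/
theorem chain {δ : ℕ} (hδ : M.Hyp δ) (x : ℕ → X) (a : ℕ)
    (h1 : ∀ i, M.d (x i) (x (i + 1)) + M.d (x (i + 1)) (x (i + 2)) ≤ M.d (x i) (x (i + 2)) + a)
    (h2 : ∀ i, a + δ < M.d (x i) (x (i + 1))) (i : ℕ) :
    M.d (x 0) (x i) + M.d (x i) (x (i + 1)) ≤ M.d (x 0) (x (i + 1)) + (a + δ) := by
  induction i with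
  | zero => rw [M.d_self]; omega
  | succ i ih =>
    have a1 := h1 i
    have a2 := h2 i
    have a3 := hδ (x (i + 1)) (x i) (x 0) (x (i + 2))
    have := M.d_comm (x (i + 1)) (x i)
    have := M.d_comm (x (i + 1)) (x 0)
    have := M.d_comm (x i) (x 0)
    show M.d (x 0) (x (i + 1)) + M.d (x (i + 1)) (x (i + 2)) ≤ M.d (x 0) (x (i + 2)) + (a + δ)
    omega

theorem ball_finite (h1 : ∀ x, {y | M.d x y ≤ 1}.Finite) (x : X) (D : ℕ) :
    {y | M.d x y ≤ D}.Finite := by
  induction D with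
  | zero => exact (h1 x).subset fun y hy => by simp only [Set.mem_ofPred_eq] at *; omega
  | succ D ih =>
    refine (ih.biUnion (t := fun z => {y | M.d z y ≤ 1}) fun z _ => h1 z).subset ?_
    intro y hy
    simp only [Set.mem_ofPred_eq, Set.mem_iUnion] at *
    by_cases h : M.d x y ≤ D
    · exact ⟨y, h, by rw [M.d_self]; omega⟩
    · obtain ⟨z, hz1, hz2⟩ := M.geo x y D (by omega)
      exact ⟨z, by omega, by omega⟩

end GeoMet

/-- A geodesic space with an isometric action. -/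
structure GSp (G X : Type) [Group G] [MulAction G X] extends GeoMet X where
  iso : ∀ (g : G) x y, d (g • x) (g • y) = d x y

namespace GSp

variable {G X : Type} [Group G] [MulAction G X] (S : GSp G X)

theorem iso_inv (g : G) (x y : X) : S.d (g⁻¹ • x) y = S.d x (g • y) := by
  rw [← S.iso g, smul_inv_smul]

theorem iso_inv' (g : G) (x y : X) : S.d x (g⁻¹ • y) = S.d (g • x) y := by
  rw [← S.iso g, smul_inv_smul]

theorem disp_inv (g : G) (x : X) : S.d x (g⁻¹ • x) = S.d x (g • x) := by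
  rw [S.iso_inv', S.d_comm]

theorem disp_mul (g h : G) (x : X) : S.d x ((g * h) • x) ≤ S.d x (g • x) + S.d x (h • x) := by
  have := S.d_tri x (g • x) ((g * h) • x)
  rw [mul_smul, S.iso] at this
  rw [mul_smul]; exact this

theorem disp_pow (g : G) (x : X) (m : ℕ) : S.d x (g ^ m • x) ≤ m * S.d x (g • x) := by
  induction m with
  | zero => simp [S.d_self]
  | succ m ih =>
    have := S.disp_mul (g ^ m) g x
    rw [pow_succ, add_mul, one_mul]; omega

theorem disp_move (g : G) (x y : X) : S.d y (g • y) ≤ S.d x (g • x) + 2 * S.d x y := by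
  have h1 := S.d_tri y x (g • y)
  have h2 := S.d_tri x (g • x) (g • y)
  have h3 := S.iso g x y
  have h4 := S.d_comm x y
  omega

theorem disp_conj (g h : G) (x : X) : S.d (h • x) ((h * g * h⁻¹) • h • x) = S.d x (g • x) := by
  rw [mul_smul, mul_smul, inv_smul_smul, S.iso]

theorem proper (h1 : ∀ x, {y | S.d x y ≤ 1}.Finite) (h2 : ∀ x : X, {g : G | g • x = x}.Finite)
    (x : X) (D : ℕ) : {g : G | S.d x (g • x) ≤ D}.Finite := by
  classical
  have hb := S.toGeoMet.ball_finite h1 x D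
  have key : ∀ y : X, {g : G | g • x = y}.Finite := by
    intro y
    by_cases hy : ∃ g0 : G, g0 • x = y
    · obtain ⟨g0, hg0⟩ := hy
      refine ((h2 x).image (fun g => g0 * g)).subset ?_
      intro g hg
      refine ⟨g0⁻¹ * g, ?_, by simp⟩
      simp only [Set.mem_ofPred_eq] at *
      rw [mul_smul, hg, ← hg0, inv_smul_smul]
    · convert Set.finite_empty
      ext g; simp only [Set.mem_ofPred_eq, Set.mem_empty_iff_false, iff_false]
      exact fun hg => hy ⟨g, hg⟩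
  refine (hb.biUnion (t := fun y => {g : G | g • x = y}) fun y _ => key y).subset ?_
  intro g hg
  simp only [Set.mem_ofPred_eq, Set.mem_iUnion] at *
  exact ⟨g • x, hg, rfl⟩

/-- Stable translation length. -/
noncomputable def tau (g : G) : ℝ :=
  ⨅ p : X × ℕ, (S.d p.1 (g ^ (p.2 + 1) • p.1) : ℝ) / (p.2 + 1 : ℕ)

theorem tau_bdd (g : G) : BddBelow (Set.range
    fun p : X × ℕ => (S.d p.1 (g ^ (p.2 + 1) • p.1) : ℝ) / (p.2 + 1 : ℕ)) :=
  ⟨0, by rintro _ ⟨p, rfl⟩; positivity⟩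

theorem tau_nonneg (g : G) : 0 ≤ S.tau g :=
  Real.iInf_nonneg fun _ => by positivity

theorem tau_le (g : G) (x : X) (m : ℕ) : (m : ℝ) * S.tau g ≤ S.d x (g ^ m • x) := by
  rcases m with _ | m
  · simp
  · have := ciInf_le (S.tau_bdd g) (x, m)
    have hp : (0 : ℝ) < (m + 1 : ℕ) := by positivity
    rw [le_div_iff₀ hp] at this
    rw [mul_comm]; exact this

theorem tau_upper (g : G) (x : X) (η : ℝ) (hη : 0 < η) :
    ∃ C : ℝ, ∀ m : ℕ, (S.d x (g ^ m • x) : ℝ) ≤ (S.tau g + η) * m + C := by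
  have : Nonempty X := ⟨x⟩
  obtain ⟨⟨y, k⟩, hk⟩ := exists_lt_of_ciInf_lt (f := fun p : X × ℕ =>
    (S.d p.1 (g ^ (p.2 + 1) • p.1) : ℝ) / (p.2 + 1 : ℕ)) (show S.tau g < S.tau g + η by linarith)
  simp only at hk
  have hp : (0 : ℝ) < (k + 1 : ℕ) := by positivity
  rw [div_lt_iff₀ hp] at hk
  refine ⟨2 * S.d x y + (k + 1 : ℕ) * S.d y (g • y), fun m => ?_⟩
  have h1 := S.disp_move (g ^ m) y x
  have hm : m = (k + 1) * (m / (k + 1)) + m % (k + 1) := (Nat.div_add_mod m (k + 1)).symm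
  have h2 := S.disp_mul ((g ^ (k + 1)) ^ (m / (k + 1))) (g ^ (m % (k + 1))) y
  rw [← pow_mul, ← pow_add, ← hm] at h2
  have h3 := S.disp_pow (g ^ (k + 1)) y (m / (k + 1))
  rw [← pow_mul] at h3
  have h4 := S.disp_pow g y (m % (k + 1))
  have h5 : m % (k + 1) * S.d y (g • y) ≤ (k + 1) * S.d y (g • y) :=
    Nat.mul_le_mul_right _ (Nat.mod_lt _ (by omega)).le
  have h6 : ((m / (k + 1) : ℕ) : ℝ) * (k + 1 : ℕ) ≤ m := by
    exact_mod_cast Nat.div_mul_le_self m (k + 1)
  have h7 : S.d x (g ^ m • x) ≤ m / (k + 1) * S.d y (g ^ (k + 1) • y) +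
      (2 * S.d x y + (k + 1) * S.d y (g • y)) := by
    rw [S.d_comm x y]; omega
  have h8 : (S.d x (g ^ m • x) : ℝ) ≤ (m / (k + 1) : ℕ) * (S.d y (g ^ (k + 1) • y) : ℝ) +
      (2 * S.d x y + (k + 1 : ℕ) * S.d y (g • y)) := by exact_mod_cast h7
  have h9 : ((m / (k + 1) : ℕ) : ℝ) * (S.d y (g ^ (k + 1) • y) : ℝ) ≤ (S.tau g + η) * m := by
    have hq : (0 : ℝ) ≤ (m / (k + 1) : ℕ) := by positivity
    have ht : 0 ≤ S.tau g + η := by have := S.tau_nonneg g; linarith
    calc _ ≤ ((m / (k + 1) : ℕ) : ℝ) * ((S.tau g + η) * (k + 1 : ℕ)) :=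
          mul_le_mul_of_nonneg_left hk.le hq
      _ = (S.tau g + η) * (((m / (k + 1) : ℕ) : ℝ) * (k + 1 : ℕ)) := by ring
      _ ≤ _ := mul_le_mul_of_nonneg_left h6 ht
  linarith

theorem le_tau (g : G) (x : X) (a b : ℝ)
    (h : ∀ n : ℕ, ∃ m : ℕ, n ≤ m ∧ a * m - b ≤ S.d x (g ^ m • x)) : a ≤ S.tau g := by
  by_contra hlt
  push Not at hlt
  obtain ⟨C, hC⟩ := S.tau_upper g x ((a - S.tau g) / 2) (by linarith)
  obtain ⟨n, hn⟩ := exists_nat_gt ((b + C) / ((a - S.tau g) / 2))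
  obtain ⟨m, hm, h2⟩ := h n
  have h3 := hC m
  have hp : 0 < (a - S.tau g) / 2 := by linarith
  rw [div_lt_iff₀ hp] at hn
  have : (n : ℝ) ≤ m := by exact_mod_cast hm
  nlinarith

theorem tau_le_of (g : G) (x : X) (a b : ℝ)
    (h : ∀ n : ℕ, ∃ m : ℕ, n ≤ m ∧ (S.d x (g ^ m • x) : ℝ) ≤ a * m + b) : S.tau g ≤ a := by
  by_contra hlt
  push Not at hlt
  obtain ⟨n, hn⟩ := exists_nat_gt (b / (S.tau g - a))
  obtain ⟨m, hm, h2⟩ := h n
  have h3 := S.tau_le g x m
  have hp : 0 < S.tau g - a := by linarith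
  rw [div_lt_iff₀ hp] at hn
  have : (n : ℝ) ≤ m := by exact_mod_cast hm
  nlinarith

theorem tau_pow [Nonempty X] (g : G) (k : ℕ) : S.tau (g ^ k) = k * S.tau g := by
  obtain ⟨x⟩ := ‹Nonempty X›
  apply le_antisymm
  · apply le_of_forall_pos_le_add
    intro η hη
    obtain ⟨C, hC⟩ := S.tau_upper g x (η / (k + 1)) (by positivity)
    refine S.tau_le_of (g ^ k) x _ C fun n => ⟨n, le_rfl, ?_⟩
    have := hC (k * n)
    rw [pow_mul] at this
    refine this.trans ?_
    push_cast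
    have h1 : η / (k + 1) * k ≤ η := by
      rw [div_mul_eq_mul_div, div_le_iff₀ (by positivity)]; nlinarith
    have : (0 : ℝ) ≤ n := by positivity
    nlinarith
  · refine S.le_tau (g ^ k) x _ 0 fun n => ⟨n, le_rfl, ?_⟩
    have := S.tau_le g x (k * n)
    rw [pow_mul] at this
    push_cast at this
    linarith

theorem tau_conj_le [Nonempty X] (g h : G) : S.tau (h * g * h⁻¹) ≤ S.tau g := by
  obtain ⟨x⟩ := ‹Nonempty X›
  apply le_of_forall_pos_le_add
  intro η hη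
  obtain ⟨C, hC⟩ := S.tau_upper g x η hη
  refine S.tau_le_of _ (h • x) _ C fun n => ⟨n, le_rfl, ?_⟩
  rw [conj_pow, S.disp_conj]; exact hC n

theorem tau_conj [Nonempty X] (g h : G) : S.tau (h * g * h⁻¹) = S.tau g := by
  apply le_antisymm (S.tau_conj_le g h)
  have := S.tau_conj_le (h * g * h⁻¹) h⁻¹
  simpa [mul_assoc] using this

theorem tau_inv (g : G) : S.tau g⁻¹ = S.tau g := by
  unfold tau
  simp only [inv_pow, S.disp_inv]

theorem tau_zpow [Nonempty X] (g : G) (j : ℤ) : S.tau (g ^ j) = |(j : ℝ)| * S.tau g := by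
  obtain ⟨k, rfl | rfl⟩ := j.eq_nat_or_neg
  · rw [zpow_natCast, S.tau_pow]; simp
  · rw [zpow_neg, S.tau_inv, zpow_natCast, S.tau_pow]; simp

theorem tau_le_one (g : G) (x : X) : S.tau g ≤ S.d x (g • x) := by
  simpa using S.tau_le g x 1

theorem tau_finite [Nonempty X] (g : G) (hg : IsOfFinOrder g) : S.tau g = 0 := by
  obtain ⟨x⟩ := ‹Nonempty X›
  obtain ⟨m, hm, h1⟩ := isOfFinOrder_iff_pow_eq_one.1 hg
  have := S.tau_le g x m
  rw [h1, one_smul, S.d_self] at this
  have h2 := S.tau_nonneg g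
  have : (0 : ℝ) < m := by exact_mod_cast hm
  push_cast at *
  nlinarith

end GSp

end Pool.Agent.Lib.OCn
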