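import Pool.Agent.Lib.MP_de4dbb_al.Step
import Pool.Agent.Lib.MP_de4dbb_al.Base

/-! The limit group. -/

namespace Pool.Agent.Lib.OCn

/-- A stage of the construction, as a quotient of a fixed group. -/
structure Stage (G0 : Type) [Group G0] (n N : ℕ) : Type 1 where
  G : Type
  X : Type
  [grp : Group G]
  [act : MulAction G X]
  S : GSp G X
  lev : Lev S n N
  π : G0 →* G
  surj : Function.Surjective π
  x : X
  ord : ∀ g, IsOfFinOrder g → orderOf (π g) = orderOf g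

attribute [instance] Stage.grp Stage.act

namespace Stage

variable {G0 : Type} [Group G0] {n N : ℕ}

/-- The next stage. -/
noncomputable def next (s : Stage G0 n N) : Stage G0 n N where
  G := s.G ⧸ s.lev.rot.KK
  X := s.lev.rot.Zq
  S := s.lev.rot.quo.sp
  lev := s.lev.levQ _
  π := s.lev.rot.quo.π.comp s.π
  surj := s.lev.rot.quo.π_surj.comp s.surj
  x := s.lev.rot.quo.p (.inl s.x)
  ord g hg := by
    rw [MonoidHom.comp_apply, s.lev.order_eq _ (s.π.isOfFinOrder hg), s.ord g hg]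

theorem next_ker (s : Stage G0 n N) {g : G0} (h : s.π g = 1) : s.next.π g = 1 := by
  show s.lev.rot.quo.π (s.π g) = 1
  rw [h, map_one]

theorem next_lt (s : Stage G0 n N) (g : G0) : IsOfFinOrder (s.next.π g) ∨
    s.next.S.d s.next.x (s.next.π g • s.next.x) < s.S.d s.x (s.π g • s.x) :=
  s.lev.shrink s.lev.rot.quo (s.π g) s.x

/-- The sequence of stages. -/
noncomputable def seq (s : Stage G0 n N) : ℕ → Stage G0 n N
  | 0 => s
  | i + 1 => (seq s i).next

theorem seq_mono (s : Stage G0 n N) {g : G0} {i j : ℕ} (hij : i ≤ j) (h : (s.seq i).π g = 1) :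
    (s.seq j).π g = 1 := by
  induction j, hij using Nat.le_induction with
  | base => exact h
  | succ j _ ih => exact (s.seq j).next_ker ih

theorem seq_fin (s : Stage G0 n N) (g : G0) : ∃ i, IsOfFinOrder ((s.seq i).π g) := by
  by_contra h
  push Not at h
  have key : ∀ i, (s.seq i).S.d (s.seq i).x ((s.seq i).π g • (s.seq i).x) + i ≤
      s.S.d s.x (s.π g • s.x) := by
    intro i
    induction i with
    | zero => exact le_rfl
    | succ i ih =>
      have := ((s.seq i).next_lt g).resolve_left (h (i + 1))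
      show (s.seq i).next.S.d (s.seq i).next.x ((s.seq i).next.π g • (s.seq i).next.x) + _ ≤ _
      omega
  have := key (s.S.d s.x (s.π g • s.x) + 1)
  omega

/-- The kernel of the limit. -/
def K (s : Stage G0 n N) : Subgroup G0 where
  carrier := {g | ∃ i, (s.seq i).π g = 1}
  one_mem' := ⟨0, map_one _⟩
  mul_mem' := by
    rintro a b ⟨i, hi⟩ ⟨j, hj⟩
    exact ⟨max i j, by
      rw [map_mul, s.seq_mono (le_max_left i j) hi, s.seq_mono (le_max_right i j) hj, mul_one]⟩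
  inv_mem' := by
    rintro a ⟨i, hi⟩
    exact ⟨i, by rw [map_inv, hi, inv_one]⟩

instance (s : Stage G0 n N) : s.K.Normal :=
  ⟨fun a ⟨i, hi⟩ g => ⟨i, by simp [hi]⟩⟩

theorem not_finite (s : Stage G0 n N) (hn : 3 ≤ n)
    (h : ∀ m, 1 ≤ m → m ≤ n → ∃ g : G0, orderOf g = m) : ¬ Finite s.G := by
  intro hf
  have h' : ∀ m, 1 ≤ m → m ≤ n → ∃ g : s.G, orderOf g = m := fun m m1 m2 => by
    obtain ⟨g, hg⟩ := h m m1 m2
    exact ⟨s.π g, by rw [s.ord g (orderOf_pos_iff.1 (by omega)), hg]⟩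
  rcases s.lev.pre.alg.fin ⊤ (Set.toFinite _) with h1 | ⟨c, c1, c2, c3⟩
  · obtain ⟨g, hg⟩ := h' 3 (by omega) hn
    obtain ⟨k, hk⟩ := s.lev.pow
    have := orderOf_dvd_of_pow_eq_one (h1 g trivial)
    rw [hg, hk] at this
    exact absurd (Nat.prime_three.dvd_of_dvd_pow this) (by norm_num)
  · obtain ⟨m, rfl⟩ : ∃ m, n = m + 1 := ⟨n - 1, by omega⟩
    obtain ⟨a, ha⟩ := h' m (by omega) (by omega)
    obtain ⟨b, hb⟩ := h' (m + 1) (by omega) le_rfl
    have h1 := orderOf_dvd_of_mem_zpowers (c3 (Subgroup.mem_top a))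
    have h2 := orderOf_dvd_of_mem_zpowers (c3 (Subgroup.mem_top b))
    rw [ha] at h1
    rw [hb] at h2
    have := Nat.le_of_dvd c1.orderOf_pos
      (Nat.Coprime.mul_dvd_of_dvd_of_dvd (by simp) h1 h2)
    nlinarith

theorem lim_infinite (s : Stage G0 n N) [Group.FG G0] (hn : 3 ≤ n)
    (h : ∀ m, 1 ≤ m → m ≤ n → ∃ g : G0, orderOf g = m) : Infinite (G0 ⧸ s.K) := by
  rw [← not_finite_iff_infinite]
  intro hf
  have : s.K.FiniteIndex := Subgroup.finiteIndex_of_finite_quotient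
  obtain ⟨T, h1, h2⟩ := (Subgroup.fg_iff s.K).1 ((Group.fg_iff_subgroup_fg s.K).1
    (Subgroup.fg_of_index_ne_zero s.K))
  have h3 : ∀ t : T, ∃ i, (s.seq i).π t = 1 := fun t => (h1 ▸ Subgroup.subset_closure t.2 : t.1 ∈ s.K)
  choose f hf using h3
  have := h2.to_subtype
  obtain ⟨i, hi⟩ := (Set.finite_range f).bddAbove
  have h4 : s.K ≤ (s.seq i).π.ker := by
    rw [← h1, Subgroup.closure_le]
    exact fun t ht => s.seq_mono (hi ⟨⟨t, ht⟩, rfl⟩) (hf ⟨t, ht⟩)
  refine (s.seq i).not_finite hn h (Finite.of_surjective (QuotientGroup.lift s.K (s.seq i).π h4) ?_)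
  intro g
  obtain ⟨g, rfl⟩ := (s.seq i).surj g
  exact ⟨QuotientGroup.mk g, rfl⟩

theorem lim_order (s : Stage G0 n N) (hN : N ≤ n) (g : G0 ⧸ s.K) :
    IsOfFinOrder g ∧ orderOf g ≤ n := by
  obtain ⟨g, rfl⟩ := QuotientGroup.mk_surjective g
  obtain ⟨i, hi⟩ := s.seq_fin g
  obtain ⟨m, m1, m2, m3⟩ : ∃ m, 0 < m ∧ m ≤ n ∧ (s.seq i).π g ^ m = 1 := by
    rcases (s.seq i).lev.pre.alg.fin _ (finite_zpowers.2 hi) with h1 | ⟨c, c1, c2, c3⟩
    · exact ⟨N, s.lev.pre.npos, hN, h1 _ (Subgroup.mem_zpowers _)⟩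
    · exact ⟨orderOf c, c1.orderOf_pos, c2, orderOf_dvd_iff_pow_eq_one.1
        (orderOf_dvd_of_mem_zpowers (c3 (Subgroup.mem_zpowers _)))⟩
  have : (QuotientGroup.mk g : G0 ⧸ s.K) ^ m = 1 := by
    rw [← QuotientGroup.mk_pow, QuotientGroup.eq_one_iff]
    exact ⟨i, by rwa [map_pow]⟩
  exact ⟨isOfFinOrder_iff_pow_eq_one.2 ⟨m, m1, this⟩, (orderOf_le_of_pow_eq_one m1 this).trans m2⟩

theorem lim_ord (s : Stage G0 n N) {g : G0} (hg : IsOfFinOrder g) :
    orderOf (QuotientGroup.mk g : G0 ⧸ s.K) = orderOf g := by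
  refine Nat.dvd_antisymm (orderOf_map_dvd (QuotientGroup.mk' s.K) g) ?_
  have := pow_orderOf_eq_one (QuotientGroup.mk g : G0 ⧸ s.K)
  rw [← QuotientGroup.mk_pow, QuotientGroup.eq_one_iff] at this
  obtain ⟨i, hi⟩ := this
  rw [← (s.seq i).ord g hg, orderOf_dvd_iff_pow_eq_one, ← map_pow, hi]

end Stage

theorem main (n : ℕ) (hn : 10 ^ 48 ≤ n) : ∃ (G : Type) (_ : Group G), Group.FG G ∧ Infinite G ∧
    (∀ g : G, IsOfFinOrder g ∧ orderOf g ≤ n) ∧ ∀ m, 1 ≤ m → m ≤ n → ∃ g : G, orderOf g = m := by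
  have h1 : n < 2 * 2 ^ Nat.log 2 n := by
    rw [← pow_succ']; exact Nat.lt_pow_succ_log_self (by norm_num) n
  obtain ⟨G, X, _, _, S, h2, h3, h4⟩ := exists_base (n := n) (by omega) h1 (by omega)
  obtain ⟨x⟩ := h2.pre.ne
  let s : Stage G n (2 ^ Nat.log 2 n) :=
    { G := G, X := X, S := S, lev := h2, π := MonoidHom.id G, surj := Function.surjective_id,
      x := x, ord := fun _ _ => rfl }
  refine ⟨G ⧸ s.K, inferInstance, Group.fg_of_surjective (QuotientGroup.mk'_surjective s.K),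
    s.lim_infinite (by omega) h4, s.lim_order (Nat.pow_log_le_self 2 (by omega)), fun m m1 m2 => ?_⟩
  obtain ⟨g, hg⟩ := h4 m m1 m2
  exact ⟨QuotientGroup.mk g, by rw [s.lim_ord (orderOf_pos_iff.1 (by omega)), hg]⟩

end Pool.Agent.Lib.OCn
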