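import Pool.Agent.Lib.MP_de4dbb_al.Rot

/-! The quotient of a rotation system: metric, hyperbolicity, angles. -/

namespace Pool.Agent.Lib.OCn

variable {G Z : Type} [Group G] [MulAction G Z]

/-- The quotient of the group and of the space by the rotation subgroup. -/
structure Quo (R : Rot G Z) (Q Y : Type) [Group Q] [MulAction Q Y] where
  π : G →* Q
  π_surj : Function.Surjective π
  π_ker : ∀ g, π g = 1 ↔ g ∈ R.KK
  p : Z → Y
  p_surj : Function.Surjective p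
  p_eq : ∀ z z', p z = p z' ↔ ∃ k ∈ R.KK, z' = k • z
  p_smul : ∀ (g : G) z, π g • p z = p (g • z)

/-- Orbit relation of the rotation subgroup. -/
def Rot.setoid (R : Rot G Z) : Setoid Z where
  r z z' := ∃ k ∈ R.KK, z' = k • z
  iseqv :=
    ⟨fun z => ⟨1, R.KK.one_mem, by simp⟩,
     fun ⟨k, hk, h⟩ => ⟨k⁻¹, R.KK.inv_mem hk, by simp [h]⟩,
     fun ⟨k, hk, h⟩ ⟨k', hk', h'⟩ => ⟨k' * k, R.KK.mul_mem hk' hk, by rw [h', h, mul_smul]⟩⟩

/-- The quotient space. -/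
def Rot.Zq (R : Rot G Z) : Type := Quotient R.setoid

instance (R : Rot G Z) : MulAction (G ⧸ R.KK) R.Zq where
  smul q y := Quotient.liftOn₂' q y (fun g z => (Quotient.mk R.setoid (g • z) : R.Zq)) (by
    intro g z g' z' h1 h2
    obtain ⟨k, hk, rfl⟩ := h2
    rw [QuotientGroup.leftRel_apply] at h1
    apply Quotient.sound
    refine ⟨g * (g⁻¹ * g' * k) * g⁻¹,
      (inferInstance : R.KK.Normal).conj_mem _ (R.KK.mul_mem h1 hk) g, ?_⟩
    rw [← mul_smul, ← mul_smul]; congr 1; group)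
  one_smul y := by
    induction y using Quotient.inductionOn with
    | h z => exact congrArg (Quotient.mk R.setoid) (one_smul G z)
  mul_smul a b y := by
    induction a using Quotient.inductionOn' with
    | h a =>
    induction b using Quotient.inductionOn' with
    | h b =>
    induction y using Quotient.inductionOn with
    | h z => exact congrArg (Quotient.mk R.setoid) (mul_smul a b z)

/-- The canonical quotient. -/
def Rot.quo (R : Rot G Z) : Quo R (G ⧸ R.KK) R.Zq where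
  π := QuotientGroup.mk' R.KK
  π_surj := QuotientGroup.mk'_surjective _
  π_ker g := by simp
  p := Quotient.mk R.setoid
  p_surj := Quotient.mk_surjective
  p_eq _ _ := ⟨fun h => Quotient.exact h, fun h => Quotient.sound h⟩
  p_smul _ _ := rfl

namespace Quo

variable {R : Rot G Z} {Q Y : Type} [Group Q] [MulAction Q Y] (q : Quo R Q Y)

theorem p_K {k : G} (hk : k ∈ R.KK) (z : Z) : q.p (k • z) = q.p z :=
  ((q.p_eq _ _).2 ⟨k, hk, rfl⟩).symm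

theorem π_eq {g g' : G} (h : q.π g = q.π g') : ∃ k ∈ R.KK, g' = k * g :=
  ⟨g' * g⁻¹, (q.π_ker _).1 (by simp [h]), by simp⟩

theorem π_K {k : G} (hk : k ∈ R.KK) : q.π k = 1 := (q.π_ker k).2 hk

theorem π_rot {u : Z} (hu : R.Ap u) {k : G} (hk : k ∈ R.K u) : q.π k = 1 := q.π_K (R.K_le hu hk)

theorem Ap_iff {z z' : Z} (h : q.p z = q.p z') : R.Ap z ↔ R.Ap z' := by
  obtain ⟨k, -, rfl⟩ := (q.p_eq _ _).1 h
  exact (R.Ap_iff k z).symm

theorem exists_lift (g' : Q) {z z' : Z} (h : g' • q.p z = q.p z') : ∃ g, q.π g = g' ∧ g • z = z' := by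
  obtain ⟨g, rfl⟩ := q.π_surj g'
  rw [q.p_smul] at h
  obtain ⟨k, hk, rfl⟩ := (q.p_eq _ _).1 h
  exact ⟨k * g, by simp [q.π_K hk], mul_smul _ _ _⟩

/-- The quotient metric. -/
noncomputable def dq (a b : Y) : ℕ := sInf {n | ∃ z z', q.p z = a ∧ q.p z' = b ∧ R.d z z' = n}

theorem dq_le (z z' : Z) : q.dq (q.p z) (q.p z') ≤ R.d z z' := Nat.sInf_le ⟨z, z', rfl, rfl, rfl⟩

theorem dq_lift (z : Z) (b : Y) : ∃ z', q.p z' = b ∧ R.d z z' = q.dq (q.p z) b := by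
  obtain ⟨z0, rfl⟩ := q.p_surj b
  obtain ⟨z1, z2, h1, h2, h3⟩ := Nat.sInf_mem (s := {n | ∃ w w', q.p w = q.p z ∧ q.p w' = q.p z0 ∧
    R.d w w' = n}) ⟨_, z, z0, rfl, rfl, rfl⟩
  obtain ⟨k, hk, rfl⟩ := (q.p_eq _ _).1 h1
  exact ⟨k • z2, by rw [q.p_K hk, h2], by rw [R.iso]; exact h3⟩

theorem dq_comm (a b : Y) : q.dq a b = q.dq b a := by
  have : ∀ a b, q.dq a b ≤ q.dq b a := by
    intro a b
    obtain ⟨z, rfl⟩ := q.p_surj b
    obtain ⟨z', rfl, h⟩ := q.dq_lift z a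
    rw [← h, R.d_comm]; exact q.dq_le _ _
  exact le_antisymm (this a b) (this b a)

/-- The quotient space as a geodesic space. -/
noncomputable def sp : GSp Q Y where
  d := q.dq
  d_self a := by
    obtain ⟨z, rfl⟩ := q.p_surj a
    have := q.dq_le z z
    rw [R.d_self] at this; omega
  d_comm := q.dq_comm
  d_tri a b c := by
    obtain ⟨z, rfl⟩ := q.p_surj a
    obtain ⟨z', rfl, h⟩ := q.dq_lift z b
    obtain ⟨z'', rfl, h'⟩ := q.dq_lift z' c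
    rw [← h, ← h']
    exact (q.dq_le _ _).trans (R.d_tri _ _ _)
  eq_of a b h := by
    obtain ⟨z, rfl⟩ := q.p_surj a
    obtain ⟨z', rfl, h'⟩ := q.dq_lift z b
    rw [R.eq_of z z' (by omega)]
  step a b n h := by
    obtain ⟨z, rfl⟩ := q.p_surj a
    obtain ⟨z', rfl, h'⟩ := q.dq_lift z b
    obtain ⟨w, h1, h2⟩ := R.step z z' n (by omega)
    have a1 := q.dq_le z w
    have a2 := q.dq_le w z'
    obtain ⟨w1, e1, e2⟩ := q.dq_lift z (q.p w)
    obtain ⟨w2, e3, e4⟩ := q.dq_lift w1 (q.p z')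
    have a3 := q.dq_le z w2
    have a4 := R.d_tri z w1 w2
    rw [e1] at e4; rw [e3] at a3
    exact ⟨q.p w, by omega, by omega⟩
  iso g a b := by
    have : ∀ (g : Q) a b, q.dq (g • a) (g • b) ≤ q.dq a b := by
      intro g a b
      obtain ⟨g, rfl⟩ := q.π_surj g
      obtain ⟨z, rfl⟩ := q.p_surj a
      obtain ⟨z', rfl, h⟩ := q.dq_lift z b
      rw [q.p_smul, q.p_smul, ← h, ← R.iso g]; exact q.dq_le _ _
    refine le_antisymm (this g a b) ?_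
    simpa using this g⁻¹ (g • a) (g • b)

theorem d_le (z z' : Z) : q.sp.d (q.p z) (q.p z') ≤ R.d z z' := q.dq_le z z'

theorem d_lift (z : Z) (b : Y) : ∃ z', q.p z' = b ∧ R.d z z' = q.sp.d (q.p z) b := q.dq_lift z b

theorem lift_cycle (s : ℕ) (hs : s ≤ 5) (a : ℕ → Y) (z0 : Z) (h0 : q.p z0 = a 0) (ha : a s = a 0) :
    ∃ w : ℕ → Z, w 0 = z0 ∧ w s = z0 ∧ (∀ i, q.p (w i) = a i) ∧
      ∀ i, i < s → R.d (w i) (w (i + 1)) = q.sp.d (a i) (a (i + 1)) := by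
  choose f hf1 hf2 using q.d_lift
  let z : ℕ → Z := fun i => Nat.rec z0 (fun j w => f w (a (j + 1))) i
  have hz : ∀ i, q.p (z i) = a i := by
    intro i; rcases i with _ | i
    · exact h0
    · exact hf1 _ _
  have hz2 : ∀ i, R.d (z i) (z (i + 1)) = q.sp.d (a i) (a (i + 1)) := by
    intro i; rw [← hz i]; exact hf2 _ _
  obtain ⟨k, hk, e⟩ := (q.p_eq (z 0) (z s)).1 (by rw [hz, hz, ha])
  obtain ⟨c, c1, c2, c3, c4⟩ := R.polygon s hs z hk e
  have hp : ∀ i, q.p (c i • z i) = a i := fun i => by rw [q.p_K (c1 i), hz]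
  refine ⟨fun i => c i • z i, by simp only [c2, one_smul]; rfl, c3, hp, fun i hi => ?_⟩
  have h1 := c4 i hi
  have h2 := q.d_le (c i • z i) (c (i + 1) • z (i + 1))
  rw [hp, hp] at h2
  have h3 := hz2 i
  show R.d (c i • z i) (c (i + 1) • z (i + 1)) = _
  omega

theorem lift_tri (z : Z) (b c : Y) : ∃ z1 z2, q.p z1 = b ∧ q.p z2 = c ∧
    R.d z z1 = q.sp.d (q.p z) b ∧ R.d z1 z2 = q.sp.d b c ∧ R.d z2 z = q.sp.d c (q.p z) := by
  obtain ⟨w, h0, h3, hp, hd⟩ := q.lift_cycle 3 (by omega)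
    (fun i => match i with | 1 => b | 2 => c | _ => q.p z) z rfl rfl
  have a1 := hd 0 (by omega)
  have a2 := hd 1 (by omega)
  have a3 := hd 2 (by omega)
  simp only [zero_add, Nat.reduceAdd, h0, h3] at a1 a2 a3
  exact ⟨w 1, w 2, hp 1, hp 2, a1, a2, a3⟩

theorem thin {δ : ℕ} (hδ : R.Hyp δ) (w x y a b : Y) (t : ℕ) (h1 : q.sp.d w a = t)
    (h2 : q.sp.d w b = t) (h3 : t + q.sp.d a x = q.sp.d w x) (h4 : t + q.sp.d b y = q.sp.d w y)
    (h5 : 2 * t + q.sp.d x y ≤ q.sp.d w x + q.sp.d w y) : q.sp.d a b ≤ 2 * δ := by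
  obtain ⟨z0, rfl⟩ := q.p_surj w
  obtain ⟨v, h0, h5, hp, hd⟩ := q.lift_cycle 5 le_rfl
    (fun i => match i with | 1 => a | 2 => x | 3 => y | 4 => b | _ => q.p z0) z0 rfl rfl
  have a1 := hd 0 (by omega)
  have a2 := hd 1 (by omega)
  have a3 := hd 2 (by omega)
  have a4 := hd 3 (by omega)
  have a5 := hd 4 (by omega)
  have b1 := q.d_le z0 (v 2)
  have b2 := q.d_le z0 (v 3)
  have b3 := q.d_le (v 1) (v 4)
  have p1 := hp 1
  have p2 := hp 2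
  have p3 := hp 3
  have p4 := hp 4
  simp only [zero_add, Nat.reduceAdd, h0, h5] at a1 a2 a3 a4 a5 p1 p2 p3 p4
  rw [p2] at b1; rw [p3] at b2; rw [p1, p4] at b3
  have c1 := hδ z0 (v 1) (v 2) (v 4)
  have c2 := hδ z0 (v 2) (v 3) (v 4)
  have := R.d_tri z0 (v 1) (v 2)
  have := R.d_tri z0 (v 4) (v 3)
  have := R.d_comm (v 4) z0
  have := R.d_comm (v 4) (v 3)
  have := q.sp.d_comm y b
  have := q.sp.d_comm b (q.p z0)
  omega

theorem hyp {δ : ℕ} (hδ : R.Hyp δ) : q.sp.Hyp (4 * δ + 1) := by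
  intro w x y z
  have t1 := q.sp.d_tri w x y
  have t2 := q.sp.d_tri w y x
  have t3 := q.sp.d_tri w y z
  have t4 := q.sp.d_tri w z y
  have t5 := q.sp.d_tri x w y
  have t6 := q.sp.d_tri y w z
  have := q.sp.d_comm x y
  have := q.sp.d_comm y z
  have := q.sp.d_comm w x
  have := q.sp.d_comm w y
  obtain ⟨t, ht1, ht2, ht3⟩ : ∃ t, 2 * t + q.sp.d x y ≤ q.sp.d w x + q.sp.d w y ∧
      2 * t + q.sp.d y z ≤ q.sp.d w y + q.sp.d w z ∧
      (q.sp.d w x + q.sp.d w y ≤ 2 * t + 1 + q.sp.d x y ∨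
        q.sp.d w y + q.sp.d w z ≤ 2 * t + 1 + q.sp.d y z) :=
    ⟨min ((q.sp.d w x + q.sp.d w y - q.sp.d x y) / 2) ((q.sp.d w y + q.sp.d w z - q.sp.d y z) / 2),
      by omega, by omega, by omega⟩
  obtain ⟨a, a1, a2⟩ := q.sp.geo w x t (by omega)
  obtain ⟨b, b1, b2⟩ := q.sp.geo w y t (by omega)
  obtain ⟨c, c1, c2⟩ := q.sp.geo w z t (by omega)
  have e1 := q.thin hδ w x y a b t a1 b1 a2 b2 ht1
  have e2 := q.thin hδ w y z b c t b1 c1 b2 c2 ht2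
  have := q.sp.d_tri x a z
  have := q.sp.d_tri a b z
  have := q.sp.d_tri b c z
  have := q.sp.d_comm x a
  omega

theorem ne_of_p {z z' : Z} (h : q.p z ≠ q.p z') : z ≠ z' := fun e => h (e ▸ rfl)

/-- Coarse uniqueness of minimal lifts. -/
theorem coarse {w z z' : Z} (hw : R.Ap w) (hz : q.p z = q.p z') (hne : q.p z ≠ q.p w)
    (h1 : R.d z w = q.sp.d (q.p z) (q.p w)) (h2 : R.d z' w = q.sp.d (q.p z) (q.p w)) :
    ∃ ρ ∈ R.K w, R.ang w z (ρ • z') ≤ 4 * R.θ := by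
  have hD := q.sp.d_pos hne
  obtain ⟨D, hD'⟩ : ∃ D, q.sp.d (q.p z) (q.p w) = D + 1 := ⟨_, (Nat.succ_pred_eq_of_pos hD).symm⟩
  obtain ⟨y, y1, y2⟩ := R.step w z D (by rw [R.d_comm]; omega)
  obtain ⟨y', y1', y2'⟩ := R.step w z' D (by rw [R.d_comm]; omega)
  obtain ⟨v, h0, h4, hp, hd⟩ := q.lift_cycle 4 (by omega)
    (fun i => match i with | 1 => q.p y' | 2 => q.p z | 3 => q.p y | _ => q.p w) w rfl rfl
  have a1 := hd 0 (by omega)
  have a2 := hd 1 (by omega)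
  have a3 := hd 2 (by omega)
  have a4 := hd 3 (by omega)
  have p1 := hp 1
  have p2 := hp 2
  have p3 := hp 3
  simp only [zero_add, Nat.reduceAdd, h0, h4] at a1 a2 a3 a4 p1 p2 p3
  have b1 := q.d_le w y'
  have b2 := q.d_le y' z'
  have b3 := q.d_le z y
  have b4 := q.d_le y w
  have b5 := q.d_le (v 2) w
  rw [← hz] at b2; rw [p2] at b5
  obtain ⟨k1, hk1, e1⟩ := (q.p_eq _ _).1 p1.symm
  obtain ⟨k3, hk3, e3⟩ := (q.p_eq _ _).1 p3.symm
  have c1 := R.d_comm w y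
  have c2 := R.d_comm w y'
  have c3 := R.d_comm w (v 1)
  have c4 := R.d_comm y z
  have c5 := R.d_comm w (v 2)
  have c6 := R.d_comm w z
  have c7 := R.d_comm w z'
  have c8 := R.d_comm (v 2) (v 3)
  have m1 := R.mem_K_of_adj hw (y := y') (by omega) hk1 (by rw [← e1]; omega)
  have m3 := R.mem_K_of_adj hw (y := y) (by omega) hk3 (by rw [← e3]; omega)
  have f1 := R.K_fix _ _ m1
  have f3 := R.K_fix _ _ m3
  have n1 : y ≠ w := by rintro rfl; rw [R.d_self] at y1; omega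
  have n2 : y' ≠ w := by rintro rfl; rw [R.d_self] at y1'; omega
  have n3 : z ≠ w := q.ne_of_p hne
  have n4 : z' ≠ w := q.ne_of_p (hz ▸ hne)
  have n5 : v 2 ≠ w := q.ne_of_p (p2 ▸ hne)
  have n6 : v 1 ≠ w := e1 ▸ Rot.smul_ne f1 n2
  have n7 : v 3 ≠ w := e3 ▸ Rot.smul_ne f3 n1
  have g1 := R.ang_le hw n1 n3 (by omega)
  have g2 := R.ang_le hw n2 n4 (by omega)
  have g3 := R.ang_le hw n6 n5 (by omega)
  have g4 := R.ang_le hw n7 n5 (by omega)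
  refine ⟨k3⁻¹ * k1, (R.K w).mul_mem ((R.K w).inv_mem m3) m1, ?_⟩
  rw [← R.ang_rot f3, mul_smul, smul_inv_smul]
  rw [← R.ang_rot f3, ← e3] at g1
  rw [← R.ang_rot f1, ← e1] at g2
  have n8 := Rot.smul_ne f3 n3
  have n9 := Rot.smul_ne f1 n4
  have := R.ang_tri w _ _ _ hw n8 n7 n9
  have := R.ang_tri w _ _ _ hw n7 n5 n9
  have := R.ang_tri w _ _ _ hw n5 n6 n9
  have := R.ang_comm w (k3 • z) (v 3)
  have := R.ang_comm w (v 2) (v 1)
  omega

/-- Apices of the quotient. -/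
def Ap (a : Y) : Prop := ∃ w, R.Ap w ∧ q.p w = a

theorem Ap_p {z : Z} : q.Ap (q.p z) ↔ R.Ap z :=
  ⟨fun ⟨_, h1, h2⟩ => (q.Ap_iff h2).1 h1, fun h => ⟨z, h, rfl⟩⟩

theorem Ap_smul (g : Q) {a : Y} (h : q.Ap a) : q.Ap (g • a) := by
  obtain ⟨w, hw, rfl⟩ := h
  obtain ⟨g, rfl⟩ := q.π_surj g
  exact ⟨g • w, R.Ap_smul g w hw, (q.p_smul g w).symm⟩

theorem pt_smul (g : Q) {a : Y} (h : ¬ q.Ap a) : ¬ q.Ap (g • a) := fun h1 =>
  h (by simpa using q.Ap_smul g⁻¹ h1)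

theorem ne_of_pt {a u : Y} (ha : ¬ q.Ap a) (hu : q.Ap u) : a ≠ u := fun h => ha (h ▸ hu)

theorem ap_ap {u v : Y} (hu : q.Ap u) (hv : q.Ap v) : q.sp.d u v ≠ 1 := by
  obtain ⟨w, hw, rfl⟩ := hu
  obtain ⟨z, rfl, h⟩ := q.d_lift w v
  rw [← h]; exact R.ap_ap _ _ hw (q.Ap_p.1 hv)

/-- Angles in the quotient. -/
noncomputable def ang (u a b : Y) : ℕ := sInf {n | ∃ w z z', q.p w = u ∧ q.p z = a ∧ q.p z' = b ∧
  R.d z w = q.sp.d a u ∧ R.d z' w = q.sp.d b u ∧ R.ang w z z' = n}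

theorem ang_le_lift {w z z' : Z} (h1 : R.d z w = q.sp.d (q.p z) (q.p w))
    (h2 : R.d z' w = q.sp.d (q.p z') (q.p w)) : q.ang (q.p w) (q.p z) (q.p z') ≤ R.ang w z z' :=
  Nat.sInf_le ⟨w, z, z', rfl, rfl, rfl, h1, h2, rfl⟩

theorem ang_lift (w : Z) (a b : Y) : ∃ z z', q.p z = a ∧ q.p z' = b ∧
    R.d z w = q.sp.d a (q.p w) ∧ R.d z' w = q.sp.d b (q.p w) ∧ R.ang w z z' = q.ang (q.p w) a b := by
  obtain ⟨z0, e1, e2⟩ := q.d_lift w a
  obtain ⟨z1, e3, e4⟩ := q.d_lift w b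
  obtain ⟨w', z, z', h1, h2, h3, h4, h5, h6⟩ := Nat.sInf_mem (s := {n | ∃ w' z z', q.p w' = q.p w ∧
    q.p z = a ∧ q.p z' = b ∧ R.d z w' = q.sp.d a (q.p w) ∧ R.d z' w' = q.sp.d b (q.p w) ∧
    R.ang w' z z' = n}) ⟨_, w, z0, z1, rfl, e1, e3, by rw [R.d_comm, e2, q.sp.d_comm],
      by rw [R.d_comm, e4, q.sp.d_comm], rfl⟩
  obtain ⟨k, hk, rfl⟩ := (q.p_eq _ _).1 h1
  exact ⟨k • z, k • z', by rw [q.p_K hk, h2], by rw [q.p_K hk, h3], by rw [R.iso, h4],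
    by rw [R.iso, h5], by rw [R.ang_smul, h6]; rfl⟩

theorem ang_comm (u a b : Y) : q.ang u a b = q.ang u b a := by
  have : ∀ a b, q.ang u a b ≤ q.ang u b a := by
    intro a b
    obtain ⟨w, rfl⟩ := q.p_surj u
    obtain ⟨z, z', rfl, rfl, h1, h2, h3⟩ := q.ang_lift w b a
    rw [← h3, R.ang_comm]; exact q.ang_le_lift h2 h1
  exact le_antisymm (this a b) (this b a)

theorem ang_smul (g : Q) (u a b : Y) : q.ang (g • u) (g • a) (g • b) = q.ang u a b := by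
  have : ∀ (g : Q) u a b, q.ang (g • u) (g • a) (g • b) ≤ q.ang u a b := by
    intro g u a b
    obtain ⟨w, rfl⟩ := q.p_surj u
    obtain ⟨g, rfl⟩ := q.π_surj g
    obtain ⟨z, z', rfl, rfl, h1, h2, h3⟩ := q.ang_lift w a b
    rw [← h3, q.p_smul, q.p_smul, q.p_smul, ← R.ang_smul g]
    refine q.ang_le_lift ?_ ?_
    · rw [R.iso, h1, ← q.p_smul, ← q.p_smul, q.sp.iso]
    · rw [R.iso, h2, ← q.p_smul, ← q.p_smul, q.sp.iso]
  refine le_antisymm (this g u a b) ?_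
  simpa using this g⁻¹ (g • u) (g • a) (g • b)

theorem ang_inv (g : Q) (u a b : Y) : q.ang (g⁻¹ • u) a b = q.ang u (g • a) (g • b) := by
  rw [← q.ang_smul g, smul_inv_smul]

theorem ang_tri {u a b c : Y} (hu : q.Ap u) (ha : a ≠ u) (hb : b ≠ u) (hc : c ≠ u) :
    q.ang u a c ≤ q.ang u a b + q.ang u b c + 4 * R.θ := by
  obtain ⟨w, hw, rfl⟩ := hu
  obtain ⟨z1, z2, rfl, rfl, h1, h2, h3⟩ := q.ang_lift w a b
  obtain ⟨z3, z4, e, rfl, h4, h5, h6⟩ := q.ang_lift w (q.p z2) c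
  obtain ⟨ρ, hρ, h7⟩ := q.coarse hw e.symm hb h2 h4
  have hf := R.K_fix _ _ hρ
  have e4 := q.p_K (R.K_le hw hρ) z4
  have h8 := q.ang_le_lift h1 (z' := ρ • z4) (by rw [e4, R.d_comm, R.d_rot hf, R.d_comm, h5])
  rw [e4] at h8
  rw [← R.ang_rot hf] at h6
  have n1 := q.ne_of_p ha
  have n2 := q.ne_of_p hb
  have n3 := Rot.smul_ne hf (q.ne_of_p (e ▸ hb : q.p z3 ≠ q.p w))
  have n4 := Rot.smul_ne hf (q.ne_of_p hc)
  have := R.ang_tri w _ _ _ hw n1 n2 n4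
  have := R.ang_tri w _ _ _ hw n2 n3 n4
  omega

theorem bgi {u a b : Y} (hu : q.Ap u) (ha : a ≠ u) (hb : b ≠ u) (h : R.θ < q.ang u a b) :
    q.sp.d a u + q.sp.d u b = q.sp.d a b := by
  obtain ⟨w, hw, rfl⟩ := hu
  obtain ⟨z1, z2, rfl, rfl, h1, h2, h3⟩ := q.lift_tri w a b
  have c1 := R.d_comm w z1
  have c2 := R.d_comm w z2
  have c3 := q.sp.d_comm (q.p w) (q.p z1)
  have c4 := q.sp.d_comm (q.p w) (q.p z2)
  have := q.ang_le_lift (w := w) (z := z1) (z' := z2) (by omega) h3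
  have := R.bgi w z1 z2 hw (q.ne_of_p ha) (q.ne_of_p hb) (by omega)
  omega

theorem ang_le {u a b : Y} (hu : q.Ap u) (ha : a ≠ u) (hb : b ≠ u)
    (h : q.sp.d a b < q.sp.d a u + q.sp.d u b) : q.ang u a b ≤ R.θ := by
  by_contra h1
  have := q.bgi hu ha hb (by omega)
  omega

theorem ang_near {w z z' : Z} (hw : R.Ap w) (n1 : q.p z ≠ q.p w) (n2 : q.p z' ≠ q.p w)
    (h1 : R.d z w = q.sp.d (q.p z) (q.p w)) (h2 : R.d z' w = q.sp.d (q.p z') (q.p w)) :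
    ∃ ρ ∈ R.K w, R.ang w z (ρ • z') ≤ q.ang (q.p w) (q.p z) (q.p z') + 8 * R.θ := by
  obtain ⟨y, y', e1, e2, h3, h4, h5⟩ := q.ang_lift w (q.p z) (q.p z')
  obtain ⟨ρ1, hρ1, h6⟩ := q.coarse hw e1.symm n1 h1 h3
  obtain ⟨ρ2, hρ2, h7⟩ := q.coarse hw e2 (e2 ▸ n2) (e2 ▸ h4) (e2 ▸ h2)
  have f1 := R.K_fix _ _ hρ1
  have f2 := R.K_fix _ _ hρ2
  refine ⟨ρ1 * ρ2, (R.K w).mul_mem hρ1 hρ2, ?_⟩
  rw [← R.ang_rot f1] at h5 h7
  rw [mul_smul]
  have m1 := q.ne_of_p n1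
  have m2 := Rot.smul_ne f1 (q.ne_of_p (e1 ▸ n1 : q.p y ≠ q.p w))
  have m3 := Rot.smul_ne f1 (q.ne_of_p (e2 ▸ n2 : q.p y' ≠ q.p w))
  have m4 := Rot.smul_ne f1 (Rot.smul_ne f2 (q.ne_of_p n2))
  have := R.ang_tri w _ _ _ hw m1 m2 m4
  have := R.ang_tri w _ _ _ hw m2 m3 m4
  omega

/-- Tight lifts. -/
theorem tight (z : Z) (b : Y) (t : ℕ)
    (ht : ∀ u, q.Ap u → q.p z ≠ u → b ≠ u → q.ang u (q.p z) b ≤ t) :
    ∃ z', q.p z' = b ∧ R.d z z' = q.sp.d (q.p z) b ∧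
      ∀ u, R.Ap u → z ≠ u → z' ≠ u → R.ang u z z' ≤ t + 9 * R.θ := by
  classical
  have hex : ∃ n, ∃ z', q.p z' = b ∧ R.d z z' = q.sp.d (q.p z) b ∧ R.Φ z z' = n := by
    obtain ⟨z', h1, h2⟩ := q.d_lift z b
    exact ⟨_, z', h1, h2, rfl⟩
  obtain ⟨z', rfl, h2, h3⟩ := Nat.find_spec hex
  refine ⟨z', rfl, h2, fun u hu n1 n2 => ?_⟩
  by_cases hb : R.ang u z z' ≤ R.θ
  · omega
  have b1 := R.bgi u z z' hu n1 n2 (by omega)
  have b2 := q.d_le z u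
  have b3 := q.d_le u z'
  have b4 := q.sp.d_tri (q.p z) (q.p u) (q.p z')
  have b5 := R.d_pos n1
  have b6 := R.d_pos n2
  have c1 := R.d_comm u z'
  have c2 := q.sp.d_comm (q.p u) (q.p z')
  have m1 : q.p z ≠ q.p u := by
    intro h; have := q.sp.d_self (q.p u); rw [h] at b2 b4 h2; omega
  have m2 : q.p z' ≠ q.p u := by
    intro h; have := q.sp.d_self (q.p u); rw [h] at b3 b4 h2; omega
  obtain ⟨ρ, hρ, h4⟩ := q.ang_near hu m1 m2 (by omega) (by omega)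
  have hf := R.K_fix _ _ hρ
  have e := q.p_K (R.K_le hu hρ) z'
  have h5 := q.d_le z (ρ • z')
  have h6 := R.d_tri z u (ρ • z')
  rw [e] at h5; rw [R.d_rot hf] at h6
  have h7 := Nat.find_min' hex ⟨ρ • z', e, by omega, rfl⟩
  have h8 := R.Φ_one u z (ρ • z') hu n1 (Rot.smul_ne hf n2)
  have h9 := R.Φ_two u z z' hu n1 n2 (by omega)
  have h10 : R.Φ u (ρ • z') = R.Φ u z' := by rw [← R.Φ_smul ρ u z', hf]
  have h11 := ht (q.p u) (q.Ap_p.2 hu) m1 m2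
  omega

theorem line {u v a b : Y} (hu : q.Ap u) (hv : q.Ap v) (n1 : a ≠ u) (n2 : b ≠ u) (n3 : a ≠ v)
    (n4 : b ≠ v) (h1 : 6 * R.θ < q.ang u a b) (h2 : R.θ < q.ang v a b)
    (h3 : q.sp.d a u = q.sp.d a v) : u = v := by
  by_contra hne
  have := q.ang_tri hu n1 (Ne.symm hne) n2
  have b1 := q.bgi hu n1 n2 (by omega)
  have b2 := q.bgi hv n3 n4 h2
  have := q.sp.d_pos hne
  have := q.sp.d_comm u v
  have := q.ang_le hu n1 (Ne.symm hne) (by omega)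
  have := q.ang_le hu (Ne.symm hne) n2 (by omega)
  omega

theorem lift_eq {a : Z} (ha : ¬ R.Ap a) {g g' : G} (h : q.π g = q.π g') {t t' : ℕ}
    (h1 : ∀ u, R.Ap u → R.ang u a (g • a) ≤ t) (h2 : ∀ u, R.Ap u → R.ang u a (g' • a) ≤ t')
    (ht : t + t' < 1987 * R.θ) : g = g' := by
  obtain ⟨k, hk, rfl⟩ := q.π_eq h
  have hp := R.pt_smul g ha
  by_cases he : k • g • a = g • a
  · rw [R.free_pt hp hk he, one_mul]
  obtain ⟨u, hu, n1, n2, h3⟩ := R.green hk he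
  have := R.ang_tri u _ a _ hu n1 (R.ne_of_pt ha hu) n2
  have := h1 u hu
  have := h2 u hu
  rw [mul_smul] at this
  have := R.ang_comm u a (g • a)
  omega

theorem inj_stab {a : Z} (ha : ¬ R.Ap a) {g g' : G} (h : q.π g = q.π g') (h1 : g • a = a)
    (h2 : g' • a = a) : g = g' := by
  obtain ⟨k, hk, rfl⟩ := q.π_eq h
  rw [mul_smul, h1] at h2
  rw [R.free_pt ha hk h2, one_mul]

end Quo

theorem Rot.Φ_le_of_ang (R : Rot G Z) {a b : Z} (ha : ¬ R.Ap a) (hb : ¬ R.Ap b) (t : ℕ)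
    (ht : ∀ u, R.Ap u → R.ang u a b ≤ t) : R.Φ a b ≤ R.d a b * (t + 2 * R.θ) := by
  obtain ⟨γ, h0, hn, hγ⟩ := R.exists_path _ a b rfl
  have key : ∀ i, i ≤ R.d a b → ¬ R.Ap (γ i) → R.Φ a (γ i) ≤ i * (t + 2 * R.θ) := by
    intro i
    induction i using Nat.strong_induction_on with
    | _ i ih =>
      intro hi hp
      rcases i with _ | i
      · rw [h0, R.Φ_self]; omega
      have e1 := hγ i (i + 1) (by omega) hi
      rw [add_mul, one_mul]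
      by_cases h1 : R.Ap (γ i)
      · rcases i with _ | i
        · rw [h0] at h1; exact absurd h1 ha
        have e2 := hγ i (i + 1) (by omega) (by omega)
        have h2 : ¬ R.Ap (γ i) := fun h => R.ap_ap _ _ h h1 (by omega)
        have h3 := ih i (by omega) (by omega) h2
        have n1 := R.ne_of_pt ha h1
        have n2 := R.ne_of_pt hb h1
        have n3 := R.ne_of_pt h2 h1
        have n4 := R.ne_of_pt hp h1
        have e3 := hγ 0 i (by omega) (by omega)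
        have e4 := hγ 0 (i + 1) (by omega) (by omega)
        have e5 := hγ (i + 1) _ (by omega) le_rfl
        have e6 := hγ (i + 1 + 1) _ hi le_rfl
        rw [h0] at e3 e4; rw [hn] at e5 e6
        have c1 := R.d_comm (γ (i + 1)) (γ (i + 1 + 1))
        have g1 := R.ang_le h1 n1 n3 (by omega)
        have g2 := R.ang_le h1 n4 n2 (by omega)
        have g3 := ht _ h1
        have g4 := R.Φ_one _ _ _ h1 n3 n4
        have g5 := R.Φ_ap _ _ h1 (show R.d (γ i) (γ (i + 1)) ≤ 1 by omega)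
        have g6 := R.Φ_ap _ _ h1 (show R.d (γ (i + 1 + 1)) (γ (i + 1)) ≤ 1 by omega)
        have g7 := R.Φ_tri a (γ i) (γ (i + 1 + 1)) h2
        have := R.Φ_comm (γ (i + 1)) (γ (i + 1 + 1))
        have := R.ang_tri _ _ a _ h1 n3 n1 n4
        have := R.ang_tri _ a b _ h1 n1 n2 n4
        have := R.ang_comm (γ (i + 1)) a (γ i)
        have := R.ang_comm (γ (i + 1)) b (γ (i + 1 + 1))
        rw [add_mul, one_mul]
        omega
      · have h3 := ih i (by omega) (by omega) h1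
        have := R.Φ_adj _ _ h1 hp (by omega)
        have := R.Φ_tri a (γ i) (γ (i + 1)) h1
        omega
  have := key _ le_rfl (by rw [hn]; exact hb)
  rwa [hn] at this

end Pool.Agent.Lib.OCn
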