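import Pool.Agent.Lib.MP_de4dbb_al.Geo

/-! Rotation systems and the windmill argument. -/

namespace Pool.Agent.Lib.OCn

/-- A space with apices, angles at the apices and rotation groups. -/
structure Rot (G Z : Type) [Group G] [MulAction G Z] extends GSp G Z where
  Ap : Z → Prop
  Ap_smul : ∀ (g : G) z, Ap z → Ap (g • z)
  ang : Z → Z → Z → ℕ
  ang_comm : ∀ u a b, ang u a b = ang u b a
  ang_tri : ∀ u a b c, Ap u → a ≠ u → b ≠ u → c ≠ u → ang u a c ≤ ang u a b + ang u b c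
  ang_smul : ∀ (g : G) u a b, ang (g • u) (g • a) (g • b) = ang u a b
  θ : ℕ
  θ_pos : 0 < θ
  bgi : ∀ u a b, Ap u → a ≠ u → b ≠ u → θ < ang u a b → d a u + d u b = d a b
  ap_ap : ∀ u v, Ap u → Ap v → d u v ≠ 1
  nbr : ∀ u, Ap u → ∃ y, d y u = 1
  K : Z → Subgroup G
  K_fix : ∀ u, ∀ k ∈ K u, k • u = u
  K_conj : ∀ (g : G) u, ∀ k ∈ K u, g * k * g⁻¹ ∈ K (g • u)
  spin : ∀ u a, ∀ k ∈ K u, Ap u → a ≠ u → k ≠ 1 → 2000 * θ ≤ ang u a (k • a)
  Φ : Z → Z → ℕ
  Φ_self : ∀ a, Φ a a = 0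
  Φ_comm : ∀ a b, Φ a b = Φ b a
  Φ_smul : ∀ (g : G) a b, Φ (g • a) (g • b) = Φ a b
  Φ_tri : ∀ a b c, ¬ Ap b → Φ a c ≤ Φ a b + Φ b c
  Φ_zero : ∀ a b, ¬ Ap a → ¬ Ap b → Φ a b = 0 → a = b
  Φ_step : ∀ a b j, ¬ Ap a → ¬ Ap b → Φ a b = j + 1 → ∃ c, ¬ Ap c ∧ Φ a c = j ∧ d c b ≤ 1
  Φ_adj : ∀ a b, ¬ Ap a → ¬ Ap b → d a b ≤ 1 → Φ a b ≤ θ
  Φ_ap : ∀ a u, Ap u → d a u ≤ 1 → Φ a u = 0
  Φ_one : ∀ u a b, Ap u → a ≠ u → b ≠ u → Φ a b ≤ Φ a u + ang u a b + Φ u b
  Φ_two : ∀ u a b, Ap u → a ≠ u → b ≠ u → θ < ang u a b → Φ a u + ang u a b + Φ u b ≤ Φ a b + θ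

namespace Rot

variable {G Z : Type} [Group G] [MulAction G Z] (R : Rot G Z)

theorem Ap_iff (g : G) (z : Z) : R.Ap (g • z) ↔ R.Ap z :=
  ⟨fun h => by simpa using R.Ap_smul g⁻¹ _ h, R.Ap_smul g z⟩

theorem pt_smul (g : G) {z : Z} (h : ¬ R.Ap z) : ¬ R.Ap (g • z) := fun h1 => h ((R.Ap_iff g z).1 h1)

theorem ne_of_pt {a u : Z} (ha : ¬ R.Ap a) (hu : R.Ap u) : a ≠ u := fun h => ha (h ▸ hu)

theorem ang_le {u a b : Z} (hu : R.Ap u) (ha : a ≠ u) (hb : b ≠ u)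
    (h : R.d a b < R.d a u + R.d u b) : R.ang u a b ≤ R.θ := by
  by_contra h1
  have := R.bgi u a b hu ha hb (by omega)
  omega

theorem ang_adj {u a b : Z} (hu : R.Ap u) (ha : a ≠ u) (hb : b ≠ u) (h : R.d a b ≤ 1) :
    R.ang u a b ≤ R.θ := by
  have := R.d_pos ha
  have := R.d_pos hb.symm
  exact R.ang_le hu ha hb (by omega)

theorem ang_self {u a : Z} (hu : R.Ap u) (ha : a ≠ u) : R.ang u a a ≤ R.θ :=
  R.ang_adj hu ha ha (by rw [R.d_self]; omega)

theorem behr {u w a : Z} (hu : R.Ap u) (hw : R.Ap w) (huw : u ≠ w) (ha : a ≠ u) (ha' : a ≠ w)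
    (h : R.θ < R.ang u a w) : R.ang w a u ≤ R.θ := by
  have h1 := R.bgi u a w hu ha huw.symm h
  have h2 := R.d_pos huw
  have h3 := R.d_comm u w
  exact R.ang_le hw ha' huw (by omega)

theorem ang_rot {u : Z} {k : G} (hk : k • u = u) (a b : Z) :
    R.ang u (k • a) (k • b) = R.ang u a b := by
  rw [← R.ang_smul k u a b, hk]

theorem ang_inv (g : G) (u a b : Z) : R.ang (g⁻¹ • u) a b = R.ang u (g • a) (g • b) := by
  rw [← R.ang_smul g, smul_inv_smul]

theorem smul_ne {u a : Z} {k : G} (hk : k • u = u) (ha : a ≠ u) : k • a ≠ u := by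
  intro h; apply ha; rw [← hk] at h; exact smul_left_cancel k h

theorem d_rot {u : Z} {k : G} (hk : k • u = u) (a : Z) : R.d u (k • a) = R.d u a := by
  rw [← R.iso k u a, hk]

theorem nbr_pt {u : Z} (hu : R.Ap u) : ∃ y, ¬ R.Ap y ∧ R.d y u = 1 := by
  obtain ⟨y, hy⟩ := R.nbr u hu
  exact ⟨y, fun h => R.ap_ap y u h hu hy, hy⟩

/-- The normal subgroup generated by all rotations. -/
def KK : Subgroup G := Subgroup.closure {k | ∃ u, R.Ap u ∧ k ∈ R.K u}

theorem K_le {u : Z} (hu : R.Ap u) : R.K u ≤ R.KK := fun _ hk => Subgroup.subset_closure ⟨u, hu, hk⟩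

instance : R.KK.Normal := by
  constructor
  intro k hk g
  induction hk using Subgroup.closure_induction with
  | mem k hk =>
    obtain ⟨u, hu, hk⟩ := hk
    exact R.K_le (R.Ap_smul g u hu) (R.K_conj g u k hk)
  | one => simp
  | mul a b _ _ ha hb =>
    have := R.KK.mul_mem ha hb
    rwa [show g * a * g⁻¹ * (g * b * g⁻¹) = g * (a * b) * g⁻¹ by group] at this
  | inv a _ ha =>
    have := R.KK.inv_mem ha
    rwa [show (g * a * g⁻¹)⁻¹ = g * a⁻¹ * g⁻¹ by group] at this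

/-- Reducibility to the identity by rotations at apices with a large angle. -/
inductive Red (z : Z) (T : ℕ) : G → Prop
  | one : Red z T 1
  | step (u : Z) (ρ k : G) : R.Ap u → ρ ∈ R.K u →
      (u = z ∨ u = k • z ∨ T ≤ R.ang u z (k • z)) → Red z T (ρ * k) → Red z T k

/-- A windmill. -/
structure Mill (x : Z) where
  W : Set Z
  V : Set Z
  H : Subgroup G
  W_pt : ∀ y ∈ W, ¬ R.Ap y
  x_mem : x ∈ W
  H_W : ∀ h ∈ H, ∀ y ∈ W, h • y ∈ W
  H_V : ∀ h ∈ H, ∀ v ∈ V, h • v ∈ V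
  K_le : ∀ v ∈ V, R.Ap v → R.K v ≤ H
  red : ∀ h ∈ H, R.Red x (1989 * R.θ) h
  small : ∀ u, R.Ap u → u ∉ V → ∀ y ∈ W, ∀ y' ∈ W, R.ang u y y' ≤ 6 * R.θ

/-- Product of a list of syllables. -/
def lp (l : List (Z × G)) : G := (l.map Prod.snd).prod

@[simp] theorem lp_nil : lp ([] : List (Z × G)) = 1 := rfl
@[simp] theorem lp_cons (p : Z × G) (l : List (Z × G)) : lp (p :: l) = p.2 * lp l := by
  simp [lp]

/-- Reduced lists of syllables. -/
def Rd : List (Z × G) → Prop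
  | [] => True
  | p :: l => p.2 ≠ 1 ∧ (∀ q ∈ l.head?, q.1 ≠ p.1) ∧ Rd l

theorem exists_rd (V : Set Z) (l : List (Z × G)) (hl : ∀ p ∈ l, p.1 ∈ V ∧ p.2 ∈ R.K p.1) :
    ∃ l' : List (Z × G), (∀ p ∈ l', p.1 ∈ V ∧ p.2 ∈ R.K p.1) ∧ Rd l' ∧ lp l' = lp l := by
  induction l with
  | nil => exact ⟨[], by simp, trivial, rfl⟩
  | cons p l ih =>
    obtain ⟨l', h1, h2, h3⟩ := ih fun q hq => hl q (List.mem_cons_of_mem _ hq)
    have hp := hl p List.mem_cons_self
    by_cases hp1 : p.2 = 1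
    · exact ⟨l', h1, h2, by simp [hp1, h3]⟩
    rcases l' with _ | ⟨q, l'⟩
    · exact ⟨[p], by simpa using hp, ⟨hp1, by simp, trivial⟩, by simp [← h3]⟩
    by_cases hq : q.1 = p.1
    · have hq' := h1 q List.mem_cons_self
      by_cases hm : p.2 * q.2 = 1
      · refine ⟨l', fun r hr => h1 r (List.mem_cons_of_mem _ hr), h2.2.2, ?_⟩
        rw [lp_cons, ← h3, lp_cons, ← mul_assoc, hm, one_mul]
      · refine ⟨(p.1, p.2 * q.2) :: l', ?_, ⟨hm, ?_, h2.2.2⟩, ?_⟩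
        · intro r hr
          rcases List.mem_cons.1 hr with rfl | hr
          · exact ⟨hp.1, (R.K p.1).mul_mem hp.2 (hq ▸ hq'.2)⟩
          · exact h1 r (List.mem_cons_of_mem _ hr)
        · intro r hr; rw [← hq]; exact h2.2.1 r hr
        · rw [lp_cons, lp_cons, ← h3, lp_cons, mul_assoc]
    · refine ⟨p :: q :: l', ?_, ⟨hp1, ?_, h2⟩, by rw [lp_cons, lp_cons p, h3]⟩
      · intro r hr
        rcases List.mem_cons.1 hr with rfl | hr
        · exact hp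
        · exact h1 r hr
      · intro r hr
        simp only [List.head?_cons, Option.mem_def, Option.some.injEq] at hr
        rw [← hr]; exact hq

theorem lp_conj (h : G) (l : List (Z × G)) :
    lp (l.map fun p => (h • p.1, h * p.2 * h⁻¹)) = h * lp l * h⁻¹ := by
  induction l with
  | nil => simp
  | cons p l ih => rw [List.map_cons, lp_cons, ih, lp_cons]; group

theorem Mill.step {x : Z} (m : R.Mill x) :
    ∃ m' : R.Mill x, ∀ y, ¬ R.Ap y → (∃ y0 ∈ m.W, R.d y0 y ≤ 1) → y ∈ m'.W := by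
  have hθ := R.θ_pos
  let W1 : Set Z := {y | ¬ R.Ap y ∧ ∃ y0 ∈ m.W, R.d y0 y ≤ 1}
  let V1 : Set Z := {u | R.Ap u ∧ u ∉ m.V ∧ ∃ y ∈ W1, ∃ y' ∈ W1, 2 * R.θ < R.ang u y y'}
  have hxW : x ∈ W1 := ⟨m.W_pt x m.x_mem, x, m.x_mem, by rw [R.d_self]; omega⟩
  have HW1 : ∀ h ∈ m.H, ∀ y ∈ W1, h • y ∈ W1 := by
    rintro h hh y ⟨h1, y0, h2, h3⟩
    exact ⟨R.pt_smul h h1, h • y0, m.H_W h hh y0 h2, by rwa [R.iso]⟩
  have HV1 : ∀ h ∈ m.H, ∀ v ∈ V1, h • v ∈ V1 := by
    rintro h hh v ⟨h1, h2, y, hy, y', hy', h3⟩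
    refine ⟨R.Ap_smul h v h1, fun h4 => h2 ?_, h • y, HW1 h hh y hy, h • y', HW1 h hh y' hy',
      by rwa [R.ang_smul]⟩
    simpa using m.H_V h⁻¹ (m.H.inv_mem hh) _ h4
  have sm1 : ∀ u, R.Ap u → u ∉ m.V → ∀ y ∈ W1, ∀ y' ∈ W1, R.ang u y y' ≤ 8 * R.θ := by
    rintro u hu huV y ⟨h1, y0, h2, h3⟩ y' ⟨h1', y0', h2', h3'⟩
    have n1 := R.ne_of_pt h1 hu
    have n2 := R.ne_of_pt h1' hu
    have n3 := R.ne_of_pt (m.W_pt _ h2) hu
    have n4 := R.ne_of_pt (m.W_pt _ h2') hu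
    have := m.small u hu huV y0 h2 y0' h2'
    have := R.ang_adj hu n3 n1 h3
    have := R.ang_adj hu n4 n2 h3'
    have := R.ang_tri u y y0 y' hu n1 n3 n2
    have := R.ang_tri u y0 y0' y' hu n3 n4 n2
    have := R.ang_comm u y y0
    omega
  have near : ∀ u, R.Ap u → ∀ a, a ∈ W1 ∨ a ∈ V1 → a ≠ u → ∃ y ∈ W1, R.ang u a y ≤ R.θ := by
    rintro u hu a (ha | ⟨h1, -, y, hy, y', hy', h3⟩) hau
    · exact ⟨a, ha, R.ang_self hu hau⟩
    · have n1 := R.ne_of_pt hy.1 h1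
      have n2 := R.ne_of_pt hy'.1 h1
      have := R.ang_tri a y u y' h1 n1 hau.symm n2
      by_cases h4 : R.θ < R.ang a y u
      · exact ⟨y, hy, by rw [R.ang_comm]; exact R.behr h1 hu hau n1 (R.ne_of_pt hy.1 hu) h4⟩
      · have := R.ang_comm a u y'
        exact ⟨y', hy', by
          rw [R.ang_comm]; exact R.behr h1 hu hau n2 (R.ne_of_pt hy'.1 hu) (by omega)⟩
  have smP : ∀ u, R.Ap u → ∀ t, (∀ y ∈ W1, ∀ y' ∈ W1, R.ang u y y' ≤ t) →
      ∀ a, a ∈ W1 ∨ a ∈ V1 → a ≠ u → ∀ b, b ∈ W1 ∨ b ∈ V1 → b ≠ u → R.ang u a b ≤ t + 2 * R.θ := by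
    intro u hu t ht a ha hau b hb hbu
    obtain ⟨y, hy, h1⟩ := near u hu a ha hau
    obtain ⟨y', hy', h2⟩ := near u hu b hb hbu
    have n1 := R.ne_of_pt hy.1 hu
    have n2 := R.ne_of_pt hy'.1 hu
    have := ht y hy y' hy'
    have := R.ang_tri u a y b hu hau n1 hbu
    have := R.ang_tri u y y' b hu n1 n2 hbu
    have := R.ang_comm u y' b
    omega
  have clA : ∀ b ∈ W1, ∀ l : List (Z × G), (∀ p ∈ l, p.1 ∈ V1 ∧ p.2 ∈ R.K p.1) → Rd l →
      ∀ v ∈ V1, (∀ q ∈ l.head?, q.1 ≠ v) → ∃ c, (c ∈ W1 ∨ c ∈ V1) ∧ c ≠ v ∧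
        R.ang v c (lp l • b) ≤ R.θ := by
    intro b hb l
    induction l with
    | nil =>
      intro _ _ v hv _
      have n := R.ne_of_pt hb.1 hv.1
      exact ⟨b, Or.inl hb, n, by simpa using R.ang_self hv.1 n⟩
    | cons p l ih =>
      intro hl hr v hv hne
      have hp := hl p List.mem_cons_self
      have hpv : p.1 ≠ v := hne p (by simp)
      obtain ⟨c, c1, c2, c3⟩ := ih (fun q hq => hl q (List.mem_cons_of_mem _ hq)) hr.2.2 p.1 hp.1 hr.2.1
      refine ⟨p.1, Or.inr hp.1, hpv, ?_⟩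
      have pt : ¬ R.Ap (lp l • b) := R.pt_smul _ hb.1
      have pt' : ¬ R.Ap (p.2 • lp l • b) := R.pt_smul _ pt
      have n1 := R.ne_of_pt pt hp.1.1
      have n2 := R.ne_of_pt pt' hp.1.1
      have s1 := R.spin p.1 _ p.2 hp.2 hp.1.1 n1 hr.1
      have s2 := smP p.1 hp.1.1 _ (sm1 _ hp.1.1 hp.1.2.1) v (Or.inr hv) hpv.symm c c1 c2
      have := R.ang_tri p.1 v c _ hp.1.1 hpv.symm c2 n1
      have := R.ang_tri p.1 (lp l • b) v _ hp.1.1 n1 hpv.symm n2
      have := R.ang_comm p.1 v (lp l • b)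
      have := R.ang_comm p.1 v (p.2 • lp l • b)
      rw [lp_cons, mul_smul, R.ang_comm]
      exact R.behr hp.1.1 hv.1 hpv n2 (R.ne_of_pt pt' hv.1) (by omega)
  have big : ∀ b ∈ W1, ∀ (p : Z × G) (l : List (Z × G)), (∀ q ∈ p :: l, q.1 ∈ V1 ∧ q.2 ∈ R.K q.1) →
      Rd (p :: l) → ∀ a, a ∈ W1 ∨ a ∈ V1 → a ≠ p.1 → 1989 * R.θ ≤ R.ang p.1 a (lp (p :: l) • b) := by
    intro b hb p l hl hr a ha hap
    have hp := hl p List.mem_cons_self
    obtain ⟨c, c1, c2, c3⟩ := clA b hb l (fun q hq => hl q (List.mem_cons_of_mem _ hq)) hr.2.2 p.1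
      hp.1 hr.2.1
    have pt : ¬ R.Ap (lp l • b) := R.pt_smul _ hb.1
    have pt' : ¬ R.Ap (p.2 • lp l • b) := R.pt_smul _ pt
    have n1 := R.ne_of_pt pt hp.1.1
    have n2 := R.ne_of_pt pt' hp.1.1
    have s1 := R.spin p.1 _ p.2 hp.2 hp.1.1 n1 hr.1
    have s2 := smP p.1 hp.1.1 _ (sm1 _ hp.1.1 hp.1.2.1) a ha hap c c1 c2
    have := R.ang_tri p.1 a c _ hp.1.1 hap c2 n1
    have := R.ang_tri p.1 (lp l • b) a _ hp.1.1 n1 hap n2
    have := R.ang_comm p.1 a (lp l • b)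
    rw [lp_cons, mul_smul]
    omega
  let H1 : Subgroup G := Subgroup.closure ((m.H : Set G) ∪ {k | ∃ v ∈ V1, k ∈ R.K v})
  have hH1 : m.H ≤ H1 := fun h hh => Subgroup.subset_closure (Or.inl hh)
  have hK1 : ∀ v ∈ V1, R.K v ≤ H1 := fun v hv k hk => Subgroup.subset_closure (Or.inr ⟨v, hv, hk⟩)
  have form : ∀ k ∈ H1, ∃ l : List (Z × G), (∀ p ∈ l, p.1 ∈ V1 ∧ p.2 ∈ R.K p.1) ∧ Rd l ∧
      ∃ h ∈ m.H, k = lp l * h := by
    have gen : ∀ s ∈ (m.H : Set G) ∪ {k | ∃ v ∈ V1, k ∈ R.K v}, ∀ k : G,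
        (∃ l : List (Z × G), (∀ p ∈ l, p.1 ∈ V1 ∧ p.2 ∈ R.K p.1) ∧ ∃ h ∈ m.H, k = lp l * h) →
        ∃ l : List (Z × G), (∀ p ∈ l, p.1 ∈ V1 ∧ p.2 ∈ R.K p.1) ∧ ∃ h ∈ m.H, s * k = lp l * h := by
      rintro s (hs | ⟨v, hv, hs⟩) k ⟨l, hl, h, hh, rfl⟩
      · refine ⟨l.map fun p => (s • p.1, s * p.2 * s⁻¹), ?_, s * h, m.H.mul_mem hs hh, ?_⟩
        · intro p hp
          obtain ⟨q, hq, rfl⟩ := List.mem_map.1 hp
          exact ⟨HV1 s hs _ (hl q hq).1, R.K_conj s _ _ (hl q hq).2⟩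
        · rw [lp_conj]; group
      · refine ⟨(v, s) :: l, ?_, h, hh, by simp [mul_assoc]⟩
        intro p hp
        rcases List.mem_cons.1 hp with rfl | hp
        · exact ⟨hv, hs⟩
        · exact hl p hp
    intro k hk
    have : ∃ l : List (Z × G), (∀ p ∈ l, p.1 ∈ V1 ∧ p.2 ∈ R.K p.1) ∧ ∃ h ∈ m.H, k = lp l * h := by
      induction hk using Subgroup.closure_induction_left with
      | one => exact ⟨[], by simp, 1, m.H.one_mem, by simp⟩
      | mul_left s hs y _ ih => exact gen s hs y ih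
      | inv_mul_cancel s hs y _ ih =>
        refine gen s⁻¹ ?_ y ih
        rcases hs with hs | ⟨v, hv, hs⟩
        · exact Or.inl (m.H.inv_mem hs)
        · exact Or.inr ⟨v, hv, (R.K v).inv_mem hs⟩
    obtain ⟨l, hl, h, hh, rfl⟩ := this
    obtain ⟨l', a1, a2, a3⟩ := R.exists_rd V1 l hl
    exact ⟨l', a1, a2, h, hh, by rw [a3]⟩
  let V2 : Set Z := {u | ∃ k ∈ H1, ∃ v, (v ∈ m.V ∨ v ∈ V1) ∧ u = k • v}
  have HV2 : ∀ h ∈ H1, ∀ v ∈ V2, h • v ∈ V2 := by
    rintro h hh _ ⟨k, hk, v, hv, rfl⟩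
    exact ⟨h * k, H1.mul_mem hh hk, v, hv, (mul_smul _ _ _).symm⟩
  have clB : ∀ b ∈ W1, ∀ l : List (Z × G), (∀ p ∈ l, p.1 ∈ V1 ∧ p.2 ∈ R.K p.1) → Rd l →
      ∀ u, R.Ap u → u ∉ V2 → ∀ z, ¬ R.Ap z → (∀ p ∈ l.head?, 1988 * R.θ ≤ R.ang p.1 z (lp l • b)) →
      (∃ a, (a ∈ W1 ∨ a ∈ V1) ∧ R.ang u z a ≤ R.θ) → R.ang u z (lp l • b) ≤ 6 * R.θ := by
    intro b hb l
    have sm2 : ∀ u, R.Ap u → u ∉ V2 → ∀ a, a ∈ W1 ∨ a ∈ V1 → ∀ c, c ∈ W1 ∨ c ∈ V1 →
        a ≠ u ∧ R.ang u a c ≤ 4 * R.θ := by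
      intro u hu huV a ha c hc
      have h1 : u ∉ m.V := fun h => huV ⟨1, H1.one_mem, u, Or.inl h, by simp⟩
      have h2 : u ∉ V1 := fun h => huV ⟨1, H1.one_mem, u, Or.inr h, by simp⟩
      have h3 : ∀ a, a ∈ W1 ∨ a ∈ V1 → a ≠ u := by
        rintro a (ha | ha)
        · exact R.ne_of_pt ha.1 hu
        · rintro rfl; exact h2 ha
      refine ⟨h3 a ha, ?_⟩
      have := smP u hu (2 * R.θ) (fun y hy y' hy' => by
        by_contra h4; exact h2 ⟨hu, h1, y, hy, y', hy', by omega⟩) a ha (h3 a ha) c hc (h3 c hc)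
      omega
    induction l with
    | nil =>
      rintro - - u hu huV z hz - ⟨a, ha, h1⟩
      obtain ⟨n1, h2⟩ := sm2 u hu huV a ha b (Or.inl hb)
      have := R.ang_tri u z a b hu (R.ne_of_pt hz hu) n1 (R.ne_of_pt hb.1 hu)
      simp only [lp_nil, one_smul]; omega
    | cons p l ih =>
      rintro hl hr u hu huV z hz hbig ⟨a, ha, h1⟩
      have hp := hl p List.mem_cons_self
      have hb1 := hbig p (by simp)
      obtain ⟨n1, h2⟩ := sm2 u hu huV a ha p.1 (Or.inr hp.1)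
      have n2 := (sm2 u hu huV p.1 (Or.inr hp.1) a ha).1
      have pt : ¬ R.Ap (lp (p :: l) • b) := R.pt_smul _ hb.1
      have n3 := R.ne_of_pt hz hu
      have n4 := R.ne_of_pt hz hp.1.1
      have n5 := R.ne_of_pt pt hu
      have n6 := R.ne_of_pt pt hp.1.1
      have t1 := R.ang_tri p.1 z u _ hp.1.1 n4 n2.symm n6
      by_cases hc : R.θ < R.ang p.1 z u
      · have b1 := R.behr hp.1.1 hu n2 n4 n3 hc
        have hfix := R.K_fix _ _ hp.2
        have hfix' := R.K_fix _ _ ((R.K p.1).inv_mem hp.2)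
        have := ih (fun q hq => hl q (List.mem_cons_of_mem _ hq)) hr.2.2 (p.2⁻¹ • u)
          (R.Ap_smul _ _ hu) (fun h => huV (by simpa using HV2 p.2 (hK1 _ hp.1 hp.2) _ h))
          (p.2⁻¹ • z) (R.pt_smul _ hz) ?_ ⟨p.1, Or.inr hp.1, by rw [R.ang_inv, smul_inv_smul, hfix]; exact b1⟩
        · rwa [R.ang_inv, smul_inv_smul, ← mul_smul, ← lp_cons] at this
        · intro q hq
          rcases l with _ | ⟨q', l⟩
          · simp at hq
          simp only [List.head?_cons, Option.mem_def, Option.some.injEq] at hq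
          subst hq
          have hq := hl q' (by simp)
          have hqp : q'.1 ≠ p.1 := hr.2.1 q' (by simp)
          have pt2 : ¬ R.Ap (lp (q' :: l) • b) := R.pt_smul _ hb.1
          have pt3 : ¬ R.Ap (p.2⁻¹ • z) := R.pt_smul _ hz
          have b2 := big b hb q' l (fun q hq => hl q (List.mem_cons_of_mem _ hq)) hr.2.2 p.1
            (Or.inr hp.1) hqp.symm
          have e1 : R.ang p.1 (p.2⁻¹ • z) (lp (q' :: l) • b) = R.ang p.1 z (lp (p :: q' :: l) • b) := by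
            rw [← R.ang_rot hfix, smul_inv_smul, ← mul_smul, ← lp_cons]
          have m1 := R.ne_of_pt pt2 hp.1.1
          have m2 := R.ne_of_pt pt2 hq.1.1
          have m3 := R.ne_of_pt pt3 hp.1.1
          have m4 := R.ne_of_pt pt3 hq.1.1
          have b3 := R.behr hq.1.1 hp.1.1 hqp m2 m1 (by rw [R.ang_comm]; omega)
          have := R.ang_tri p.1 (p.2⁻¹ • z) q'.1 _ hp.1.1 m3 hqp m1
          have := R.ang_comm p.1 q'.1 (lp (q' :: l) • b)
          have b4 := R.behr hp.1.1 hq.1.1 hqp.symm m3 m4 (by omega)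
          have := R.ang_tri q'.1 p.1 (p.2⁻¹ • z) _ hq.1.1 hqp.symm m4 m2
          have := R.ang_comm q'.1 p.1 (p.2⁻¹ • z)
          omega
      · have := R.ang_comm p.1 u (lp (p :: l) • b)
        have b1 := R.behr hp.1.1 hu n2 n6 n5 (by omega)
        have := R.ang_tri u z a _ hu n3 n1 n5
        have := R.ang_tri u a p.1 _ hu n1 n2 n5
        have := R.ang_comm u p.1 (lp (p :: l) • b)
        omega
  refine ⟨⟨{y | ∃ k ∈ H1, ∃ y0 ∈ W1, y = k • y0}, V2, H1, ?_, ⟨1, H1.one_mem, x, hxW, by simp⟩, ?_, HV2,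
    ?_, ?_, ?_⟩, fun y h1 h2 => ⟨1, H1.one_mem, y, ⟨h1, h2⟩, by simp⟩⟩
  · rintro _ ⟨k, _, y0, hy0, rfl⟩
    exact R.pt_smul k hy0.1
  · rintro h hh _ ⟨k, hk, y0, hy0, rfl⟩
    exact ⟨h * k, H1.mul_mem hh hk, y0, hy0, (mul_smul _ _ _).symm⟩
  · rintro _ ⟨k, hk, v, hv, rfl⟩ hap ρ hρ
    have h1 := R.K_conj k⁻¹ _ _ hρ
    rw [inv_smul_smul] at h1
    have h2 : k⁻¹ * ρ * k⁻¹⁻¹ ∈ H1 := by
      rcases hv with hv | hv
      · exact hH1 (m.K_le v hv ((R.Ap_iff k v).1 hap) h1)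
      · exact hK1 v hv h1
    have := H1.mul_mem (H1.mul_mem hk h2) (H1.inv_mem hk)
    rwa [show k * (k⁻¹ * ρ * k⁻¹⁻¹) * k⁻¹ = ρ by group] at this
  · intro k hk
    obtain ⟨l, hl, hr, h, hh, rfl⟩ := form k hk
    clear hk
    induction l with
    | nil => simpa using m.red h hh
    | cons p l ih =>
      have hp := hl p List.mem_cons_self
      refine Red.step p.1 p.2⁻¹ _ hp.1.1 ((R.K p.1).inv_mem hp.2) (Or.inr (Or.inr ?_)) ?_
      · rw [mul_smul]
        exact big _ (HW1 h hh x hxW) p l hl hr x (Or.inl hxW) (R.ne_of_pt hxW.1 hp.1.1)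
      · rw [lp_cons, mul_assoc, inv_mul_cancel_left]
        exact ih (fun q hq => hl q (List.mem_cons_of_mem _ hq)) hr.2.2
  · rintro u hu huV _ ⟨k, hk, y, hy, rfl⟩ _ ⟨k', hk', y', hy', rfl⟩
    obtain ⟨l, hl, hr, h, hh, e⟩ := form (k⁻¹ * k') (H1.mul_mem (H1.inv_mem hk) hk')
    have e2 : k' • y' = k • lp l • h • y' := by rw [← mul_smul (lp l), ← e, ← mul_smul]; simp
    rw [e2, ← R.ang_inv]
    have hu' := R.Ap_smul k⁻¹ u hu
    refine clB _ (HW1 h hh y' hy') l hl hr _ hu' (fun h => huV (by simpa using HV2 k hk _ h)) y hy.1 ?_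
      ⟨y, Or.inl hy, R.ang_self hu' (R.ne_of_pt hy.1 hu')⟩
    intro p hp
    rcases l with _ | ⟨q, l⟩
    · simp at hp
    simp only [List.head?_cons, Option.mem_def, Option.some.injEq] at hp
    subst hp
    have := big _ (HW1 h hh y' hy') q l hl hr y (Or.inl hy) (R.ne_of_pt hy.1 (hl q (by simp)).1.1)
    omega

theorem red_pt {x : Z} (hx : ¬ R.Ap x) {k : G} (hk : k ∈ R.KK) : R.Red x (1989 * R.θ) k := by
  have hθ := R.θ_pos
  have ex : ∀ j, ∃ m : R.Mill x, ∀ y, ¬ R.Ap y → R.Φ x y ≤ j → y ∈ m.W := by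
    intro j
    induction j with
    | zero =>
      refine ⟨⟨{x}, ∅, ⊥, by simpa using hx, rfl, ?_, by simp, by simp, ?_, ?_⟩, ?_⟩
      · intro h hh y hy; rw [Subgroup.mem_bot.1 hh, one_smul]; exact hy
      · intro h hh; rw [Subgroup.mem_bot.1 hh]; exact Red.one
      · rintro u hu - _ rfl _ rfl
        have := R.ang_self hu (R.ne_of_pt hx hu); omega
      · intro y hy h
        exact (R.Φ_zero x y hx hy (by omega)).symm
    | succ j ih =>
      obtain ⟨m, hm⟩ := ih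
      obtain ⟨m', hm'⟩ := m.step
      refine ⟨m', fun y hy h => hm' y hy ?_⟩
      by_cases h1 : R.Φ x y ≤ j
      · exact ⟨y, hm y hy h1, by rw [R.d_self]; omega⟩
      · obtain ⟨c, c1, c2, c3⟩ := R.Φ_step x y j hx hy (by omega)
        exact ⟨c, hm c c1 c2.le, c3⟩
  have key : ∃ j, ∀ m : R.Mill x, (∀ y, ¬ R.Ap y → R.Φ x y ≤ j → y ∈ m.W) → k ∈ m.H := by
    induction hk using Subgroup.closure_induction with
    | mem k hk =>
      obtain ⟨u, hu, hk⟩ := hk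
      by_cases h1 : k = 1
      · exact ⟨0, fun m _ => h1 ▸ m.H.one_mem⟩
      refine ⟨R.Φ x x + R.Φ x (k • x), fun m hm => ?_⟩
      by_cases h2 : u ∈ m.V
      · exact m.K_le u h2 hu hk
      · have := m.small u hu h2 x m.x_mem (k • x) (hm _ (R.pt_smul k hx) (by omega))
        have := R.spin u x k hk hu (R.ne_of_pt hx hu) h1
        omega
    | one => exact ⟨0, fun m _ => m.H.one_mem⟩
    | mul a b _ _ ha hb =>
      obtain ⟨i, hi⟩ := ha
      obtain ⟨j, hj⟩ := hb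
      exact ⟨i + j, fun m hm => m.H.mul_mem (hi m fun y h1 h2 => hm y h1 (by omega))
        (hj m fun y h1 h2 => hm y h1 (by omega))⟩
    | inv a _ ha =>
      obtain ⟨i, hi⟩ := ha
      exact ⟨i, fun m hm => m.H.inv_mem (hi m hm)⟩
  obtain ⟨j, hj⟩ := key
  obtain ⟨m, hm⟩ := ex j
  exact m.red k (hj m hm)

/-- Greendlinger lemma. -/
theorem red (z : Z) {k : G} (hk : k ∈ R.KK) : R.Red z (1987 * R.θ) k := by
  obtain ⟨x, hx, hxz⟩ : ∃ x, ¬ R.Ap x ∧ R.d x z ≤ 1 := by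
    by_cases hz : R.Ap z
    · obtain ⟨y, h1, h2⟩ := R.nbr_pt hz
      exact ⟨y, h1, h2.le⟩
    · exact ⟨z, hz, by rw [R.d_self]; omega⟩
  have := R.red_pt hx hk
  clear hk
  induction this with
  | one => exact Red.one
  | step u ρ k hu hρ h _ ih =>
    refine Red.step u ρ k hu hρ ?_ ih
    by_cases h1 : u = z
    · exact Or.inl h1
    by_cases h2 : u = k • z
    · exact Or.inr (Or.inl h2)
    have n1 := R.ne_of_pt hx hu
    have n2 := R.ne_of_pt (R.pt_smul k hx) hu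
    rcases h with h | h | h
    · exact absurd h.symm n1
    · exact absurd h.symm n2
    · have := R.ang_adj hu n1 (Ne.symm h1) hxz
      have := R.ang_adj hu (Ne.symm h2) n2 (by rw [R.iso, R.d_comm]; exact hxz)
      have := R.ang_tri u x z (k • x) hu n1 (Ne.symm h1) n2
      have := R.ang_tri u z (k • z) (k • x) hu (Ne.symm h1) (Ne.symm h2) n2
      exact Or.inr (Or.inr (by omega))

theorem green {z : Z} {k : G} (hk : k ∈ R.KK) (hne : k • z ≠ z) :
    ∃ u, R.Ap u ∧ z ≠ u ∧ k • z ≠ u ∧ 1987 * R.θ ≤ R.ang u z (k • z) := by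
  have := R.red z hk
  clear hk
  induction this with
  | one => simp at hne
  | step u ρ k hu hρ h _ ih =>
    have hfix := R.K_fix u ρ hρ
    by_cases h1 : u = z
    · subst h1
      obtain ⟨w, a1, a2, a3, a4⟩ := ih (by rw [mul_smul]; exact smul_ne hfix hne)
      refine ⟨ρ⁻¹ • w, R.Ap_smul _ _ a1, fun h => a2 ?_, fun h => a3 ?_, ?_⟩
      · rw [← hfix, h, smul_inv_smul]
      · rw [mul_smul, h, smul_inv_smul]
      · rwa [R.ang_inv, hfix, ← mul_smul]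
    by_cases h2 : u = k • z
    · have e : (ρ * k) • z = k • z := by rw [mul_smul, ← h2, hfix]
      rw [e] at ih; exact ih hne
    rcases h with h | h | h
    · exact absurd h h1
    · exact absurd h h2
    · exact ⟨u, hu, Ne.symm h1, Ne.symm h2, h⟩

theorem free_pt {x : Z} (hx : ¬ R.Ap x) {k : G} (hk : k ∈ R.KK) (h : k • x = x) : k = 1 := by
  have := R.red_pt hx hk
  have hθ := R.θ_pos
  cases this with
  | one => rfl
  | step u ρ k hu hρ h1 _ =>
    rw [h] at h1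
    have n := R.ne_of_pt hx hu
    have := R.ang_self hu n
    rcases h1 with h1 | h1 | h1
    · exact absurd h1.symm n
    · exact absurd h1.symm n
    · omega

theorem mem_K_of_adj {v y : Z} (hv : R.Ap v) (hy : R.d y v = 1) {k : G} (hk : k ∈ R.KK)
    (h : R.d (k • y) v ≤ 1) : k ∈ R.K v := by
  have hpt : ¬ R.Ap y := fun h => R.ap_ap y v h hv hy
  have := R.red_pt hpt hk
  have hθ := R.θ_pos
  clear hk
  induction this with
  | one => exact (R.K v).one_mem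
  | step u ρ k hu hρ h1 _ ih =>
    have n1 := R.ne_of_pt hpt hu
    have n2 := R.ne_of_pt (R.pt_smul k hpt) hu
    have huv : v = u := by
      by_contra hne
      have := R.ang_adj hu n1 hne hy.le
      have := R.ang_adj hu hne n2 (by rw [R.d_comm]; exact h)
      have := R.ang_tri u y v (k • y) hu n1 hne n2
      rcases h1 with h1 | h1 | h1
      · exact n1 h1.symm
      · exact n2 h1.symm
      · omega
    subst huv
    have := ih (by rw [mul_smul, R.d_comm, R.d_rot (R.K_fix _ _ hρ), R.d_comm]; exact h)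
    simpa using (R.K v).mul_mem ((R.K v).inv_mem hρ) this

theorem mem_K_of_fix {v : Z} (hv : R.Ap v) {k : G} (hk : k ∈ R.KK) (h : k • v = v) : k ∈ R.K v := by
  obtain ⟨y, hy⟩ := R.nbr v hv
  exact R.mem_K_of_adj hv hy hk (by rw [R.d_comm, R.d_rot h, R.d_comm]; exact hy.le)

/-- Lifting of polygons. -/
theorem polygon (s : ℕ) (hs : s ≤ 5) (z : ℕ → Z) {k : G} (hk : k ∈ R.KK) (hz : z s = k • z 0) :
    ∃ c : ℕ → G, (∀ i, c i ∈ R.KK) ∧ c 0 = 1 ∧ c s • z s = z 0 ∧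
      ∀ i, i < s → R.d (c i • z i) (c (i + 1) • z (i + 1)) ≤ R.d (z i) (z (i + 1)) := by
  have := R.red (z 0) hk
  have hθ := R.θ_pos
  clear hk
  generalize hz0 : z 0 = z0 at this hz
  induction this generalizing z with
  | one => exact ⟨fun _ => 1, fun _ => R.KK.one_mem, rfl, by simpa using hz, by simp⟩
  | step u ρ k hu hρ h _ ih =>
    have hfix := R.K_fix u ρ hρ
    rcases Nat.eq_zero_or_pos s with rfl | hs0
    · exact ⟨fun _ => 1, fun _ => R.KK.one_mem, rfl, by simpa using hz0, by simp⟩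
    have hex : ∃ i, i < s ∧ R.d (z i) u + R.d u (z (i + 1)) = R.d (z i) (z (i + 1)) := by
      by_contra hno
      push Not at hno
      have hne : ∀ i, i ≤ s → z i ≠ u := by
        intro i hi h
        by_cases h1 : i < s
        · exact hno i h1 (by rw [h, R.d_self]; omega)
        · refine hno (s - 1) (by omega) ?_
          rw [show s - 1 + 1 = i by omega, h, R.d_self]; omega
      have hb : ∀ i, i ≤ s → R.ang u (z 0) (z i) ≤ (i + 1) * R.θ := by
        intro i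
        induction i with
        | zero => intro _; simpa using R.ang_self hu (hne 0 (by omega))
        | succ i ih =>
          intro hi
          have a1 := ih (by omega)
          have a2 := R.ang_tri u (z 0) (z i) (z (i + 1)) hu (hne 0 (by omega)) (hne i (by omega))
            (hne _ hi)
          have a3 : R.ang u (z i) (z (i + 1)) ≤ R.θ := by
            by_contra h4
            exact hno i (by omega) (R.bgi _ _ _ hu (hne i (by omega)) (hne _ hi) (by omega))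
          rw [add_mul (i + 1), one_mul]; omega
      have a1 := hb s le_rfl
      have a2 : (s + 1) * R.θ ≤ 6 * R.θ := Nat.mul_le_mul_right _ (by omega)
      rcases h with h | h | h
      · exact hne 0 (by omega) (by rw [hz0, h])
      · exact hne s le_rfl (by rw [hz, h])
      · rw [hz0, hz] at a1; omega
    obtain ⟨i, hi, hbet⟩ := hex
    obtain ⟨c, c1, c2, c3, c4⟩ := ih (fun j => if j ≤ i then z j else ρ • z j) (by simpa using hz0)
      (by simp only [show ¬ s ≤ i by omega, if_false]; rw [hz, mul_smul])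
    refine ⟨fun j => if j ≤ i then c j else c j * ρ, fun j => ?_, by simpa using c2, ?_, fun j hj => ?_⟩
    · by_cases h : j ≤ i <;> simp only [h, if_true, if_false]
      · exact c1 j
      · exact R.KK.mul_mem (c1 j) (R.K_le hu hρ)
    · simpa only [show ¬ s ≤ i by omega, if_false, mul_smul] using c3
    · have := c4 j hj
      rcases lt_trichotomy j i with h | h | h
      · simpa only [h.le, show j + 1 ≤ i by omega, if_true] using this
      · subst h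
        simp only [le_rfl, show ¬ j + 1 ≤ j by omega, if_true, if_false, mul_smul] at this ⊢
        have t := R.d_tri (z j) u (ρ • z (j + 1))
        rw [R.d_rot hfix] at t
        omega
      · simpa only [show ¬ j ≤ i by omega, show ¬ j + 1 ≤ i by omega, if_false, mul_smul, R.iso ρ]
          using this

end Rot

end Pool.Agent.Lib.OCn
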