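import Pool.Agent.Lib.MP_de4dbb_al.Tran

/-! The algebraic invariants hold in the quotient. -/

namespace Pool.Agent.Lib.OCn

namespace Tr

variable {G Q : Type} [Group G] [Group Q] {n N : ℕ} (T : Tr G Q n N)

/-- The lift of a subgroup inside a finite subgroup. -/
def up (A : Subgroup G) (F : Subgroup Q) : Subgroup G := A ⊓ F.comap T.π

theorem mem_up {A : Subgroup G} {F : Subgroup Q} {t : G} : t ∈ T.up A F ↔ t ∈ A ∧ T.π t ∈ F := Iff.rfl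

theorem up_fin {A : Subgroup G} (hA : (A : Set G).Finite) (F : Subgroup Q) :
    (T.up A F : Set G).Finite := hA.subset fun _ h => h.1

theorem up_ex {A : Subgroup G} {F : Subgroup Q} (h : (F : Set Q) ⊆ A.map T.π) {f : Q} (hf : f ∈ F) :
    ∃ t ∈ T.up A F, T.π t = f := by
  obtain ⟨t, ht, rfl⟩ := h hf
  exact ⟨t, ⟨ht, hf⟩, rfl⟩

theorem up_two {A : Subgroup G} (hA : (A : Set G).Finite) {F : Subgroup Q} (h : Two F) :
    Two (T.up A F) := by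
  intro t ht
  obtain ⟨k, hk⟩ := h _ ht.2
  exact ⟨k, T.inj A hA _ (A.pow_mem ht.1 _) 1 A.one_mem (by simpa using hk)⟩

theorem up_desc {A : Subgroup G} (hA : (A : Set G).Finite) {F : Subgroup Q}
    (h : (F : Set Q) ⊆ A.map T.π) {φ : G → Dih (ZMod N)} (hφ : MulOn (T.up A F) φ) :
    ∃ φ' : Q → Dih (ZMod N), MulOn F φ' ∧ ∀ t ∈ T.up A F, φ' (T.π t) = φ t := by
  obtain ⟨φ', h1, h2⟩ := hφ.descend T.π fun e he h => by
    rw [T.inj A hA _ he.1 1 A.one_mem (by simpa using h), hφ.one]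
  exact ⟨φ', h1.mono fun f hf => T.up_ex h hf, h2⟩

theorem pull {A B : Subgroup G} (hA : (A : Set G).Finite) (hB : (B : Set G).Finite) {F : Subgroup Q}
    (hFA : (F : Set Q) ⊆ A.map T.π) (hFB : (F : Set Q) ⊆ B.map T.π) {b : G} (hb : b ∈ B)
    (hn : ∀ f ∈ F, T.π b * f * (T.π b)⁻¹ ∈ F) (hs : T.π b * T.π b ∈ F) :
    ∃ w : G, (∀ t ∈ A, ∀ t' ∈ B, T.π t' = T.π t → w⁻¹ * t' * w = t) ∧
      (∀ f ∈ T.up A F, w⁻¹ * b * w * f * (w⁻¹ * b * w)⁻¹ ∈ T.up A F ∧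
        T.π (w⁻¹ * b * w * f * (w⁻¹ * b * w)⁻¹) = T.π b * T.π f * (T.π b)⁻¹) ∧
      w⁻¹ * b * w * (w⁻¹ * b * w) ∈ T.up A F ∧
        T.π (w⁻¹ * b * w * (w⁻¹ * b * w)) = T.π b * T.π b := by
  obtain ⟨w, hw, -⟩ := T.conj A B hA hB 1
  have hw' : ∀ t ∈ A, ∀ t' ∈ B, T.π t' = T.π t → w⁻¹ * t' * w = t := by
    intro t ht t' ht' e
    rw [← hw t ht t' ht' (by simpa using e)]; group
  have key : ∀ t' ∈ B, T.π t' ∈ F → w⁻¹ * t' * w ∈ T.up A F ∧ T.π (w⁻¹ * t' * w) = T.π t' := by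
    intro t' ht' h
    obtain ⟨t, ht, e⟩ := T.up_ex hFA h
    rw [hw' t ht.1 t' ht' e.symm]; exact ⟨ht, e⟩
  refine ⟨w, hw', fun f hf => ?_, ?_⟩
  · obtain ⟨f', hf', e⟩ := T.up_ex hFB hf.2
    have h1 := key (b * f' * b⁻¹) (B.mul_mem (B.mul_mem hb hf'.1) (B.inv_mem hb)) (by
      simp only [map_mul, map_inv]; exact hn _ hf'.2)
    have e2 : w⁻¹ * b * w * f * (w⁻¹ * b * w)⁻¹ = w⁻¹ * (b * f' * b⁻¹) * w := by
      rw [← hw' f hf.1 f' hf'.1 e]; group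
    rw [e2, h1.2]
    exact ⟨h1.1, by simp [e]⟩
  · have h1 := key (b * b) (B.mul_mem hb hb) (by simpa using hs)
    rw [show w⁻¹ * b * w * (w⁻¹ * b * w) = w⁻¹ * (b * b) * w by group, h1.2]
    exact ⟨h1.1, by simp⟩

theorem up_norm {A : Subgroup G} {F : Subgroup Q} {a : G} (ha : a ∈ A)
    (hn : ∀ f ∈ F, T.π a * f * (T.π a)⁻¹ ∈ F) : ∀ f ∈ T.up A F, a * f * a⁻¹ ∈ T.up A F :=
  fun f hf => ⟨A.mul_mem (A.mul_mem ha hf.1) (A.inv_mem ha), by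
    show T.π _ ∈ F
    simp only [map_mul, map_inv]; exact hn _ hf.2⟩

include T in
theorem fin (H : Subgroup Q) (hH : (H : Set Q).Finite) : (∀ h ∈ H, h ^ N = 1) ∨
    ∃ c : Q, IsOfFinOrder c ∧ orderOf c ≤ n ∧ H ≤ Subgroup.zpowers c := by
  rcases T.lift H hH with ⟨A, h1, h2⟩ | ⟨v, hv⟩
  · rcases T.alg.fin A h1 with h3 | ⟨c, c1, c2, c3⟩
    · left
      intro h hh
      obtain ⟨a, ha, rfl⟩ := h2 hh
      rw [← map_pow, h3 a ha, map_one]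
    · refine Or.inr ⟨T.π c, T.π.isOfFinOrder c1,
        (Nat.le_of_dvd c1.orderOf_pos (orderOf_map_dvd T.π c)).trans c2, h2.trans ?_⟩
      rw [← MonoidHom.map_zpowers]
      exact Subgroup.map_mono c3
  · exact Or.inl fun h hh => T.pow_N (hv hh)

include T in
theorem two (g t : Q) (hg : ¬ IsOfFinOrder g) (ht : IsOfFinOrder t) (h : g * t * g⁻¹ = t) :
    ∃ k : ℕ, t ^ 2 ^ k = 1 := by
  obtain ⟨k, hk⟩ := T.pow
  have hap : ∀ v, t ∈ T.Eb v → ∃ k : ℕ, t ^ 2 ^ k = 1 := fun v hv => ⟨k + 9, hk ▸ T.pow_N hv⟩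
  rcases T.lift (Subgroup.zpowers t) (finite_zpowers.2 ht) with ⟨A, h1, h2⟩ | ⟨v, hv⟩
  · obtain ⟨a, ha, rfl⟩ := h2 (Subgroup.mem_zpowers t)
    obtain ⟨g', h3, h4 | ⟨v, h4⟩⟩ := T.conj A A h1 h1 g
    · obtain ⟨k, hk⟩ := T.alg.two g' a (fun hf => hg (h4 ▸ T.π.isOfFinOrder hf))
        (finOrder_of_mem h1 ha) (h3 a ha a ha h.symm)
      exact ⟨k, by rw [← map_pow, hk, map_one]⟩
    · exact hap v (h4 a ha ⟨a, ha, h.symm⟩)
  · exact hap v (hv (Subgroup.mem_zpowers t))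

theorem norm_mem {F : Subgroup Q} (hnl : ¬ T.Lf F) {v : T.V} (hv : F ≤ T.Eb v) {g : Q}
    (hn : ∀ f ∈ F, g * f * g⁻¹ ∈ F) : g ∈ T.Eb v := by
  by_contra hg
  obtain ⟨A, a1, -, a3⟩ := T.two1 v g hg
  exact hnl ⟨A, a1, fun f hf => a3 f (hv hf) (hv (hn f hf))⟩

include T in
theorem sepa (F : Subgroup Q) (g : Q) (hF : (F : Set Q).Finite) (h2 : Two F)
    (hn : ∀ f ∈ F, g * f * g⁻¹ ∈ F) (f : Q) (hf : f ∈ F) (h1 : f ≠ 1) :
    ∃ (φ : Q → Dih (ZMod N)) (π : Dih (ZMod N)), MulOn F φ ∧ φ f ≠ 1 ∧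
      ∀ t ∈ F, φ (g * t * g⁻¹) = π * φ t * π⁻¹ := by
  by_cases hl : T.Lf F
  · obtain ⟨A, a1, a2⟩ := hl
    obtain ⟨g', h3, -⟩ := T.conj A A a1 a1 g
    have key : ∀ t ∈ T.up A F, g' * t * g'⁻¹ ∈ T.up A F ∧
        T.π (g' * t * g'⁻¹) = g * T.π t * g⁻¹ := by
      intro t ht
      obtain ⟨t', ht', e⟩ := T.up_ex a2 (hn _ ht.2)
      rw [h3 t ht.1 t' ht'.1 e]; exact ⟨ht', e⟩
    obtain ⟨f, hf', rfl⟩ := T.up_ex a2 hf
    obtain ⟨φ, π0, b1, b2, b3⟩ := T.alg.sepa (T.up A F) g' (T.up_fin a1 F) (T.up_two a1 h2)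
      (fun t ht => (key t ht).1) f hf' (fun h => h1 (by simp [h]))
    obtain ⟨φ', c1, c2⟩ := T.up_desc a1 a2 b1
    refine ⟨φ', π0, c1, by rwa [c2 f hf'], fun t ht => ?_⟩
    obtain ⟨t, ht', rfl⟩ := T.up_ex a2 ht
    rw [← (key t ht').2, c2 _ (key t ht').1, c2 t ht', b3 t ht']
  · obtain ⟨v, hv⟩ := (T.lift F hF).resolve_left hl
    have hg := T.norm_mem hl hv hn
    obtain ⟨φ, b1, b2⟩ := T.inD (hv hf) h1
    exact ⟨φ, φ g, b1.mono hv, b2, fun t ht => b1.conj hg (hv ht)⟩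

theorem adjust {F : Subgroup Q} (hF : (F : Set Q).Finite) (hl : T.Lf F) {a : Q}
    (hn : ∀ f ∈ F, a * f * a⁻¹ ∈ F) (hs : a * a ∈ F) :
    ∃ a', (∀ t ∈ F, a' * t * a'⁻¹ = a * t * a⁻¹) ∧ a' * a' = a * a ∧ T.Lf (insert a' F) := by
  by_cases h : T.Lf (insert a F)
  · exact ⟨a, fun _ _ => rfl, rfl, h⟩
  obtain ⟨H, h1, h2, h3⟩ := exists_ext hF hn hs
  obtain ⟨v, hv⟩ := (T.lift H h1).resolve_left fun hl => h (Lf.mono hl (Set.insert_subset h3 h2))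
  obtain ⟨u, hu, h4⟩ := T.of_lf (v := v) (h2.trans hv) hl
  obtain ⟨s, hs', η, e1, e2, e3, e4, e5, -, -⟩ := T.quarter v (fun _ => 1) fun _ _ => (T.Eb v).one_mem
  have hζ := (T.Eb v).mul_mem hs' hs'
  generalize s * s = ζ at e3 e4 e5 hζ
  refine ⟨a * ζ, fun t ht => ?_, ?_, T.lf_half (h2.trans hv) hu h4 (hv h3) hζ e2 e3
    (T.half_lift (h2.trans hv) hu h4 (hv h3) hn hs h e1 e2)⟩
  · rw [mul_assoc a, ← e5 t (hv (h2 ht))]; group
  · rw [mul_assoc a, ← mul_assoc ζ, ← e5 a (hv h3), mul_assoc a ζ, e4]; group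

include T in
theorem sepb (F : Subgroup Q) (a b : Q) (hF : (F : Set Q).Finite) (h2 : Two F)
    (ha : ∀ f ∈ F, a * f * a⁻¹ ∈ F) (hb : ∀ f ∈ F, b * f * b⁻¹ ∈ F) (haa : a * a ∈ F)
    (hbb : b * b ∈ F) (f : Q) (hf : f ∈ F) (h1 : f ≠ 1) :
    ∃ (φ : Q → Dih (ZMod N)) (α β : Dih (ZMod N)), MulOn F φ ∧ φ f ≠ 1 ∧
      (∀ t ∈ F, φ (a * t * a⁻¹) = α * φ t * α⁻¹) ∧ (∀ t ∈ F, φ (b * t * b⁻¹) = β * φ t * β⁻¹) ∧
      φ (a * a) = α * α ∧ φ (b * b) = β * β := by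
  by_cases hl : T.Lf F
  · obtain ⟨a', a1, a2, A, a3, a4⟩ := T.adjust hF hl ha haa
    obtain ⟨b', b1, b2, B, b3, b4⟩ := T.adjust hF hl hb hbb
    obtain ⟨a0, ha0, rfl⟩ := a4 (Set.mem_insert _ _)
    obtain ⟨b0, hb0, rfl⟩ := b4 (Set.mem_insert _ _)
    have hFA := (Set.subset_insert _ _).trans a4
    have hFB := (Set.subset_insert _ _).trans b4
    obtain ⟨w, -, w2, w3, w4⟩ := T.pull a3 b3 hFA hFB hb0 (fun t ht => by rw [b1 t ht]; exact hb t ht)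
      (by rwa [b2])
    generalize w⁻¹ * b0 * w = b' at w2 w3 w4
    have n1 := T.up_norm ha0 (F := F) (fun t ht => by rw [a1 t ht]; exact ha t ht)
    have n2 : a0 * a0 ∈ T.up A F := ⟨A.mul_mem ha0 ha0, by
      show T.π _ ∈ F
      rwa [map_mul, a2]⟩
    obtain ⟨f, hf', rfl⟩ := T.up_ex hFA hf
    obtain ⟨φ, α, β, c1, c2, c3, c4, c5, c6⟩ := T.alg.sepb (T.up A F) a0 b' (T.up_fin a3 F)
      (T.up_two a3 h2) n1 (fun t ht => (w2 t ht).1) n2 w3 f hf' (fun h => h1 (by simp [h]))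
    obtain ⟨φ', d1, d2⟩ := T.up_desc a3 hFA c1
    refine ⟨φ', α, β, d1, by rwa [d2 f hf'], fun t ht => ?_, fun t ht => ?_, ?_, ?_⟩
    · obtain ⟨t, ht', rfl⟩ := T.up_ex hFA ht
      rw [← a1 _ ht, ← map_inv, ← map_mul, ← map_mul, d2 _ (n1 t ht'), d2 t ht', c3 t ht']
    · obtain ⟨t, ht', rfl⟩ := T.up_ex hFA ht
      rw [← b1 _ ht, ← (w2 t ht').2, d2 _ (w2 t ht').1, d2 t ht', c4 t ht']
    · rw [← a2, ← map_mul, d2 _ n2, c5]
    · rw [← b2, ← w4, d2 _ w3, c6]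
  · obtain ⟨v, hv⟩ := (T.lift F hF).resolve_left hl
    have hg := T.norm_mem hl hv ha
    have hg' := T.norm_mem hl hv hb
    obtain ⟨φ, b1, b2⟩ := T.inD (hv hf) h1
    exact ⟨φ, φ a, φ b, b1.mono hv, b2, fun t ht => b1.conj hg (hv ht),
      fun t ht => b1.conj hg' (hv ht), b1 _ hg _ hg, b1 _ hg' _ hg'⟩

theorem law_push {c : ℕ → G} {c' : ℕ → Q} (h : Law c) (e : ∀ j, 1 ≤ j → j ≤ 5 → T.π (c j) = c' j) :
    Law c' := by
  have := congrArg T.π h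
  simp only [map_mul, map_inv] at this
  rwa [e 1 (by omega) (by omega), e 3 (by omega) (by omega), e 5 (by omega) (by omega)] at this

theorem saL {g : Q} {c : ℕ → Q} (hc : Chain6 g c) {H : Set Q} (hl : T.Lf H)
    (h : ∀ j, j ≤ 6 → c j ∈ H) : Law c := by
  obtain ⟨A, a1, a2⟩ := hl
  have : ∀ j, ∃ a ∈ A, j ≤ 6 → T.π a = c j := fun j => by
    by_cases hj : j ≤ 6
    · obtain ⟨a, ha, e⟩ := a2 (h j hj)
      exact ⟨a, ha, fun _ => e⟩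
    · exact ⟨1, A.one_mem, fun h => absurd h hj⟩
  choose a ha ha' using this
  obtain ⟨g', h3, -⟩ := T.conj A A a1 a1 g
  refine T.law_push (T.alg.sa g' a A (fun j hj => h3 _ (ha _) _ (ha _) ?_) a1 fun j _ => ha j)
    fun j _ _ => ha' j (by omega)
  rw [ha' j (by omega), ha' _ (by omega), hc j hj]

theorem scL {g : Q} {c : ℕ → Q} {F : Subgroup Q} (hc : Chain6 g c)
    (mid : ∀ j, 1 ≤ j → j ≤ 5 → c j ∈ F) (n0 : ∀ f ∈ F, c 0 * f * (c 0)⁻¹ ∈ F)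
    (n6 : ∀ f ∈ F, c 6 * f * (c 6)⁻¹ ∈ F) (s0 : c 0 * c 0 ∈ F) (s6 : c 6 * c 6 ∈ F)
    (hA : T.Lf (insert (c 0) F)) (hB : T.Lf (insert (c 6) F)) : Law c := by
  obtain ⟨A, a1, a2⟩ := hA
  obtain ⟨B, b1, b2⟩ := hB
  have hFA := (Set.subset_insert _ _).trans a2
  have hFB := (Set.subset_insert _ _).trans b2
  have : ∀ j, ∃ a ∈ A, j ≤ 5 → T.π a = c j := fun j => by
    by_cases hj : j ≤ 5
    · obtain ⟨a, ha, e⟩ := a2 (a := c j) (by
        rcases Nat.eq_zero_or_pos j with rfl | h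
        · exact Set.mem_insert _ _
        · exact Or.inr (mid j h hj))
      exact ⟨a, ha, fun _ => e⟩
    · exact ⟨1, A.one_mem, fun h => absurd h hj⟩
  choose a ha ha' using this
  obtain ⟨b, hb, hb'⟩ := b2 (Set.mem_insert _ _)
  obtain ⟨w, w1, w2, w3, -⟩ := T.pull a1 b1 hFA hFB hb (by rwa [hb']) (by rwa [hb'])
  obtain ⟨g', h3, -⟩ := T.conj A B a1 b1 g
  have e0 := ha' 0 (by omega)
  refine T.law_push (T.alg.sc (w⁻¹ * g') (fun j => if j ≤ 5 then a j else w⁻¹ * b * w) (T.up A F)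
    (fun j hj => ?_) (T.up_fin a1 F) (fun j h1 h5 => ?_) ?_ ?_ ?_ ?_) fun j _ h5 => ?_
  · simp only [show j ≤ 5 by omega, if_true]
    rw [show w⁻¹ * g' * a j * (w⁻¹ * g')⁻¹ = w⁻¹ * (g' * a j * g'⁻¹) * w by group]
    split_ifs with h5
    · obtain ⟨t, ht, e⟩ := hFB (mid (j + 1) (by omega) h5)
      rw [h3 _ (ha j) t ht (by rw [e, ha' j (by omega), hc j hj])]
      exact w1 _ (ha _) _ ht (by rw [e, ha' _ h5])
    · obtain rfl : j = 5 := by omega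
      rw [h3 _ (ha 5) b hb (by rw [hb', ha' 5 le_rfl, hc 5 hj])]
  · simp only [h5, if_true]
    exact ⟨ha j, by show T.π _ ∈ F; rw [ha' j h5]; exact mid j h1 h5⟩
  · exact T.up_norm (a := a 0) (ha 0) (by rwa [e0])
  · exact fun f hf => (w2 f hf).1
  · exact ⟨A.mul_mem (ha 0) (ha 0), by
      show T.π (a 0 * a 0) ∈ F
      rwa [map_mul, e0]⟩
  · exact w3
  · simp only [h5, if_true]; exact ha' j h5

include T in
theorem sa (g : Q) (c : ℕ → Q) (H : Subgroup Q) (hc : Chain6 g c) (hH : (H : Set Q).Finite)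
    (h : ∀ j, j ≤ 6 → c j ∈ H) : Law c := by
  rcases T.lift H hH with hl | ⟨v, hv⟩
  · exact T.saL hc hl h
  have hE : ∀ j, j ≤ 6 → c j ∈ T.Eb v := fun j hj => hv (h j hj)
  by_cases hg : g ∈ T.Eb v
  · exact T.law hc hg (hE 1 (by omega))
  obtain ⟨u, hu, h1⟩ := T.of_two hg
  obtain ⟨u', hu', h2⟩ := T.of_two (g := g⁻¹) fun h => hg (by simpa using (T.Eb v).inv_mem h)
  have k1 : ∀ j, j ≤ 5 → T.ψ v (c j) = 1 ∨ T.ψ v (c j) = u := fun j hj =>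
    h1 _ (hE j (by omega)) (by rw [hc j (by omega)]; exact hE _ (by omega))
  have k2 : ∀ j, j ≤ 5 → T.ψ v (c (j + 1)) = 1 ∨ T.ψ v (c (j + 1)) = u' := fun j hj =>
    h2 _ (hE _ (by omega)) (by
      rw [← hc j (by omega)]; simpa [mul_assoc] using hE j (by omega))
  by_cases huu : u = u'
  · refine T.saL hc (T.lf_of (v := v) (H := {t | ∃ j, j ≤ 6 ∧ t = c j}) ?_ hu ?_)
      fun j hj => ⟨j, hj, rfl⟩
    · rintro _ ⟨j, hj, rfl⟩; exact hE j hj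
    · rintro _ ⟨j, hj, rfl⟩
      by_cases h5 : j ≤ 5
      · exact k1 j h5
      · obtain rfl : j = 5 + 1 := by omega
        rw [huu]; exact k2 5 le_rfl
  let F : Subgroup Q :=
    { carrier := {t | t ∈ T.Eb v ∧ T.ψ v t = 1}
      one_mem' := ⟨(T.Eb v).one_mem, (T.ψ_mul v).one⟩
      mul_mem' := fun {a b} ha hb => ⟨(T.Eb v).mul_mem ha.1 hb.1, by
        rw [T.ψ_mul v _ ha.1 _ hb.1, ha.2, hb.2, mul_one]⟩
      inv_mem' := fun {a} ha => ⟨(T.Eb v).inv_mem ha.1, by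
        rw [(T.ψ_mul v).inv ha.1, ha.2, inv_one]⟩ }
  have nF : ∀ a ∈ T.Eb v, ∀ f ∈ F, a * f * a⁻¹ ∈ F := fun a ha f hf =>
    ⟨(T.Eb v).mul_mem ((T.Eb v).mul_mem ha hf.1) ((T.Eb v).inv_mem ha), by
      rw [(T.ψ_mul v).conj ha hf.1, hf.2]; simp⟩
  have sF : ∀ a ∈ T.Eb v, ∀ u : Dih (ZMod N), u.s = true → T.ψ v a = 1 ∨ T.ψ v a = u →
      a * a ∈ F ∧ T.Lf (insert a F) := by
    intro a ha u hu h
    refine ⟨⟨(T.Eb v).mul_mem ha ha, ?_⟩, T.lf_of (Set.insert_subset ha fun _ h => h.1) hu ?_⟩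
    · rw [T.ψ_mul v _ ha _ ha]
      rcases h with h | h <;> rw [h]
      · simp
      · exact Dih.sq_refl _ hu
    · rintro t (rfl | ht)
      · exact h
      · exact Or.inl ht.2
  obtain ⟨s0, l0⟩ := sF _ (hE 0 (by omega)) u hu (k1 0 (by omega))
  obtain ⟨s6, l6⟩ := sF _ (hE 6 le_rfl) u' hu' (k2 5 le_rfl)
  refine T.scL hc (F := F) (fun j h1 h5 => ⟨hE j (by omega), ?_⟩) (nF _ (hE 0 (by omega)))
    (nF _ (hE 6 le_rfl)) s0 s6 l0 l6
  obtain ⟨i, rfl⟩ : ∃ i, j = i + 1 := ⟨j - 1, by omega⟩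
  rcases k1 _ h5 with h3 | h3
  · exact h3
  · exact (k2 i (by omega)).resolve_right fun h4 => huu (h3.symm.trans h4)

/-- Making the first element of a chain liftable. -/
theorem start {g : Q} {c : ℕ → Q} {F : Subgroup Q} (hc : Chain6 g c) (hF : (F : Set Q).Finite)
    (hl : T.Lf F) (mid : ∀ j, 1 ≤ j → j ≤ 5 → c j ∈ F) (n0 : ∀ f ∈ F, c 0 * f * (c 0)⁻¹ ∈ F)
    (n6 : ∀ f ∈ F, c 6 * f * (c 6)⁻¹ ∈ F) (s0 : c 0 * c 0 ∈ F) (s6 : c 6 * c 6 ∈ F) :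
    Law c ∨ ∃ (g' : Q) (c' : ℕ → Q), Chain6 g' c' ∧ (∀ j, 1 ≤ j → j ≤ 5 → c' j = c j) ∧
      (∀ f ∈ F, c' 0 * f * (c' 0)⁻¹ ∈ F) ∧ (∀ f ∈ F, c' 6 * f * (c' 6)⁻¹ ∈ F) ∧
      c' 0 * c' 0 ∈ F ∧ c' 6 * c' 6 ∈ F ∧ T.Lf (insert (c' 0) F) ∧
      (T.Lf (insert (c 6) F) → c' 6 = c 6) := by
  by_cases h : T.Lf (insert (c 0) F)
  · exact Or.inr ⟨g, c, hc, fun _ _ _ => rfl, n0, n6, s0, s6, h, fun _ => rfl⟩
  obtain ⟨H, h1, h2, h3⟩ := exists_ext hF n0 s0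
  obtain ⟨v, hv⟩ := (T.lift H h1).resolve_left fun hl => h (Lf.mono hl (Set.insert_subset h3 h2))
  have hFv : F ≤ T.Eb v := h2.trans hv
  have hE : ∀ j, j < 6 → c j ∈ T.Eb v := fun j hj => by
    rcases Nat.eq_zero_or_pos j with rfl | h
    · exact hv h3
    · exact hFv (mid j h (by omega))
  by_cases hg : g ∈ T.Eb v
  · exact Or.inl (T.law hc hg (hE 1 (by omega)))
  right
  obtain ⟨u, hu, h4⟩ := T.of_lf (v := v) hFv hl
  obtain ⟨u', hu', h5⟩ := T.of_two hg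
  have k1 : ∀ j, j ≤ 4 → T.ψ v (c j) = 1 ∨ T.ψ v (c j) = u' := fun j hj =>
    h5 _ (hE j (by omega)) (by rw [hc j (by omega)]; exact hE _ (by omega))
  obtain ⟨s, hs', η, e1, e2, e3, e4, e5, e6, e7⟩ := T.quarter v c hE
  have hζ := (T.Eb v).mul_mem hs' hs'
  have h6 := T.half_lift hFv hu h4 (hv h3) n0 s0 h e1 e2
  have h7 := T.lf_half hFv hu h4 (hv h3) hζ e2 e3 h6
  have h8 : T.ψ v (c 0) = ⟨true, u.a + η⟩ := h6.resolve_left fun h6 => by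
    rcases k1 0 (by omega) with h7 | h7 <;> rw [h6] at h7
    · exact e1 (congrArg Dih.a h7)
    · rw [← h7] at hu'; simp at hu'
  have h9 : u' = ⟨true, u.a + η⟩ := by
    rcases k1 0 (by omega) with h7 | h7 <;> rw [h8] at h7
    · exact absurd (congrArg Dih.s h7) (by simp)
    · exact h7.symm
  have k2 : ∀ j, 1 ≤ j → j ≤ 4 → c j * s * (c j)⁻¹ = s := fun j j1 j4 => e6 j (by omega) (by
    rcases h4 _ (mid j j1 (by omega)) with h10 | h10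
    · rw [h10]; rfl
    · rcases k1 j j4 with h11 | h11
      · rw [h11]; rfl
      · rw [h10, h9] at h11
        exact absurd (left_eq_add.1 (congrArg Dih.a h11)) e1)
  have r0 := e7 0 (by omega) (by rw [h8])
  have hss : (s * s)⁻¹ = s * s := inv_eq_of_mul_eq_one_right e4
  have c0 : s * c 0 * s⁻¹ = c 0 * (s * s) := by
    have : s = (c 0)⁻¹ * s⁻¹ * c 0 := by rw [← r0]; group
    calc _ = c 0 * ((c 0)⁻¹ * s⁻¹ * c 0)⁻¹ * s⁻¹ := by group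
      _ = c 0 * (s * s)⁻¹ := by rw [← this]; group
      _ = _ := by rw [hss]
  have hch : Chain6 (g * s⁻¹) fun j => if j = 0 then c 0 * (s * s) else if j ≤ 5 then c j else
      g * s⁻¹ * c 5 * (g * s⁻¹)⁻¹ := by
    intro j hj
    by_cases j0 : j = 0
    · subst j0
      simp only [if_true, ← c0]
      rw [if_neg (by omega), if_pos (by omega), ← hc 0 (by omega)]; group
    simp only [j0, if_false, show j ≤ 5 by omega, if_true, show j + 1 ≠ 0 by omega]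
    split_ifs with j5
    · rw [← hc j hj]
      calc _ = g * (s⁻¹ * (c j * s * (c j)⁻¹)) * c j * g⁻¹ := by group
        _ = _ := by rw [k2 j (by omega) (by omega)]; group
    · obtain rfl : j = 5 := by omega
      rfl
  have last : (∀ f ∈ F, g * s⁻¹ * c 5 * (g * s⁻¹)⁻¹ * f * (g * s⁻¹ * c 5 * (g * s⁻¹)⁻¹)⁻¹ ∈ F) ∧
      g * s⁻¹ * c 5 * (g * s⁻¹)⁻¹ * (g * s⁻¹ * c 5 * (g * s⁻¹)⁻¹) ∈ F ∧
      (T.Lf (insert (c 6) F) → g * s⁻¹ * c 5 * (g * s⁻¹)⁻¹ = c 6) := by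
    have c6 := hc 5 (by omega)
    rcases h5s : (T.ψ v (c 5)).s
    · have : g * s⁻¹ * c 5 * (g * s⁻¹)⁻¹ = c 6 := by
        rw [← c6]
        calc _ = g * (s⁻¹ * (c 5 * s * (c 5)⁻¹)) * c 5 * g⁻¹ := by group
          _ = _ := by rw [e6 5 (by omega) h5s]; group
      rw [this]; exact ⟨n6, s6, fun _ => rfl⟩
    have c7 : g * s⁻¹ * c 5 * (g * s⁻¹)⁻¹ = g * (s * s * c 5) * g⁻¹ := by
      calc _ = g * (s⁻¹ * (c 5 * s * (c 5)⁻¹)) * c 5 * g⁻¹ := by group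
        _ = g * ((s * s)⁻¹ * c 5) * g⁻¹ := by rw [e7 5 (by omega) h5s]; group
        _ = _ := by rw [hss]
    have h10 : T.ψ v (c 5) = u := (h4 _ (mid 5 (by omega) le_rfl)).resolve_left fun h => by
      rw [h] at h5s; simp at h5s
    obtain ⟨H6, a1, a2, a3⟩ := exists_ext hF n6 s6
    obtain ⟨H7, b1, b2⟩ := exists_conj_sub a1 g
    have m05 := (T.Eb v).mul_mem (hE 0 (by omega)) (hE 5 (by omega))
    have p05 : T.ψ v (c 0 * c 5) = ⟨false, -η⟩ := by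
      rw [T.ψ_mul v _ (hE 0 (by omega)) _ (hE 5 (by omega)), h8, h10]; ext <;> simp [hu]
    have q05 : T.ψ v (c 0 * c 5) ≠ 1 := fun h => by
      rw [p05] at h; exact e1 (neg_eq_zero.1 (congrArg Dih.a h))
    have g05 : g * (c 0 * c 5) * g⁻¹ = c 1 * c 6 := by rw [← c6, ← hc 0 (by omega)]; group
    obtain ⟨b3, -⟩ := T.le_of_rot b1 ((b2 _).2 (by
      rw [g05]; exact H6.mul_mem (a2 (mid 1 le_rfl (by omega))) a3)) m05 (by rw [p05]) q05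
    rw [c7]
    refine ⟨fun f hf => ?_, ?_, fun hl6 => ?_⟩
    · have f1 : g⁻¹ * (c 6 * f * (c 6)⁻¹) * g ∈ T.Eb v :=
        b3 ((b2 _).2 (by simpa [mul_assoc] using a2 (n6 f hf)))
      have f2 := e5 _ f1
      have : g * (s * s * c 5) * g⁻¹ * f * (g * (s * s * c 5) * g⁻¹)⁻¹ = c 6 * f * (c 6)⁻¹ := by
        calc _ = g * (s * s * (g⁻¹ * (g * c 5 * g⁻¹ * f * (g * c 5 * g⁻¹)⁻¹) * g)) * (s * s)⁻¹ * g⁻¹ := by
              group
          _ = _ := by rw [c6, ← f2]; group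
      rw [this]; exact n6 f hf
    · have : g * (s * s * c 5) * g⁻¹ * (g * (s * s * c 5) * g⁻¹) = c 6 * c 6 := by
        calc _ = g * (s * s * (c 5 * (s * s)) * c 5) * g⁻¹ := by group
          _ = g * (s * s * (s * s) * c 5 * c 5) * g⁻¹ := by rw [e5 _ (hE 5 (by omega))]; group
          _ = _ := by rw [e4, ← c6]; group
      rw [this]; exact s6
    · exfalso
      obtain ⟨B, d1, d2⟩ := T.lf_conj hl6 g
      have d3 : c 0 * c 5 ∈ B.map T.π := (B.map T.π).mul_mem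
        (d2 (by rw [Set.mem_ofPred_eq, hc 0 (by omega)]; exact Or.inr (mid 1 le_rfl (by omega))))
        (d2 (by rw [Set.mem_ofPred_eq, c6]; exact Set.mem_insert _ _))
      exact (T.le_of_rot (H := B.map T.π) (by simpa using d1.image T.π) d3 m05 (by rw [p05]) q05).2
        ⟨B, d1, le_rfl⟩
  refine ⟨_, _, hch, fun j j1 j5 => by simp only [show j ≠ 0 by omega, j5, if_true, if_false],
    fun f hf => ?_, last.1, ?_, last.2.1, h7, last.2.2⟩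
  · simp only [if_true]
    have : c 0 * (s * s) * f * (c 0 * (s * s))⁻¹ = c 0 * f * (c 0)⁻¹ := by
      rw [mul_assoc (c 0), ← e5 f (hFv hf)]; group
    rw [this]; exact n0 f hf
  · simp only [if_true]
    have : c 0 * (s * s) * (c 0 * (s * s)) = c 0 * c 0 := by
      calc _ = c 0 * (s * s * c 0) * (s * s) := by group
        _ = c 0 * c 0 * (s * s * (s * s)) := by rw [← e5 _ (hE 0 (by omega))]; group
        _ = _ := by rw [e4, mul_one]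
    rw [this]; exact s0

include T in
theorem sc (g : Q) (c : ℕ → Q) (F : Subgroup Q) (hc : Chain6 g c) (hF : (F : Set Q).Finite)
    (mid : ∀ j, 1 ≤ j → j ≤ 5 → c j ∈ F) (n0 : ∀ f ∈ F, c 0 * f * (c 0)⁻¹ ∈ F)
    (n6 : ∀ f ∈ F, c 6 * f * (c 6)⁻¹ ∈ F) (s0 : c 0 * c 0 ∈ F) (s6 : c 6 * c 6 ∈ F) : Law c := by
  by_cases hl : T.Lf F
  swap
  · obtain ⟨v, hv⟩ := (T.lift F hF).resolve_left hl
    refine T.sa g c (T.Eb v) hc (T.Eb_fin v) fun j hj => ?_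
    by_cases j0 : j = 0
    · subst j0; exact T.norm_mem hl hv n0
    by_cases j6 : j = 6
    · subst j6; exact T.norm_mem hl hv n6
    exact hv (mid j (by omega) (by omega))
  rcases T.start hc hF hl mid n0 n6 s0 s6 with h | ⟨g1, c1, a1, a2, a3, a4, a5, a6, a7, -⟩
  · exact h
  have mid1 : ∀ j, 1 ≤ j → j ≤ 5 → c1 (6 - j) ∈ F := fun j h1 h5 => by
    rw [a2 _ (by omega) (by omega)]; exact mid _ (by omega) (by omega)
  have key : Law fun j => c1 (6 - j) := by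
    rcases T.start a1.rev hF hl mid1 a4 a3 a6 a5 with h | ⟨g2, c2, b1, b2, b3, b4, b5, b6, b7, b8⟩
    · exact h
    have := T.scL b1 (fun j h1 h5 => by rw [b2 j h1 h5]; exact mid1 j h1 h5) b3 b4 b5 b6 b7
      (by rw [b8 a7]; exact a7)
    simp only [Law] at this ⊢
    rwa [b2 1 (by omega) (by omega), b2 3 (by omega) (by omega), b2 5 (by omega) (by omega)] at this
  have := key.of_rev
  simp only [Law] at this ⊢
  rwa [a2 1 (by omega) (by omega), a2 3 (by omega) (by omega), a2 5 (by omega) (by omega)] at this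

include T in
theorem algQ : Alg Q n N := ⟨T.sa, T.sc, T.two, T.sepa, T.sepb, T.fin⟩

end Tr

end Pool.Agent.Lib.OCn
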