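import Pool.Agent.Lib.MP_de4dbb_al.Apex
import Pool.Agent.Lib.MP_de4dbb_al.Tran2

/-! The induction step. -/

namespace Pool.Agent.Lib.OCn

variable {G X : Type} [Group G] [MulAction G X]

theorem Pre.elem_map {S : GSp G X} {δ M n N : ℕ} (hP : Pre S δ M n N) {Q : Type} [Group Q]
    (π : G →* Q) {U : Set G} (h : Elem U) : Elem (π '' U) := by
  rcases h with ⟨H, h1, h2⟩ | ⟨g, h1, h2⟩
  · exact Or.inl ⟨H.map π, by simpa using h1.image π, Set.image_mono h2⟩
  by_cases hf : IsOfFinOrder (π g)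
  · obtain ⟨T, t1, t2⟩ := hP.cover h1
    refine Or.inl ⟨(Ec g).map π, ?_, Set.image_mono h2⟩
    refine ((finite_zpowers.2 hf).image2 (· * ·) (t1.image π)).subset ?_
    rintro _ ⟨e, he, rfl⟩
    obtain ⟨j, hj⟩ := t2 e he
    exact ⟨_, Subgroup.zpow_mem_zpowers (π g) j, _, ⟨_, hj, rfl⟩, by simp⟩
  · refine Or.inr ⟨π g, hf, ?_⟩
    rintro _ ⟨e, he, rfl⟩
    exact Ec_map π (h2 he)

theorem GSp.Acyl.mono {S : GSp G X} {D D' A : ℕ} (h : S.Acyl D A) (hD : D' ≤ D) : S.Acyl D' A :=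
  fun x y hxy => (h x y hxy).mono fun _ hg => ⟨hg.1.trans hD, hg.2.trans hD⟩

theorem GSp.exists_far (S : GSp G X) (h1 : ∀ x, {y | S.d x y ≤ 1}.Finite)
    (h2 : ∀ x : X, {g : G | g • x = x}.Finite) {g : G} (hg : ¬ IsOfFinOrder g) (x : X) (D : ℕ) :
    ∃ i : ℕ, D ≤ S.d x (g ^ i • x) := by
  by_contra h
  push Not at h
  refine hg (finite_powers.1 ((S.proper h1 h2 x D).subset ?_))
  rintro _ ⟨i, rfl⟩
  exact (h i).le

namespace Lev

variable {S : GSp G X} {n N : ℕ} (hL : Lev S n N) {Q Y : Type} [Group Q] [MulAction Q Y]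
  (q : Quo hL.rot Q Y)

theorem stab_iff {v : Apx S} {h : Q} :
    h • q.p (.inr v) = q.p (.inr v) ↔ h ∈ v.1.map q.π := by
  constructor
  · intro h1
    obtain ⟨g, rfl, h2⟩ := q.exists_lift h h1
    exact ⟨g, hL.fix_iff.1 h2, rfl⟩
  · rintro ⟨g, hg, rfl⟩
    rw [q.p_smul, hL.fix_iff.2 hg]

theorem two_of {v : Apx S} {b : Y} (hb : b ≠ q.p (.inr v)) : ∃ A : Subgroup G, (A : Set G).Finite ∧
    A ≤ v.1 ∧ ∀ h ∈ v.1.map q.π, h • b = b → h ∈ A.map q.π := by
  obtain ⟨A, a1, a2, a3⟩ := q.stab_two hL.ext (v := .inr v) trivial hb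
  exact ⟨A, a1, fun a ha => hL.fix_iff.1 (a2 a ha), fun h hh => a3 h ((hL.stab_iff q).2 hh)⟩

theorem π_K {v : Apx S} {k : G} (hk : k ∈ v.K N) : q.π k = 1 := q.π_rot (u := .inr v) trivial hk

/-- The algebraic data of the quotient. -/
noncomputable def tr : Tr G Q n N where
  π := q.π
  surj := q.π_surj
  alg := hL.pre.alg
  pow := by
    obtain ⟨k, hk⟩ := hL.pow
    have hk3 : 9 ≤ k := by
      by_contra h
      have := hL.big
      have : 2 ^ k ≤ 2 ^ 9 := Nat.pow_le_pow_right (by omega) (by omega)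
      omega
    exact ⟨k - 9, by rw [hk]; congr 1; omega⟩
  V := Apx S
  E v := v.1
  L v := (hL.lox v).some
  ker v e he := by
    rw [← hL.K_eq]
    exact ⟨fun h => hL.rot.mem_K_of_fix (v := .inr v) trivial ((q.π_ker e).1 h) (hL.fix_iff.2 he),
      hL.π_K q⟩
  inj H hH g hg g' hg' h := q.inj_fin hL.ext hH hg hg' h
  lift H hH := by
    rcases q.lift_or_apex hL.ext H hH with h | ⟨u, hu, h⟩
    · exact Or.inl h
    · obtain ⟨v, rfl⟩ := Cone.ap_eq hu
      exact Or.inr ⟨v, fun g hg => (hL.stab_iff q).1 (h g hg)⟩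
  two1 v g hg := by
    obtain ⟨A, a1, a2, a3⟩ := hL.two_of q (v := v) (b := g⁻¹ • q.p (.inr v)) fun h =>
      hg (by simpa using (v.1.map q.π).inv_mem ((hL.stab_iff q).1 h))
    refine ⟨A, a1, a2, fun h h1 h2 => a3 h h1 ?_⟩
    have := (hL.stab_iff q).2 h2
    rw [mul_smul, mul_smul] at this
    rw [eq_inv_smul_iff, this]
  two2 v w := by
    by_cases h : q.p (.inr w) = q.p (.inr v)
    · left
      intro g hg
      rw [← hL.stab_iff q, ← h, hL.stab_iff q]; exact hg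
    · obtain ⟨A, a1, a2, a3⟩ := hL.two_of q h
      exact Or.inr ⟨A, a1, a2, fun h h1 h2 => a3 h h1 ((hL.stab_iff q).2 h2)⟩
  two3 v B hB := by
    obtain ⟨a, ha, h⟩ := hL.ext.fix B hB
    obtain ⟨A, a1, a2, a3⟩ := hL.two_of q (v := v) (b := q.p a)
      (q.ne_of_pt (fun h => ha (q.Ap_p.1 h)) (q.Ap_p.2 trivial))
    refine ⟨A, a1, a2, fun h h1 h2 => a3 h h1 ?_⟩
    obtain ⟨t, ht, rfl⟩ := h2
    rw [q.p_smul, h t ht]
  conj A B hA hB g := by
    obtain ⟨g', h1, h2⟩ := q.conj_lift hL.ext A B hA hB g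
    refine ⟨g', h1, h2.imp id ?_⟩
    rintro ⟨_, ⟨u, hu, rfl⟩, h⟩
    obtain ⟨v, rfl⟩ := Cone.ap_eq hu
    exact ⟨v, fun t ht h3 => (hL.stab_iff q).1 (h t ht h3)⟩

theorem fin_of_short {g : G} (h : S.tau g ≤ 1) : IsOfFinOrder (q.π g) := by
  by_cases hg : IsOfFinOrder g
  · exact q.π.isOfFinOrder hg
  refine isOfFinOrder_iff_pow_eq_one.2 ⟨N, hL.pre.npos, ?_⟩
  rw [← map_pow]
  exact hL.π_K q (v := ⟨Ec g, g, hg, h, rfl⟩) (Subgroup.subset_closure ⟨g, self_mem_Ec g, rfl⟩)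

theorem Φ_pt (x y : X) : hL.rot.Φ (.inl x) (.inl y) = S.d x y := hL.cone.Φ_pt x y

theorem d_pt (x y : X) (j : ℕ) (h : S.d x y ≤ j * 300000000000000) :
    hL.rot.d (.inl x) (.inl y) ≤ j := hL.cone.d_pt x y j (by rwa [hL.cone_r])

theorem hypQ : q.sp.Hyp 200 := (q.hyp (δ := 44) hL.cone.sp_hyp).mono (by norm_num)

theorem injQ (g : Q) (hg : ¬ IsOfFinOrder g) :
    1 ≤ ((2000000000000000000000000000 : ℕ) : ℝ) * q.sp.tau g := by
  have := q.nonempty hL.ext
  by_contra hlt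
  push Not at hlt
  obtain ⟨x, hx⟩ := q.sp.exists_common (hL.hypQ q) g 2000000000000000000000000000
  obtain ⟨i, hi⟩ := q.sp.exists_far (q.lf hL.ext) (q.stab hL.ext) hg x 200000000000000
  have hU : ∀ j, j ≤ 2000000000000000000000000000 → g ^ j ∈ q.sp.U 6000000 x (g ^ i • x) := by
    intro j hj
    have h1 : (q.sp.d x (g ^ j • x) : ℝ) ≤ 6000000 := by
      have := hx j hj; push_cast at this hlt; linarith
    have h2 : q.sp.d x (g ^ j • x) ≤ 6000000 := by exact_mod_cast h1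
    refine ⟨h2, ?_⟩
    rwa [← mul_smul, ← pow_add, add_comm, pow_add, mul_smul, q.sp.iso]
  rcases q.dich 6000000 199999795999996 (by norm_num) x (g ^ i • x) (by omega) with
    ⟨a, b, ha, -, -, h⟩ | ⟨w, -, h, -⟩
  · obtain ⟨g1, e1, e2, -⟩ := h _ (hU 1 (by norm_num))
    rw [pow_one] at e1
    have hθ := hL.rot.θ_pos
    have key : ∀ j, j ≤ 2000000000000000000000000000 →
        (∀ u, hL.rot.Ap u → hL.rot.ang u a (g1 ^ j • a) ≤ 378 * hL.rot.θ) ∧
        hL.rot.Φ a (g1 ^ j • a) ≤ (35 * 6000000 + 4) * (380 * hL.rot.θ) := by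
      intro j
      induction j with
      | zero =>
        intro _
        rw [pow_zero, one_smul, hL.rot.Φ_self]
        refine ⟨fun u hu => ?_, Nat.zero_le _⟩
        have := hL.rot.ang_self hu (hL.rot.ne_of_pt ha hu)
        omega
      | succ j ih =>
        intro hj
        obtain ⟨g2, f1, f2, f3, -⟩ := h _ (hU _ hj)
        rw [← q.lift_eq ha (g := g2) (g' := g1 ^ (j + 1)) (by rw [f1, map_pow, e1]) f2
          (t' := 756 * hL.rot.θ) (fun u hu => ?_) (by omega)]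
        · exact ⟨f2, f3⟩
        · have h1 := (ih (by omega)).1 u hu
          have h7 := e2 _ (hL.rot.Ap_smul (g1 ^ j)⁻¹ u hu)
          rw [hL.rot.ang_inv] at h7
          have := hL.rot.ang_tri u a (g1 ^ j • a) (g1 ^ j • g1 • a) hu (hL.rot.ne_of_pt ha hu)
            (hL.rot.ne_of_pt (hL.rot.pt_smul _ ha) hu)
            (hL.rot.ne_of_pt (hL.rot.pt_smul _ (hL.rot.pt_smul _ ha)) hu)
          rw [pow_succ, mul_smul]; omega
    obtain ⟨a, rfl⟩ := Cone.pt_eq ha
    have h2 := (key _ le_rfl).2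
    rw [Sum.smul_inl, hL.Φ_pt, hL.rot_θ] at h2
    have h3 := S.tau_le g1 a 2000000000000000000000000000
    generalize S.d a (g1 ^ 2000000000000000000000000000 • a) = d at h2 h3
    have h4 : (d : ℝ) ≤ 2000000000000000000000000000 := by
      have : d ≤ 2000000000000000000000000000 := by omega
      exact_mod_cast this
    exact hg (e1 ▸ hL.fin_of_short q (by push_cast at h3; linarith))
  · rcases h g (by simpa using hU 1 (by norm_num)) with h1 | h1
    · exact hg (finOrder_of_mem (H := MulAction.stabilizer Q w) (q.stab hL.ext w) h1)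
    · have := q.sp.le_tau g w 1 0 fun k => ⟨k, le_rfl, by simpa using h1 k⟩
      push_cast at hlt; linarith

theorem preQ : Pre q.sp 200 2000000000000000000000000000 n N where
  ne := q.nonempty hL.ext
  hyp := hL.hypQ q
  lf := q.lf hL.ext
  stab := q.stab hL.ext
  inj := hL.injQ q
  fix H hH := by
    rcases q.lift_or_apex hL.ext H hH with ⟨A, a1, a2⟩ | ⟨u, -, h⟩
    · obtain ⟨a, -, h⟩ := hL.ext.fix A a1
      refine ⟨q.p a, fun g hg => ?_⟩
      obtain ⟨t, ht, rfl⟩ := a2 hg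
      rw [q.p_smul, h t ht]
    · exact ⟨_, h⟩
  alg := (hL.tr q).algQ
  even := hL.pre.even
  npos := hL.pre.npos

theorem acylQ : q.sp.Acyl 6000000 200000000000000 := by
  intro x y hxy
  rcases q.dich 6000000 199999795999996 (by norm_num) x y (by omega) with
    ⟨a, b, ha, hb, hab, h⟩ | ⟨w, -, h, h'⟩
  · obtain ⟨a, rfl⟩ := Cone.pt_eq ha
    obtain ⟨b, rfl⟩ := Cone.pt_eq hb
    have h1 := hL.pre.overlap hL.pre.hyp (hL.acyl.mono (by norm_num))
      1197000022800000000000000000 a b (by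
        by_contra hlt
        have := hL.d_pt a b 199999795999995 (by omega)
        omega)
    refine (hL.pre.elem_map q.π h1).mono fun g hg => ?_
    obtain ⟨g', e1, -, e2, e3⟩ := h g hg
    rw [Sum.smul_inl, hL.Φ_pt, hL.rot_θ] at e2 e3
    exact ⟨g', ⟨by omega, by omega⟩, e1⟩
  · have hE : Elem (MulAction.stabilizer Q w : Set Q) := Or.inl ⟨_, q.stab hL.ext w, le_rfl⟩
    by_cases hex : ∃ g ∈ q.sp.U 6000000 x y, g • w ≠ w
    · obtain ⟨g, hg, hne⟩ := hex
      have h1 := (h g hg).resolve_left hne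
      have h2 : ¬ IsOfFinOrder g := fun hf => by
        obtain ⟨m, hm, e⟩ := isOfFinOrder_iff_pow_eq_one.1 hf
        have := h1 m
        rw [e, one_smul, q.sp.d_self] at this; omega
      exact Or.inr ⟨g, h2, fun t ht => (hL.preQ q).mem_Ec_of_comm h2 hE fun j hj => h' g hg t ht j hj⟩
    · push Not at hex
      exact hE.mono hex

theorem levQ : Lev q.sp n N := ⟨hL.preQ q, hL.acylQ q, hL.pow, hL.big⟩

theorem order_eq {g : G} (hg : IsOfFinOrder g) : orderOf (q.π g) = orderOf g := by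
  refine Nat.dvd_antisymm (orderOf_map_dvd _ _) (orderOf_dvd_of_pow_eq_one ?_)
  refine q.inj_fin hL.ext (finite_zpowers.2 hg) (Subgroup.npow_mem_zpowers g _)
    (Subgroup.one_mem _) ?_
  rw [map_pow, pow_orderOf_eq_one, map_one]

theorem shrink (g : G) (x : X) : IsOfFinOrder (q.π g) ∨
    q.sp.d (q.p (.inl x)) (q.π g • q.p (.inl x)) < S.d x (g • x) := by
  by_cases h : S.d x (g • x) ≤ 1
  · exact Or.inl (hL.fin_of_short q ((S.tau_le_one g x).trans (by exact_mod_cast h)))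
  · right
    rw [q.p_smul]
    have h1 := q.d_le (.inl x) (g • .inl x)
    have h2 := hL.d_pt x (g • x) (S.d x (g • x) - 1) (by omega)
    rw [Sum.smul_inl] at h1 ⊢
    omega

end Lev

end Pool.Agent.Lib.OCn
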