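import Pool.Agent.Lib.MP_de4dbb_al.Lox

/-! Transfer of the algebraic invariants to the quotient. -/

namespace Pool.Agent.Lib.OCn

theorem zmod_two {N : ℕ} {a b : ZMod N} (hN : 0 < N) (ha : a + a = 0) (hb : b + b = 0)
    (hb0 : b ≠ 0) : a = 0 ∨ a = b := by
  have : NeZero N := ⟨hN.ne'⟩
  have h1 := (ZMod.neg_eq_self_iff a).1 (neg_eq_of_add_eq_zero_left ha)
  have h2 := (ZMod.neg_eq_self_iff b).1 (neg_eq_of_add_eq_zero_left hb)
  rcases h1 with h1 | h1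
  · exact Or.inl h1
  · exact Or.inr (ZMod.val_injective N (by have := h2.resolve_left hb0; omega))

theorem exists_ext {Q : Type} [Group Q] {F : Subgroup Q} (hF : (F : Set Q).Finite) {a : Q}
    (hn : ∀ f ∈ F, a * f * a⁻¹ ∈ F) (hs : a * a ∈ F) :
    ∃ H : Subgroup Q, (H : Set Q).Finite ∧ F ≤ H ∧ a ∈ H := by
  have hn' : ∀ f ∈ F, a⁻¹ * f * a ∈ F := fun f hf => by
    have := F.mul_mem (F.mul_mem (F.inv_mem hs) (hn f hf)) hs
    rwa [show (a * a)⁻¹ * (a * f * a⁻¹) * (a * a) = a⁻¹ * f * a by group] at this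
  let H : Subgroup Q :=
    { carrier := {h | h ∈ F ∨ a⁻¹ * h ∈ F}
      one_mem' := Or.inl F.one_mem
      mul_mem' := by
        rintro x y (hx | hx) (hy | hy)
        · exact Or.inl (F.mul_mem hx hy)
        · right
          have := F.mul_mem (hn' x hx) hy
          rwa [show a⁻¹ * x * a * (a⁻¹ * y) = a⁻¹ * (x * y) by group] at this
        · right
          have := F.mul_mem hx hy
          rwa [mul_assoc] at this
        · left
          have := F.mul_mem (F.mul_mem hs (hn' _ hx)) hy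
          rwa [show a * a * (a⁻¹ * (a⁻¹ * x) * a) * (a⁻¹ * y) = x * y by group] at this
      inv_mem' := by
        rintro x (hx | hx)
        · exact Or.inl (F.inv_mem hx)
        · right
          have := F.mul_mem (F.inv_mem hs) (hn _ (F.inv_mem hx))
          rwa [show (a * a)⁻¹ * (a * (a⁻¹ * x)⁻¹ * a⁻¹) = a⁻¹ * x⁻¹ by group] at this }
  refine ⟨H, (hF.union (hF.image fun f => a * f)).subset ?_, fun f hf => Or.inl hf,
    Or.inr (by simp)⟩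
  rintro x (hx | hx)
  · exact Or.inl hx
  · exact Or.inr ⟨_, hx, by simp⟩

theorem exists_conj_sub {Q : Type} [Group Q] {H : Subgroup Q} (hH : (H : Set Q).Finite) (g : Q) :
    ∃ H' : Subgroup Q, (H' : Set Q).Finite ∧ ∀ h, h ∈ H' ↔ g * h * g⁻¹ ∈ H := by
  refine ⟨H.comap (MulAut.conj g).toMonoidHom, ?_, fun h => Iff.rfl⟩
  exact Set.Finite.preimage (f := MulAut.conj g) (MulAut.conj g).injective.injOn hH

theorem Chain6.rev {Q : Type} [Group Q] {g : Q} {c : ℕ → Q} (h : Chain6 g c) :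
    Chain6 g⁻¹ fun j => c (6 - j) := by
  intro j hj
  have := h (6 - (j + 1)) (by omega)
  rw [show 6 - (j + 1) + 1 = 6 - j by omega] at this
  simp only
  rw [← this]; group

theorem Law.of_rev {Q : Type} [Group Q] {c : ℕ → Q} (h : Law fun j => c (6 - j)) : Law c := by
  simp only [Law] at h ⊢
  norm_num at h
  rw [h]; group

/-- The algebraic data of a quotient step. -/
structure Tr (G Q : Type) [Group G] [Group Q] (n N : ℕ) where
  π : G →* Q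
  surj : Function.Surjective π
  alg : Alg G n N
  pow : ∃ k, N = 2 ^ (k + 9)
  V : Type
  E : V → Subgroup G
  L : ∀ v, Lox (E v)
  ker : ∀ v, ∀ e ∈ E v, π e = 1 ↔ e ∈ Subgroup.zpowers ((L v).x ^ N)
  inj : ∀ H : Subgroup G, (H : Set G).Finite → ∀ g ∈ H, ∀ g' ∈ H, π g = π g' → g = g'
  lift : ∀ H : Subgroup Q, (H : Set Q).Finite →
    (∃ A : Subgroup G, (A : Set G).Finite ∧ H ≤ A.map π) ∨ ∃ v, H ≤ (E v).map π
  two1 : ∀ v, ∀ g ∉ (E v).map π, ∃ A : Subgroup G, (A : Set G).Finite ∧ A ≤ E v ∧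
    ∀ h ∈ (E v).map π, g * h * g⁻¹ ∈ (E v).map π → h ∈ A.map π
  two2 : ∀ v w, (E w).map π ≤ (E v).map π ∨ ∃ A : Subgroup G, (A : Set G).Finite ∧ A ≤ E v ∧
    ∀ h ∈ (E v).map π, h ∈ (E w).map π → h ∈ A.map π
  two3 : ∀ v, ∀ B : Subgroup G, (B : Set G).Finite → ∃ A : Subgroup G, (A : Set G).Finite ∧
    A ≤ E v ∧ ∀ h ∈ (E v).map π, h ∈ B.map π → h ∈ A.map π
  conj : ∀ A B : Subgroup G, (A : Set G).Finite → (B : Set G).Finite → ∀ g : Q, ∃ g' : G,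
    (∀ t ∈ A, ∀ t' ∈ B, π t' = g * π t * g⁻¹ → g' * t * g'⁻¹ = t') ∧
    (π g' = g ∨ ∃ v, ∀ t ∈ A, (∃ t' ∈ B, π t' = g * π t * g⁻¹) → π t ∈ (E v).map π)

namespace Tr

variable {G Q : Type} [Group G] [Group Q] {n N : ℕ} (T : Tr G Q n N)

/-- Image of an elementary subgroup. -/
def Eb (v : T.V) : Subgroup Q := (T.E v).map T.π

/-- A set that lifts to a finite subgroup. -/
def Lf (H : Set Q) : Prop := ∃ A : Subgroup G, (A : Set G).Finite ∧ H ⊆ A.map T.π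

theorem Lf.mono {T : Tr G Q n N} {H H' : Set Q} (h : T.Lf H') (hle : H ⊆ H') : T.Lf H :=
  let ⟨A, h1, h2⟩ := h; ⟨A, h1, hle.trans h2⟩

include T in
theorem even : 2 ∣ N := by
  obtain ⟨k, hk⟩ := T.pow
  rw [hk]; exact dvd_pow_self 2 (by omega)

include T in
theorem npos : 0 < N := by
  obtain ⟨k, hk⟩ := T.pow
  rw [hk]; positivity

theorem sep (v : T.V) : (T.L v).Sep N := (T.L v).sep T.alg

theorem desc (v : T.V) {φ : G → Dih (ZMod N)} (hφ : MulOn (T.E v) φ) :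
    ∃ φ' : Q → Dih (ZMod N), MulOn (T.Eb v) φ' ∧ ∀ e ∈ T.E v, φ' (T.π e) = φ e :=
  hφ.descend T.π fun e he h => by
    obtain ⟨j, rfl⟩ := (T.ker v e he).1 h
    simp only
    rw [hφ.zpow ((T.E v).pow_mem (T.L v).x_mem N), hφ.pow (T.L v).x_mem, Dih.pow_N T.even, one_zpow]

theorem red_mulOn (v : T.V) : MulOn (T.E v) fun e => Dih.red N ((T.L v).ψ e) :=
  fun a ha b hb => by simp only; rw [(T.L v).mul a ha b hb, Dih.red_mul]

/-- The dihedral image of a finite elementary subgroup. -/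
noncomputable def ψ (v : T.V) : Q → Dih (ZMod N) := (T.desc v (T.red_mulOn v)).choose

theorem ψ_mul (v : T.V) : MulOn (T.Eb v) (T.ψ v) := (T.desc v (T.red_mulOn v)).choose_spec.1

theorem ψ_π {v : T.V} {e : G} (he : e ∈ T.E v) : T.ψ v (T.π e) = Dih.red N ((T.L v).ψ e) :=
  (T.desc v (T.red_mulOn v)).choose_spec.2 e he

theorem π_x (v : T.V) (j : ℤ) : T.π ((T.L v).x ^ (N * j)) = 1 :=
  (T.ker v _ ((T.E v).zpow_mem (T.L v).x_mem _)).2 ⟨j, by simp [zpow_mul]⟩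

theorem pow_N {v : T.V} {h : Q} (hh : h ∈ T.Eb v) : h ^ N = 1 := by
  obtain ⟨e, he, rfl⟩ := hh
  rw [← map_pow, T.ker v _ ((T.E v).pow_mem he N)]
  exact (T.sep v).pow_mem T.even he

theorem exists_lift {v : T.V} {h : Q} (hh : h ∈ T.Eb v) (u : Dih ℤ) (hu : T.ψ v h = Dih.red N u) :
    ∃ e ∈ T.E v, T.π e = h ∧ (T.L v).ψ e = u := by
  obtain ⟨e, he, rfl⟩ := hh
  rw [T.ψ_π he] at hu
  have h1 : ((T.L v).ψ e).s = u.s := congrArg (Dih.s (A := ZMod N)) hu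
  have h2 : ((((T.L v).ψ e).a : ℤ) : ZMod N) = u.a := congrArg Dih.a hu
  obtain ⟨j, hj⟩ := (ZMod.intCast_eq_intCast_iff_dvd_sub _ _ _).1 h2
  have hx := (T.E v).zpow_mem (T.L v).x_mem (N * j)
  refine ⟨e * (T.L v).x ^ ((N : ℤ) * j), (T.E v).mul_mem he hx, by simp [T.π_x], ?_⟩
  rw [(T.L v).mul _ he _ hx, (T.L v).ψ_zpow]
  ext
  · simpa using h1
  · simp; linarith

theorem red_one : Dih.red N 1 = 1 := by ext <;> simp

theorem lf_of {v : T.V} {H : Set Q} (hH : H ⊆ T.Eb v) {u : Dih (ZMod N)} (hu : u.s = true)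
    (h : ∀ t ∈ H, T.ψ v t = 1 ∨ T.ψ v t = u) : T.Lf H := by
  have : NeZero N := ⟨T.npos.ne'⟩
  refine ⟨(T.L v).A ⟨true, (u.a.val : ℤ)⟩ (Dih.sq_refl _ rfl), (T.L v).A_fin _ _, fun t ht => ?_⟩
  rcases h t ht with h1 | h1
  · obtain ⟨e, he, h2, h3⟩ := T.exists_lift (hH ht) 1 (by rw [h1, red_one])
    exact ⟨e, ⟨he, Or.inl h3⟩, h2⟩
  · obtain ⟨e, he, h2, h3⟩ := T.exists_lift (hH ht) ⟨true, (u.a.val : ℤ)⟩ (by
      rw [h1]; ext <;> simp [hu])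
    exact ⟨e, ⟨he, Or.inr h3⟩, h2⟩

theorem of_fin {v : T.V} {A : Subgroup G} (hA : (A : Set G).Finite) (hle : A ≤ T.E v) :
    ∃ u : Dih (ZMod N), u.s = true ∧ ∀ t ∈ A.map T.π, T.ψ v t = 1 ∨ T.ψ v t = u := by
  obtain ⟨u, hu, h1, h2⟩ := (T.L v).le_A hA hle
  refine ⟨⟨true, u.a⟩, rfl, ?_⟩
  rintro _ ⟨t, ht, rfl⟩
  rw [T.ψ_π (hle ht)]
  rcases (h2 ht).2 with h3 | h3
  · left; rw [h3, red_one]
  · rcases h1 with h1 | h1
    · left; rw [h3, h1, red_one]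
    · right; rw [h3]; ext <;> simp [h1]

theorem of_lf {v : T.V} {H : Set Q} (hH : H ⊆ T.Eb v) (h : T.Lf H) :
    ∃ u : Dih (ZMod N), u.s = true ∧ ∀ t ∈ H, T.ψ v t = 1 ∨ T.ψ v t = u := by
  obtain ⟨B, h1, h2⟩ := h
  obtain ⟨A, a1, a2, a3⟩ := T.two3 v B h1
  obtain ⟨u, hu, h3⟩ := T.of_fin a1 a2
  exact ⟨u, hu, fun t ht => h3 t (a3 t (hH ht) (h2 ht))⟩

theorem of_two {v : T.V} {g : Q} (hg : g ∉ T.Eb v) :
    ∃ u : Dih (ZMod N), u.s = true ∧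
      ∀ t ∈ T.Eb v, g * t * g⁻¹ ∈ T.Eb v → T.ψ v t = 1 ∨ T.ψ v t = u := by
  obtain ⟨A, a1, a2, a3⟩ := T.two1 v g hg
  obtain ⟨u, hu, h3⟩ := T.of_fin a1 a2
  exact ⟨u, hu, fun t ht h => h3 t (a3 t ht h)⟩

theorem Eb_fin (v : T.V) : (T.Eb v : Set Q).Finite := by
  have : NeZero N := ⟨T.npos.ne'⟩
  have : Finite (Dih (ZMod N)) :=
    Finite.of_injective (fun u : Dih (ZMod N) => (u.s, u.a)) fun a b h => by
      simp only [Prod.mk.injEq] at h; exact Dih.ext h.1 h.2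
  refine Set.Finite.of_finite_fibers (T.ψ v) (Set.toFinite _) ?_
  rintro _ ⟨h0, hh0, rfl⟩
  refine (((T.L v).F_fin.image T.π).image fun f => h0 * f).subset ?_
  rintro h ⟨hh, h1⟩
  have h2 := (T.Eb v).mul_mem ((T.Eb v).inv_mem hh0) hh
  obtain ⟨e, he, h3, h4⟩ := T.exists_lift h2 1 (by
    have h1' : T.ψ v h = T.ψ v h0 := h1
    rw [T.ψ_mul v _ ((T.Eb v).inv_mem hh0) _ hh, (T.ψ_mul v).inv hh0, h1', inv_mul_cancel, red_one])
  exact ⟨_, ⟨e, ⟨he, h4⟩, rfl⟩, by simp [h3]⟩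

theorem inD {v : T.V} {h : Q} (hh : h ∈ T.Eb v) (h1 : h ≠ 1) :
    ∃ φ : Q → Dih (ZMod N), MulOn (T.Eb v) φ ∧ φ h ≠ 1 := by
  by_cases h2 : T.ψ v h = 1
  · obtain ⟨e, he, rfl, h4⟩ := T.exists_lift hh 1 (by rw [h2, red_one])
    obtain ⟨φ, a1, a2⟩ := T.sep v e ⟨he, h4⟩ (fun h => h1 (by simp [h]))
    obtain ⟨φ', b1, b2⟩ := T.desc v a1
    exact ⟨φ', b1, by rwa [b2 e he]⟩
  · exact ⟨_, T.ψ_mul v, h2⟩

theorem law {v : T.V} {g : Q} {c : ℕ → Q} (hc : Chain6 g c) (hg : g ∈ T.Eb v) (h1 : c 1 ∈ T.Eb v) :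
    Law c := by
  rw [hc.law_iff]
  obtain ⟨g, hg, rfl⟩ := hg
  obtain ⟨e, he, h2⟩ := h1
  have hc' : Chain6 g fun j => g ^ j * (g⁻¹ * e * g) * (g ^ j)⁻¹ := fun j _ => by group
  have e1 : g ^ 1 * (g⁻¹ * e * g) * (g ^ 1)⁻¹ = e := by group
  have := (T.sep v).law hc' hg (by simp only [e1]; exact he)
  rw [hc'.law_iff] at this
  simp only [e1] at this
  have := congrArg T.π this
  simpa only [map_mul, map_inv, map_pow, h2] using this

theorem quarter (v : T.V) (c : ℕ → Q) (hc : ∀ j, j < 6 → c j ∈ T.Eb v) :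
    ∃ s ∈ T.Eb v, ∃ η : ZMod N, η ≠ 0 ∧ η + η = 0 ∧ T.ψ v (s * s) = ⟨false, η⟩ ∧
      s * s * (s * s) = 1 ∧ (∀ h ∈ T.Eb v, h * (s * s) = s * s * h) ∧
      (∀ j, j < 6 → (T.ψ v (c j)).s = false → c j * s * (c j)⁻¹ = s) ∧
      ∀ j, j < 6 → (T.ψ v (c j)).s = true → c j * s * (c j)⁻¹ = s⁻¹ := by
  have hc' : ∀ j : Fin 6, ∃ e ∈ T.E v, T.π e = c j := fun j => hc j j.2
  choose e he he' using hc'
  obtain ⟨k, hk⟩ := T.pow
  obtain ⟨s, hs, h1, h2, h3, h4, h5, h6⟩ := (T.sep v).sel (List.ofFn e) (by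
    intro x hx; obtain ⟨j, rfl⟩ := (List.mem_ofFn' _ _).1 hx; exact he j) (2 ^ k) (by
    rw [hk, List.length_ofFn, ← pow_add]; congr 1; omega)
  have hss := (T.E v).mul_mem hs hs
  have hm : ∀ j, e j ∈ List.ofFn e := fun j => (List.mem_ofFn' _ _).2 ⟨j, rfl⟩
  refine ⟨T.π s, ⟨s, hs, rfl⟩, ((2 * ((T.L v).ψ s).a : ℤ) : ZMod N), ?_, ?_, ?_, ?_, ?_,
    fun j hj h => ?_, fun j hj h => ?_⟩
  · rw [Ne, ZMod.intCast_zmod_eq_zero_iff_dvd]
    intro h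
    have := T.npos
    have := Int.le_of_dvd (by omega) h
    omega
  · rw [← Int.cast_add, show 2 * ((T.L v).ψ s).a + 2 * ((T.L v).ψ s).a = N by omega]; simp
  · rw [← map_mul, T.ψ_π hss, (T.L v).mul _ hs _ hs]
    ext
    · simp
    · simp [h1]; ring
  · rw [← map_mul, ← map_mul]
    exact (T.ker v _ ((T.E v).mul_mem hss hss)).2 h6
  · rintro _ ⟨x, hx, rfl⟩
    have := (T.ker v _ ((T.E v).mul_mem ((T.E v).mul_mem ((T.E v).mul_mem hx hss)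
      ((T.E v).inv_mem hx)) ((T.E v).inv_mem hss))).2 (h5 x hx)
    simp only [map_mul, map_inv] at this
    rwa [mul_inv_eq_one, mul_inv_eq_iff_eq_mul] at this
  · rw [← he' ⟨j, hj⟩, T.ψ_π (he _)] at h
    have := congrArg T.π (h3 _ (hm ⟨j, hj⟩) h)
    simpa only [map_mul, map_inv, he'] using this
  · rw [← he' ⟨j, hj⟩, T.ψ_π (he _)] at h
    have := congrArg T.π (h4 _ (hm ⟨j, hj⟩) h)
    simpa only [map_mul, map_inv, he'] using this

theorem lf_conj {H : Set Q} (h : T.Lf H) (g : Q) : T.Lf {t | g * t * g⁻¹ ∈ H} := by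
  obtain ⟨A, h1, h2⟩ := h
  obtain ⟨g, rfl⟩ := T.surj g
  obtain ⟨B, b1, b2⟩ := exists_conj_sub h1 g
  refine ⟨B, b1, fun t ht => ?_⟩
  obtain ⟨a, ha, e⟩ := h2 ht
  refine ⟨g⁻¹ * a * g, (b2 _).2 (by simpa [mul_assoc] using ha), ?_⟩
  simp only [map_mul, map_inv, e]; group

/-- A finite subgroup containing a nontrivial rotation lies in the elementary subgroup. -/
theorem le_of_rot {v : T.V} {H : Subgroup Q} (hH : (H : Set Q).Finite) {h : Q} (h1 : h ∈ H)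
    (h2 : h ∈ T.Eb v) (h3 : (T.ψ v h).s = false) (h4 : T.ψ v h ≠ 1) :
    H ≤ T.Eb v ∧ ¬ T.Lf H := by
  have key : ¬ T.Lf {h} := fun hl => by
    obtain ⟨u, hu, h5⟩ := T.of_lf (v := v) (by simpa using h2) hl
    rcases h5 h rfl with h6 | h6
    · exact h4 h6
    · rw [h6, hu] at h3; simp at h3
  have key' : ¬ T.Lf H := fun hl => key (hl.mono (by simpa using h1))
  refine ⟨?_, key'⟩
  rcases T.lift H hH with hl | ⟨w, hw⟩
  · exact absurd hl key'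
  rcases T.two2 v w with h5 | ⟨A, a1, -, a3⟩
  · exact hw.trans h5
  · exact absurd ⟨A, a1, by simpa using a3 h h2 (hw h1)⟩ key

theorem half_lift {v : T.V} {F : Subgroup Q} (hF : F ≤ T.Eb v) {u : Dih (ZMod N)} (hu : u.s = true)
    (hFu : ∀ t ∈ F, T.ψ v t = 1 ∨ T.ψ v t = u) {a : Q} (ha : a ∈ T.Eb v)
    (hn : ∀ f ∈ F, a * f * a⁻¹ ∈ F) (hs : a * a ∈ F) (hnl : ¬ T.Lf (insert a F))
    {η : ZMod N} (h0 : η ≠ 0) (h2 : η + η = 0) :
    T.ψ v a = ⟨false, η⟩ ∨ T.ψ v a = ⟨true, u.a + η⟩ := by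
  have hsub : insert a (F : Set Q) ⊆ T.Eb v := Set.insert_subset ha hF
  have n1 : ∀ u' : Dih (ZMod N), u'.s = true → (∀ t ∈ F, T.ψ v t = 1 ∨ T.ψ v t = u') →
      T.ψ v a ≠ 1 ∧ T.ψ v a ≠ u' := by
    intro u' h1 h3
    constructor <;> intro h4 <;> refine hnl (T.lf_of hsub h1 ?_) <;> rintro t (rfl | ht)
    exacts [Or.inl h4, h3 t ht, Or.inr h4, h3 t ht]
  obtain ⟨n2, n3⟩ := n1 u hu hFu
  by_cases hex : ∃ t ∈ F, T.ψ v t = u
  · obtain ⟨t, ht, h3⟩ := hex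
    have h4 := hFu _ (hn t ht)
    rw [(T.ψ_mul v).conj ha (hF ht), h3] at h4
    have h5 : T.ψ v a * u * (T.ψ v a)⁻¹ = u := h4.resolve_left fun h => by
      have := congrArg Dih.s h
      simp [hu] at this
    have h6 := congrArg Dih.a h5
    rcases hs : (T.ψ v a).s
    · simp [hs, hu] at h6
      rcases zmod_two (a := (T.ψ v a).a) T.npos (by linear_combination -h6) h2 h0 with h7 | h7
      · exact absurd (Dih.ext hs h7) n2
      · exact Or.inl (Dih.ext hs h7)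
    · simp [hs, hu] at h6
      rcases zmod_two (a := (T.ψ v a).a - u.a) T.npos (by linear_combination h6) h2 h0 with h7 | h7
      · exact absurd (Dih.ext (hs.trans hu.symm) (sub_eq_zero.1 h7)) n3
      · exact Or.inr (Dih.ext hs (by simp only; linear_combination h7))
  · have h3 : ∀ t ∈ F, T.ψ v t = 1 := fun t ht => (hFu t ht).resolve_right fun h => hex ⟨t, ht, h⟩
    rcases hs' : (T.ψ v a).s
    · have h4 := h3 _ hs
      rw [T.ψ_mul v _ ha _ ha] at h4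
      have h6 := congrArg Dih.a h4
      simp [hs'] at h6
      rcases zmod_two (a := (T.ψ v a).a) T.npos h6 h2 h0 with h7 | h7
      · exact absurd (Dih.ext hs' h7) n2
      · exact Or.inl (Dih.ext hs' h7)
    · exact absurd rfl (n1 _ hs' fun t ht => Or.inl (h3 t ht)).2

theorem lf_half {v : T.V} {F : Subgroup Q} (hF : F ≤ T.Eb v) {u : Dih (ZMod N)} (hu : u.s = true)
    (hFu : ∀ t ∈ F, T.ψ v t = 1 ∨ T.ψ v t = u) {a ζ : Q} (ha : a ∈ T.Eb v) (hζ : ζ ∈ T.Eb v)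
    {η : ZMod N} (h2 : η + η = 0) (h3 : T.ψ v ζ = ⟨false, η⟩)
    (h : T.ψ v a = ⟨false, η⟩ ∨ T.ψ v a = ⟨true, u.a + η⟩) : T.Lf (insert (a * ζ) F) := by
  refine T.lf_of (Set.insert_subset ((T.Eb v).mul_mem ha hζ) hF) hu ?_
  rintro t (rfl | ht)
  · rw [T.ψ_mul v _ ha _ hζ, h3]
    rcases h with h | h <;> rw [h]
    · left; ext <;> simp [h2]
    · right; ext <;> simp [hu, add_assoc, h2]
  · exact hFu t ht

end Tr

end Pool.Agent.Lib.OCn
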