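import Pool.Agent.Lib.MP_de4dbb_al.Apex

/-! Rooted trees and actions on trees with cyclic vertex stabilizers. -/

namespace Pool.Agent.Lib.OCn

open Classical in
/-- The set of ancestors. -/
noncomputable def ancs {X : Type} (par : X → X) : ℕ → X → Finset X
  | 0, x => {x}
  | k + 1, x => insert x (ancs par k (par x))

/-- A rooted tree given by a parent map. -/
structure PT (X : Type) where
  par : X → X
  h : X → ℕ
  o : X
  h_zero : ∀ x, h x = 0 → x = o
  h_par : ∀ x k, h x = k + 1 → h (par x) = k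

namespace PT

open Classical

variable {X : Type} (P : PT X)

/-- Ancestors of a vertex. -/
noncomputable def A (x : X) : Finset X := ancs P.par (P.h x) x

theorem A_zero {x : X} (h : P.h x = 0) : P.A x = {x} := by rw [A, h]; rfl

theorem A_succ {x : X} {k : ℕ} (h : P.h x = k + 1) : P.A x = insert x (P.A (P.par x)) := by
  rw [A, A, h, P.h_par x k h]; rfl

theorem ind {p : X → Prop} (h0 : ∀ x, P.h x = 0 → p x)
    (h1 : ∀ x k, P.h x = k + 1 → p (P.par x) → p x) (x : X) : p x := by
  generalize hk : P.h x = k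
  induction k generalizing x with
  | zero => exact h0 x hk
  | succ k ih => exact h1 x k hk (ih _ (P.h_par x k hk))

theorem self_mem (x : X) : x ∈ P.A x := by
  rcases hk : P.h x with _ | k
  · simp [P.A_zero hk]
  · simp [P.A_succ hk]

theorem mem_A (x : X) : ∀ y ∈ P.A x, y = x ∨ P.h y < P.h x := by
  induction x using P.ind with
  | h0 x h => simp [P.A_zero h]
  | h1 x k h ih =>
    intro y hy
    rw [P.A_succ h, Finset.mem_insert] at hy
    have := P.h_par x k h
    rcases hy with hy | hy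
    · exact Or.inl hy
    · rcases ih y hy with rfl | h1 <;> omega

theorem not_mem {x : X} {k : ℕ} (h : P.h x = k + 1) : x ∉ P.A (P.par x) := by
  intro hx
  have := P.h_par x k h
  rcases P.mem_A _ x hx with h1 | h1
  · rw [← h1] at this; omega
  · omega

theorem card_A (x : X) : (P.A x).card = P.h x + 1 := by
  induction x using P.ind with
  | h0 x h => simp [P.A_zero h, h]
  | h1 x k h ih => rw [P.A_succ h, Finset.card_insert_of_notMem (P.not_mem h), ih, P.h_par x k h, h]

theorem A_sub (x : X) : ∀ y ∈ P.A x, P.A y ⊆ P.A x := by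
  induction x using P.ind with
  | h0 x h => intro y hy; rw [P.A_zero h, Finset.mem_singleton] at hy; rw [hy]
  | h1 x k h ih =>
    intro y hy
    rw [P.A_succ h, Finset.mem_insert] at hy
    rcases hy with rfl | hy
    · exact le_rfl
    · rw [P.A_succ h]; exact (ih y hy).trans (Finset.subset_insert _ _)

theorem chain (x : X) : ∀ y ∈ P.A x, ∀ z ∈ P.A x, y ∈ P.A z ∨ z ∈ P.A y := by
  induction x using P.ind with
  | h0 x h =>
    intro y hy z hz
    rw [P.A_zero h, Finset.mem_singleton] at hy hz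
    rw [hy, hz]; exact Or.inl (P.self_mem _)
  | h1 x k h ih =>
    intro y hy z hz
    by_cases h1 : y = x
    · exact Or.inr (h1 ▸ hz)
    by_cases h2 : z = x
    · exact Or.inl (h2 ▸ hy)
    rw [P.A_succ h, Finset.mem_insert] at hy hz
    exact ih y (hy.resolve_left h1) z (hz.resolve_left h2)

theorem o_mem (x : X) : P.o ∈ P.A x := by
  induction x using P.ind with
  | h0 x h => rw [← P.h_zero x h]; exact P.self_mem x
  | h1 x k h ih => rw [P.A_succ h]; exact Finset.mem_insert_of_mem ih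

theorem child (y : X) : ∀ x ∈ P.A y, x ≠ y → ∃ z ∈ P.A y, P.h z = P.h x + 1 ∧ P.par z = x := by
  induction y using P.ind with
  | h0 y h => intro x hx hne; rw [P.A_zero h, Finset.mem_singleton] at hx; exact absurd hx hne
  | h1 y k h ih =>
    intro x hx hne
    by_cases h1 : x = P.par y
    · exact ⟨y, P.self_mem y, by rw [h1, h, P.h_par y k h], h1.symm⟩
    rw [P.A_succ h, Finset.mem_insert] at hx
    obtain ⟨z, hz, h2⟩ := ih x (hx.resolve_left hne) h1
    exact ⟨z, by rw [P.A_succ h]; exact Finset.mem_insert_of_mem hz, h2⟩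

/-- Number of common ancestors. -/
noncomputable def c (x y : X) : ℕ := (P.A x ∩ P.A y).card

theorem c_comm (x y : X) : P.c x y = P.c y x := by rw [c, c, Finset.inter_comm]

theorem c_le (x y : X) : P.c x y ≤ P.h x + 1 := by
  rw [← P.card_A]; exact Finset.card_le_card Finset.inter_subset_left

theorem c_le' (x y : X) : P.c x y ≤ P.h y + 1 := by rw [P.c_comm]; exact P.c_le y x

theorem c_mem {x y : X} (h : x ∈ P.A y) : P.c x y = P.h x + 1 := by
  rw [c, Finset.inter_eq_left.2 (P.A_sub y x h), P.card_A]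

theorem ultra (x y z : X) : P.c x y ≤ P.c x z ∨ P.c z y ≤ P.c x z := by
  by_cases h : P.A x ∩ P.A y ⊆ P.A z
  · exact Or.inl (Finset.card_le_card (Finset.subset_inter Finset.inter_subset_left h))
  · right
    obtain ⟨s, hs, hs'⟩ := Finset.not_subset.1 h
    rw [Finset.mem_inter] at hs
    refine Finset.card_le_card fun t ht => ?_
    rw [Finset.mem_inter] at ht ⊢
    rcases P.chain y s hs.2 t ht.2 with h1 | h1
    · exact absurd (P.A_sub z t ht.1 h1) hs'
    · exact ⟨P.A_sub x s hs.1 h1, ht.1⟩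

theorem c_par {x y : X} {k : ℕ} (h : P.h x = k + 1) :
    P.c x y = P.c (P.par x) y + if x ∈ P.A y then 1 else 0 := by
  rw [c, c, P.A_succ h]
  split_ifs with h1
  · rw [Finset.insert_inter_of_mem h1, Finset.card_insert_of_notMem]
    exact fun h2 => P.not_mem h (Finset.mem_inter.1 h2).1
  · rw [Finset.insert_inter_of_notMem h1, add_zero]

theorem mem_of_c {x y : X} (h : P.c x y = P.h x + 1) : x ∈ P.A y := by
  rw [← P.card_A] at h
  have := Finset.eq_of_subset_of_card_le Finset.inter_subset_left h.ge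
  exact Finset.inter_eq_left.1 this (P.self_mem x)

theorem par_mem {x : X} {k : ℕ} (h : P.h x = k + 1) : P.par x ∈ P.A x := by
  rw [P.A_succ h]; exact Finset.mem_insert_of_mem (P.self_mem _)

/-- The tree metric. -/
noncomputable def met : GeoMet X where
  d x y := P.h x + P.h y + 2 - 2 * P.c x y
  d_self x := by rw [P.c_mem (P.self_mem x)]; omega
  d_comm x y := by rw [P.c_comm x y]; omega
  d_tri x y z := by
    have := P.ultra x y z
    have := P.c_comm y z
    have := P.c_le x y
    have := P.c_le' x y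
    have := P.c_le y z
    have := P.c_le' y z
    omega
  eq_of x y h := by
    have := P.c_le x y
    have := P.c_le' x y
    rcases P.mem_A y x (P.mem_of_c (by omega)) with h1 | h1
    · exact h1
    · omega
  step x y n h := by
    have := P.c_le' x y
    by_cases h1 : x ∈ P.A y
    · have h2 := P.c_mem h1
      obtain ⟨z, hz, h3, h4⟩ := P.child y x h1 (by rintro rfl; omega)
      have := P.c_mem hz
      have := P.c_mem (h4 ▸ P.par_mem h3)
      exact ⟨z, by omega, by omega⟩
    · rcases hk : P.h x with _ | k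
      · exact absurd (P.h_zero x hk ▸ P.o_mem y) h1
      have h2 := P.c_par (y := y) hk
      rw [if_neg h1] at h2
      have := P.h_par x k hk
      have := P.c_mem (P.par_mem hk)
      have := P.c_comm x (P.par x)
      have := P.c_le (P.par x) y
      exact ⟨P.par x, by omega, by omega⟩

theorem d_eq (x y : X) : P.met.d x y + 2 * P.c x y = P.h x + P.h y + 2 := by
  have := P.c_le x y
  have := P.c_le' x y
  show _ - _ + _ = _
  omega

theorem hyp : P.met.Hyp 0 := by
  intro w x y z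
  have := P.d_eq x z
  have := P.d_eq w y
  have := P.d_eq x y
  have := P.d_eq w z
  have := P.d_eq y z
  have := P.d_eq w x
  have := P.ultra x y z
  have := P.ultra x w z
  have := P.ultra w x y
  have := P.ultra w z y
  have := P.c_comm z y
  have := P.c_comm x w
  have := P.c_comm z w
  have := P.c_comm y x
  omega

theorem d_par {x : X} {k : ℕ} (h : P.h x = k + 1) : P.met.d x (P.par x) = 1 := by
  have := P.d_eq x (P.par x)
  have := P.h_par x k h
  have := P.c_mem (P.par_mem h)
  have := P.c_comm x (P.par x)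
  omega

theorem d_one {x y : X} (h : P.met.d x y = 1) :
    (P.h x = P.h y + 1 ∧ P.par x = y) ∨ (P.h y = P.h x + 1 ∧ P.par y = x) := by
  have key : ∀ x y, P.met.d x y = 1 → P.h x < P.h y → P.h y = P.h x + 1 ∧ P.par y = x := by
    intro x y h hlt
    have := P.d_eq x y
    have := P.c_le x y
    obtain ⟨z, hz, h1, h2⟩ := P.child y x (P.mem_of_c (by omega)) (by rintro rfl; omega)
    rcases P.mem_A y z hz with rfl | h3
    · exact ⟨h1, h2⟩
    · omega
  have := P.d_eq x y
  rcases lt_trichotomy (P.h x) (P.h y) with h1 | h1 | h1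
  · exact Or.inr (key x y h h1)
  · omega
  · exact Or.inl (key y x (by rwa [P.met.d_comm]) h1)

end PT

theorem GeoMet.lip {X : Type} (M : GeoMet X) (f : X → X)
    (hf : ∀ x y, M.d x y = 1 → M.d (f x) (f y) ≤ 1) (x y : X) : M.d (f x) (f y) ≤ M.d x y := by
  generalize hn : M.d x y = n
  induction n generalizing x with
  | zero => rw [M.eq_of x y hn, M.d_self]
  | succ n ih =>
    obtain ⟨z, h1, h2⟩ := M.step x y n hn
    have := hf x z h1
    have := ih z h2
    have := M.d_tri (f x) (f z) (f y)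
    omega

theorem exists_cyc {G : Type} [Group G] {c : G} (hc : IsOfFinOrder c) {k : ℕ}
    (h : orderOf c < 2 * 2 ^ k) : ∃ φ : G → Dih (ZMod (2 ^ k)), MulOn (Subgroup.zpowers c) φ ∧
      ∀ t ∈ Subgroup.zpowers c, (∃ j : ℕ, t ^ 2 ^ j = 1) → φ t = 1 → t = 1 := by
  obtain ⟨j, o, ho, e⟩ := Nat.exists_eq_two_pow_mul_odd hc.orderOf_pos.ne'
  have hjk : j ≤ k := by
    by_contra hlt
    have : 2 ^ (k + 1) ≤ 2 ^ j := Nat.pow_le_pow_right (by omega) (by omega)
    have : 2 ^ j * 1 ≤ 2 ^ j * o := Nat.mul_le_mul_left _ ho.pos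
    omega
  obtain ⟨i, rfl⟩ := Nat.exists_eq_add_of_le hjk
  have key : ∀ a : ℤ, ((a * 2 ^ i : ℤ) : ZMod (2 ^ (j + i))) = 0 ↔ (2 : ℤ) ^ j ∣ a := by
    intro a
    rw [ZMod.intCast_zmod_eq_zero_iff_dvd]
    push_cast
    rw [pow_add]
    exact mul_dvd_mul_iff_right (by positivity)
  have hm : MulOn (⊤ : Subgroup (Multiplicative ℤ))
      fun a => (⟨false, ((a.toAdd * 2 ^ i : ℤ) : ZMod (2 ^ (j + i)))⟩ : Dih (ZMod (2 ^ (j + i)))) := by
    intro a _ b _
    ext <;> simp [add_mul]
  obtain ⟨φ, h1, h2⟩ := hm.descend (zpowersHom G c) fun a _ ha => by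
    ext
    · rfl
    · refine (key _).2 (Dvd.dvd.trans ?_ ((orderOf_dvd_iff_zpow_eq_one (x := c)).2 ha))
      rw [e]; push_cast; exact Dvd.intro _ rfl
  refine ⟨φ, h1.mono ?_, ?_⟩
  · rintro _ ⟨a, rfl⟩; exact ⟨Multiplicative.ofAdd a, trivial, rfl⟩
  · rintro _ ⟨a, rfl⟩ ⟨l, hl⟩ h3
    have h4 := congrArg Dih.a ((h2 (Multiplicative.ofAdd a) trivial).symm.trans h3)
    obtain ⟨b, rfl⟩ := (key a).1 h4
    have h5 : (c ^ ((2 : ℤ) ^ j * b)) ^ o = 1 := by
      rw [← zpow_natCast, ← zpow_mul, ← orderOf_dvd_iff_zpow_eq_one, e]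
      exact ⟨b, by push_cast; ring⟩
    have := pow_gcd_eq_one.2 ⟨hl, h5⟩
    rwa [(Nat.Coprime.pow_left l (Nat.coprime_two_left.2 ho)).gcd_eq_one, pow_one] at this

/-- An action on a tree without inversions, with trivial edge and cyclic vertex stabilizers. -/
structure TreeAct {G X : Type} [Group G] [MulAction G X] (S : GSp G X) (n : ℕ) : Prop where
  ne : Nonempty X
  hyp : S.Hyp 0
  lf : ∀ x, {y | S.d x y ≤ 1}.Finite
  par : ∀ (g : G) x, 2 ∣ S.d x (g • x)
  cyc : ∀ x : X, ∃ c : G, IsOfFinOrder c ∧ orderOf c ≤ n ∧ ∀ g : G, g • x = x → g ∈ Subgroup.zpowers c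
  edge : ∀ (g : G) x y, S.d x y = 1 → g • x = x → g • y = y → g = 1

namespace TreeAct

variable {G X : Type} [Group G] [MulAction G X] {S : GSp G X} {n : ℕ} (hT : TreeAct S n)
include hT

theorem uniq {g : G} (hg : g ≠ 1) {x y : X} (hx : g • x = x) (hy : g • y = y) : x = y := by
  by_contra hne
  obtain ⟨z, h1, h2⟩ := S.geo x y 1 (S.d_pos hne)
  refine hg (hT.edge g x z h1 hx (S.eq_of _ _ ?_))
  have a1 := S.iso g x z
  have a2 := S.iso g z y
  rw [hx] at a1
  rw [hy] at a2
  have := S.thin hT.hyp x y (g • z) z 0 0 (by omega) (by omega) (by omega) (by omega)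
  omega

theorem stab (x : X) : {g : G | g • x = x}.Finite := by
  obtain ⟨c, h1, -, h2⟩ := hT.cyc x
  exact (finite_zpowers.2 h1).subset h2

theorem fin_of_fix {g : G} {x : X} (h : g • x = x) : IsOfFinOrder g :=
  finOrder_of_mem (H := MulAction.stabilizer G x) (hT.stab x) h

theorem fix (H : Subgroup G) (hH : (H : Set G).Finite) : ∃ x : X, ∀ h ∈ H, h • x = x := by
  classical
  obtain ⟨y0⟩ := hT.ne
  have hex : ∃ n, ∃ y, ∀ h ∈ H, S.d y (h • y0) ≤ n := by
    obtain ⟨n, hn⟩ := (hH.image fun h => S.d y0 (h • y0)).bddAbove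
    exact ⟨n, y0, fun h hh => hn ⟨h, hh, rfl⟩⟩
  obtain ⟨c, hc⟩ := Nat.find_spec hex
  refine ⟨c, fun g hg => ?_⟩
  by_contra hne
  have h1 := S.d_pos (Ne.symm hne)
  have h2 := hT.par g c
  obtain ⟨m, m1, m2⟩ := S.geo c (g • c) 1 h1
  have key : ∀ h ∈ H, S.d m (h • y0) < Nat.find hex := by
    intro h hh
    have a1 := hc h hh
    have a2 := hc _ (H.mul_mem (H.inv_mem hg) hh)
    rw [mul_smul, S.iso_inv'] at a2
    have := hT.hyp (g • c) m (h • y0) c
    have := S.d_comm m c
    have := S.d_comm (g • c) c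
    have := S.d_comm (g • c) m
    have := S.d_comm (h • y0) c
    have := hT.hyp m c (h • y0) (g • c)
    have := S.d_comm (h • y0) (g • c)
    omega
  have h0 := key 1 H.one_mem
  exact Nat.find_min hex (show Nat.find hex - 1 < _ by omega)
    ⟨m, fun h hh => by have := key h hh; omega⟩

theorem tau_ge {g : G} (hg : ¬ IsOfFinOrder g) : 1 ≤ S.tau g := by
  obtain ⟨x⟩ := hT.ne
  obtain ⟨k, hk⟩ := hT.par g x
  have h1 : S.d x (g • x) + 1 ≤ S.d x (g ^ 2 • x) := by
    by_contra hlt
    obtain ⟨y, y1, y2⟩ := S.geo x (g • x) k (by omega)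
    refine hg (hT.fin_of_fix (x := y) (S.eq_of _ _ ?_))
    have a1 := S.iso g x y
    have a2 := S.iso g y (g • x)
    have a3 := S.iso g x (g • x)
    rw [sq, mul_smul] at hlt
    generalize g • g • x = u at hlt a2 a3
    generalize g • x = w at *
    generalize g • y = z at *
    have := hT.hyp w y x u
    have := hT.hyp w y u z
    have := S.d_comm w y
    have := S.d_comm w x
    have := S.d_comm y x
    have := S.d_comm u z
    have := S.d_comm y z
    omega
  have h2 := S.disp_two hT.hyp g x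
  have : (S.d x (g • x) : ℝ) + 1 ≤ S.d x (g ^ 2 • x) := by exact_mod_cast h1
  simp at h2
  linarith

theorem fix_conj {g t : G} {x : X} (ht : t ≠ 1) (h1 : t • x = x) (h2 : (g * t * g⁻¹) • x = x) :
    g • x = x := by
  refine hT.uniq (g := g * t * g⁻¹) (by simpa using ht) ?_ h2
  rw [mul_smul, mul_smul, inv_smul_smul, h1]

theorem conj_eq {g t : G} {x : X} (h1 : t • x = x) (h2 : (g * t * g⁻¹) • x = x) :
    g * t * g⁻¹ = t := by
  by_cases ht : t = 1
  · simp [ht]
  obtain ⟨c, -, -, hc⟩ := hT.cyc x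
  obtain ⟨a, rfl⟩ := hc g (hT.fix_conj ht h1 h2)
  obtain ⟨b, rfl⟩ := hc t h1
  group

theorem law {g : G} {c : ℕ → G} (hc : Chain6 g c) {F : Subgroup G} (hF : (F : Set G).Finite)
    (h : ∀ j, 1 ≤ j → j ≤ 5 → c j ∈ F) : Law c := by
  obtain ⟨x, hx⟩ := hT.fix F hF
  have key : ∀ j, 1 ≤ j → j ≤ 4 → c (j + 1) = c j := fun j h1 h4 => by
    rw [← hc j (by omega)]
    exact hT.conj_eq (hx _ (h j h1 (by omega))) (by
      rw [hc j (by omega)]; exact hx _ (h _ (by omega) (by omega)))
  rw [Law, key 4 (by omega) (by omega), key 3 (by omega) (by omega), key 2 (by omega) (by omega),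
    key 1 (by omega) (by omega)]
  group

theorem alg {k : ℕ} (hn : n < 2 * 2 ^ k) : Alg G n (2 ^ k) where
  sa g c H hc hH h := hT.law hc hH fun j _ _ => h j (by omega)
  sc g c F hc hF h _ _ _ _ := hT.law hc hF h
  two g t hg ht h := by
    refine ⟨0, ?_⟩
    by_contra h1
    obtain ⟨x, hx⟩ := hT.fix _ (finite_zpowers.2 ht)
    have h2 := hx t (Subgroup.mem_zpowers t)
    exact hg (hT.fin_of_fix (hT.fix_conj (by simpa using h1) h2 (by rwa [h])))
  sepa F g hF h2 hg f hf h1 := by
    obtain ⟨x, hx⟩ := hT.fix F hF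
    obtain ⟨c, c1, c2, hc⟩ := hT.cyc x
    obtain ⟨φ, a1, a2⟩ := exists_cyc c1 (c2.trans_lt hn)
    have hle : F ≤ Subgroup.zpowers c := fun t ht => hc t (hx t ht)
    have hg' := hc g (hT.fix_conj h1 (hx f hf) (hx _ (hg f hf)))
    exact ⟨φ, φ g, a1.mono hle, fun h => h1 (a2 f (hle hf) (h2 f hf) h),
      fun t ht => a1.conj hg' (hle ht)⟩
  sepb F a b hF h2 ha hb _ _ f hf h1 := by
    obtain ⟨x, hx⟩ := hT.fix F hF
    obtain ⟨c, c1, c2, hc⟩ := hT.cyc x
    obtain ⟨φ, a1, a2⟩ := exists_cyc c1 (c2.trans_lt hn)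
    have hle : F ≤ Subgroup.zpowers c := fun t ht => hc t (hx t ht)
    have ha' := hc a (hT.fix_conj h1 (hx f hf) (hx _ (ha f hf)))
    have hb' := hc b (hT.fix_conj h1 (hx f hf) (hx _ (hb f hf)))
    exact ⟨φ, φ a, φ b, a1.mono hle, fun h => h1 (a2 f (hle hf) (h2 f hf) h),
      fun t ht => a1.conj ha' (hle ht), fun t ht => a1.conj hb' (hle ht), a1 _ ha' _ ha',
      a1 _ hb' _ hb'⟩
  fin H hH := by
    obtain ⟨x, hx⟩ := hT.fix H hH
    obtain ⟨c, c1, c2, hc⟩ := hT.cyc x
    exact Or.inr ⟨c, c1, c2, fun t ht => hc t (hx t ht)⟩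

theorem lev {k : ℕ} (hn : n < 2 * 2 ^ k)
    (hk : 100000000000000000000000000000000000000000000000 ≤ 2 ^ k) : Lev S n (2 ^ k) := by
  have hP : Pre S 200 2000000000000000000000000000 n (2 ^ k) :=
    { ne := hT.ne
      hyp := hT.hyp.mono (by norm_num)
      lf := hT.lf
      stab := hT.stab
      inj := fun g hg => by have := hT.tau_ge hg; push_cast; linarith
      fix := hT.fix
      alg := hT.alg hn
      even := dvd_pow_self 2 (by rintro rfl; omega)
      npos := by positivity }
  refine ⟨hP, fun x y hxy => hP.overlap hT.hyp (A := 1) (fun x y h => ?_) 6000000 x y (by omega),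
    ⟨k, rfl⟩, hk⟩
  refine Or.inl ⟨⊥, by simp, fun g hg => ?_⟩
  by_contra h1
  have := hT.uniq h1 (S.eq_of _ _ (Nat.le_zero.1 hg.1)).symm (S.eq_of _ _ (Nat.le_zero.1 hg.2)).symm
  rw [this, S.d_self] at h
  omega

end TreeAct

end Pool.Agent.Lib.OCn
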